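import Mathlib

/-!
# A Brascamp-Lieb type inequality
-/

set_option autoImplicit false

namespace Pool.Agent.NH16

open Finset

lemma min_prod_le {k : ℕ} (y : Fin (k + 1) → ℝ) (hy : ∀ i, 0 ≤ y i) (m : ℝ) (hm0 : 0 ≤ m)
    (hm : ∀ i, m ≤ y i) : m * ∏ i, y i ≤ ∏ i, y i ^ (((k : ℝ) + 2) / (k + 1)) := by
  have hk : (0 : ℝ) < (k : ℝ) + 1 := by positivity
  have h1 : m ≤ ∏ i, y i ^ (1 / ((k : ℝ) + 1)) := by
    calc m = (m ^ (1 / ((k : ℝ) + 1))) ^ (k + 1) := by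
          rw [← Real.rpow_natCast, ← Real.rpow_mul hm0]
          push_cast
          rw [one_div, inv_mul_cancel₀ hk.ne', Real.rpow_one]
      _ = ∏ _i : Fin (k + 1), m ^ (1 / ((k : ℝ) + 1)) := by
          rw [prod_const, card_univ, Fintype.card_fin]
      _ ≤ ∏ i, y i ^ (1 / ((k : ℝ) + 1)) :=
          prod_le_prod (fun i _ => Real.rpow_nonneg hm0 _)
            (fun i _ => Real.rpow_le_rpow hm0 (hm i) (by positivity))
  calc m * ∏ i, y i ≤ (∏ i, y i ^ (1 / ((k : ℝ) + 1))) * ∏ i, y i :=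
        mul_le_mul_of_nonneg_right h1 (prod_nonneg fun i _ => hy i)
    _ = ∏ i, y i ^ (((k : ℝ) + 2) / (k + 1)) := by
        rw [← prod_mul_distrib]
        apply prod_congr rfl
        intro i _
        rcases (hy i).eq_or_lt with h0 | h0
        · rw [← h0, mul_zero, Real.zero_rpow (by positivity)]
        · nth_rewrite 2 [← Real.rpow_one (y i)]
          rw [← Real.rpow_add h0]
          congr 1
          field_simp
          ring

/-- pointwise inequality -/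
lemma pointwise {k : ℕ} (y0 : ℝ) (h0 : 0 ≤ y0) (y : Fin (k + 1) → ℝ) (hy : ∀ i, 0 ≤ y i) :
    y0 * ∏ i, y i ≤ ∏ i, y i ^ (((k : ℝ) + 2) / (k + 1)) +
      ∑ i : Fin (k + 1), y0 ^ (((k : ℝ) + 2) / (k + 1)) *
        ∏ j : Fin k, y (i.succAbove j) ^ (((k : ℝ) + 2) / (k + 1)) := by
  have hnn : ∀ i : Fin (k + 1), 0 ≤ y0 ^ (((k : ℝ) + 2) / (k + 1)) *
        ∏ j : Fin k, y (i.succAbove j) ^ (((k : ℝ) + 2) / (k + 1)) := by
    intro i
    apply mul_nonneg (Real.rpow_nonneg h0 _)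
    exact prod_nonneg fun j _ => Real.rpow_nonneg (hy _) _
  obtain ⟨i0, -, hi0⟩ := exists_min_image (univ : Finset (Fin (k + 1))) y ⟨0, mem_univ _⟩
  by_cases h : y0 ≤ y i0
  · have h1 := min_prod_le y hy y0 h0 (fun i => h.trans (hi0 i (mem_univ _)))
    have h2 : 0 ≤ ∑ i : Fin (k + 1), y0 ^ (((k : ℝ) + 2) / (k + 1)) *
        ∏ j : Fin k, y (i.succAbove j) ^ (((k : ℝ) + 2) / (k + 1)) := sum_nonneg fun i _ => hnn i
    linarith
  · push Not at h
    set z : Fin (k + 1) → ℝ := Fin.cons y0 (fun j : Fin k => y (i0.succAbove j)) with hz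
    have hz0 : ∀ i, 0 ≤ z i := by
      intro i
      refine Fin.cases ?_ (fun j => ?_) i
      · rw [hz, Fin.cons_zero]; exact h0
      · rw [hz, Fin.cons_succ]; exact hy _
    have h1 := min_prod_le z hz0 (y i0) (hy i0) (by
      intro i
      refine Fin.cases ?_ (fun j => ?_) i
      · rw [hz, Fin.cons_zero]; exact h.le
      · rw [hz, Fin.cons_succ]; exact hi0 _ (mem_univ _))
    rw [Fin.prod_univ_succ, Fin.prod_univ_succ] at h1
    simp only [hz, Fin.cons_zero, Fin.cons_succ] at h1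
    rw [Fin.prod_univ_succAbove y i0]
    have h2 : 0 ≤ ∏ i, y i ^ (((k : ℝ) + 2) / (k + 1)) := prod_nonneg fun j _ => Real.rpow_nonneg (hy _) _
    have h3 := single_le_sum (f := fun i : Fin (k + 1) => y0 ^ (((k : ℝ) + 2) / (k + 1)) *
        ∏ j : Fin k, y (i.succAbove j) ^ (((k : ℝ) + 2) / (k + 1))) (fun i _ => hnn i) (mem_univ i0)
    calc y0 * (y i0 * ∏ j : Fin k, y (i0.succAbove j)) = y i0 * (y0 * ∏ j : Fin k, y (i0.succAbove j)) := by ring
      _ ≤ _ := h1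
      _ ≤ _ := by linarith

/-- sum over `Fin (k+1) → A` by first summing over coordinate `i` -/
lemma sum_insertNth {A : Type*} [Fintype A] [DecidableEq A] {k : ℕ} (i : Fin (k + 1)) (G : (Fin (k + 1) → A) → ℝ) :
    ∑ ξ : Fin (k + 1) → A, G ξ = ∑ f : Fin k → A, ∑ a : A, G (Fin.insertNth (α := fun _ => A) i a f) := by
  rw [← (Fin.insertNthEquiv (fun _ => A) i).sum_comp, Fintype.sum_prod_type, sum_comm]
  rfl

theorem young {A : Type*} [Fintype A] [DecidableEq A] [AddCommGroup A] (k : ℕ) (F0 : A → ℝ) (hF0 : ∀ a, 0 ≤ F0 a)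
    (F : Fin (k + 1) → A → ℝ) (hF : ∀ i a, 0 ≤ F i a) (D : ℝ) (hD : 0 ≤ D)
    (h0 : ∑ a, F0 a ^ (((k : ℝ) + 2) / (k + 1)) ≤ D) (h : ∀ i, ∑ a, F i a ^ (((k : ℝ) + 2) / (k + 1)) ≤ D) :
    ∑ ξ : Fin (k + 1) → A, F0 (-∑ i, ξ i) * ∏ i, F i (ξ i) ≤ (k + 2) * D ^ (k + 1) := by
  set p : ℝ := ((k : ℝ) + 2) / (k + 1) with hp
  have hR : ∀ a, 0 ≤ F0 a ^ p := fun a => Real.rpow_nonneg (hF0 a) _
  have hRi : ∀ i a, 0 ≤ F i a ^ p := fun i a => Real.rpow_nonneg (hF i a) _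
  have h1 : ∀ ξ : Fin (k + 1) → A, F0 (-∑ i, ξ i) * ∏ i, F i (ξ i) ≤ ∏ i, F i (ξ i) ^ p +
      ∑ i : Fin (k + 1), F0 (-∑ i, ξ i) ^ p * ∏ j : Fin k, F (i.succAbove j) (ξ (i.succAbove j)) ^ p :=
    fun ξ => pointwise _ (hF0 _) (fun i => F i (ξ i)) (fun i => hF i _)
  have h2 : ∑ ξ : Fin (k + 1) → A, ∏ i, F i (ξ i) ^ p ≤ D ^ (k + 1) := by
    have e := (Finset.prod_univ_sum (fun _ : Fin (k + 1) => (univ : Finset A)) (fun i a => F i a ^ p))
    rw [Fintype.piFinset_univ] at e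
    rw [← e]
    calc ∏ i : Fin (k + 1), ∑ a, F i a ^ p ≤ ∏ _i : Fin (k + 1), D :=
          prod_le_prod (fun i _ => sum_nonneg fun a _ => hRi i a) (fun i _ => h i)
      _ = D ^ (k + 1) := by rw [prod_const, card_univ, Fintype.card_fin]
  have h3 : ∀ i : Fin (k + 1), ∑ ξ : Fin (k + 1) → A,
      F0 (-∑ i, ξ i) ^ p * ∏ j : Fin k, F (i.succAbove j) (ξ (i.succAbove j)) ^ p ≤ D ^ (k + 1) := by
    intro i
    rw [sum_insertNth i]
    have e1 : ∀ f : Fin k → A, ∑ a : A, F0 (-∑ j, Fin.insertNth (α := fun _ => A) i a f j) ^ p *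
        ∏ j : Fin k, F (i.succAbove j) (Fin.insertNth (α := fun _ => A) i a f (i.succAbove j)) ^ p =
        (∑ a, F0 a ^ p) * ∏ j : Fin k, F (i.succAbove j) (f j) ^ p := by
      intro f
      simp only [Fin.insertNth_apply_succAbove]
      rw [← sum_mul]
      congr 1
      have e2 : ∀ a : A, -∑ j, Fin.insertNth (α := fun _ => A) i a f j = (Equiv.neg A).trans (Equiv.addRight (-∑ j, f j)) a := by
        intro a
        rw [Fin.sum_insertNth]
        simp only [Equiv.trans_apply, Equiv.neg_apply, Equiv.coe_addRight]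
        rw [neg_add]
      simp only [e2]
      exact Equiv.sum_comp ((Equiv.neg A).trans (Equiv.addRight (-∑ j, f j))) (fun a => F0 a ^ p)
    simp only [e1]
    rw [← mul_sum]
    have e := (Finset.prod_univ_sum (fun _ : Fin k => (univ : Finset A)) (fun j a => F (i.succAbove j) a ^ p))
    rw [Fintype.piFinset_univ] at e
    rw [← e]
    calc (∑ a, F0 a ^ p) * ∏ j : Fin k, ∑ a, F (i.succAbove j) a ^ p ≤ D * ∏ _j : Fin k, D := by
          exact mul_le_mul h0 (prod_le_prod (fun j _ => sum_nonneg fun a _ => hRi (i.succAbove j) a)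
            (fun j _ => h (i.succAbove j)))
            (prod_nonneg fun j _ => sum_nonneg fun a _ => hRi (i.succAbove j) a) hD
      _ = D ^ (k + 1) := by rw [prod_const, card_univ, Fintype.card_fin, pow_succ']
  calc ∑ ξ : Fin (k + 1) → A, F0 (-∑ i, ξ i) * ∏ i, F i (ξ i)
      ≤ ∑ ξ : Fin (k + 1) → A, (∏ i, F i (ξ i) ^ p +
      ∑ i : Fin (k + 1), F0 (-∑ i, ξ i) ^ p * ∏ j : Fin k, F (i.succAbove j) (ξ (i.succAbove j)) ^ p) :=
        sum_le_sum fun ξ _ => h1 ξ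
    _ = ∑ ξ : Fin (k + 1) → A, ∏ i, F i (ξ i) ^ p + ∑ i : Fin (k + 1), ∑ ξ : Fin (k + 1) → A,
      F0 (-∑ i, ξ i) ^ p * ∏ j : Fin k, F (i.succAbove j) (ξ (i.succAbove j)) ^ p := by
        rw [sum_add_distrib]
        congr 1
        rw [sum_comm]
    _ ≤ D ^ (k + 1) + ∑ _i : Fin (k + 1), D ^ (k + 1) := add_le_add h2 (sum_le_sum fun i _ => h3 i)
    _ = (k + 2) * D ^ (k + 1) := by
        rw [sum_const, card_univ, Fintype.card_fin, nsmul_eq_mul]
        push_cast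
        ring

end Pool.Agent.NH16
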