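import Pool.Agent.NH16.Corr
import Pool.Agent.NH16.Young

/-!
# Fourier transforms of windows on `ZMod M`
-/

set_option autoImplicit false

namespace Pool.Agent.NH16

open Finset
open Pool.Agent.Helper602.MK
open Pool.Agent.Helper602.MK.N_J5b

variable {M : ℕ} [NeZero M]

/-- the additive character of `ZMod M` -/
noncomputable def ch (a : ZMod M) : ℂ := ZMod.stdAddChar a

lemma ch_add (a b : ZMod M) : ch (a + b) = ch a * ch b := by
  unfold ch
  rw [AddChar.map_add_eq_mul]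

lemma ch_zero : ch (0 : ZMod M) = 1 := by
  unfold ch
  rw [AddChar.map_zero_eq_one]

lemma ch_int (j : ℤ) : ch (j : ZMod M) = ee ((j : ℝ) / M) := by
  unfold ch ee
  rw [ZMod.stdAddChar_coe]
  congr 1
  push_cast
  ring

lemma ch_mul_int (ξ : ZMod M) (n : ℤ) : ch (ξ * (n : ZMod M)) = ee ((ξ.val : ℝ) * n / M) := by
  have h : ξ * (n : ZMod M) = (((ξ.val : ℤ) * n : ℤ) : ZMod M) := by
    push_cast
    rw [ZMod.natCast_zmod_val]
  rw [h, ch_int]
  congr 1
  push_cast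
  ring

lemma norm_ch (a : ZMod M) : ‖ch a‖ = 1 := by
  have h : a = ((a.val : ℤ) : ZMod M) := by
    push_cast
    rw [ZMod.natCast_zmod_val]
  rw [h, ch_int, norm_ee]

lemma conj_ch (a : ZMod M) : (starRingEnd ℂ) (ch a) = ch (-a) := by
  have h : a = ((a.val : ℤ) : ZMod M) := by
    push_cast
    rw [ZMod.natCast_zmod_val]
  rw [h, ch_int, ee_conj, ← Int.cast_neg, ch_int]
  congr 1
  push_cast
  ring

lemma ch_sum {ι : Type*} (s : Finset ι) (f : ι → ZMod M) : ch (∑ i ∈ s, f i) = ∏ i ∈ s, ch (f i) := by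
  classical
  induction s using Finset.induction_on with
  | empty => simp [ch_zero]
  | insert a s ha ih => rw [sum_insert ha, prod_insert ha, ch_add, ih]

lemma orth_z (b : ZMod M) : ∑ x : ZMod M, ch (x * b) = if b = 0 then (M : ℂ) else 0 := by
  unfold ch
  rw [AddChar.sum_mulShift b (ZMod.isPrimitive_stdAddChar M), ZMod.card]
  split_ifs <;> simp

/-- Fourier transform of the window `(x, x + L]` of `g` on `ZMod M` -/
noncomputable def zft (M : ℕ) [NeZero M] (g : ℤ → ℂ) (x : ℤ) (L : ℕ) (ξ : ZMod M) : ℂ :=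
  ∑ n ∈ Ioc x (x + L), g n * ch (ξ * (n : ZMod M))

lemma zft_eq (g : ℤ → ℂ) (x : ℤ) (L : ℕ) (ξ : ZMod M) : zft M g x L ξ = wft g x L M ξ.val := by
  unfold zft wft
  apply sum_congr rfl
  intro n _
  rw [ch_mul_int]

/-- inversion -/
lemma zft_inv (g : ℤ → ℂ) (x : ℤ) (m : ℤ) (hm : m ∈ Ioc x (x + M)) :
    g m = (1 / M) * ∑ ξ : ZMod M, zft M g x M ξ * ch (-ξ * (m : ZMod M)) := by
  have hM : (M : ℂ) ≠ 0 := by exact_mod_cast NeZero.ne M
  have h1 : ∑ ξ : ZMod M, zft M g x M ξ * ch (-ξ * (m : ZMod M)) = M * g m := by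
    unfold zft
    simp only [sum_mul]
    rw [sum_comm]
    have e1 : ∀ n ∈ Ioc x (x + (M : ℤ)), ∑ ξ : ZMod M, g n * ch (ξ * (n : ZMod M)) * ch (-ξ * (m : ZMod M)) =
        if n = m then M * g m else 0 := by
      intro n hn
      have e2 : ∀ ξ : ZMod M, g n * ch (ξ * (n : ZMod M)) * ch (-ξ * (m : ZMod M)) =
          g n * ch (ξ * ((n - m : ℤ) : ZMod M)) := by
        intro ξ
        rw [mul_assoc, ← ch_add]
        congr 2
        push_cast
        ring
      simp only [e2]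
      rw [← mul_sum, orth_z]
      rw [mem_Ioc] at hn hm
      by_cases h : n = m
      · rw [h]
        simp [mul_comm]
      · rw [if_neg h, if_neg, mul_zero]
        intro h3
        rw [ZMod.intCast_zmod_eq_zero_iff_dvd] at h3
        have h4 : n - m = 0 := by
          apply Int.eq_zero_of_abs_lt_dvd h3
          rw [abs_lt]
          omega
        omega
    rw [sum_congr rfl e1, sum_ite_eq', if_pos hm]
  rw [h1]
  field_simp

/-- restriction on `ZMod M` -/
theorem zft_restr : ∃ C : ℝ, 1 ≤ C ∧ ∀ (M : ℕ) [NeZero M] (L : ℕ), 2 ^ 100 ≤ L → L ≤ M → M ≤ 100 * L →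
    ∀ X : Finset (ZMod M), X.Nonempty → ∀ (x : ℤ) (u : ℤ → ℂ) (B : ℝ),
    (∀ n : ℤ, u n ≠ 0 → n.toNat.Prime ∧ L < n.toNat ^ 50) → (∀ n, ‖u n‖ ≤ B) →
    ∑ ξ ∈ X, ‖zft M u x L ξ‖ ^ 2 ≤ C * (B * ((L : ℝ) / Real.log L)) ^ 2 * Real.log (2 * X.card) := by
  obtain ⟨C, hC, h⟩ := wft_restr
  refine ⟨C, hC, ?_⟩
  intro M _ L hL hLM hM X hX x u B hu hB
  have h1 := h L hL M hLM hM (X.image ZMod.val) (by
    intro a ha
    rw [mem_image] at ha
    obtain ⟨ξ, -, rfl⟩ := ha
    exact mem_range.2 (ZMod.val_lt ξ)) (hX.image _) x u B hu hB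
  rw [sum_image (fun a _ b _ hab => ZMod.val_injective M hab),
    card_image_of_injective _ (ZMod.val_injective M)] at h1
  simp only [zft_eq]
  exact h1

/-- restriction estimate with exponent `t > 2` -/
theorem zft_lt (t : ℝ) (ht : 2 < t) (ε : ℝ) (hε : 0 < ε) : ∃ D : ℝ, 1 ≤ D ∧
    ∀ (M : ℕ) [NeZero M] (N L : ℕ), 2 ≤ N → 2 ^ 100 ≤ L → ε * Real.log N ≤ Real.log L → L ≤ M → M ≤ 100 * L →
    ∀ (x : ℤ) (u : ℤ → ℂ), (∀ n : ℤ, u n ≠ 0 → n.toNat.Prime ∧ L < n.toNat ^ 50) →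
    (∀ n, ‖u n‖ ≤ Real.log N) → ∑ ξ : ZMod M, (‖zft M u x L ξ‖ / M) ^ t ≤ D := by
  obtain ⟨C, hC, hr⟩ := zft_restr
  obtain ⟨Z, hZ0, hZ⟩ := rearr (t / 2) (by linarith)
  refine ⟨max 1 (Z * (C * (1 / ε) ^ 2) ^ (t / 2)), le_max_left _ _, ?_⟩
  intro M _ N L hN hL hlog hLM hM x u hu hB
  have hL1 : 1 < L := lt_of_lt_of_le (by norm_num) hL
  have hL0 : (0 : ℝ) < L := by
    have : 0 < L := by omega
    exact_mod_cast this
  have hM0 : (0 : ℝ) < M := by
    have : 0 < M := by omega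
    exact_mod_cast this
  have hlogL : 0 < Real.log L := Real.log_pos (by exact_mod_cast hL1)
  have hlogN : 0 < Real.log N := Real.log_pos (by exact_mod_cast (by omega : 1 < N))
  have h1 := hZ (fun ξ : ZMod M => (‖zft M u x L ξ‖ / M) ^ 2) (fun ξ => by positivity) (C * (1 / ε) ^ 2)
    (by positivity) univ (by
      intro X _ hX
      have h2 := hr M L hL hLM hM X hX x u (Real.log N) hu hB
      have hr1 : (1 : ℝ) ≤ X.card := by exact_mod_cast Finset.card_pos.2 hX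
      have hlg : 0 ≤ Real.log (2 * X.card) := Real.log_nonneg (by linarith)
      have h4 : Real.log N * (L / Real.log L) ≤ (1 / ε) * M := by
        rw [← mul_div_assoc, div_le_iff₀ hlogL]
        calc Real.log N * L = (1 / ε) * L * (ε * Real.log N) := by field_simp
          _ ≤ (1 / ε) * L * Real.log L := mul_le_mul_of_nonneg_left hlog (by positivity)
          _ ≤ (1 / ε) * M * Real.log L := by
            have : (L : ℝ) ≤ M := by exact_mod_cast hLM
            gcongr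
      calc ∑ ξ ∈ X, (‖zft M u x L ξ‖ / M) ^ 2 = (∑ ξ ∈ X, ‖zft M u x L ξ‖ ^ 2) / M ^ 2 := by
            rw [sum_div]
            apply sum_congr rfl
            intro ξ _
            rw [div_pow]
        _ ≤ (C * (Real.log N * (L / Real.log L)) ^ 2 * Real.log (2 * X.card)) / M ^ 2 := by
            gcongr
        _ ≤ (C * ((1 / ε) * M) ^ 2 * Real.log (2 * X.card)) / M ^ 2 := by
            gcongr
        _ = _ := by field_simp)
  refine le_trans (le_of_eq ?_) (h1.trans (le_max_right _ _))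
  apply sum_congr rfl
  intro ξ _
  rw [← Real.rpow_natCast, ← Real.rpow_mul (by positivity)]
  congr 1
  push_cast
  ring

/-- Parseval for exponential polynomials in several variables -/
theorem mpoly_parseval {d : ℕ} (Y : Finset (Fin d → ZMod M)) (c : (Fin d → ZMod M) → ℂ) :
    ∑ h : Fin d → ZMod M, ‖∑ ξ ∈ Y, c ξ * ch (-∑ i, ξ i * h i)‖ ^ 2 = (M : ℝ) ^ d * ∑ ξ ∈ Y, ‖c ξ‖ ^ 2 := by
  classical
  have e0 : ∀ h : Fin d → ZMod M, ((‖∑ ξ ∈ Y, c ξ * ch (-∑ i, ξ i * h i)‖ ^ 2 : ℝ) : ℂ) =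
      ∑ ξ ∈ Y, ∑ η ∈ Y, c ξ * (starRingEnd ℂ) (c η) * ∏ i, ch (h i * (η i - ξ i)) := by
    intro h
    rw [normsq_sum]
    apply sum_congr rfl
    intro ξ _
    apply sum_congr rfl
    intro η _
    rw [map_mul, conj_ch, ← ch_sum]
    have : ∑ i, h i * (η i - ξ i) = -∑ i, ξ i * h i + - -∑ i, η i * h i := by
      rw [neg_neg, ← sum_neg_distrib, ← sum_add_distrib]
      apply sum_congr rfl
      intro i _
      ring
    rw [this, ch_add]
    ring
  have horth : ∀ ξ η : Fin d → ZMod M, ∑ h : Fin d → ZMod M, ∏ i, ch (h i * (η i - ξ i)) =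
      if ξ = η then (M : ℂ) ^ d else 0 := by
    intro ξ η
    have e := (Finset.prod_univ_sum (fun _ : Fin d => (univ : Finset (ZMod M))) (fun i a => ch (a * (η i - ξ i))))
    rw [Fintype.piFinset_univ] at e
    rw [← e]
    by_cases h : ξ = η
    · subst h
      rw [if_pos rfl]
      have : ∀ i, ∑ a : ZMod M, ch (a * (ξ i - ξ i)) = (M : ℂ) := by
        intro i
        rw [orth_z, sub_self, if_pos rfl]
      simp only [this]
      rw [prod_const, card_univ, Fintype.card_fin]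
    · rw [if_neg h]
      obtain ⟨i, hi⟩ := Function.ne_iff.1 h
      apply prod_eq_zero (mem_univ i)
      rw [orth_z, if_neg]
      rw [sub_eq_zero]
      exact fun h' => hi h'.symm
  have e1 : ((∑ h : Fin d → ZMod M, ‖∑ ξ ∈ Y, c ξ * ch (-∑ i, ξ i * h i)‖ ^ 2 : ℝ) : ℂ) =
      (((M : ℝ) ^ d * ∑ ξ ∈ Y, ‖c ξ‖ ^ 2 : ℝ) : ℂ) := by
    rw [Complex.ofReal_sum]
    simp only [e0]
    rw [sum_comm]
    rw [Complex.ofReal_mul, Complex.ofReal_sum, mul_sum]
    apply sum_congr rfl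
    intro ξ hξ
    rw [sum_comm]
    have e2 : ∀ η ∈ Y, ∑ h : Fin d → ZMod M, c ξ * (starRingEnd ℂ) (c η) * ∏ i, ch (h i * (η i - ξ i)) =
        if ξ = η then (M : ℂ) ^ d * ((‖c ξ‖ : ℂ) ^ 2) else 0 := by
      intro η hη
      rw [← mul_sum, horth]
      by_cases h3 : ξ = η
      · subst h3
        rw [if_pos rfl, if_pos rfl, Complex.mul_conj, Complex.normSq_eq_norm_sq]
        push_cast
        ring
      · rw [if_neg h3, if_neg h3, mul_zero]
    rw [sum_congr rfl e2, sum_ite_eq, if_pos hξ]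
    push_cast
    rfl
  exact_mod_cast e1

end Pool.Agent.NH16
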