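import Pool.Agent.NH16.Theta

/-!
# Counting tuples in boxes, II
-/

set_option autoImplicit false

namespace Pool.Agent.NH16

open Finset
open Pool.Agent.H386R2.HL
open Pool.Agent.H387R2.Uni (WW WW_pos WW_factors totient_WW)

theorem box_close {R : ℕ} (N L m : ℕ) (a : Fin R → ℕ) (ha : ∀ i, 1 ≤ a i ∧ a i ≤ L) (P : ℤ → Prop) (Q : ℕ → Prop)
    [DecidablePred P] [DecidablePred Q]
    (hPQ : ∀ n : ℕ, m < n → n ≤ N → (P (n : ℤ) ↔ Q n)) :
    |(((Ico (-(L : ℤ)) N).filter (fun x => ∀ i, P (x + a i))).card : ℝ) -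
      ((Icc 1 N).filter (fun n => ∀ i, Q (n + a i))).card| ≤ m + 2 * L + 1 := by
  have h1 := card_close N m L (fun n : ℕ => ∀ i, P ((n : ℤ) + a i)) (fun n => ∀ i, Q (n + a i)) (by
    intro n hn hnL
    constructor
    · intro h i
      have := ha i
      have e : (n : ℤ) + (a i : ℤ) = ((n + a i : ℕ) : ℤ) := by push_cast; rfl
      have h2 := h i
      rw [e] at h2
      exact (hPQ (n + a i) (by omega) (by omega)).1 h2
    · intro h i
      have := ha i
      have e : (n : ℤ) + (a i : ℤ) = ((n + a i : ℕ) : ℤ) := by push_cast; rfl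
      rw [e]
      exact (hPQ (n + a i) (by omega) (by omega)).2 (h i))
  set S1 := (Ico (-(L : ℤ)) N).filter (fun x => ∀ i, P (x + a i)) with hS1
  set S1' := (Icc 1 N).filter (fun n : ℕ => ∀ i, P ((n : ℤ) + a i)) with hS1'
  have h2 : S1.card ≤ S1'.card + (L + 1) := by
    have hsub : S1 ⊆ S1'.image (fun n : ℕ => (n : ℤ)) ∪ Icc (-(L : ℤ)) 0 := by
      intro x hx
      rw [hS1, mem_filter, mem_Ico] at hx
      rw [mem_union, mem_image, mem_Icc]
      by_cases h0 : x ≤ 0
      · right; omega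
      · left
        refine ⟨x.toNat, ?_, by omega⟩
        rw [hS1', mem_filter, mem_Icc]
        refine ⟨by omega, ?_⟩
        intro i
        have e : ((x.toNat : ℕ) : ℤ) = x := by omega
        rw [e]
        exact hx.2 i
    refine (card_le_card hsub).trans ((card_union_le _ _).trans ?_)
    have h3 : (Icc (-(L : ℤ)) 0).card = L + 1 := by
      rw [Int.card_Icc]
      omega
    rw [h3]
    have := card_image_le (s := S1') (f := fun n : ℕ => (n : ℤ))
    omega
  have h3 : S1'.card ≤ S1.card + 1 := by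
    have hsub : S1'.image (fun n : ℕ => (n : ℤ)) ⊆ S1 ∪ {(N : ℤ)} := by
      intro x hx
      rw [mem_image] at hx
      obtain ⟨n, hn, rfl⟩ := hx
      rw [hS1', mem_filter, mem_Icc] at hn
      rw [mem_union, mem_singleton, hS1, mem_filter, mem_Ico]
      by_cases h0 : n = N
      · right; exact_mod_cast h0
      · left
        exact ⟨by omega, hn.2⟩
    have h4 : (S1'.image (fun n : ℕ => (n : ℤ))).card = S1'.card := by
      apply card_image_of_injective
      intro a b hab
      simp only at hab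
      exact_mod_cast hab
    rw [← h4]
    refine (card_le_card hsub).trans ((card_union_le _ _).trans ?_)
    rw [card_singleton]
  have h2' : (S1.card : ℝ) ≤ S1'.card + (L + 1) := by exact_mod_cast h2
  have h3' : (S1'.card : ℝ) ≤ S1.card + 1 := by exact_mod_cast h3
  have hL : (0 : ℝ) ≤ L := Nat.cast_nonneg L
  rw [abs_le] at h1 ⊢
  constructor <;> linarith [h1.1, h1.2]

lemma Uz_ite (N : ℕ) (z : ℤ) : Uz N z =
    if (1 ≤ z ∧ z.toNat ≤ N ∧ N.sqrt < z.toNat ∧ z.toNat.Prime) then Real.log N else 0 := by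
  unfold Uz uu
  by_cases h : 1 ≤ z
  · rw [if_pos h]
    by_cases h2 : z.toNat ≤ N ∧ N.sqrt < z.toNat ∧ z.toNat.Prime
    · rw [if_pos h2, if_pos ⟨h, h2⟩]
    · rw [if_neg h2, if_neg (fun h3 => h2 h3.2)]
  · rw [if_neg h, if_neg (fun h3 => h h3.1)]

lemma Vz_ite (N W : ℕ) (z : ℤ) : Vz N W z =
    if (1 ≤ z ∧ z.toNat ≤ N ∧ Nat.Coprime W z.toNat) then (W : ℝ) / Nat.totient W else 0 := by
  unfold Vz VV
  by_cases h : 1 ≤ z
  · rw [if_pos h]
    by_cases h2 : z.toNat ≤ N ∧ Nat.Coprime W z.toNat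
    · rw [if_pos h2, if_pos ⟨h, h2⟩]
    · rw [if_neg h2, if_neg (fun h3 => h2 h3.2)]
  · rw [if_neg h, if_neg (fun h3 => h h3.1)]

lemma prod_ite_all {R : ℕ} (P : Fin R → Prop) [DecidablePred P] (c : ℝ) :
    ∏ i, (if P i then c else 0) = c ^ R * (if ∀ i, P i then 1 else 0) := by
  by_cases h : ∀ i, P i
  · rw [if_pos h, mul_one]
    have e2 : ∀ i, (if P i then c else 0) = c := fun i => if_pos (h i)
    simp only [e2]
    rw [prod_const, card_univ, Fintype.card_fin]
  · rw [if_neg h, mul_zero]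
    push Not at h
    obtain ⟨i, hi⟩ := h
    apply prod_eq_zero (mem_univ i)
    rw [if_neg hi]

lemma sum_ite_card' {ι : Type*} (S : Finset ι) (P : ι → Prop) [DecidablePred P] (c : ℝ) :
    ∑ n ∈ S, c * (if P n then (1 : ℝ) else 0) = c * (S.filter P).card := by
  rw [← mul_sum, sum_ite, sum_const_zero, add_zero, sum_const, nsmul_eq_mul, mul_one]

/-- the error made in passing to windows -/
noncomputable def err2 (N R L : ℕ) : ℝ := Real.log N ^ R / N * (N.sqrt + 2 * L + 1)

theorem Cr_Fr {R : ℕ} (N L : ℕ) (a : Fin R → ℕ) (ha : ∀ i, 1 ≤ a i ∧ a i ≤ L) :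
    |Cr N L a - Fr N a| ≤ err2 N R L := by
  classical
  have h := box_close N L N.sqrt a ha (fun z => 1 ≤ z ∧ z.toNat ≤ N ∧ N.sqrt < z.toNat ∧ z.toNat.Prime)
    (fun n => n.Prime) (by
      intro n hn hnN
      constructor
      · rintro ⟨_, _, _, h⟩
        simpa using h
      · intro h
        refine ⟨by omega, by simpa using hnN, by simpa using hn, by simpa using h⟩)
  unfold Cr Fr err2
  simp only [Uz_ite, prod_ite_all]
  rw [sum_ite_card']
  have hl := Real.log_natCast_nonneg N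
  rw [mul_div_right_comm, ← mul_sub, abs_mul, abs_of_nonneg (by positivity)]
  exact mul_le_mul_of_nonneg_left h (by positivity)

/-- correlations of the model over the windows -/
noncomputable def Cv {R : ℕ} (N W L : ℕ) (a : Fin R → ℕ) : ℝ :=
  (∑ x ∈ Ico (-(L : ℤ)) N, ∏ i, Vz N W (x + a i)) / N

theorem Cv_sy {R : ℕ} (N y L : ℕ) (hN : 0 < N) (a : Fin R → ℕ) (ha : ∀ i, 1 ≤ a i ∧ a i ≤ L) :
    |Cv N (WW y) L a - sy a y| ≤ ((WW y : ℝ) / Nat.totient (WW y)) ^ R * ((2 * L + 1 + WW y) / N) := by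
  classical
  have hN0 : (0 : ℝ) < N := by exact_mod_cast hN
  have h := box_close N L 0 a ha (fun z => 1 ≤ z ∧ z.toNat ≤ N ∧ Nat.Coprime (WW y) z.toNat)
    (fun n => Nat.Coprime (WW y) n) (by
      intro n hn hnN
      constructor
      · rintro ⟨_, _, h⟩
        simpa using h
      · intro h
        refine ⟨by omega, by simpa using hnN, by simpa using h⟩)
  have h2 := cnt_rough (WW y) (WW_pos y) a N
  unfold Cv
  simp only [Vz_ite, prod_ite_all]
  rw [sum_ite_card', sy_fun]
  set c := ((WW y : ℝ) / Nat.totient (WW y)) ^ R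
  have hc : 0 ≤ c := by positivity
  set A : ℝ := (((Ico (-(L : ℤ)) N).filter (fun x => ∀ i, 1 ≤ x + (a i : ℤ) ∧ (x + (a i : ℤ)).toNat ≤ N ∧
    Nat.Coprime (WW y) (x + (a i : ℤ)).toNat)).card : ℝ) with hA
  set B : ℝ := (((Icc 1 N).filter (fun n => ∀ i, Nat.Coprime (WW y) (n + a i))).card : ℝ)
  have e1 : c * A / N - c * ((gg (WW y) a : ℝ) / WW y) = c * ((A - N * ((gg (WW y) a : ℝ) / WW y)) / N) := by
    field_simp
  rw [e1, abs_mul, abs_of_nonneg hc, abs_div, abs_of_pos hN0]
  apply mul_le_mul_of_nonneg_left _ hc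
  apply div_le_div_of_nonneg_right _ hN0.le
  have h3 : |A - B| ≤ 0 + 2 * L + 1 := by
    have := h
    push_cast at this
    exact this
  rw [abs_le] at h2 h3 ⊢
  constructor <;> linarith [h2.1, h2.2, h3.1, h3.2]

end Pool.Agent.NH16
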