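import Pool.Agent.NH16.Ft

/-!
# Autocorrelations and averages of windows
-/

set_option autoImplicit false

namespace Pool.Agent.NH16

open Finset
open Pool.Agent.Helper602.MK
open Pool.Agent.Helper602.MK.N_J5b

/-- sum over windows of a function of the position in the window -/
theorem win_sum (φ : ℤ → ℂ) (N L : ℕ) (hφ : ∀ n, ¬ (1 ≤ n ∧ n ≤ (N : ℤ)) → φ n = 0) (h : ℕ) (hh : h ≤ L) :
    ∑ x ∈ Ico (-(L : ℤ)) N, ∑ n ∈ (Ioc x (x + L)).filter (fun n => n + h ≤ x + L), φ n =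
      ((L : ℂ) - h) * ∑ n ∈ Icc (1 : ℤ) N, φ n := by
  have e1 : ∀ x : ℤ, ∑ n ∈ (Ioc x (x + L)).filter (fun n => n + h ≤ x + L), φ n =
      ∑ j ∈ range (L - h), φ (x + 1 + j) := by
    intro x
    symm
    apply sum_bij (fun (j : ℕ) _ => x + 1 + (j : ℤ))
    · intro j hj
      rw [mem_range] at hj
      rw [mem_filter, mem_Ioc]
      omega
    · intro i _ j _ hij
      omega
    · intro n hn
      rw [mem_filter, mem_Ioc] at hn
      refine ⟨(n - x - 1).toNat, ?_, ?_⟩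
      · rw [mem_range]; omega
      · omega
    · intro j _
      rfl
  simp only [e1]
  rw [sum_comm]
  have e2 : ∀ j ∈ range (L - h), ∑ x ∈ Ico (-(L : ℤ)) N, φ (x + 1 + j) = ∑ n ∈ Icc (1 : ℤ) N, φ n := by
    intro j hj
    rw [mem_range] at hj
    have e3 : ∑ x ∈ Ico (-(L : ℤ)) N, φ (x + 1 + j) = ∑ n ∈ Ico (-(L : ℤ) + (1 + j)) (N + (1 + j)), φ n := by
      apply sum_bij (fun (x : ℤ) _ => x + 1 + (j : ℤ))
      · intro x hx
        rw [mem_Ico] at hx ⊢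
        omega
      · intro a _ b _ hab
        omega
      · intro n hn
        rw [mem_Ico] at hn
        refine ⟨n - 1 - j, ?_, ?_⟩
        · rw [mem_Ico]; omega
        · omega
      · intro x _
        rfl
    rw [e3]
    symm
    apply sum_subset
    · intro n hn
      rw [mem_Icc] at hn
      rw [mem_Ico]
      omega
    · intro n _ hn
      apply hφ
      rwa [mem_Icc] at hn
  rw [sum_congr rfl e2, sum_const, card_range, nsmul_eq_mul]
  congr 1
  rw [Nat.cast_sub hh]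

/-- the average over the windows of the square of the Fourier coefficient -/
noncomputable def acoef (g : ℤ → ℂ) (N L M : ℕ) (ξ : ℕ) : ℝ :=
  (∑ x ∈ Ico (-(L : ℤ)) N, ‖wft g x L M ξ‖ ^ 2) / (N * L * M)

theorem acoef_nonneg (g : ℤ → ℂ) (N L M : ℕ) (ξ : ℕ) : 0 ≤ acoef g N L M ξ := by
  unfold acoef
  positivity

theorem corr_id (g : ℤ → ℂ) (N L M : ℕ) (hN : 0 < N) (hL : 0 < L) (hM : 0 < M)
    (hg : ∀ n, ¬ (1 ≤ n ∧ n ≤ (N : ℤ)) → g n = 0) (h : ℕ) (hh : h ≤ L) (hLM : L + h ≤ M) :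
    ∑ ξ ∈ range M, (acoef g N L M ξ : ℂ) * ee ((ξ : ℝ) * h / M) =
      (1 - (h : ℂ) / L) * ((∑ n ∈ Icc (1 : ℤ) N, g n * (starRingEnd ℂ) (g (n + h))) / N) := by
  have hN' : (N : ℂ) ≠ 0 := by exact_mod_cast hN.ne'
  have hL' : (L : ℂ) ≠ 0 := by exact_mod_cast hL.ne'
  have hM' : (M : ℂ) ≠ 0 := by exact_mod_cast hM.ne'
  have e1 : ∀ ξ : ℕ, (acoef g N L M ξ : ℂ) * ee ((ξ : ℝ) * h / M) =
      (∑ x ∈ Ico (-(L : ℤ)) N, ((‖wft g x L M ξ‖ ^ 2 : ℝ) : ℂ) * ee ((ξ : ℝ) * h / M)) / (N * L * M) := by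
    intro ξ
    unfold acoef
    rw [← sum_mul]
    push_cast
    ring
  simp only [e1]
  rw [← sum_div, sum_comm]
  have e2 : ∀ x ∈ Ico (-(L : ℤ)) N, ∑ ξ ∈ range M, ((‖wft g x L M ξ‖ ^ 2 : ℝ) : ℂ) * ee ((ξ : ℝ) * h / M) =
      M * ∑ n ∈ (Ioc x (x + L)).filter (fun n => n + h ≤ x + L), g n * (starRingEnd ℂ) (g (n + h)) := by
    intro x _
    exact wft_corr g x L M hM h hLM
  rw [sum_congr rfl e2, ← mul_sum, win_sum (fun n => g n * (starRingEnd ℂ) (g (n + h))) N L _ h hh]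
  · field_simp
  · intro n hn
    rw [hg n hn, zero_mul]

/-- the sum of the coefficients over few frequencies, in terms of bounds in all windows -/
theorem acoef_sum_le (g : ℤ → ℂ) (N L M : ℕ) (hN : 0 < N) (hL : 0 < L) (hLN : L ≤ N) (hM : 0 < M) (X : Finset ℕ)
    (B : ℝ) (hB : ∀ x : ℤ, ∑ ξ ∈ X, ‖wft g x L M ξ‖ ^ 2 ≤ B) :
    ∑ ξ ∈ X, acoef g N L M ξ ≤ 2 * B / (L * M) := by
  unfold acoef
  rw [← sum_div, sum_comm]
  have hB0 : 0 ≤ B := le_trans (sum_nonneg fun _ _ => by positivity) (hB 0)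
  have hN' : (0 : ℝ) < N := by exact_mod_cast hN
  have hL' : (0 : ℝ) < L := by exact_mod_cast hL
  have hM' : (0 : ℝ) < M := by exact_mod_cast hM
  have h1 : ∑ x ∈ Ico (-(L : ℤ)) N, ∑ ξ ∈ X, ‖wft g x L M ξ‖ ^ 2 ≤ (2 * N) * B := by
    calc ∑ x ∈ Ico (-(L : ℤ)) N, ∑ ξ ∈ X, ‖wft g x L M ξ‖ ^ 2 ≤ ∑ x ∈ Ico (-(L : ℤ)) N, B :=
          sum_le_sum fun x _ => hB x
      _ = (N + L : ℝ) * B := by
          rw [sum_const, nsmul_eq_mul, Int.card_Ico]
          congr 1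
          have : (((N : ℤ) - -(L : ℤ)).toNat : ℤ) = N + L := by omega
          exact_mod_cast this
      _ ≤ (2 * N) * B := by
          apply mul_le_mul_of_nonneg_right _ hB0
          have : (L : ℝ) ≤ N := by exact_mod_cast hLN
          linarith
  rw [div_le_div_iff₀ (by positivity) (by positivity)]
  calc (∑ x ∈ Ico (-(L : ℤ)) N, ∑ ξ ∈ X, ‖wft g x L M ξ‖ ^ 2) * (L * M) ≤ (2 * N) * B * (L * M) :=
        mul_le_mul_of_nonneg_right h1 (by positivity)
    _ = 2 * B * (N * L * M) := by ring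

/-- restriction in windows for functions supported on primes -/
theorem wft_restr : ∃ C : ℝ, 1 ≤ C ∧ ∀ L : ℕ, 2 ^ 100 ≤ L → ∀ M : ℕ, L ≤ M → M ≤ 100 * L →
    ∀ X : Finset ℕ, X ⊆ range M → X.Nonempty → ∀ (x : ℤ) (u : ℤ → ℂ) (B : ℝ),
    (∀ n : ℤ, u n ≠ 0 → n.toNat.Prime ∧ L < n.toNat ^ 50) → (∀ n, ‖u n‖ ≤ B) →
    ∑ ξ ∈ X, ‖wft u x L M ξ‖ ^ 2 ≤ C * (B * ((L : ℝ) / Real.log L)) ^ 2 * Real.log (2 * X.card) := by
  classical
  obtain ⟨C, hC, h⟩ := restr'
  refine ⟨C, hC, ?_⟩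
  intro L hL M hLM hM X hX hXne x u B hu hB
  have h1 := h L hL M hLM hM X hX hXne x (((Ioc x (x + L)).filter (fun n => u n ≠ 0)).image Int.toNat)
    (by
      intro p hp
      rw [mem_image] at hp
      obtain ⟨n, hn, rfl⟩ := hp
      rw [mem_filter, mem_Ioc] at hn
      have h2 := (hu n hn.2).1.pos
      omega)
    (by
      intro p hp
      rw [mem_image] at hp
      obtain ⟨n, hn, rfl⟩ := hp
      exact hu n (mem_filter.1 hn).2)
    (fun p => u p) B (fun p _ => hB p)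
  refine le_trans (le_of_eq ?_) h1
  apply sum_congr rfl
  intro ξ _
  congr 2
  rw [sum_image]
  · unfold wft
    rw [← sum_filter_ne_zero]
    have e1 : ∀ n ∈ (Ioc x (x + L)).filter (fun n => u n ≠ 0), u ((n.toNat : ℕ) : ℤ) *
        ee ((ξ : ℝ) * ((n.toNat : ℕ) : ℝ) / M) = u n * ee ((ξ : ℝ) * n / M) := by
      intro n hn
      rw [mem_filter] at hn
      have h2 := (hu n hn.2).1.pos
      have h3 : ((n.toNat : ℕ) : ℤ) = n := by omega
      have h4 : ((n.toNat : ℕ) : ℝ) = (n : ℝ) := by exact_mod_cast h3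
      rw [h3, h4]
    rw [sum_congr rfl e1]
    apply sum_congr _ (fun _ _ => rfl)
    apply filter_congr
    intro n _
    rw [not_iff_not]
    constructor
    · intro h5
      rcases mul_eq_zero.1 h5 with h6 | h6
      · exact h6
      · exfalso
        have := norm_ee ((ξ : ℝ) * n / M)
        rw [h6, norm_zero] at this
        norm_num at this
    · intro h5
      rw [h5, zero_mul]
  · intro a ha b hb hab
    rw [mem_coe, mem_filter] at ha hb
    have h2 := (hu a ha.2).1.pos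
    have h3 := (hu b hb.2).1.pos
    omega

end Pool.Agent.NH16
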