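import Pool.Agent.NH16.Zft

/-!
# The structure theorem for tuples
-/

set_option autoImplicit false

namespace Pool.Agent.NH16

open Finset
open Pool.Agent.Helper602.MK
open Pool.Agent.Helper602.MK.N_J5b

/-- the Fourier coefficients of the count of a tuple -/
noncomputable def cf (M : ℕ) [NeZero M] (N L : ℕ) {k : ℕ} (g0 : ℤ → ℂ) (u : Fin (k + 1) → ℤ → ℂ)
    (ξ : Fin (k + 1) → ZMod M) : ℂ :=
  (∑ x ∈ Ico (-(L : ℤ)) N, zft M g0 x L (-∑ i, ξ i) * ∏ i, ((1 / (M : ℂ)) * zft M (u i) x M (ξ i))) / (N * L)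

theorem cf_rep (M : ℕ) [NeZero M] (N L : ℕ) (hN : 0 < N) (hL : 0 < L) (hM : 2 * L ≤ M) {k : ℕ} (g0 : ℤ → ℂ)
    (hg0 : ∀ n, ¬ (1 ≤ n ∧ n ≤ (N : ℤ)) → g0 n = 0) (u : Fin (k + 1) → ℤ → ℂ) (h : Fin (k + 1) → ℕ)
    (hh : ∀ i, h i ≤ L) :
    (∑ n ∈ Icc (1 : ℤ) N, g0 n * ∏ i, u i (n + h i)) / N =
      ∑ ξ : Fin (k + 1) → ZMod M, cf M N L g0 u ξ * ch (-∑ i, ξ i * ((h i : ℕ) : ZMod M)) := by
  have hN' : (N : ℂ) ≠ 0 := by exact_mod_cast hN.ne'
  have hL' : (L : ℂ) ≠ 0 := by exact_mod_cast hL.ne'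
  have h1 := win_sum (fun n => g0 n * ∏ i, u i (n + h i)) N L (by
    intro n hn
    rw [hg0 n hn, zero_mul]) 0 (by omega)
  have hx : ∀ x ∈ Ico (-(L : ℤ)) N, ∑ n ∈ (Ioc x (x + L)).filter (fun n => n + (0 : ℕ) ≤ x + L),
      g0 n * ∏ i, u i (n + h i) = ∑ ξ : Fin (k + 1) → ZMod M,
        (zft M g0 x L (-∑ i, ξ i) * ∏ i, ((1 / (M : ℂ)) * zft M (u i) x M (ξ i))) *
          ch (-∑ i, ξ i * ((h i : ℕ) : ZMod M)) := by
    intro x _
    have e1 : (Ioc x (x + L)).filter (fun n => n + (0 : ℕ) ≤ x + L) = Ioc x (x + L) := by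
      apply filter_true_of_mem
      intro n hn
      have := (mem_Ioc.1 hn).2
      push_cast
      omega
    rw [e1]
    have e2 : ∀ n ∈ Ioc x (x + L), g0 n * ∏ i, u i (n + h i) = ∑ ξ : Fin (k + 1) → ZMod M,
        (∏ i, ((1 / (M : ℂ)) * zft M (u i) x M (ξ i))) * ch (-∑ i, ξ i * ((h i : ℕ) : ZMod M)) *
          (g0 n * ch ((-∑ i, ξ i) * (n : ZMod M))) := by
      intro n hn
      rw [mem_Ioc] at hn
      have e3 : ∀ i, u i (n + h i) = ∑ ξ : ZMod M, (1 / (M : ℂ)) * zft M (u i) x M ξ *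
          ch (-ξ * ((n + h i : ℤ) : ZMod M)) := by
        intro i
        have := hh i
        rw [zft_inv (M := M) (u i) x (n + h i) (by rw [mem_Ioc]; omega), mul_sum]
        apply sum_congr rfl
        intro ξ _
        ring
      simp only [e3]
      have e := (Finset.prod_univ_sum (fun _ : Fin (k + 1) => (univ : Finset (ZMod M)))
        (fun i ξ => (1 / (M : ℂ)) * zft M (u i) x M ξ * ch (-ξ * ((n + h i : ℤ) : ZMod M))))
      rw [Fintype.piFinset_univ] at e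
      rw [e, mul_sum]
      apply sum_congr rfl
      intro ξ _
      rw [prod_mul_distrib, ← ch_sum]
      have e4 : ∑ i, -ξ i * ((n + h i : ℤ) : ZMod M) = -∑ i, ξ i * ((h i : ℕ) : ZMod M) + (-∑ i, ξ i) * (n : ZMod M) := by
        rw [neg_mul, sum_mul, ← sum_neg_distrib, ← sum_neg_distrib, ← sum_add_distrib]
        apply sum_congr rfl
        intro i _
        push_cast
        ring
      rw [e4, ch_add]
      ring
    rw [sum_congr rfl e2, sum_comm]
    apply sum_congr rfl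
    intro ξ _
    rw [← mul_sum]
    unfold zft
    ring
  rw [sum_congr rfl hx, sum_comm] at h1
  have h2 : ∑ ξ : Fin (k + 1) → ZMod M, cf M N L g0 u ξ * ch (-∑ i, ξ i * ((h i : ℕ) : ZMod M)) =
      (∑ ξ : Fin (k + 1) → ZMod M, ∑ x ∈ Ico (-(L : ℤ)) N,
        (zft M g0 x L (-∑ i, ξ i) * ∏ i, ((1 / (M : ℂ)) * zft M (u i) x M (ξ i))) *
          ch (-∑ i, ξ i * ((h i : ℕ) : ZMod M))) / (N * L) := by
    rw [sum_div]
    apply sum_congr rfl
    intro ξ _
    unfold cf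
    rw [← sum_mul]
    ring
  rw [h2, h1]
  push_cast
  field_simp
  ring

/-- `ℓ^q` bound of the coefficients, `q = (2k+3)/(k+2) < 2` -/
theorem cf_lq (k : ℕ) (ε : ℝ) (hε : 0 < ε) : ∃ D : ℝ, 1 ≤ D ∧
    ∀ (M : ℕ) [NeZero M] (N L : ℕ), M = 2 * L → 2 ≤ N → 2 ^ 100 ≤ L → L ≤ N → ε * Real.log N ≤ Real.log L →
    ∀ (g0 : ℤ → ℂ) (u : Fin (k + 1) → ℤ → ℂ),
    (∀ n : ℤ, g0 n ≠ 0 → n.toNat.Prime ∧ 2 * L < n.toNat ^ 50) → (∀ n, ‖g0 n‖ ≤ Real.log N) →
    (∀ i, ∀ n : ℤ, u i n ≠ 0 → n.toNat.Prime ∧ 2 * L < n.toNat ^ 50) → (∀ i n, ‖u i n‖ ≤ Real.log N) →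
    ∑ ξ : Fin (k + 1) → ZMod M, ‖cf M N L g0 u ξ‖ ^ ((2 * (k : ℝ) + 3) / (k + 2)) ≤ D := by
  set q : ℝ := (2 * (k : ℝ) + 3) / (k + 2) with hq
  set p : ℝ := ((k : ℝ) + 2) / (k + 1) with hp
  have hk : (0 : ℝ) ≤ k := Nat.cast_nonneg k
  have hq1 : 1 ≤ q := by rw [hq, le_div_iff₀ (by positivity)]; linarith
  have hq2 : q < 2 := by rw [hq, div_lt_iff₀ (by positivity)]; linarith
  have hqp : 2 < q * p := by
    rw [hq, hp, div_mul_div_comm, lt_div_iff₀ (by positivity)]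
    nlinarith
  obtain ⟨D, hD, hDb⟩ := zft_lt (q * p) hqp ε hε
  refine ⟨16 * ((k + 2) * D ^ (k + 1)), ?_, ?_⟩
  · have : 1 ≤ D ^ (k + 1) := one_le_pow₀ hD
    nlinarith
  intro M _ N L hM hN hL hLN hlog g0 u hg0 hg0b hu hub
  have hN0 : (0 : ℝ) < N := by
    have : 0 < N := by omega
    exact_mod_cast this
  have hL0 : (0 : ℝ) < L := by
    have : 0 < L := lt_of_lt_of_le (by norm_num) hL
    exact_mod_cast this
  have hMr : (M : ℝ) = 2 * L := by rw [hM]; push_cast; rfl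
  have hM0 : (0 : ℝ) < M := by rw [hMr]; positivity
  set G : ℤ → (Fin (k + 1) → ZMod M) → ℝ := fun x ξ =>
    (‖zft M g0 x L (-∑ i, ξ i)‖ / M) * ∏ i, (‖zft M (u i) x M (ξ i)‖ / M) with hG
  have hG0 : ∀ x ξ, 0 ≤ G x ξ := fun x ξ => by rw [hG]; positivity
  have hGq : ∀ x : ℤ, ∑ ξ, G x ξ ^ q ≤ (k + 2) * D ^ (k + 1) := by
    intro x
    have h1 := young k (fun a : ZMod M => (‖zft M g0 x L a‖ / M) ^ q) (fun a => by positivity)
      (fun i a => (‖zft M (u i) x M a‖ / M) ^ q) (fun i a => by positivity) D (by linarith)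
      (by
        have h2 := hDb M N L hN hL hlog (by omega) (by omega) x g0 (by
          intro n hn
          have := hg0 n hn
          exact ⟨this.1, by omega⟩) hg0b
        refine le_trans (le_of_eq ?_) h2
        apply sum_congr rfl
        intro a _
        rw [← Real.rpow_mul (by positivity)])
      (by
        intro i
        have h2 := hDb M N M hN (by omega) (by
          refine hlog.trans (Real.log_le_log hL0 ?_)
          rw [hMr]; linarith) (by omega) (by omega) x (u i) (by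
          intro n hn
          have := hu i n hn
          exact ⟨this.1, by omega⟩) (hub i)
        refine le_trans (le_of_eq ?_) h2
        apply sum_congr rfl
        intro a _
        rw [← Real.rpow_mul (by positivity)])
    refine le_trans (le_of_eq ?_) h1
    apply sum_congr rfl
    intro ξ _
    rw [hG]
    simp only
    rw [Real.mul_rpow (by positivity) (by positivity), Real.finsetProd_rpow _ _ (fun i _ => by positivity)]
  set S : Finset ℤ := Ico (-(L : ℤ)) N with hS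
  have hScard : (S.card : ℝ) ≤ 2 * N := by
    rw [hS, Int.card_Ico]
    have h1 : ((N : ℤ) - -(L : ℤ)).toNat = N + L := by omega
    rw [h1]
    push_cast
    have : (L : ℝ) ≤ N := by exact_mod_cast hLN
    linarith
  have hcf : ∀ ξ, ‖cf M N L g0 u ξ‖ ≤ (2 / N) * ∑ x ∈ S, G x ξ := by
    intro ξ
    unfold cf
    rw [norm_div, norm_mul, Complex.norm_natCast, Complex.norm_natCast]
    have h1 : ‖∑ x ∈ Ico (-(L : ℤ)) N, zft M g0 x L (-∑ i, ξ i) * ∏ i, ((1 / (M : ℂ)) * zft M (u i) x M (ξ i))‖ ≤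
        M * ∑ x ∈ S, G x ξ := by
      refine (norm_sum_le _ _).trans ?_
      rw [mul_sum]
      apply sum_le_sum
      intro x _
      rw [norm_mul, norm_prod, hG]
      simp only
      apply le_of_eq
      have e1 : ∏ i, ‖(1 / (M : ℂ)) * zft M (u i) x M (ξ i)‖ = ∏ i, (‖zft M (u i) x M (ξ i)‖ / M) := by
        apply prod_congr rfl
        intro i _
        rw [norm_mul, norm_div, norm_one, Complex.norm_natCast]
        ring
      rw [e1]
      field_simp
    rw [div_le_iff₀ (by positivity)]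
    refine h1.trans (le_of_eq ?_)
    rw [hMr]
    field_simp
  have hjen : ∀ ξ, ‖cf M N L g0 u ξ‖ ^ q ≤ (2 / N) ^ q * ((2 * N) ^ (q - 1) * ∑ x ∈ S, G x ξ ^ q) := by
    intro ξ
    have hs0 : 0 ≤ ∑ x ∈ S, G x ξ := sum_nonneg fun x _ => hG0 x ξ
    calc ‖cf M N L g0 u ξ‖ ^ q ≤ ((2 / N) * ∑ x ∈ S, G x ξ) ^ q :=
          Real.rpow_le_rpow (norm_nonneg _) (hcf ξ) (by linarith)
      _ = (2 / N) ^ q * (∑ x ∈ S, G x ξ) ^ q := by
          rw [Real.mul_rpow (by positivity) hs0]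
      _ ≤ _ := by
          apply mul_le_mul_of_nonneg_left _ (by positivity)
          have h2 := Real.rpow_sum_le_const_mul_sum_rpow S (fun x => G x ξ) hq1
          have e1 : ∀ x, |G x ξ| = G x ξ := fun x => abs_of_nonneg (hG0 x ξ)
          simp only [e1] at h2
          refine h2.trans ?_
          apply mul_le_mul_of_nonneg_right _ (sum_nonneg fun x _ => Real.rpow_nonneg (hG0 x ξ) _)
          exact Real.rpow_le_rpow (Nat.cast_nonneg _) hScard (by linarith)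
  calc ∑ ξ, ‖cf M N L g0 u ξ‖ ^ q ≤ ∑ ξ, (2 / N) ^ q * ((2 * N) ^ (q - 1) * ∑ x ∈ S, G x ξ ^ q) :=
        sum_le_sum fun ξ _ => hjen ξ
    _ = (2 / N) ^ q * ((2 * N) ^ (q - 1) * ∑ x ∈ S, ∑ ξ, G x ξ ^ q) := by
        rw [← mul_sum, ← mul_sum, sum_comm]
    _ ≤ (2 / N) ^ q * ((2 * N) ^ (q - 1) * ∑ _x ∈ S, ((k + 2) * D ^ (k + 1))) := by
        gcongr with x _
        exact hGq x
    _ = (2 / N) ^ q * ((2 * N) ^ (q - 1) * (S.card * ((k + 2) * D ^ (k + 1)))) := by
        rw [sum_const, nsmul_eq_mul]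
    _ ≤ (2 / N) ^ q * ((2 * N) ^ (q - 1) * (2 * N * ((k + 2) * D ^ (k + 1)))) := by
        gcongr
    _ = 4 ^ q * ((k + 2) * D ^ (k + 1)) := by
        have e1 : (2 * (N : ℝ)) ^ (q - 1) * (2 * N) = (2 * (N : ℝ)) ^ q := by
          nth_rewrite 2 [← Real.rpow_one (2 * (N : ℝ))]
          rw [← Real.rpow_add (by positivity)]
          congr 1
          ring
        have e2 : (2 / (N : ℝ)) ^ q * (2 * (N : ℝ)) ^ q = 4 ^ q := by
          rw [← Real.mul_rpow (by positivity) (by positivity)]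
          congr 1
          field_simp
          norm_num
        calc (2 / (N : ℝ)) ^ q * ((2 * N) ^ (q - 1) * (2 * N * ((k + 2) * D ^ (k + 1)))) =
            (2 / (N : ℝ)) ^ q * ((2 * (N : ℝ)) ^ (q - 1) * (2 * N)) * ((k + 2) * D ^ (k + 1)) := by ring
          _ = _ := by rw [e1, e2]
    _ ≤ 16 * ((k + 2) * D ^ (k + 1)) := by
        apply mul_le_mul_of_nonneg_right _ (by positivity)
        calc (4 : ℝ) ^ q ≤ 4 ^ (2 : ℝ) := Real.rpow_le_rpow_of_exponent_le (by norm_num) hq2.le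
          _ = 16 := by norm_num

/-- few points as values of a function on `Fin K` -/
theorem to_fin' {ι β : Type*} (Y : Finset ι) (K : ℕ) (hK : Y.card ≤ K) (a : ι → ℂ) (b : ι → β) (b0 : β) (B : ℝ)
    (hB : 0 ≤ B) (ha : ∀ i ∈ Y, ‖a i‖ ≤ B) :
    ∃ (c : Fin K → ℂ) (α : Fin K → β), (∀ j, ‖c j‖ ≤ B) ∧ ∀ F : β → ℂ,
      ∑ j, c j * F (α j) = ∑ i ∈ Y, a i * F (b i) := by
  classical
  have hcard : Fintype.card Y ≤ Fintype.card (Fin K) := by simpa using hK
  obtain ⟨e⟩ := Function.Embedding.nonempty_of_card_le hcard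
  refine ⟨Function.extend e (fun i : Y => a i) 0, Function.extend e (fun i : Y => b i) (fun _ => b0), ?_, ?_⟩
  · intro j
    by_cases hj : ∃ i, e i = j
    · obtain ⟨i, rfl⟩ := hj
      rw [e.injective.extend_apply]
      exact ha i i.2
    · rw [Function.extend_apply' _ _ _ hj]
      simpa using hB
  · intro F
    have h1 : ∑ j, Function.extend e (fun i : Y => a i) 0 j * F (Function.extend e (fun i : Y => b i) (fun _ => b0) j) =
        ∑ j ∈ univ.map e, Function.extend e (fun i : Y => a i) 0 j *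
          F (Function.extend e (fun i : Y => b i) (fun _ => b0) j) := by
      symm
      apply sum_subset (subset_univ _)
      intro j _ hj
      have : ¬ ∃ i, e i = j := by
        intro h
        apply hj
        rw [mem_map]
        obtain ⟨i, hi⟩ := h
        exact ⟨i, mem_univ _, hi⟩
      rw [Function.extend_apply' _ _ _ this]
      simp
    rw [h1, sum_map]
    simp only [e.injective.extend_apply]
    exact sum_coe_sort Y (fun i => a i * F (b i))

/-- weighted primes larger than `√N` -/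
noncomputable def pf (N : ℕ) (f : ℕ → ℂ) (n : ℤ) : ℂ :=
  if n.toNat.Prime ∧ N.sqrt < n.toNat then (Real.log N : ℂ) * f n.toNat else 0

lemma pf_supp (N L : ℕ) (hL : L ≤ N) (f : ℕ → ℂ) (n : ℤ) (h : pf N f n ≠ 0) :
    n.toNat.Prime ∧ 2 * L < n.toNat ^ 50 := by
  unfold pf at h
  have hn2 : n.toNat.Prime ∧ N.sqrt < n.toNat := by
    by_contra hcon
    rw [if_neg hcon] at h
    exact h rfl
  refine ⟨hn2.1, ?_⟩
  have h4 : N < n.toNat ^ 2 := by
    have := Nat.lt_succ_sqrt N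
    have h5 : N.sqrt + 1 ≤ n.toNat := hn2.2
    calc N < (N.sqrt + 1) * (N.sqrt + 1) := this
      _ ≤ n.toNat * n.toNat := Nat.mul_le_mul h5 h5
      _ = n.toNat ^ 2 := by ring
  have h2 := hn2.1.two_le
  have h6 : 2 * n.toNat ^ 2 ≤ n.toNat ^ 50 := by
    calc 2 * n.toNat ^ 2 ≤ n.toNat * n.toNat ^ 2 := Nat.mul_le_mul_right _ h2
      _ = n.toNat ^ 3 := by ring
      _ ≤ n.toNat ^ 50 := Nat.pow_le_pow_right (by omega) (by norm_num)
  omega

lemma pf_le (N : ℕ) (f : ℕ → ℂ) (hf : ∀ n, ‖f n‖ ≤ 1) (n : ℤ) : ‖pf N f n‖ ≤ Real.log N := by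
  unfold pf
  have h0 := Real.log_natCast_nonneg N
  split_ifs
  · rw [norm_mul, Complex.norm_real, Real.norm_eq_abs, abs_of_nonneg h0]
    calc Real.log N * ‖f n.toNat‖ ≤ Real.log N * 1 := mul_le_mul_of_nonneg_left (hf _) h0
      _ = _ := mul_one _
  · rw [norm_zero]; exact h0

lemma sum_int_nat' (N : ℕ) (f : ℤ → ℂ) : ∑ n ∈ Icc (1 : ℤ) N, f n = ∑ n ∈ Icc (1 : ℕ) N, f (n : ℤ) := by
  symm
  apply sum_bij (fun (n : ℕ) _ => (n : ℤ))
  · intro n hn
    rw [mem_Icc] at hn ⊢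
    omega
  · intro a _ b _ hab
    exact_mod_cast hab
  · intro n hn
    rw [mem_Icc] at hn
    exact ⟨n.toNat, by rw [mem_Icc]; omega, by omega⟩
  · intro n _
    rfl

/-- the sum over the prime tuples -/
noncomputable def primeSum {k : ℕ} (N : ℕ) (f₀ : ℕ → ℂ) (f : Fin k → ℕ → ℂ) (h : Fin k → ℕ) : ℂ :=
  ∑ n ∈ (Icc 1 N).filter (fun n => n.Prime ∧ ∀ i, (n + h i).Prime), f₀ n * ∏ i, f i (n + h i)

lemma sqrt_small (k : ℕ) (δ : ℝ) (hδ : 0 < δ) : ∀ᶠ N : ℕ in Filter.atTop,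
    Real.log N ^ k / N * N.sqrt ≤ δ := by
  have h1 := ((isLittleO_log_rpow_rpow_atTop (k : ℝ) (by norm_num : (0 : ℝ) < 1 / 2)).tendsto_div_nhds_zero).comp
      (tendsto_natCast_atTop_atTop (R := ℝ))
  filter_upwards [h1.eventually_lt_const hδ, Filter.eventually_gt_atTop 0] with N hN hN0
  have hN' : (0 : ℝ) < N := by exact_mod_cast hN0
  refine le_trans ?_ hN.le
  simp only [Function.comp_apply]
  rw [Real.rpow_natCast]
  have hs : ((N.sqrt : ℕ) : ℝ) ≤ (N : ℝ) ^ (1 / 2 : ℝ) := by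
    rw [← Real.sqrt_eq_rpow]
    apply Real.le_sqrt_of_sq_le
    have := Nat.sqrt_le' N
    exact_mod_cast this
  have h2 : (N : ℝ) ^ (1 / 2 : ℝ) * (N : ℝ) ^ (1 / 2 : ℝ) = N := by
    rw [← Real.rpow_add hN']
    norm_num
  have h3 : 0 < (N : ℝ) ^ (1 / 2 : ℝ) := Real.rpow_pos_of_pos hN' _
  have hl : 0 ≤ Real.log N := Real.log_natCast_nonneg N
  calc Real.log N ^ k / N * N.sqrt ≤ Real.log N ^ k / N * (N : ℝ) ^ (1 / 2 : ℝ) := by gcongr
    _ = Real.log N ^ k / (N : ℝ) ^ (1 / 2 : ℝ) := by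
        rw [div_mul_eq_mul_div, div_eq_div_iff hN'.ne' h3.ne', mul_assoc, h2]

theorem tuple_struct (k : ℕ) (ε η : ℝ) (hε : 0 < ε) (hη : 0 < η) : ∃ K : ℕ, ∀ᶠ N : ℕ in Filter.atTop,
    ∀ H : ℕ, (N : ℝ) ^ ε ≤ H → H ≤ N → ∀ (f₀ : ℕ → ℂ) (f : Fin (k + 1) → ℕ → ℂ), (∀ n, ‖f₀ n‖ ≤ 1) →
      (∀ i n, ‖f i n‖ ≤ 1) → ∃ (c : Fin K → ℂ) (α : Fin K → Fin (k + 1) → ℝ), (∀ j, ‖c j‖ ≤ K) ∧
      (((Fintype.piFinset (fun _ : Fin (k + 1) => Icc 1 H)).filter (fun h =>
        η < ‖(Real.log N : ℂ) ^ (k + 2) / N * primeSum N f₀ f h -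
          ∑ j, c j * Complex.exp (2 * Real.pi * Complex.I * ((∑ i, α j i * h i : ℝ) : ℂ))‖)).card : ℝ) ≤ η * (H : ℝ) ^ (k + 1) := by
  classical
  obtain ⟨D, hD, hcf⟩ := cf_lq k ε hε
  set q : ℝ := (2 * (k : ℝ) + 3) / (k + 2) with hq
  have hk : (0 : ℝ) ≤ k := Nat.cast_nonneg k
  have hq1 : 1 ≤ q := by rw [hq, le_div_iff₀ (by positivity)]; linarith
  have hq2 : q < 2 := by rw [hq, div_lt_iff₀ (by positivity)]; linarith
  set τ : ℝ := (η ^ 3 / (2 ^ (k + 3) * D)) ^ (1 / (2 - q)) with hτ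
  have hD0 : 0 < D := by linarith
  have hτ0 : 0 < τ := Real.rpow_pos_of_pos (by positivity) _
  have hτq : τ ^ (2 - q) = η ^ 3 / (2 ^ (k + 3) * D) := by
    rw [hτ, ← Real.rpow_mul (by positivity), one_div, inv_mul_cancel₀ (by linarith), Real.rpow_one]
  obtain ⟨K, hK⟩ := exists_nat_ge (max (D / τ ^ q) D)
  refine ⟨K, ?_⟩
  have e1 : ∀ᶠ N : ℕ in Filter.atTop, (2 : ℝ) ^ 100 ≤ (N : ℝ) ^ ε :=
    ((tendsto_rpow_atTop hε).comp (tendsto_natCast_atTop_atTop (R := ℝ))).eventually_ge_atTop _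
  filter_upwards [e1, Filter.eventually_ge_atTop 2, sqrt_small (k + 2) (η / 2) (by positivity)] with
    N hN1 hN hsq H hH1 hHN f₀ f hf₀ hf
  have hN0 : (0 : ℝ) < N := by
    have : 0 < N := by omega
    exact_mod_cast this
  have hHbig : 2 ^ 100 ≤ H := by
    have : (2 : ℝ) ^ 100 ≤ H := hN1.trans hH1
    exact_mod_cast this
  have hH0 : 0 < H := lt_of_lt_of_le (by norm_num) hHbig
  have hH0r : (0 : ℝ) < H := by exact_mod_cast hH0
  have hlogL : ε * Real.log N ≤ Real.log H := by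
    rw [← Real.log_rpow hN0]
    exact Real.log_le_log (Real.rpow_pos_of_pos hN0 _) hH1
  set M : ℕ := 2 * H with hM
  have : NeZero M := ⟨by omega⟩
  set g0 : ℤ → ℂ := fun n => if n ≤ N then pf N f₀ n else 0 with hg0
  set u : Fin (k + 1) → ℤ → ℂ := fun i => pf N (f i) with hu
  have hsum := hcf M N H hM hN hHbig hHN hlogL g0 u (by
      intro n hn
      rw [hg0] at hn
      simp only at hn
      split_ifs at hn with h1
      · exact pf_supp N H hHN f₀ n hn
      · exact absurd rfl hn) (by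
      intro n
      rw [hg0]
      simp only
      split_ifs
      · exact pf_le N f₀ hf₀ n
      · rw [norm_zero]; exact Real.log_natCast_nonneg N)
    (fun i n hn => pf_supp N H hHN (f i) n hn) (fun i n => pf_le N (f i) (hf i) n)
  set a : (Fin (k + 1) → ZMod M) → ℂ := cf M N H g0 u with ha
  set Y := univ.filter (fun ξ => τ < ‖a ξ‖) with hY
  set Y' := univ.filter (fun ξ => ¬ τ < ‖a ξ‖) with hY'
  have hYcard : Y.card ≤ K := by
    have h1 := heavy_card (fun ξ => ‖a ξ‖) (fun ξ => norm_nonneg _) q (by linarith) univ D τ hτ0 hsum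
    have h2 : ((Y.card : ℕ) : ℝ) ≤ K := h1.trans ((le_max_left _ _).trans hK)
    exact_mod_cast h2
  have haD : ∀ ξ, ‖a ξ‖ ≤ D := by
    intro ξ
    have h1 : ‖a ξ‖ ^ q ≤ D := (single_le_sum (f := fun ξ => ‖a ξ‖ ^ q)
      (fun ξ _ => Real.rpow_nonneg (norm_nonneg _) _) (mem_univ ξ)).trans hsum
    by_cases h2 : ‖a ξ‖ ≤ 1
    · linarith
    · push Not at h2
      calc ‖a ξ‖ = ‖a ξ‖ ^ (1 : ℝ) := (Real.rpow_one _).symm
        _ ≤ ‖a ξ‖ ^ q := Real.rpow_le_rpow_of_exponent_le h2.le hq1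
        _ ≤ D := h1
  have hlight : ∑ ξ ∈ Y', ‖a ξ‖ ^ 2 ≤ η ^ 3 / 2 ^ (k + 3) := by
    have h1 := light_sum (fun ξ => ‖a ξ‖) (fun ξ => norm_nonneg _) q hq2 univ D τ hτ0 hsum
    refine h1.trans (le_of_eq ?_)
    rw [hτq]
    field_simp
  obtain ⟨c, α, hc, hcα⟩ := to_fin' Y K hYcard a (fun ξ => (fun i => -((ξ i).val : ℝ) / M : Fin (k + 1) → ℝ))
    (fun _ => 0) D hD0.le (fun ξ _ => haD ξ)
  refine ⟨c, α, fun j => (hc j).trans ((le_max_right _ _).trans hK), ?_⟩
  set Gl : (Fin (k + 1) → ZMod M) → ℂ := fun h => ∑ ξ ∈ Y', a ξ * ch (-∑ i, ξ i * h i) with hGl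
  have hP : ∑ h : Fin (k + 1) → ZMod M, ‖Gl h‖ ^ 2 ≤ (M : ℝ) ^ (k + 1) * (η ^ 3 / 2 ^ (k + 3)) := by
    have h1 := mpoly_parseval Y' a
    rw [hGl]
    simp only
    rw [h1]
    exact mul_le_mul_of_nonneg_left hlight (by positivity)
  -- the representation
  have hrep : ∀ h ∈ Fintype.piFinset (fun _ : Fin (k + 1) => Icc 1 H),
      (Real.log N : ℂ) ^ (k + 2) / N * ∑ n ∈ ((Icc 1 N).filter (fun n => n.Prime ∧ ∀ i, (n + h i).Prime)).filter
        (fun n => N.sqrt < n), f₀ n * ∏ i, f i (n + h i) =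
      ∑ ξ ∈ Y, a ξ * ch (-∑ i, ξ i * ((h i : ℕ) : ZMod M)) + Gl (fun i => ((h i : ℕ) : ZMod M)) := by
    intro h hh
    rw [Fintype.mem_piFinset] at hh
    have h1 := cf_rep M N H (by omega) hH0 (by omega) g0 (by
      intro n hn
      rw [hg0]
      simp only
      unfold pf
      split_ifs with h1 h2
      · omega
      · rfl
      · rfl) u h (fun i => (mem_Icc.1 (hh i)).2)
    rw [hGl]
    simp only
    rw [hY, hY', sum_filter_add_sum_filter_not, ← h1, sum_int_nat', filter_filter, sum_filter, mul_sum, sum_div]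
    apply sum_congr rfl
    intro n hn
    rw [mem_Icc] at hn
    rw [hg0, hu]
    simp only
    unfold pf
    have hnN : (n : ℤ) ≤ N := by omega
    rw [if_pos hnN]
    have e1 : ∀ i, ((n : ℤ) + (h i : ℤ)).toNat = n + h i := by intro i; omega
    simp only [e1, Int.toNat_natCast]
    by_cases h2 : (n.Prime ∧ ∀ i, (n + h i).Prime) ∧ N.sqrt < n
    · rw [if_pos h2, if_pos ⟨h2.1.1, h2.2⟩]
      have h3 : ∀ i, (if (n + h i).Prime ∧ N.sqrt < n + h i then (Real.log N : ℂ) * f i (n + h i) else 0) =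
          (Real.log N : ℂ) * f i (n + h i) := by
        intro i
        rw [if_pos ⟨h2.1.2 i, by omega⟩]
      simp only [h3]
      rw [prod_mul_distrib, prod_const, card_univ, Fintype.card_fin]
      ring
    · rw [if_neg h2, mul_zero]
      by_cases h4 : n.Prime ∧ N.sqrt < n
      · have h5 : ∃ i, ¬ (n + h i).Prime := by
          by_contra hcon
          push Not at hcon
          exact h2 ⟨⟨h4.1, hcon⟩, h4.2⟩
        obtain ⟨i, hi⟩ := h5
        have h6 : ∏ i, (if (n + h i).Prime ∧ N.sqrt < n + h i then (Real.log N : ℂ) * f i (n + h i) else 0) = 0 := by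
          apply prod_eq_zero (mem_univ i)
          rw [if_neg]
          exact fun h7 => hi h7.1
        rw [h6, mul_zero, zero_div]
      · rw [if_neg h4, zero_mul, zero_div]
  -- small primes
  have hsmall : ∀ h : Fin (k + 1) → ℕ, ‖(Real.log N : ℂ) ^ (k + 2) / N * primeSum N f₀ f h -
      (Real.log N : ℂ) ^ (k + 2) / N * ∑ n ∈ ((Icc 1 N).filter (fun n => n.Prime ∧ ∀ i, (n + h i).Prime)).filter
        (fun n => N.sqrt < n), f₀ n * ∏ i, f i (n + h i)‖ ≤ η / 2 := by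
    intro h
    unfold primeSum
    rw [← mul_sub, ← sum_filter_add_sum_filter_not ((Icc 1 N).filter (fun n => n.Prime ∧ ∀ i, (n + h i).Prime))
      (fun n => N.sqrt < n), add_sub_cancel_left, norm_mul]
    have h1 : ‖∑ n ∈ ((Icc 1 N).filter (fun n => n.Prime ∧ ∀ i, (n + h i).Prime)).filter
        (fun n => ¬ N.sqrt < n), f₀ n * ∏ i, f i (n + h i)‖ ≤ N.sqrt := by
      refine (norm_sum_le _ _).trans ?_
      calc ∑ n ∈ ((Icc 1 N).filter (fun n => n.Prime ∧ ∀ i, (n + h i).Prime)).filter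
              (fun n => ¬ N.sqrt < n), ‖f₀ n * ∏ i, f i (n + h i)‖ ≤
            ∑ n ∈ ((Icc 1 N).filter (fun n => n.Prime ∧ ∀ i, (n + h i).Prime)).filter
              (fun n => ¬ N.sqrt < n), (1 : ℝ) := by
            apply sum_le_sum
            intro n _
            rw [norm_mul, norm_prod]
            have h3 : ∏ i, ‖f i (n + h i)‖ ≤ 1 := prod_le_one (fun i _ => norm_nonneg _) (fun i _ => hf i _)
            exact mul_le_one₀ (hf₀ n) (prod_nonneg fun i _ => norm_nonneg _) h3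
        _ ≤ N.sqrt := by
            rw [sum_const, nsmul_eq_mul, mul_one]
            have h4 : ((Icc 1 N).filter (fun n => n.Prime ∧ ∀ i, (n + h i).Prime)).filter
                (fun n => ¬ N.sqrt < n) ⊆ Icc 1 N.sqrt := by
              intro n hn
              rw [mem_filter, mem_filter, mem_Icc] at hn
              rw [mem_Icc]
              omega
            have h5 := card_le_card h4
            rw [Nat.card_Icc] at h5
            exact_mod_cast h5
    have h2 : ‖(Real.log N : ℂ) ^ (k + 2) / N‖ = Real.log N ^ (k + 2) / N := by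
      rw [norm_div, norm_pow, Complex.norm_real, Real.norm_eq_abs, Complex.norm_natCast,
        abs_of_nonneg (Real.log_natCast_nonneg N)]
    rw [h2]
    have h3 : 0 ≤ Real.log N ^ (k + 2) / N := by
      have := Real.log_natCast_nonneg N
      positivity
    exact (mul_le_mul_of_nonneg_left h1 h3).trans hsq
  -- the exceptional set
  have hsub : ((Fintype.piFinset (fun _ : Fin (k + 1) => Icc 1 H)).filter (fun h =>
        η < ‖(Real.log N : ℂ) ^ (k + 2) / N * primeSum N f₀ f h -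
          ∑ j, c j * Complex.exp (2 * Real.pi * Complex.I * ((∑ i, α j i * h i : ℝ) : ℂ))‖)).card ≤
      (univ.filter (fun h : Fin (k + 1) → ZMod M => η / 2 < ‖Gl h‖)).card := by
    apply card_le_card_of_injOn (fun h => fun i => ((h i : ℕ) : ZMod M))
    · intro h hh
      rw [mem_coe, mem_filter] at hh
      rw [mem_coe, mem_filter]
      refine ⟨mem_univ _, ?_⟩
      have h1 := hrep h hh.1
      have h2 := hsmall h
      have h3 : ∑ j, c j * Complex.exp (2 * Real.pi * Complex.I * ((∑ i, α j i * h i : ℝ) : ℂ)) =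
          ∑ ξ ∈ Y, a ξ * ch (-∑ i, ξ i * ((h i : ℕ) : ZMod M)) := by
        rw [hcα (fun β => Complex.exp (2 * Real.pi * Complex.I * ((∑ i, β i * h i : ℝ) : ℂ)))]
        apply sum_congr rfl
        intro ξ _
        congr 1
        have e1 : ch (-∑ i, ξ i * ((h i : ℕ) : ZMod M)) = ee ((((-∑ i, ((ξ i).val : ℤ) * (h i : ℤ)) : ℤ) : ℝ) / M) := by
          rw [← ch_int]
          congr 1
          push_cast
          simp only [ZMod.natCast_zmod_val]
        rw [e1]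
        unfold ee
        congr 1
        push_cast
        rw [← sum_neg_distrib, sum_div, mul_sum, mul_sum, sum_mul]
        apply sum_congr rfl
        intro i _
        ring
      rw [h3] at hh
      rw [h1] at h2
      by_contra hcon
      push Not at hcon
      have h4 := hh.2
      have h5 : (Real.log N : ℂ) ^ (k + 2) / N * primeSum N f₀ f h - ∑ ξ ∈ Y, a ξ * ch (-∑ i, ξ i * ((h i : ℕ) : ZMod M)) =
          ((Real.log N : ℂ) ^ (k + 2) / N * primeSum N f₀ f h - (∑ ξ ∈ Y, a ξ * ch (-∑ i, ξ i * ((h i : ℕ) : ZMod M)) +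
            Gl (fun i => ((h i : ℕ) : ZMod M)))) + Gl (fun i => ((h i : ℕ) : ZMod M)) := by ring
      rw [h5] at h4
      have h6 := norm_add_le ((Real.log N : ℂ) ^ (k + 2) / N * primeSum N f₀ f h -
        (∑ ξ ∈ Y, a ξ * ch (-∑ i, ξ i * ((h i : ℕ) : ZMod M)) +
            Gl (fun i => ((h i : ℕ) : ZMod M)))) (Gl (fun i => ((h i : ℕ) : ZMod M)))
      linarith
    · intro h hh h' hh' hE
      rw [mem_coe, mem_filter, Fintype.mem_piFinset] at hh hh'
      funext i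
      have h1 := congrFun hE i
      simp only at h1
      rw [ZMod.natCast_eq_natCast_iff] at h1
      have h2 := mem_Icc.1 (hh.1 i)
      have h3 := mem_Icc.1 (hh'.1 i)
      exact Nat.ModEq.eq_of_lt_of_lt h1 (by omega) (by omega)
  have hcheb : ((univ.filter (fun h : Fin (k + 1) → ZMod M => η / 2 < ‖Gl h‖)).card : ℝ) ≤
      (M : ℝ) ^ (k + 1) * (η ^ 3 / 2 ^ (k + 3)) / (η / 2) ^ 2 := by
    rw [le_div_iff₀ (by positivity), ← nsmul_eq_mul]
    refine le_trans (card_nsmul_le_sum _ (fun h => ‖Gl h‖ ^ 2) _ ?_) (le_trans ?_ hP)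
    · intro h hh
      exact pow_le_pow_left₀ (by positivity) (mem_filter.1 hh).2.le 2
    · exact sum_le_sum_of_subset_of_nonneg (filter_subset _ _) (fun _ _ _ => by positivity)
  have hfin : (M : ℝ) ^ (k + 1) * (η ^ 3 / 2 ^ (k + 3)) / (η / 2) ^ 2 = η * (H : ℝ) ^ (k + 1) := by
    rw [hM]
    push_cast
    rw [mul_pow]
    field_simp
    ring
  calc _ ≤ ((univ.filter (fun h : Fin (k + 1) → ZMod M => η / 2 < ‖Gl h‖)).card : ℝ) := by exact_mod_cast hsub
    _ ≤ _ := hcheb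
    _ = _ := hfin

end Pool.Agent.NH16
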