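import Pool.Agent.NH16.Box
import Pool.Agent.NH16.Tuple

/-!
# From tuples to pairs, II
-/

set_option autoImplicit false

namespace Pool.Agent.NH16

open Finset
open Pool.Agent.H386R2.HL
open Pool.Agent.H387R2.Uni (WW WW_pos WW_factors totient_WW)

/-- the mean error over the box, truncated singular series -/
noncomputable def DD (R N L y : ℕ) : ℝ := (∑ t : Fin R → Fin L, |Cr N L (bx t) - sy (bx t) y|) / (L : ℝ) ^ R

/-- the mean error over the box -/
noncomputable def EE (R N L : ℕ) : ℝ :=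
  (∑ a ∈ (Fintype.piFinset (fun _ : Fin R => Icc 1 L)).filter (fun a => Function.Injective a),
    |Fr N a - singularSeries a|) / (L : ℝ) ^ R

lemma DD_nonneg (R N L y : ℕ) : 0 ≤ DD R N L y := by
  unfold DD
  exact div_nonneg (sum_nonneg fun _ _ => abs_nonneg _) (by positivity)

lemma EE_nonneg (R N L : ℕ) : 0 ≤ EE R N L := by
  unfold EE
  exact div_nonneg (sum_nonneg fun _ _ => abs_nonneg _) (by positivity)

open Classical in
lemma EE_eq (R N L : ℕ) : EE R N L = (∑ t : Fin R → Fin L, if Function.Injective t then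
    |Fr N (bx t) - singularSeries (bx t)| else 0) / (L : ℝ) ^ R := by
  unfold EE
  congr 1
  rw [sum_filter, sum_box]
  apply sum_congr rfl
  intro t _
  have h : Function.Injective (bx t) ↔ Function.Injective t := by
    constructor
    · intro h i j hij
      apply h
      unfold bx
      rw [hij]
    · intro h i j hij
      apply h
      unfold bx at hij
      apply Fin.ext
      omega
  by_cases ht : Function.Injective t
  · rw [if_pos ht, if_pos (h.2 ht)]
  · rw [if_neg ht, if_neg (fun h' => ht (h.1 h'))]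

lemma bx_mem {R L : ℕ} (t : Fin R → Fin L) : ∀ i, 1 ≤ bx t i ∧ bx t i ≤ L := by
  intro i
  unfold bx
  have := (t i).2
  omega

lemma Cr_le {R : ℕ} (N L : ℕ) (hN : 0 < N) (hL : L ≤ N) (a : Fin R → ℕ) : Cr N L a ≤ 2 * Real.log N ^ R := by
  have hN0 : (0 : ℝ) < N := by exact_mod_cast hN
  unfold Cr
  rw [div_le_iff₀ hN0]
  calc ∑ x ∈ Ico (-(L : ℤ)) N, ∏ i, Uz N (x + a i) ≤ ∑ _x ∈ Ico (-(L : ℤ)) N, Real.log N ^ R := by
        apply sum_le_sum
        intro x _
        calc ∏ i, Uz N (x + a i) ≤ ∏ _i : Fin R, Real.log N :=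
              prod_le_prod (fun i _ => Uz_nonneg _ _) (fun i _ => Uz_le _ _)
          _ = Real.log N ^ R := by rw [prod_const, card_univ, Fintype.card_fin]
    _ = ((N : ℝ) + L) * Real.log N ^ R := by
        rw [sum_const, Int.card_Ico, nsmul_eq_mul]
        congr 1
        have h1 : ((N : ℤ) - -(L : ℤ)).toNat = N + L := by omega
        rw [h1]
        push_cast
        ring
    _ ≤ 2 * Real.log N ^ R * N := by
        have h1 : (L : ℝ) ≤ N := by exact_mod_cast hL
        have h2 : 0 ≤ Real.log N ^ R := pow_nonneg (Real.log_natCast_nonneg N) R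
        nlinarith

open Classical in
lemma noninj_card (r L : ℕ) :
    (((univ : Finset (Fin (r + 1) → Fin L)).filter (fun t => ¬ Function.Injective t)).card : ℝ) ≤
      ((r : ℝ) + 1) ^ 2 * (L : ℝ) ^ r := by
  have h1 : (univ : Finset (Fin (r + 1) → Fin L)).filter (fun t => ¬ Function.Injective t) ⊆
      ((univ : Finset (Fin (r + 1) × Fin (r + 1))).filter (fun p => p.1 ≠ p.2)).biUnion
        (fun p => (univ : Finset (Fin (r + 1) → Fin L)).filter (fun t => t p.2 = t p.1)) := by
    intro t ht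
    rw [mem_filter] at ht
    have h2 := ht.2
    unfold Function.Injective at h2
    push Not at h2
    obtain ⟨i, j, h3, h4⟩ := h2
    rw [mem_biUnion]
    exact ⟨(i, j), by simp [h4], by simp [h3]⟩
  have h2 : ∀ p ∈ (univ : Finset (Fin (r + 1) × Fin (r + 1))).filter (fun p => p.1 ≠ p.2),
      ((univ : Finset (Fin (r + 1) → Fin L)).filter (fun t => t p.2 = t p.1)).card ≤ L ^ r := by
    intro p hp
    rw [mem_filter] at hp
    obtain ⟨i', hi'⟩ := Fin.exists_succAbove_eq hp.2
    have h3 := sum_insertNth p.2 (fun t : Fin (r + 1) → Fin L => if t p.2 = t p.1 then (1 : ℝ) else 0)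
    rw [sum_ite, sum_const_zero, add_zero, sum_const, nsmul_eq_mul, mul_one] at h3
    have h4 : ∀ f : Fin r → Fin L, ∑ a : Fin L, (if (Fin.insertNth (α := fun _ => Fin L) p.2 a f) p.2 =
        (Fin.insertNth (α := fun _ => Fin L) p.2 a f) p.1 then (1 : ℝ) else 0) = 1 := by
      intro f
      have h5 : ∀ a : Fin L, (Fin.insertNth (α := fun _ => Fin L) p.2 a f) p.1 = f i' := by
        intro a
        rw [← hi', Fin.insertNth_apply_succAbove]
      simp only [Fin.insertNth_apply_same, h5]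
      rw [sum_ite_eq' univ (f i') (fun _ => (1 : ℝ)), if_pos (mem_univ _)]
    rw [sum_congr rfl (fun f _ => h4 f), sum_const, card_univ, Fintype.card_fun, Fintype.card_fin,
      Fintype.card_fin, nsmul_eq_mul, mul_one] at h3
    have h6 : ((univ : Finset (Fin (r + 1) → Fin L)).filter (fun t => t p.2 = t p.1)).card = L ^ r := by
      exact_mod_cast h3
    exact h6.le
  have h3 : ((univ : Finset (Fin (r + 1) → Fin L)).filter (fun t => ¬ Function.Injective t)).card ≤
      (r + 1) ^ 2 * L ^ r := by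
    refine (card_le_card h1).trans (card_biUnion_le.trans ?_)
    refine (sum_le_sum h2).trans ?_
    rw [sum_const, smul_eq_mul]
    apply Nat.mul_le_mul_right
    refine (card_filter_le _ _).trans ?_
    rw [card_univ, Fintype.card_prod, Fintype.card_fin]
    exact le_of_eq (by ring)
  exact_mod_cast h3

theorem DD_le (r : ℕ) : ∃ C : ℝ, 1 ≤ C ∧ ∀ y : ℕ, C ≤ y → ∀ N L : ℕ, 0 < N → 0 < L → L ≤ N →
    DD (r + 1) N L y ≤ EE (r + 1) N L + err2 N (r + 1) L + C * Real.log y ^ r / y +
      ((r : ℝ) + 1) ^ 2 * (2 * Real.log N ^ (r + 1) + (C * Real.log y) ^ r) / L := by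
  classical
  obtain ⟨C1, hC1, h1⟩ := sing_avg r
  obtain ⟨C2, hC2, h2⟩ := sy_le_log (r + 1) (by omega)
  refine ⟨C1 + C2 + 3, by linarith, ?_⟩
  intro y hy N L hN hL hLN
  have hL0 : (0 : ℝ) < L := by exact_mod_cast hL
  have hy3 : 3 ≤ y := by
    have : (3 : ℝ) ≤ y := by linarith
    exact_mod_cast this
  have hy1 : C1 ≤ y := by linarith
  have hy0 : (0 : ℝ) < y := by linarith
  have hlogy : 0 ≤ Real.log y := Real.log_nonneg (by linarith)
  have hlogN := Real.log_natCast_nonneg N
  have hsy : ∀ a : Fin (r + 1) → ℕ, sy a y ≤ ((C1 + C2 + 3) * Real.log y) ^ r := by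
    intro a
    refine (h2 y hy3 a).trans ?_
    rw [Nat.add_sub_cancel]
    apply pow_le_pow_left₀ (by positivity)
    apply mul_le_mul_of_nonneg_right _ hlogy
    linarith
  have hsy0 : ∀ a : Fin (r + 1) → ℕ, 0 ≤ sy a y := by
    intro a
    rw [sy_avg']
    exact div_nonneg (sum_nonneg fun _ _ => prod_nonneg fun _ _ => Vp_nonneg _ _) (Nat.cast_nonneg _)
  set B : ℝ := 2 * Real.log N ^ (r + 1) + ((C1 + C2 + 3) * Real.log y) ^ r with hB
  have hB0 : 0 ≤ B := by rw [hB]; positivity
  have hpt : ∀ t : Fin (r + 1) → Fin L, |Cr N L (bx t) - sy (bx t) y| ≤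
      (if Function.Injective t then |Fr N (bx t) - singularSeries (bx t)| else 0) +
      err2 N (r + 1) L + (if Function.Injective t then |singularSeries (bx t) - sy (bx t) y| else 0) +
      (if ¬ Function.Injective t then B else 0) := by
    intro t
    have he : 0 ≤ err2 N (r + 1) L := by unfold err2; positivity
    by_cases ht : Function.Injective t
    · rw [if_pos ht, if_pos ht, if_neg (not_not.2 ht), add_zero]
      have h3 := Cr_Fr N L (bx t) (bx_mem t)
      have h4 : Cr N L (bx t) - sy (bx t) y = (Cr N L (bx t) - Fr N (bx t)) +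
        (Fr N (bx t) - singularSeries (bx t)) + (singularSeries (bx t) - sy (bx t) y) := by ring
      rw [h4]
      refine (abs_add_three _ _ _).trans ?_
      linarith
    · rw [if_neg ht, if_neg ht, if_pos ht]
      have h3 := Cr_le N L hN hLN (bx t)
      have h4 := hsy (bx t)
      have h5 := Cr_nonneg N L (bx t)
      have h6 := hsy0 (bx t)
      rw [abs_le]
      constructor <;> linarith
  unfold DD
  rw [div_le_iff₀ (by positivity)]
  refine (sum_le_sum fun t _ => hpt t).trans ?_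
  rw [sum_add_distrib, sum_add_distrib, sum_add_distrib]
  have e1 : ∑ t : Fin (r + 1) → Fin L, (if Function.Injective t then |Fr N (bx t) - singularSeries (bx t)| else 0) =
      EE (r + 1) N L * (L : ℝ) ^ (r + 1) := by
    rw [EE_eq]
    field_simp
  have e2 : ∑ _t : Fin (r + 1) → Fin L, err2 N (r + 1) L = err2 N (r + 1) L * (L : ℝ) ^ (r + 1) := by
    rw [sum_const, card_univ, Fintype.card_fun, Fintype.card_fin, Fintype.card_fin, nsmul_eq_mul]
    push_cast
    ring
  have e3 := h1 y hy1 L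
  have e4 : ∑ t : Fin (r + 1) → Fin L, (if ¬ Function.Injective t then B else 0) ≤
      ((r : ℝ) + 1) ^ 2 * (L : ℝ) ^ r * B := by
    rw [← sum_filter, sum_const, nsmul_eq_mul]
    exact mul_le_mul_of_nonneg_right (noninj_card r L) hB0
  have e5 : ((r : ℝ) + 1) ^ 2 * (L : ℝ) ^ r * B = ((r : ℝ) + 1) ^ 2 * B / L * (L : ℝ) ^ (r + 1) := by
    rw [pow_succ (L : ℝ) r]
    field_simp
  have e6 : C1 * Real.log y ^ r / y * (L : ℝ) ^ (r + 1) ≤ (C1 + C2 + 3) * Real.log y ^ r / y * (L : ℝ) ^ (r + 1) := by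
    apply mul_le_mul_of_nonneg_right _ (by positivity)
    apply div_le_div_of_nonneg_right _ hy0.le
    apply mul_le_mul_of_nonneg_right _ (by positivity)
    linarith
  rw [e1, e2]
  calc EE (r + 1) N L * (L : ℝ) ^ (r + 1) + err2 N (r + 1) L * (L : ℝ) ^ (r + 1) +
        ∑ t : Fin (r + 1) → Fin L, (if Function.Injective t then |singularSeries (bx t) - sy (bx t) y| else 0) +
        ∑ t : Fin (r + 1) → Fin L, (if ¬ Function.Injective t then B else 0)
      ≤ EE (r + 1) N L * (L : ℝ) ^ (r + 1) + err2 N (r + 1) L * (L : ℝ) ^ (r + 1) +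
        (C1 + C2 + 3) * Real.log y ^ r / y * (L : ℝ) ^ (r + 1) + ((r : ℝ) + 1) ^ 2 * B / L * (L : ℝ) ^ (r + 1) := by
        rw [← e5]
        linarith
    _ = _ := by ring

/-- window average of the truncated singular series -/
theorem sy_box (R y L : ℕ) (hL : 0 < L) (hWL : (WW y : ℝ) ^ 2 ≤ L) :
    |(∑ t : Fin R → Fin L, sy (bx t) y) / (L : ℝ) ^ R - 1| ≤ R * 2 ^ R * ((WW y : ℝ) ^ 2 / L) := by
  have hL0 : (0 : ℝ) < L := by exact_mod_cast hL
  have hW0 : (0 : ℝ) < WW y := by exact_mod_cast WW_pos y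
  have e1 : (∑ t : Fin R → Fin L, sy (bx t) y) / (L : ℝ) ^ R =
      (∑ n ∈ range (WW y), ((∑ t : Fin L, Vp y (n + ((t : ℕ) + 1))) / L) ^ R) / WW y := by
    simp only [sy_avg']
    rw [← sum_div, sum_comm, div_right_comm, sum_div]
    congr 1
    apply sum_congr rfl
    intro n _
    rw [div_pow, prod_expand (fun m => Vp y (n + m))]
  rw [e1]
  have e2 : (∑ n ∈ range (WW y), ((∑ t : Fin L, Vp y (n + ((t : ℕ) + 1))) / L) ^ R) / WW y - 1 =
      (∑ n ∈ range (WW y), (((∑ t : Fin L, Vp y (n + ((t : ℕ) + 1))) / L) ^ R - 1)) / WW y := by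
    rw [sum_sub_distrib, sum_const, card_range, nsmul_eq_mul, mul_one]
    field_simp
  rw [e2, abs_div, abs_of_pos hW0, div_le_iff₀ hW0]
  calc |∑ n ∈ range (WW y), (((∑ t : Fin L, Vp y (n + ((t : ℕ) + 1))) / L) ^ R - 1)|
      ≤ ∑ n ∈ range (WW y), |((∑ t : Fin L, Vp y (n + ((t : ℕ) + 1))) / L) ^ R - 1| := abs_sum_le_sum_abs _ _
    _ ≤ ∑ _n ∈ range (WW y), R * 2 ^ R * ((WW y : ℝ) ^ 2 / L) := by
        apply sum_le_sum
        intro n _
        have h1 := Vp_win y L n hL
        have h2 : (WW y : ℝ) ^ 2 / L ≤ 1 := by rw [div_le_one hL0]; exact hWL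
        have h3 : 0 ≤ (∑ t : Fin L, Vp y (n + ((t : ℕ) + 1))) / L :=
          div_nonneg (sum_nonneg fun _ _ => Vp_nonneg _ _) hL0.le
        refine (pow_sub_one_le _ 2 h3 (by norm_num) (by linarith [(abs_le.1 h1).2]) R).trans ?_
        exact mul_le_mul_of_nonneg_left h1 (by positivity)
    _ = R * 2 ^ R * ((WW y : ℝ) ^ 2 / L) * WW y := by
        rw [sum_const, card_range, nsmul_eq_mul]
        ring

/-- the mean of the primes -/
noncomputable def mN (N : ℕ) : ℝ := (∑ n ∈ Icc 1 N, Uz N (n : ℤ)) / N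

theorem mN_lim (δ : ℝ) (hδ : 0 < δ) : ∀ᶠ N : ℕ in Filter.atTop, |mN N - 1| ≤ δ := by
  obtain ⟨N0, h⟩ := pnt_unif 1 one_pos (δ / 2) (by positivity)
  filter_upwards [Filter.eventually_ge_atTop N0, sqrt_small 1 (δ / 2) (by positivity), Filter.eventually_gt_atTop 0]
    with N hN hs hN0
  have h1 := h N hN 1 (by simp)
  have hN' : (0 : ℝ) < N := by exact_mod_cast hN0
  have hl := Real.log_natCast_nonneg N
  have e1 : ∑ n ∈ Icc 1 N, Uz N (n : ℤ) = Real.log N * ((Icc 1 N).filter (fun n => N.sqrt < n ∧ n.Prime)).card := by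
    rw [← sum_ite_card]
    apply sum_congr rfl
    intro n hn
    rw [mem_Icc] at hn
    rw [Uz_nat N n hn.1]
    unfold uu
    by_cases h2 : N.sqrt < n ∧ n.Prime
    · rw [if_pos h2, if_pos ⟨hn.2, h2⟩, mul_one]
    · rw [if_neg h2, if_neg (fun h3 => h2 h3.2), mul_zero]
  have h2 := card_close N N.sqrt 0 (fun n => N.sqrt < n ∧ n.Prime) (fun n => n.Prime ∧ n ≡ 1 [MOD 1]) (by
    intro n hn _
    constructor
    · rintro ⟨_, h⟩
      exact ⟨h, Nat.modEq_one⟩
    · rintro ⟨h, _⟩
      exact ⟨hn, h⟩)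
  unfold mN
  unfold Dp at h1
  rw [e1]
  simp only [Nat.totient_one, Nat.cast_one, div_one] at h1
  set A : ℝ := (((Icc 1 N).filter (fun n => N.sqrt < n ∧ n.Prime)).card : ℝ)
  set B : ℝ := (((Icc 1 N).filter (fun p => p.Prime ∧ p ≡ 1 [MOD 1])).card : ℝ)
  have e2 : Real.log N * A / N - 1 = (B * Real.log N / N - 1) + (Real.log N / N) * (A - B) := by ring
  rw [e2]
  have h3 : |(Real.log N / N) * (A - B)| ≤ δ / 2 := by
    rw [abs_mul, abs_of_nonneg (by positivity)]
    refine (mul_le_mul_of_nonneg_left h2 (by positivity)).trans ?_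
    have hs' : Real.log N ^ 1 / N * N.sqrt ≤ δ / 2 := hs
    rw [pow_one] at hs'
    simpa using hs'
  refine (abs_add_le _ _).trans ?_
  linarith

end Pool.Agent.NH16
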