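import Pool.Agent.NH16.Down

/-!
# From tuples to pairs, III
-/

set_option autoImplicit false

namespace Pool.Agent.NH16

open Finset
open Pool.Agent.Helper602.MK
open Pool.Agent.Helper602.MK.N_J5b
open Pool.Agent.H386R2.HL
open Pool.Agent.H387R2.Uni (WW WW_pos WW_factors totient_WW)

/-- the variance of the local density -/
noncomputable def AA (N L : ℕ) : ℝ := (∑ x ∈ Ico (-(L : ℤ)) N, (th N L x - 1) ^ 2) / N

lemma AA_nonneg (N L : ℕ) : 0 ≤ AA N L := div_nonneg (sum_nonneg fun _ _ => sq_nonneg _) (Nat.cast_nonneg _)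

lemma th_mean (N L : ℕ) (hL : 0 < L) : ∑ x ∈ Ico (-(L : ℤ)) N, th N L x = ∑ n ∈ Icc 1 N, Uz N (n : ℤ) := by
  have hL0 : (0 : ℝ) < L := by exact_mod_cast hL
  unfold th
  rw [← sum_div, sum_comm]
  have h1 : ∀ t : Fin L, ∑ x ∈ Ico (-(L : ℤ)) N, Uz N (x + ((t : ℕ) + 1 : ℕ)) = ∑ n ∈ Icc 1 N, Uz N (n : ℤ) := by
    intro t
    exact shift_sum (Uz N) N L ((t : ℕ) + 1) (fun n hn => Uz_out N n hn) (by omega) (by have := t.2; omega)
  rw [sum_congr rfl (fun t _ => h1 t), sum_const, card_univ, Fintype.card_fin, nsmul_eq_mul]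
  field_simp

lemma card_win (N L : ℕ) : ((Ico (-(L : ℤ)) N).card : ℝ) = N + L := by
  rw [Int.card_Ico]
  have h1 : ((N : ℤ) - -(L : ℤ)).toNat = N + L := by omega
  rw [h1]
  push_cast
  ring

theorem AA_le (k N L y : ℕ) (hN : 0 < N) (hL : 0 < L) (hWL : (WW y : ℝ) ^ 2 ≤ L) :
    AA N L ≤ DD (k + 2) N L y + ((k + 2 : ℕ) : ℝ) * 2 ^ (k + 2) * ((WW y : ℝ) ^ 2 / L) +
      (k + 2) * |mN N - 1| + (k + 1) * (L / N) := by
  have hN0 : (0 : ℝ) < N := by exact_mod_cast hN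
  have hL0 : (0 : ℝ) < L := by exact_mod_cast hL
  have h1 : AA N L ≤ (∑ x ∈ Ico (-(L : ℤ)) N, th N L x ^ (k + 2)) / N + (k + 1) * (1 + L / N) - (k + 2) * mN N := by
    unfold AA mN
    rw [← th_mean N L hL]
    have e1 : (∑ x ∈ Ico (-(L : ℤ)) N, th N L x ^ (k + 2)) / N + (k + 1) * (1 + L / N) -
        (k + 2) * ((∑ x ∈ Ico (-(L : ℤ)) N, th N L x) / N) =
        (∑ x ∈ Ico (-(L : ℤ)) N, (th N L x ^ (k + 2) - 1 - (k + 2) * (th N L x - 1))) / N := by
      have e2 : ∀ x, th N L x ^ (k + 2) - 1 - (k + 2) * (th N L x - 1) =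
          th N L x ^ (k + 2) + ((k : ℝ) + 1) - (k + 2) * th N L x := by
        intro x; ring
      simp only [e2]
      rw [sum_sub_distrib, sum_add_distrib, sum_const, nsmul_eq_mul, card_win, ← mul_sum]
      field_simp
    rw [e1]
    apply div_le_div_of_nonneg_right _ hN0.le
    apply sum_le_sum
    intro x _
    exact bern (th N L x) (th_nonneg N L x) k
  have h2 := th_moment N L (k + 2) hL
  rw [h2] at h1
  have h3 := sy_box (k + 2) y L hL hWL
  have h4 : (∑ t : Fin (k + 2) → Fin L, Cr N L (bx t)) / (L : ℝ) ^ (k + 2) ≤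
      (∑ t : Fin (k + 2) → Fin L, sy (bx t) y) / (L : ℝ) ^ (k + 2) + DD (k + 2) N L y := by
    unfold DD
    rw [← add_div, ← sum_add_distrib]
    apply div_le_div_of_nonneg_right _ (by positivity)
    apply sum_le_sum
    intro t _
    linarith [le_abs_self (Cr N L (bx t) - sy (bx t) y)]
  have h5 := (abs_le.1 h3).2
  have h6 : (k + 2 : ℝ) * (1 - mN N) ≤ (k + 2) * |mN N - 1| := by
    apply mul_le_mul_of_nonneg_left _ (by positivity)
    rw [abs_sub_comm]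
    exact le_abs_self _
  have h7 : (L : ℝ) / N = L / N := rfl
  nlinarith [h1, h4, h5, h6]

lemma th_le_of (N L : ℕ) (hL : 0 < L) (C : ℝ) (h : ∀ x : ℤ, ∑ n ∈ Ioc x (x + L), Uz N n ≤ C * L) (x : ℤ) :
    th N L x ≤ C := by
  have hL0 : (0 : ℝ) < L := by exact_mod_cast hL
  unfold th
  rw [div_le_iff₀ hL0, sum_win]
  exact h x

/-- two elements -/
noncomputable def Cr2 (N L : ℕ) (a b : ℕ) : ℝ := (∑ x ∈ Ico (-(L : ℤ)) N, Uz N (x + a) * Uz N (x + b)) / N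

noncomputable def sy2 (y a b : ℕ) : ℝ := (∑ n ∈ range (WW y), Vp y (n + a) * Vp y (n + b)) / WW y

lemma sum_cons {A : Type*} [Fintype A] {k : ℕ} (G : (Fin (k + 1) → A) → ℝ) :
    ∑ t, G t = ∑ a, ∑ f : Fin k → A, G (Fin.cons a f) := by
  rw [← (Fin.consEquiv (fun _ => A)).sum_comp, Fintype.sum_prod_type]
  rfl

lemma bx_cons {k L : ℕ} (a : Fin L) (f : Fin k → Fin L) :
    bx (Fin.cons (α := fun _ => Fin L) a f) = Fin.cons (α := fun _ => ℕ) ((a : ℕ) + 1) (bx f) := by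
  funext j
  refine Fin.cases ?_ (fun j' => ?_) j
  · simp [bx]
  · simp [bx]

lemma Vp_le (y n : ℕ) : Vp y n ≤ WW y := by
  unfold Vp
  have h : (1 : ℝ) ≤ Nat.totient (WW y) := by exact_mod_cast Nat.totient_pos.2 (WW_pos y)
  split_ifs
  · exact div_le_self (Nat.cast_nonneg _) h
  · exact Nat.cast_nonneg _

theorem pair_le (k N L y : ℕ) (hN : 0 < N) (hL : 0 < L) (hWL : (WW y : ℝ) ^ 2 ≤ L) (C : ℝ) (hC : 1 ≤ C)
    (hth : ∀ x, th N L x ≤ C) :
    (∑ a : Fin L, ∑ b : Fin L, |Cr2 N L ((a : ℕ) + 1) ((b : ℕ) + 1) - sy2 y ((a : ℕ) + 1) ((b : ℕ) + 1)|) / (L : ℝ) ^ 2 ≤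
      DD (k + 2) N L y + C ^ 2 * (k * C ^ k) * ((∑ x ∈ Ico (-(L : ℤ)) N, |th N L x - 1|) / N) +
        (WW y : ℝ) ^ 2 * (k * 2 ^ k * ((WW y : ℝ) ^ 2 / L)) := by
  have hN0 : (0 : ℝ) < N := by exact_mod_cast hN
  have hL0 : (0 : ℝ) < L := by exact_mod_cast hL
  have hW0 : (0 : ℝ) < WW y := by exact_mod_cast WW_pos y
  set V : ℕ → ℝ := fun n => (∑ t : Fin L, Vp y (n + ((t : ℕ) + 1))) / L with hV
  have hV1 : ∀ n, |V n ^ k - 1| ≤ k * 2 ^ k * ((WW y : ℝ) ^ 2 / L) := by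
    intro n
    have h1 := Vp_win y L n hL
    have h2 : (WW y : ℝ) ^ 2 / L ≤ 1 := by rw [div_le_one hL0]; exact hWL
    have h3 : 0 ≤ V n := div_nonneg (sum_nonneg fun _ _ => Vp_nonneg _ _) hL0.le
    refine (pow_sub_one_le _ 2 h3 (by norm_num) (by rw [hV]; simp only; linarith [(abs_le.1 h1).2]) k).trans ?_
    exact mul_le_mul_of_nonneg_left h1 (by positivity)
  -- averages over c
  have hCr : ∀ a b : Fin L, ∑ c : Fin k → Fin L,
      Cr N L (bx (Fin.cons (α := fun _ => Fin L) a (Fin.cons (α := fun _ => Fin L) b c : Fin (k + 1) → Fin L) : Fin (k + 2) → Fin L)) =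
      (L : ℝ) ^ k * ((∑ x ∈ Ico (-(L : ℤ)) N, Uz N (x + ((a : ℕ) + 1 : ℕ)) * Uz N (x + ((b : ℕ) + 1 : ℕ)) * th N L x ^ k) / N) := by
    intro a b
    unfold Cr
    rw [← sum_div, sum_comm, ← mul_div_assoc, mul_sum]
    congr 1
    apply sum_congr rfl
    intro x _
    have e1 : ∀ c : Fin k → Fin L, ∏ i, Uz N (x + (bx (Fin.cons (α := fun _ => Fin L) a (Fin.cons (α := fun _ => Fin L) b c : Fin (k + 1) → Fin L) : Fin (k + 2) → Fin L) i : ℕ)) =
        Uz N (x + ((a : ℕ) + 1 : ℕ)) * Uz N (x + ((b : ℕ) + 1 : ℕ)) * ∏ i, Uz N (x + (bx c i : ℕ)) := by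
      intro c
      rw [bx_cons, bx_cons, Fin.prod_univ_succ, Fin.prod_univ_succ]
      simp only [Fin.cons_zero, Fin.cons_succ]
      ring
    simp only [e1]
    rw [← mul_sum, ← prod_expand (fun m => Uz N (x + (m : ℕ)))]
    have e2 : (∑ t : Fin L, Uz N (x + ((t : ℕ) + 1 : ℕ))) = L * th N L x := by
      unfold th
      field_simp
    rw [e2, mul_pow]
    ring
  have hsy : ∀ a b : Fin L, ∑ c : Fin k → Fin L,
      sy (bx (Fin.cons (α := fun _ => Fin L) a (Fin.cons (α := fun _ => Fin L) b c : Fin (k + 1) → Fin L) : Fin (k + 2) → Fin L)) y =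
      (L : ℝ) ^ k * ((∑ n ∈ range (WW y), Vp y (n + ((a : ℕ) + 1)) * Vp y (n + ((b : ℕ) + 1)) * V n ^ k) / WW y) := by
    intro a b
    simp only [sy_avg']
    rw [← sum_div, sum_comm, ← mul_div_assoc, mul_sum]
    congr 1
    apply sum_congr rfl
    intro n _
    have e1 : ∀ c : Fin k → Fin L, ∏ i, Vp y (n + (bx (Fin.cons (α := fun _ => Fin L) a (Fin.cons (α := fun _ => Fin L) b c : Fin (k + 1) → Fin L) : Fin (k + 2) → Fin L) i : ℕ)) =
        Vp y (n + ((a : ℕ) + 1)) * Vp y (n + ((b : ℕ) + 1)) * ∏ i, Vp y (n + (bx c i : ℕ)) := by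
      intro c
      rw [bx_cons, bx_cons, Fin.prod_univ_succ, Fin.prod_univ_succ]
      simp only [Fin.cons_zero, Fin.cons_succ]
      ring
    simp only [e1]
    rw [← mul_sum, ← prod_expand (fun m => Vp y (n + m))]
    have e2 : (∑ t : Fin L, Vp y (n + ((t : ℕ) + 1))) = L * V n := by
      rw [hV]
      field_simp
    rw [e2, mul_pow]
    ring
  -- pointwise bound
  have hpt : ∀ a b : Fin L, (L : ℝ) ^ k * |Cr2 N L ((a : ℕ) + 1) ((b : ℕ) + 1) - sy2 y ((a : ℕ) + 1) ((b : ℕ) + 1)| ≤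
      (∑ c : Fin k → Fin L, |Cr N L (bx (Fin.cons (α := fun _ => Fin L) a (Fin.cons (α := fun _ => Fin L) b c : Fin (k + 1) → Fin L) : Fin (k + 2) → Fin L)) -
        sy (bx (Fin.cons (α := fun _ => Fin L) a (Fin.cons (α := fun _ => Fin L) b c : Fin (k + 1) → Fin L) : Fin (k + 2) → Fin L)) y|) +
      (L : ℝ) ^ k * ((∑ x ∈ Ico (-(L : ℤ)) N, Uz N (x + ((a : ℕ) + 1 : ℕ)) * Uz N (x + ((b : ℕ) + 1 : ℕ)) * |th N L x ^ k - 1|) / N) +
      (L : ℝ) ^ k * ((WW y : ℝ) ^ 2 * (k * 2 ^ k * ((WW y : ℝ) ^ 2 / L))) := by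
    intro a b
    have h1 : (L : ℝ) ^ k * (Cr2 N L ((a : ℕ) + 1) ((b : ℕ) + 1) - sy2 y ((a : ℕ) + 1) ((b : ℕ) + 1)) =
        (∑ c : Fin k → Fin L, (Cr N L (bx (Fin.cons (α := fun _ => Fin L) a (Fin.cons (α := fun _ => Fin L) b c : Fin (k + 1) → Fin L) : Fin (k + 2) → Fin L)) -
          sy (bx (Fin.cons (α := fun _ => Fin L) a (Fin.cons (α := fun _ => Fin L) b c : Fin (k + 1) → Fin L) : Fin (k + 2) → Fin L)) y)) -
        (L : ℝ) ^ k * ((∑ x ∈ Ico (-(L : ℤ)) N, Uz N (x + ((a : ℕ) + 1 : ℕ)) * Uz N (x + ((b : ℕ) + 1 : ℕ)) * (th N L x ^ k - 1)) / N) +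
        (L : ℝ) ^ k * ((∑ n ∈ range (WW y), Vp y (n + ((a : ℕ) + 1)) * Vp y (n + ((b : ℕ) + 1)) * (V n ^ k - 1)) / WW y) := by
      rw [sum_sub_distrib, hCr, hsy]
      unfold Cr2 sy2
      simp only [mul_sub, mul_one, sum_sub_distrib, sub_div]
      ring
    have h2 : (L : ℝ) ^ k * |Cr2 N L ((a : ℕ) + 1) ((b : ℕ) + 1) - sy2 y ((a : ℕ) + 1) ((b : ℕ) + 1)| =
        |(L : ℝ) ^ k * (Cr2 N L ((a : ℕ) + 1) ((b : ℕ) + 1) - sy2 y ((a : ℕ) + 1) ((b : ℕ) + 1))| := by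
      rw [abs_mul, abs_of_nonneg (by positivity : (0 : ℝ) ≤ (L : ℝ) ^ k)]
    rw [h2, h1]
    refine (abs_add_le _ _).trans ?_
    refine add_le_add ((abs_sub _ _).trans (add_le_add (abs_sum_le_sum_abs _ _) ?_)) ?_
    · rw [abs_mul, abs_of_nonneg (by positivity : (0 : ℝ) ≤ (L : ℝ) ^ k), abs_div, abs_of_pos hN0]
      apply mul_le_mul_of_nonneg_left _ (by positivity)
      apply div_le_div_of_nonneg_right _ hN0.le
      refine (abs_sum_le_sum_abs _ _).trans (sum_le_sum fun x _ => ?_)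
      rw [abs_mul, abs_of_nonneg (mul_nonneg (Uz_nonneg _ _) (Uz_nonneg _ _))]
    · rw [abs_mul, abs_of_nonneg (by positivity : (0 : ℝ) ≤ (L : ℝ) ^ k), abs_div, abs_of_pos hW0]
      apply mul_le_mul_of_nonneg_left _ (by positivity)
      rw [div_le_iff₀ hW0]
      refine (abs_sum_le_sum_abs _ _).trans ?_
      calc ∑ n ∈ range (WW y), |Vp y (n + ((a : ℕ) + 1)) * Vp y (n + ((b : ℕ) + 1)) * (V n ^ k - 1)|
          ≤ ∑ _n ∈ range (WW y), (WW y : ℝ) ^ 2 * (k * 2 ^ k * ((WW y : ℝ) ^ 2 / L)) := by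
            apply sum_le_sum
            intro n _
            rw [abs_mul, abs_of_nonneg (mul_nonneg (Vp_nonneg _ _) (Vp_nonneg _ _))]
            apply mul_le_mul _ (hV1 n) (abs_nonneg _) (by positivity)
            rw [pow_two]
            exact mul_le_mul (Vp_le _ _) (Vp_le _ _) (Vp_nonneg _ _) hW0.le
        _ = _ := by rw [sum_const, card_range, nsmul_eq_mul]; ring
  -- sum over a, b
  rw [div_le_iff₀ (by positivity)]
  have hLk : (0 : ℝ) < (L : ℝ) ^ k := by positivity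
  apply le_of_mul_le_mul_left _ hLk
  calc (L : ℝ) ^ k * ∑ a : Fin L, ∑ b : Fin L, |Cr2 N L ((a : ℕ) + 1) ((b : ℕ) + 1) - sy2 y ((a : ℕ) + 1) ((b : ℕ) + 1)|
      = ∑ a : Fin L, ∑ b : Fin L, (L : ℝ) ^ k * |Cr2 N L ((a : ℕ) + 1) ((b : ℕ) + 1) - sy2 y ((a : ℕ) + 1) ((b : ℕ) + 1)| := by
        rw [mul_sum]
        apply sum_congr rfl
        intro a _
        rw [mul_sum]
    _ ≤ ∑ a : Fin L, ∑ b : Fin L, ((∑ c : Fin k → Fin L, |Cr N L (bx (Fin.cons (α := fun _ => Fin L) a (Fin.cons (α := fun _ => Fin L) b c : Fin (k + 1) → Fin L) : Fin (k + 2) → Fin L)) -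
        sy (bx (Fin.cons (α := fun _ => Fin L) a (Fin.cons (α := fun _ => Fin L) b c : Fin (k + 1) → Fin L) : Fin (k + 2) → Fin L)) y|) +
      (L : ℝ) ^ k * ((∑ x ∈ Ico (-(L : ℤ)) N, Uz N (x + ((a : ℕ) + 1 : ℕ)) * Uz N (x + ((b : ℕ) + 1 : ℕ)) * |th N L x ^ k - 1|) / N) +
      (L : ℝ) ^ k * ((WW y : ℝ) ^ 2 * (k * 2 ^ k * ((WW y : ℝ) ^ 2 / L)))) :=
        sum_le_sum fun a _ => sum_le_sum fun b _ => hpt a b
    _ = DD (k + 2) N L y * (L : ℝ) ^ (k + 2) +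
        (L : ℝ) ^ k * ((∑ x ∈ Ico (-(L : ℤ)) N, (L * th N L x) ^ 2 * |th N L x ^ k - 1|) / N) +
        (L : ℝ) ^ 2 * ((L : ℝ) ^ k * ((WW y : ℝ) ^ 2 * (k * 2 ^ k * ((WW y : ℝ) ^ 2 / L)))) := by
        simp only [sum_add_distrib]
        congr 1
        · congr 1
          · unfold DD
            rw [div_mul_cancel₀ _ (by positivity), sum_cons]
            apply sum_congr rfl
            intro a _
            rw [sum_cons (k := k)]
          · simp only [← mul_sum, ← sum_div]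
            congr 2
            have e1 : ∀ x, (L : ℝ) * th N L x = ∑ t : Fin L, Uz N (x + ((t : ℕ) + 1 : ℕ)) := by
              intro x
              unfold th
              field_simp
            rw [sum_congr rfl (fun a _ => sum_comm), sum_comm]
            apply sum_congr rfl
            intro x _
            rw [e1, pow_two, sum_mul_sum, sum_mul]
            apply sum_congr rfl
            intro a _
            rw [sum_mul]
        · simp only [sum_const, card_univ, Fintype.card_fin, nsmul_eq_mul]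
          ring
    _ ≤ DD (k + 2) N L y * (L : ℝ) ^ (k + 2) +
        (L : ℝ) ^ k * ((∑ x ∈ Ico (-(L : ℤ)) N, (L : ℝ) ^ 2 * (C ^ 2 * (k * C ^ k) * |th N L x - 1|)) / N) +
        (L : ℝ) ^ 2 * ((L : ℝ) ^ k * ((WW y : ℝ) ^ 2 * (k * 2 ^ k * ((WW y : ℝ) ^ 2 / L)))) := by
        refine add_le_add (add_le_add le_rfl (mul_le_mul_of_nonneg_left (div_le_div_of_nonneg_right
          (sum_le_sum fun x _ => ?_) hN0.le) hLk.le)) le_rfl
        have h1 := pow_sub_one_le (th N L x) C (th_nonneg N L x) hC (hth x) k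
        calc (L * th N L x) ^ 2 * |th N L x ^ k - 1| = (L : ℝ) ^ 2 * (th N L x ^ 2 * |th N L x ^ k - 1|) := by ring
          _ ≤ (L : ℝ) ^ 2 * (C ^ 2 * (k * C ^ k * |th N L x - 1|)) := by
              apply mul_le_mul_of_nonneg_left _ (by positivity)
              exact mul_le_mul (pow_le_pow_left₀ (th_nonneg N L x) (hth x) 2) h1 (abs_nonneg _) (by positivity)
          _ = _ := by ring
    _ = _ := by
        rw [← mul_sum, ← mul_sum]
        ring

end Pool.Agent.NH16
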