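import Pool.Agent.NH16.Down2

/-!
# From tuples to exponential sums over windows
-/

set_option autoImplicit false

namespace Pool.Agent.NH16

open Finset
open Pool.Agent.Helper602.MK
open Pool.Agent.Helper602.MK.N_J5b
open Pool.Agent.H386R2.HL
open Pool.Agent.H387R2.Uni (WW WW_pos WW_factors totient_WW)

/-- the primes minus the model -/
noncomputable def Ez (N y : ℕ) (n : ℤ) : ℝ := Uz N n - Vz N (WW y) n

/-- the mean square of the exponential sums over the windows -/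
noncomputable def Tn (N L y : ℕ) (α : ℝ) : ℝ :=
  (∑ x ∈ Ico (-(L : ℤ)) N, ‖∑ n ∈ Ioc x (x + L), (Ez N y n : ℂ) * ee (α * n)‖ ^ 2) / (N * (L : ℝ) ^ 2)

lemma Ez_out (N y : ℕ) (n : ℤ) (hn : ¬ (1 ≤ n ∧ n ≤ (N : ℤ))) : Ez N y n = 0 := by
  unfold Ez
  rw [Uz_out N n hn, Vz_out N _ n hn, sub_zero]

theorem Tn_le (N L y : ℕ) (hN : 0 < N) (hL : 0 < L) (α : ℝ) :
    Tn N L y α ≤ (∑ a : Fin L, ∑ b : Fin L, |(∑ x ∈ Ico (-(L : ℤ)) N, Ez N y (x + ((a : ℕ) + 1 : ℕ)) *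
      Ez N y (x + ((b : ℕ) + 1 : ℕ))) / N|) / (L : ℝ) ^ 2 := by
  have hN0 : (0 : ℝ) < N := by exact_mod_cast hN
  have hL0 : (0 : ℝ) < L := by exact_mod_cast hL
  have h1 : ∀ x : ℤ, ((‖∑ n ∈ Ioc x (x + L), (Ez N y n : ℂ) * ee (α * n)‖ ^ 2 : ℝ) : ℂ) =
      ∑ a : Fin L, ∑ b : Fin L, ((Ez N y (x + ((a : ℕ) + 1 : ℕ)) * Ez N y (x + ((b : ℕ) + 1 : ℕ)) : ℝ) : ℂ) *
        ee (α * ((a : ℕ) - (b : ℕ))) := by
    intro x
    rw [← sum_win (fun n => (Ez N y n : ℂ) * ee (α * n)) x L]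
    rw [← Complex.normSq_eq_norm_sq, ← Complex.mul_conj, map_sum, sum_mul_sum]
    apply sum_congr rfl
    intro a _
    apply sum_congr rfl
    intro b _
    rw [map_mul, Complex.conj_ofReal, ee_conj]
    have e1 : ee (α * ((a : ℕ) - (b : ℕ))) = ee (α * ((x + ((a : ℕ) + 1 : ℕ) : ℤ) : ℝ)) *
        ee (-(α * ((x + ((b : ℕ) + 1 : ℕ) : ℤ) : ℝ))) := by
      rw [← ee_add]
      congr 1
      push_cast
      ring
    rw [e1]
    push_cast
    ring
  have h2 : (((∑ x ∈ Ico (-(L : ℤ)) N, ‖∑ n ∈ Ioc x (x + L), (Ez N y n : ℂ) * ee (α * n)‖ ^ 2 : ℝ)) : ℂ) =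
      ∑ a : Fin L, ∑ b : Fin L, ((∑ x ∈ Ico (-(L : ℤ)) N, Ez N y (x + ((a : ℕ) + 1 : ℕ)) *
        Ez N y (x + ((b : ℕ) + 1 : ℕ)) : ℝ) : ℂ) * ee (α * ((a : ℕ) - (b : ℕ))) := by
    rw [Complex.ofReal_sum, sum_congr rfl (fun x _ => h1 x), sum_comm]
    apply sum_congr rfl
    intro a _
    rw [sum_comm]
    apply sum_congr rfl
    intro b _
    rw [← sum_mul, Complex.ofReal_sum]
  have h3 : ∑ x ∈ Ico (-(L : ℤ)) N, ‖∑ n ∈ Ioc x (x + L), (Ez N y n : ℂ) * ee (α * n)‖ ^ 2 ≤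
      ∑ a : Fin L, ∑ b : Fin L, |∑ x ∈ Ico (-(L : ℤ)) N, Ez N y (x + ((a : ℕ) + 1 : ℕ)) *
        Ez N y (x + ((b : ℕ) + 1 : ℕ))| := by
    have h4 : ∑ x ∈ Ico (-(L : ℤ)) N, ‖∑ n ∈ Ioc x (x + L), (Ez N y n : ℂ) * ee (α * n)‖ ^ 2 =
        ‖(((∑ x ∈ Ico (-(L : ℤ)) N, ‖∑ n ∈ Ioc x (x + L), (Ez N y n : ℂ) * ee (α * n)‖ ^ 2 : ℝ)) : ℂ)‖ := by
      rw [Complex.norm_real, Real.norm_eq_abs, abs_of_nonneg (sum_nonneg fun _ _ => by positivity)]
    rw [h4, h2]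
    refine (norm_sum_le _ _).trans (sum_le_sum fun a _ => (norm_sum_le _ _).trans (sum_le_sum fun b _ => ?_))
    rw [norm_mul, norm_ee, mul_one, Complex.norm_real, Real.norm_eq_abs]
  unfold Tn
  rw [div_le_iff₀ (by positivity)]
  refine h3.trans (le_of_eq ?_)
  simp only [abs_div, abs_of_pos hN0, ← sum_div]
  field_simp

lemma sy2_eq (y a b : ℕ) : sy2 y a b = sy (![a, b] : Fin 2 → ℕ) y := by
  rw [sy_avg']
  unfold sy2
  congr 1
  apply sum_congr rfl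
  intro n _
  rw [Fin.prod_univ_two]
  rfl

lemma sy2_shift (y a h : ℕ) : sy2 y a (a + h) = sy (![0, h] : Fin 2 → ℕ) y := by
  rw [sy2_eq]
  unfold sy localFactor
  have : ∀ p, nu (![a, a + h] : Fin 2 → ℕ) p = nu (![0, h] : Fin 2 → ℕ) p := by
    intro p
    rw [← nu_shift (![0, h] : Fin 2 → ℕ) a p]
    congr 1
    funext i
    fin_cases i
    · simp
    · simp [add_comm]
  simp only [this]

theorem E_pair (y : ℕ) (ε δ : ℝ) (hε : 0 < ε) (hε2 : ε ≤ 1 / 2) (hδ : 0 < δ) :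
    ∀ᶠ N : ℕ in Filter.atTop, ∀ L : ℕ, 0 < L → (L : ℝ) ≤ (N : ℝ) ^ (1 - ε) → ∀ a b : ℕ, 1 ≤ a → a ≤ L → 1 ≤ b → b ≤ L →
    |(∑ x ∈ Ico (-(L : ℤ)) N, Ez N y (x + (a : ℕ)) * Ez N y (x + (b : ℕ))) / N - (Cr2 N L a b - sy2 y a b)| ≤ δ := by
  filter_upwards [pair_corr y ε (δ / 3) hε hε2 (by positivity), sqrt_small 2 (δ / 3) (by positivity),
    lim_small ε hε 1 (δ / 3) (by positivity), Filter.eventually_gt_atTop 0] with N h1 h2 h3 hN
  intro L hL hLN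
  have hN0 : (0 : ℝ) < N := by exact_mod_cast hN
  have key : ∀ a h : ℕ, 1 ≤ a → a + h ≤ L →
      |(∑ x ∈ Ico (-(L : ℤ)) N, Ez N y (x + (a : ℕ)) * Ez N y (x + ((a + h : ℕ) : ℕ))) / N -
        (Cr2 N L a (a + h) - sy2 y a (a + h))| ≤ δ := by
    intro a h ha1 haL
    have hh : (h : ℝ) ≤ (N : ℝ) ^ (1 - ε) := by
      refine le_trans ?_ hLN
      exact_mod_cast (by omega : h ≤ L)
    have k1 := h1 h hh
    have e1 : ∑ x ∈ Ico (-(L : ℤ)) N, Ez N y (x + (a : ℕ)) * Ez N y (x + ((a + h : ℕ) : ℕ)) =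
        ∑ n ∈ Icc 1 N, (uu N N.sqrt n - VV N (WW y) n) * (uu N N.sqrt (n + h) - VV N (WW y) (n + h)) := by
      have e2 := shift_sum (fun n => Ez N y n * Ez N y (n + h)) N L a (by
        intro n hn
        rw [Ez_out N y n hn, zero_mul]) ha1 (by omega)
      have e3 : ∀ x : ℤ, Ez N y (x + (a : ℕ)) * Ez N y (x + ((a + h : ℕ) : ℕ)) =
          Ez N y (x + (a : ℕ)) * Ez N y (x + (a : ℕ) + (h : ℕ)) := by
        intro x
        congr 2
        push_cast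
        ring
      simp only [e3]
      rw [e2]
      apply sum_congr rfl
      intro n hn
      rw [mem_Icc] at hn
      unfold Ez
      have e4 : (n : ℤ) + (h : ℤ) = ((n + h : ℕ) : ℤ) := by push_cast; rfl
      rw [e4, Uz_nat N n hn.1, Vz_nat N _ n hn.1, Uz_nat N (n + h) (by omega), Vz_nat N _ (n + h) (by omega)]
    have e5 : ∑ x ∈ Ico (-(L : ℤ)) N, Uz N (x + (a : ℕ)) * Uz N (x + ((a + h : ℕ) : ℕ)) =
        Real.log N ^ 2 * ((Icc 1 N).filter (fun n => N.sqrt < n ∧ n.Prime ∧ (n + h).Prime ∧ n + h ≤ N)).card := by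
      have e2 := shift_sum (fun n => Uz N n * Uz N (n + h)) N L a (by
        intro n hn
        rw [Uz_out N n hn, zero_mul]) ha1 (by omega)
      have e3 : ∀ x : ℤ, Uz N (x + (a : ℕ)) * Uz N (x + ((a + h : ℕ) : ℕ)) =
          Uz N (x + (a : ℕ)) * Uz N (x + (a : ℕ) + (h : ℕ)) := by
        intro x
        congr 2
        push_cast
        ring
      simp only [e3]
      rw [e2, ← sum_ite_card]
      apply sum_congr rfl
      intro n hn
      rw [mem_Icc] at hn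
      have e4 : (n : ℤ) + (h : ℤ) = ((n + h : ℕ) : ℤ) := by push_cast; rfl
      rw [e4, Uz_nat N n hn.1, Uz_nat N (n + h) (by omega)]
      exact uu_uu N N.sqrt n h hn.2
    have k2 : |Real.log N ^ 2 * ((Icc 1 N).filter (fun n => N.sqrt < n ∧ n.Prime ∧ (n + h).Prime ∧ n + h ≤ N)).card / N -
        Real.log N ^ 2 / N * twins N h| ≤ Real.log N ^ 2 / N * (N.sqrt + h) := by
      have e6 := card_close N N.sqrt h (fun n => N.sqrt < n ∧ n.Prime ∧ (n + h).Prime ∧ n + h ≤ N)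
        (fun n => n.Prime ∧ (n + h).Prime) (by
          intro n hn hnh
          constructor
          · rintro ⟨_, h4, h5, _⟩
            exact ⟨h4, h5⟩
          · rintro ⟨h4, h5⟩
            exact ⟨hn, h4, h5, hnh⟩)
      unfold twins
      rw [mul_div_right_comm, ← mul_sub, abs_mul, abs_of_nonneg (by positivity)]
      exact mul_le_mul_of_nonneg_left e6 (by positivity)
    have k3 : Real.log N ^ 2 / N * (N.sqrt + h) ≤ δ / 3 + δ / 3 := by
      rw [mul_add]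
      have h3' : 1 * (Real.log N ^ 2 * (N : ℝ) ^ (1 - ε) / N) ≤ δ / 3 := h3
      have h2' : Real.log N ^ 2 / N * N.sqrt ≤ δ / 3 := h2
      refine add_le_add h2' (le_trans ?_ h3')
      rw [one_mul, mul_div_right_comm]
      exact mul_le_mul_of_nonneg_left hh (by positivity)
    rw [e1]
    unfold Cr2
    rw [e5, sy2_shift]
    rw [abs_le] at k1 k2 ⊢
    constructor <;> linarith [k1.1, k1.2, k2.1, k2.2]
  intro a b ha haL hb hbL
  rcases le_total a b with hab | hab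
  · obtain ⟨h, rfl⟩ := Nat.exists_eq_add_of_le hab
    exact key a h ha hbL
  · obtain ⟨h, rfl⟩ := Nat.exists_eq_add_of_le hab
    have := key b h hb haL
    have e1 : ∀ x : ℤ, Ez N y (x + ((b + h : ℕ) : ℕ)) * Ez N y (x + (b : ℕ)) =
        Ez N y (x + (b : ℕ)) * Ez N y (x + ((b + h : ℕ) : ℕ)) := fun x => mul_comm _ _
    have e2 : Cr2 N L (b + h) b = Cr2 N L b (b + h) := by
      unfold Cr2
      congr 1
      exact sum_congr rfl fun x _ => mul_comm _ _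
    have e3 : sy2 y (b + h) b = sy2 y b (b + h) := by
      unfold sy2
      congr 1
      exact sum_congr rfl fun x _ => mul_comm _ _
    rw [sum_congr rfl (fun x _ => e1 x), e2, e3]
    exact this

end Pool.Agent.NH16
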