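import Pool.Agent.NH16.Part1

/-!
# All tuple lengths are equivalent
-/

set_option autoImplicit false

namespace Pool.Agent.NH16

open Finset
open Pool.Agent.H386R2.HL

lemma log_pow_le (p : ℕ) (c : ℝ) (hc : 0 < c) : ∃ A : ℝ, 1 ≤ A ∧ ∀ y : ℝ, 1 ≤ y → Real.log y ^ p ≤ A * y ^ c := by
  set a : ℝ := c / (p + 1) with ha
  have ha0 : 0 < a := by rw [ha]; positivity
  refine ⟨max 1 ((1 / a) ^ p), le_max_left _ _, ?_⟩
  intro y hy
  have hy0 : 0 < y := by linarith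
  have h1 : Real.log y ≤ y ^ a / a := Real.log_le_rpow_div hy0.le ha0
  have h2 : 0 ≤ Real.log y := Real.log_nonneg hy
  calc Real.log y ^ p ≤ (y ^ a / a) ^ p := pow_le_pow_left₀ h2 h1 p
    _ = (1 / a) ^ p * y ^ (a * p) := by
        rw [div_pow, ← Real.rpow_natCast (y ^ a), ← Real.rpow_mul hy0.le, one_div, inv_pow]
        field_simp
    _ ≤ max 1 ((1 / a) ^ p) * y ^ c := by
        apply mul_le_mul (le_max_right _ _) _ (by positivity) (by positivity)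
        apply Real.rpow_le_rpow_of_exponent_le hy
        rw [ha, div_mul_eq_mul_div, div_le_iff₀ (by positivity)]
        nlinarith

theorem equiv (k m : ℕ) (ε : ℝ) (hε : 0 < ε) (hε2 : ε ≤ 1 / 2) : ∃ C : ℝ, 1 ≤ C ∧ ∀ δ : ℝ, 0 < δ → δ ≤ 1 →
    ∀ᶠ N : ℕ in Filter.atTop, ∀ L H : ℕ, (N : ℝ) ^ ε ≤ L → L ≤ H → (H : ℝ) ≤ (N : ℝ) ^ (1 - ε) →
    EE (k + 2) N L ≤ δ → EE (m + 2) N H ≤ C * δ ^ (1 / (32 * ((m : ℝ) + 2))) := by
  obtain ⟨C1, hC1, h1⟩ := part1 m ε hε hε2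
  obtain ⟨C2, hC2, h2⟩ := part2 k ε hε hε2
  set c0 : ℝ := 1 / (32 * ((m : ℝ) + 2)) with hc0
  have hc0p : 0 < c0 := by rw [hc0]; positivity
  have hc01 : c0 ≤ 1 / 2 := by
    rw [hc0, div_le_div_iff₀ (by positivity) (by norm_num)]
    have : (0 : ℝ) ≤ m := Nat.cast_nonneg m
    nlinarith
  obtain ⟨A1, hA1, ha1⟩ := log_pow_le (m + 1) (1 / 2) (by norm_num)
  obtain ⟨A2, hA2, ha2⟩ := log_pow_le (k + 1) (1 / 2) (by norm_num)
  obtain ⟨A3, hA3, ha3⟩ := log_pow_le (2 * (m + 1)) c0 hc0p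
  set CC : ℝ := C1 + C2 with hCC
  set C5 : ℝ := 2 + C2 * A2 with hC5
  set C6 : ℝ := C2 * (C5 + √C5) with hC6
  have hC50 : 0 ≤ C5 := by rw [hC5]; positivity
  have hC60 : 0 ≤ C6 := by rw [hC6]; positivity
  set C7 : ℝ := A3 * (2 * CC) ^ c0 * C6 ^ (1 / (4 * ((m : ℝ) + 2))) with hC7
  have hC70 : 0 ≤ C7 := by rw [hC7]; positivity
  refine ⟨C1 * C7 + C1 * A1 + 1, by nlinarith [mul_nonneg (by linarith : 0 ≤ C1) hC70], ?_⟩
  intro δ hδ hδ1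
  set y : ℕ := ⌈CC / δ⌉₊ with hy
  have hCCp : 0 < CC := by rw [hCC]; linarith
  have hyge : CC / δ ≤ y := Nat.le_ceil _
  have hyCC : CC ≤ y := by
    refine le_trans ?_ hyge
    rw [le_div_iff₀ hδ]
    nlinarith
  have hylt : (y : ℝ) ≤ 2 * CC / δ := by
    have h3 := (Nat.ceil_lt_add_one (by positivity : 0 ≤ CC / δ)).le
    have h4 : 1 ≤ CC / δ := by
      rw [le_div_iff₀ hδ]
      linarith
    calc (y : ℝ) ≤ CC / δ + 1 := h3
      _ ≤ CC / δ + CC / δ := by linarith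
      _ = 2 * CC / δ := by ring
  have hy1 : (1 : ℝ) ≤ y := by linarith
  have hy0 : (0 : ℝ) < y := by linarith
  have hyinv : (y : ℝ) ^ (-(1 / 2) : ℝ) ≤ δ ^ (1 / 2 : ℝ) := by
    have h3 : 1 / δ ≤ y := by
      refine le_trans ?_ hyge
      gcongr
      linarith
    calc (y : ℝ) ^ (-(1 / 2) : ℝ) ≤ (1 / δ) ^ (-(1 / 2) : ℝ) :=
          Real.rpow_le_rpow_of_nonpos (by positivity) h3 (by norm_num)
      _ = δ ^ (1 / 2 : ℝ) := by
          rw [one_div δ, Real.inv_rpow hδ.le, ← Real.rpow_neg hδ.le, neg_neg]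
  have hlogdiv : ∀ (p : ℕ) (A : ℝ), 0 ≤ A → Real.log y ^ p ≤ A * (y : ℝ) ^ (1 / 2 : ℝ) → Real.log y ^ p / y ≤ A * δ ^ (1 / 2 : ℝ) := by
    intro p A hA h
    calc Real.log y ^ p / y ≤ A * (y : ℝ) ^ (1 / 2 : ℝ) / y := by gcongr
      _ = A * (y : ℝ) ^ (-(1 / 2) : ℝ) := by
          have : (y : ℝ) ^ (-(1 / 2) : ℝ) = (y : ℝ) ^ (1 / 2 : ℝ) / y := by
            nth_rewrite 3 [← Real.rpow_one (y : ℝ)]
            rw [← Real.rpow_sub hy0]
            norm_num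
          rw [this]; ring
      _ ≤ _ := mul_le_mul_of_nonneg_left hyinv hA
  have hδhalf : δ ≤ δ ^ (1 / 2 : ℝ) := by
    nth_rewrite 1 [← Real.rpow_one δ]
    exact Real.rpow_le_rpow_of_exponent_ge hδ hδ1 (by norm_num)
  have hδc0 : δ ^ (1 / 2 : ℝ) ≤ δ ^ c0 := Real.rpow_le_rpow_of_exponent_ge hδ hδ1 hc01
  filter_upwards [h1 y (by linarith) δ hδ, h2 y (by linarith) δ hδ] with N hN1 hN2
  intro L H hL hLH hH hE
  have hLN : (L : ℝ) ≤ (N : ℝ) ^ (1 - ε) := le_trans (by exact_mod_cast hLH) hH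
  set T : ℝ := C6 * δ ^ (1 / 4 : ℝ) with hT
  have hT0 : 0 ≤ T := by rw [hT]; positivity
  have hTn : ∀ α, Tn N L y α ≤ T := by
    intro α
    refine (hN2 L hL hLN α).trans ?_
    have hD : EE (k + 2) N L + C2 * Real.log y ^ (k + 1) / y + δ ≤ C5 * δ ^ (1 / 2 : ℝ) := by
      have h5 := hlogdiv (k + 1) A2 (by linarith) (ha2 y hy1)
      have h6 : C2 * Real.log y ^ (k + 1) / y ≤ C2 * (A2 * δ ^ (1 / 2 : ℝ)) := by
        rw [mul_div_assoc]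
        exact mul_le_mul_of_nonneg_left h5 (by linarith)
      rw [hC5]
      nlinarith
    have hEn := EE_nonneg (k + 2) N L
    have hsq : √(C5 * δ ^ (1 / 2 : ℝ)) = √C5 * δ ^ (1 / 4 : ℝ) := by
      rw [Real.sqrt_mul hC50]
      congr 1
      rw [Real.sqrt_eq_rpow, ← Real.rpow_mul hδ.le]
      norm_num
    have hq : δ ^ (1 / 2 : ℝ) ≤ δ ^ (1 / 4 : ℝ) := Real.rpow_le_rpow_of_exponent_ge hδ hδ1 (by norm_num)
    calc C2 * ((EE (k + 2) N L + C2 * Real.log y ^ (k + 1) / y + δ) +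
          √(EE (k + 2) N L + C2 * Real.log y ^ (k + 1) / y + δ)) ≤
        C2 * (C5 * δ ^ (1 / 2 : ℝ) + √(C5 * δ ^ (1 / 2 : ℝ))) := by
          apply mul_le_mul_of_nonneg_left _ (by linarith)
          exact add_le_add hD (Real.sqrt_le_sqrt hD)
      _ ≤ C2 * (C5 * δ ^ (1 / 4 : ℝ) + √C5 * δ ^ (1 / 4 : ℝ)) := by
          rw [hsq]
          gcongr
      _ = T := by rw [hT, hC6]; ring
  have hfin := hN1 L H hL hLH hH T hT0 hTn
  have e1 : T ^ (1 / (4 * ((m : ℝ) + 2))) = C6 ^ (1 / (4 * ((m : ℝ) + 2))) * δ ^ (2 * c0) := by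
    rw [hT, Real.mul_rpow hC60 (by positivity), ← Real.rpow_mul hδ.le]
    congr 2
    rw [hc0]
    field_simp
    norm_num
  have e2 : Real.log y ^ (2 * (m + 1)) ≤ A3 * (2 * CC) ^ c0 * δ ^ (-c0) := by
    refine (ha3 y hy1).trans ?_
    rw [mul_assoc]
    apply mul_le_mul_of_nonneg_left _ (by linarith)
    calc (y : ℝ) ^ c0 ≤ (2 * CC / δ) ^ c0 := Real.rpow_le_rpow hy0.le hylt hc0p.le
      _ = (2 * CC) ^ c0 * δ ^ (-c0) := by
          rw [Real.div_rpow (by positivity) hδ.le, Real.rpow_neg hδ.le]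
          rfl
  have e3 : C1 * Real.log y ^ (2 * (m + 1)) * T ^ (1 / (4 * ((m : ℝ) + 2))) ≤ C1 * C7 * δ ^ c0 := by
    rw [e1]
    calc C1 * Real.log y ^ (2 * (m + 1)) * (C6 ^ (1 / (4 * ((m : ℝ) + 2))) * δ ^ (2 * c0)) ≤
        C1 * (A3 * (2 * CC) ^ c0 * δ ^ (-c0)) * (C6 ^ (1 / (4 * ((m : ℝ) + 2))) * δ ^ (2 * c0)) := by
          gcongr
      _ = C1 * C7 * (δ ^ (-c0) * δ ^ (2 * c0)) := by rw [hC7]; ring
      _ = C1 * C7 * δ ^ c0 := by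
          rw [← Real.rpow_add hδ]
          congr 2
          ring
  have e4 : C1 * Real.log y ^ (m + 1) / y ≤ C1 * A1 * δ ^ c0 := by
    have h5 := hlogdiv (m + 1) A1 (by linarith) (ha1 y hy1)
    rw [mul_div_assoc]
    calc C1 * (Real.log y ^ (m + 1) / y) ≤ C1 * (A1 * δ ^ (1 / 2 : ℝ)) := mul_le_mul_of_nonneg_left h5 (by linarith)
      _ ≤ C1 * (A1 * δ ^ c0) := by gcongr
      _ = _ := by ring
  calc EE (m + 2) N H ≤ C1 * Real.log y ^ (2 * (m + 1)) * T ^ (1 / (4 * ((m : ℝ) + 2))) +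
        C1 * Real.log y ^ (m + 1) / y + δ := hfin
    _ ≤ C1 * C7 * δ ^ c0 + C1 * A1 * δ ^ c0 + δ ^ c0 := by
        linarith [hδhalf.trans hδc0]
    _ = _ := by ring

end Pool.Agent.NH16
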