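import Pool.Agent.NH16.Equiv

/-!
# All tuple lengths are equivalent, II
-/

set_option autoImplicit false

namespace Pool.Agent.NH16

open Finset
open Pool.Agent.Helper602.MK
open Pool.Agent.Helper602.MK.N_J5b
open Pool.Agent.H386R2.HL
open Pool.Agent.H387R2.Uni (WW WW_pos WW_factors totient_WW)

lemma Vz_win (N y L : ℕ) (x : ℤ) : ∑ n ∈ Ioc x (x + L), Vz N (WW y) n ≤ (WW y : ℝ) / Nat.totient (WW y) * L := by
  calc ∑ n ∈ Ioc x (x + L), Vz N (WW y) n ≤ ∑ _n ∈ Ioc x (x + (L : ℤ)), (WW y : ℝ) / Nat.totient (WW y) :=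
        sum_le_sum fun n _ => Vz_le _ _ _
    _ = _ := by
        rw [sum_const, nsmul_eq_mul, Int.card_Ioc]
        have : (x + (L : ℤ) - x).toNat = L := by omega
        rw [this, mul_comm]

/-- the trivial bound -/
theorem triv (m : ℕ) (ε : ℝ) (hε : 0 < ε) (hε2 : ε ≤ 1 / 2) : ∃ C : ℝ, 1 ≤ C ∧ ∀ᶠ N : ℕ in Filter.atTop, ∀ H : ℕ,
    (N : ℝ) ^ ε ≤ H → (H : ℝ) ≤ (N : ℝ) ^ (1 - ε) → EE (m + 2) N H ≤ C := by
  obtain ⟨C1, hC1, h1⟩ := part1 m ε hε hε2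
  obtain ⟨C2, hC2, h2⟩ := U_win ε hε
  set y : ℕ := ⌈C1⌉₊ with hy
  have hyC : C1 ≤ y := Nat.le_ceil _
  have hy1 : (1 : ℝ) ≤ y := by linarith
  have hlog : 0 ≤ Real.log y := Real.log_nonneg hy1
  set ρ : ℝ := (WW y : ℝ) / Nat.totient (WW y) with hρ
  have hρ0 : 0 ≤ ρ := by rw [hρ]; positivity
  set T : ℝ := 2 * (C2 + ρ) ^ 2 with hT
  have hT0 : 0 ≤ T := by rw [hT]; positivity
  have hTn : 0 ≤ T ^ (1 / (4 * ((m : ℝ) + 2))) := Real.rpow_nonneg hT0 _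
  have hbig : 0 ≤ C1 * Real.log y ^ (2 * (m + 1)) * T ^ (1 / (4 * ((m : ℝ) + 2))) + C1 * Real.log y ^ (m + 1) / y := by
    positivity
  refine ⟨C1 * Real.log y ^ (2 * (m + 1)) * T ^ (1 / (4 * ((m : ℝ) + 2))) + C1 * Real.log y ^ (m + 1) / y + 1,
    by linarith, ?_⟩
  filter_upwards [h1 y hyC 1 one_pos, big_N ε hε hε2 1] with N hN1 hb H hH1 hH2
  obtain ⟨hN2, hb⟩ := hb
  obtain ⟨hL100, -, hlogH, hHN'⟩ := hb H hH1
  have hHN := hHN' hH2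
  have hN : 0 < N := by omega
  have hH0' : 0 < H := lt_of_lt_of_le (by norm_num) hL100
  have hN0 : (0 : ℝ) < N := by exact_mod_cast hN
  have hH0 : (0 : ℝ) < H := by exact_mod_cast hH0'
  refine hN1 H H hH1 le_rfl hH2 T hT0 ?_
  intro α
  unfold Tn
  rw [div_le_iff₀ (by positivity)]
  have hpt : ∀ x ∈ Ico (-(H : ℤ)) N, ‖∑ n ∈ Ioc x (x + H), (Ez N y n : ℂ) * ee (α * n)‖ ^ 2 ≤ ((C2 + ρ) * H) ^ 2 := by
    intro x _
    apply pow_le_pow_left₀ (norm_nonneg _)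
    calc ‖∑ n ∈ Ioc x (x + H), (Ez N y n : ℂ) * ee (α * n)‖ ≤ ∑ n ∈ Ioc x (x + H), (Uz N n + Vz N (WW y) n) := by
          refine (norm_sum_le _ _).trans (sum_le_sum fun n _ => ?_)
          rw [norm_mul, norm_ee, mul_one, Complex.norm_real, Real.norm_eq_abs]
          unfold Ez
          refine (abs_sub _ _).trans ?_
          rw [abs_of_nonneg (Uz_nonneg _ _), abs_of_nonneg (Vz_nonneg _ _ _)]
      _ = ∑ n ∈ Ioc x (x + H), Uz N n + ∑ n ∈ Ioc x (x + H), Vz N (WW y) n := sum_add_distrib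
      _ ≤ C2 * H + ρ * H := add_le_add (h2 N H hN2 hL100 hHN hlogH x) (Vz_win N y H x)
      _ = (C2 + ρ) * H := by ring
  refine (sum_le_sum hpt).trans ?_
  rw [sum_const, nsmul_eq_mul, card_win]
  have : (H : ℝ) ≤ N := by exact_mod_cast hHN
  calc ((N : ℝ) + H) * ((C2 + ρ) * H) ^ 2 ≤ (2 * N) * ((C2 + ρ) * H) ^ 2 := by gcongr; linarith
    _ = T * (N * (H : ℝ) ^ 2) := by rw [hT]; ring

theorem equiv' (k m : ℕ) (ε : ℝ) (hε : 0 < ε) (hε2 : ε ≤ 1 / 2) : ∃ C : ℝ, 1 ≤ C ∧ ∀ δ : ℝ, 0 < δ →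
    ∀ᶠ N : ℕ in Filter.atTop, ∀ L H : ℕ, (N : ℝ) ^ ε ≤ L → L ≤ H → (H : ℝ) ≤ (N : ℝ) ^ (1 - ε) →
    EE (m + 2) N H ≤ C * (EE (k + 2) N L + δ) ^ (1 / (32 * ((m : ℝ) + 2))) := by
  obtain ⟨C1, hC1, h1⟩ := equiv k m ε hε hε2
  obtain ⟨C2, hC2, h2⟩ := triv m ε hε hε2
  set c0 : ℝ := 1 / (32 * ((m : ℝ) + 2)) with hc0
  have hc0p : 0 < c0 := by rw [hc0]; positivity
  have hc01 : c0 ≤ 1 := by
    rw [hc0, div_le_one (by positivity)]
    have : (0 : ℝ) ≤ m := Nat.cast_nonneg m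
    linarith
  refine ⟨2 * C1 + C2, by linarith, ?_⟩
  intro δ hδ
  obtain ⟨J, hJ⟩ := exists_pow_lt_of_lt_one hδ (by norm_num : (1 / 2 : ℝ) < 1)
  have hall : ∀ᶠ N : ℕ in Filter.atTop, ∀ j ∈ range (J + 1), ∀ L H : ℕ, (N : ℝ) ^ ε ≤ L → L ≤ H →
      (H : ℝ) ≤ (N : ℝ) ^ (1 - ε) → EE (k + 2) N L ≤ (1 / 2 : ℝ) ^ j → EE (m + 2) N H ≤ C1 * ((1 / 2 : ℝ) ^ j) ^ c0 := by
    rw [Filter.eventually_all_finset]
    intro j _
    exact h1 ((1 / 2 : ℝ) ^ j) (by positivity) (pow_le_one₀ (by norm_num) (by norm_num))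
  filter_upwards [hall, h2] with N hN1 hN2 L H hL hLH hH
  have hE0 := EE_nonneg (k + 2) N L
  have hHε : (N : ℝ) ^ ε ≤ H := hL.trans (by exact_mod_cast hLH)
  set X : ℝ := EE (k + 2) N L + δ with hX
  have hX0 : 0 < X := by rw [hX]; linarith
  by_cases hX1 : 1 < X
  · have h3 := hN2 H hHε hH
    have h4 : 1 ≤ X ^ c0 := Real.one_le_rpow hX1.le hc0p.le
    nlinarith
  · push Not at hX1
    obtain ⟨n, hn1, hn2⟩ := exists_nat_pow_near (x := 1 / X) (y := 2) (by rw [le_div_iff₀ hX0]; linarith) (by norm_num)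
    have h5 : X ≤ (1 / 2 : ℝ) ^ n := by
      rw [le_div_iff₀ hX0] at hn1
      rw [one_div, inv_pow, ← one_div, le_div_iff₀ (by positivity)]
      linarith
    have h6 : (1 / 2 : ℝ) ^ n ≤ 2 * X := by
      rw [div_lt_iff₀ hX0, pow_succ] at hn2
      rw [one_div, inv_pow, ← one_div, div_le_iff₀ (by positivity)]
      linarith
    have hnJ : n ≤ J := by
      by_contra hcon
      push Not at hcon
      have h7 : (1 / 2 : ℝ) ^ n ≤ (1 / 2 : ℝ) ^ J := pow_le_pow_of_le_one (by norm_num) (by norm_num) hcon.le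
      have h8 : δ ≤ X := by rw [hX]; linarith
      linarith
    have h9 := hN1 n (mem_range.2 (by omega)) L H hL hLH hH (by rw [hX] at h5; linarith)
    calc EE (m + 2) N H ≤ C1 * ((1 / 2 : ℝ) ^ n) ^ c0 := h9
      _ ≤ C1 * (2 * X) ^ c0 := by gcongr
      _ = C1 * (2 ^ c0 * X ^ c0) := by rw [Real.mul_rpow (by norm_num) hX0.le]
      _ ≤ C1 * (2 * X ^ c0) := by
          gcongr
          calc (2 : ℝ) ^ c0 ≤ 2 ^ (1 : ℝ) := Real.rpow_le_rpow_of_exponent_le (by norm_num) hc01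
            _ = 2 := Real.rpow_one 2
      _ ≤ (2 * C1 + C2) * X ^ c0 := by nlinarith [Real.rpow_nonneg hX0.le c0]

end Pool.Agent.NH16
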