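import Pool.Agent.NH16.Equiv2

/-!
# Reduced residue classes
-/

set_option autoImplicit false

namespace Pool.Agent.NH16

open Finset
open Pool.Agent.Helper602.MK
open Pool.Agent.Helper602.MK.N_J5b

lemma sum_units (Q : ℕ) [NeZero Q] (F : ℕ → ℂ) :
    ∑ b ∈ (range Q).filter (fun b => b.Coprime Q), F b = ∑ u : (ZMod Q)ˣ, F (u : ZMod Q).val := by
  symm
  apply sum_bij (fun (u : (ZMod Q)ˣ) _ => (u : ZMod Q).val)
  · intro u _
    rw [mem_filter, mem_range]
    exact ⟨ZMod.val_lt _, ZMod.val_coe_unit_coprime u⟩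
  · intro u _ v _ h
    exact Units.ext (ZMod.val_injective Q h)
  · intro b hb
    rw [mem_filter, mem_range] at hb
    exact ⟨ZMod.unitOfCoprime b hb.2, mem_univ _, by rw [ZMod.coe_unitOfCoprime, ZMod.val_cast_of_lt hb.1]⟩
  · intro u _
    rfl

/-- sums over reduced classes -/
theorem fibre (q Q : ℕ) (hq : 0 < q) (hQ : 0 < Q) (hqQ : q ∣ Q) (F : ℕ → ℂ) (hF : ∀ b, F (b % q) = F b) :
    (Nat.totient q : ℂ) * ∑ b ∈ (range Q).filter (fun b => b.Coprime Q), F b =
      (Nat.totient Q : ℂ) * ∑ c ∈ (range q).filter (fun b => b.Coprime q), F c := by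
  classical
  have : NeZero q := ⟨hq.ne'⟩
  have : NeZero Q := ⟨hQ.ne'⟩
  rw [sum_units Q F, sum_units q F]
  set f := ZMod.unitsMap hqQ with hf
  have hsurj : Function.Surjective f := ZMod.unitsMap_surjective hqQ
  have h1 : ∀ u : (ZMod Q)ˣ, F (u : ZMod Q).val = F ((f u : (ZMod q)ˣ) : ZMod q).val := by
    intro u
    have e1 : ((f u : (ZMod q)ˣ) : ZMod q).val = (u : ZMod Q).val % q := by
      rw [hf, ZMod.unitsMap_val, ZMod.cast_eq_val, ZMod.val_natCast]
    rw [e1, hF]
  have hcard : ∀ v w : (ZMod q)ˣ, (univ.filter (fun u => f u = v)).card = (univ.filter (fun u => f u = w)).card := by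
    intro v w
    exact MonoidHom.card_fiber_eq_of_mem_range f (hsurj v) (hsurj w)
  set c : ℕ := (univ.filter (fun u => f u = 1)).card with hc
  have htot : Nat.totient Q = Nat.totient q * c := by
    rw [← ZMod.card_units_eq_totient Q, ← ZMod.card_units_eq_totient q]
    have h2 : Fintype.card (ZMod Q)ˣ = ∑ v : (ZMod q)ˣ, (univ.filter (fun u => f u = v)).card := by
      rw [← card_univ]
      exact card_eq_sum_card_fiberwise (fun u _ => mem_univ _)
    rw [h2, sum_congr rfl (fun v _ => hcard v 1), sum_const, smul_eq_mul, card_univ]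
  have h3 : ∑ u : (ZMod Q)ˣ, F (u : ZMod Q).val = c * ∑ v : (ZMod q)ˣ, F (v : ZMod q).val := by
    rw [sum_congr rfl (fun u _ => h1 u), ← sum_fiberwise (s := univ) (g := f)
      (f := fun u => F ((f u : (ZMod q)ˣ) : ZMod q).val), mul_sum]
    apply sum_congr rfl
    intro v _
    have e2 : ∀ u ∈ univ.filter (fun u => f u = v), F ((f u : (ZMod q)ˣ) : ZMod q).val = F (v : ZMod q).val := by
      intro u hu
      rw [(mem_filter.1 hu).2]
    rw [sum_congr rfl e2, sum_const, nsmul_eq_mul, hcard v 1]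
  rw [h3, htot]
  push_cast
  ring

/-- Ramanujan sums -/
noncomputable def ram (q : ℕ) (a : ℤ) : ℂ := ∑ b ∈ (range q).filter (fun b => b.Coprime q), ee ((a : ℝ) * b / q)

lemma ee_mod (q : ℕ) (hq : 0 < q) (a : ℤ) (b : ℕ) : ee ((a : ℝ) * ((b % q : ℕ) : ℝ) / q) = ee ((a : ℝ) * b / q) := by
  have hq0 : (q : ℝ) ≠ 0 := by exact_mod_cast hq.ne'
  have h1 : (b : ℝ) = q * ((b / q : ℕ) : ℝ) + ((b % q : ℕ) : ℝ) := by
    have := Nat.div_add_mod b q
    exact_mod_cast this.symm
  have h2 : (a : ℝ) * b / q = (a : ℝ) * ((b % q : ℕ) : ℝ) / q + ((a * ((b / q : ℕ) : ℤ) : ℤ) : ℝ) := by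
    rw [Int.cast_mul, Int.cast_natCast]
    nth_rewrite 1 [h1]
    field_simp
    ring
  rw [h2, ee_add_int]

/-- periodic complex sums over a full period do not depend on the starting point -/
lemma period_shift (P : ℕ) (g : ℤ → ℂ) (hg : ∀ n, g (n + P) = g n) (x : ℤ) :
    ∑ n ∈ Ico x (x + P), g n = ∑ n ∈ range P, g n := by
  have h0 : ∑ n ∈ Ico (0 : ℤ) (0 + P), g n = ∑ n ∈ range P, g n := by
    symm
    apply sum_bij (fun (n : ℕ) _ => (n : ℤ))
    · intro n hn
      rw [mem_range] at hn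
      rw [mem_Ico]; omega
    · intro a _ b _ hab
      exact_mod_cast hab
    · intro n hn
      rw [mem_Ico] at hn
      exact ⟨n.toNat, by rw [mem_range]; omega, by omega⟩
    · intro n _
      rfl
  have hstep : ∀ x : ℤ, ∑ n ∈ Ico (x + 1) (x + 1 + P), g n = ∑ n ∈ Ico x (x + P), g n := by
    intro x
    by_cases hP : P = 0
    · subst hP; simp
    · have e1 : Ico x (x + (P : ℤ)) = insert x (Ico (x + 1) (x + P)) := by
        ext n
        rw [mem_insert, mem_Ico, mem_Ico]
        omega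
      have e2 : Ico (x + 1) (x + 1 + (P : ℤ)) = insert (x + P) (Ico (x + 1) (x + P)) := by
        ext n
        rw [mem_insert, mem_Ico, mem_Ico]
        omega
      rw [e1, e2, sum_insert (by rw [mem_Ico]; omega), sum_insert (by rw [mem_Ico]; omega), hg]
  rw [← h0]
  induction x using Int.induction_on with
  | zero => rfl
  | succ i ih => rw [hstep, ih]
  | pred i ih =>
    rw [← ih]
    have := hstep (-(i : ℤ) - 1)
    rw [sub_add_cancel] at this
    exact this.symm

lemma period_shift' (P : ℕ) (g : ℤ → ℂ) (hg : ∀ n, g (n + P) = g n) (x : ℤ) :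
    ∑ n ∈ Ioc x (x + P), g n = ∑ n ∈ range P, g n := by
  rw [← period_shift P g hg (x + 1)]
  congr 1
  ext n
  rw [mem_Ioc, mem_Ico]
  omega

/-- sums of periodic functions over windows -/
theorem per_sum (P : ℕ) (hP : 0 < P) (g : ℤ → ℂ) (hg : ∀ n, g (n + P) = g n) (B : ℝ) (hB : ∀ n, ‖g n‖ ≤ B) (x : ℤ) (L : ℕ) :
    ‖∑ n ∈ Ioc x (x + L), g n - (L : ℂ) * ((∑ n ∈ range P, g n) / P)‖ ≤ 2 * P * B := by
  have hB0 : 0 ≤ B := (norm_nonneg _).trans (hB 0)
  have hP0 : (P : ℂ) ≠ 0 := by exact_mod_cast hP.ne'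
  have hP0' : (0 : ℝ) < P := by exact_mod_cast hP
  set G : ℂ := ∑ n ∈ range P, g n with hG
  have h1 : ∀ m : ℕ, ∑ n ∈ Ioc x (x + (m * P : ℕ)), g n = m * G := by
    intro m
    induction m with
    | zero => simp
    | succ m ih =>
      have e1 : Ioc x (x + ((m + 1) * P : ℕ)) = Ioc x (x + (m * P : ℕ)) ∪ Ioc (x + (m * P : ℕ)) (x + (m * P : ℕ) + P) := by
        ext n
        rw [mem_union, mem_Ioc, mem_Ioc, mem_Ioc]
        have : (m + 1) * P = m * P + P := by ring
        rw [this]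
        push_cast
        have h3 : (0 : ℤ) ≤ (m : ℤ) * P := by positivity
        have h4 : (0 : ℤ) ≤ (P : ℤ) := by positivity
        generalize (m : ℤ) * P = z at *
        omega
      rw [e1, sum_union, ih, period_shift' P g hg]
      · push_cast
        ring
      · rw [disjoint_left]
        intro n hn1 hn2
        rw [mem_Ioc] at hn1 hn2
        omega
  have h2 : ∑ n ∈ Ioc x (x + L), g n = ((L / P : ℕ) : ℂ) * G + ∑ n ∈ Ioc (x + (L / P * P : ℕ)) (x + L), g n := by
    rw [← h1]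
    have e1 : Ioc x (x + (L : ℤ)) = Ioc x (x + (L / P * P : ℕ)) ∪ Ioc (x + (L / P * P : ℕ)) (x + L) := by
      ext n
      rw [mem_union, mem_Ioc, mem_Ioc, mem_Ioc]
      have := Nat.div_mul_le_self L P
      omega
    rw [e1, sum_union]
    rw [disjoint_left]
    intro n hn1 hn2
    rw [mem_Ioc] at hn1 hn2
    omega
  have h3 : ‖∑ n ∈ Ioc (x + (L / P * P : ℕ)) (x + L), g n‖ ≤ P * B := by
    refine (norm_sum_le _ _).trans ((sum_le_sum fun n _ => hB n).trans ?_)
    rw [sum_const, nsmul_eq_mul, Int.card_Ioc]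
    apply mul_le_mul_of_nonneg_right _ hB0
    have h4 : L % P < P := Nat.mod_lt _ hP
    have h5 := Nat.div_add_mod L P
    have h6 : L / P * P = P * (L / P) := mul_comm _ _
    exact_mod_cast (by omega : (x + (L : ℤ) - (x + (L / P * P : ℕ))).toNat ≤ P)
  have h4 : ‖G‖ ≤ P * B := by
    rw [hG]
    refine (norm_sum_le _ _).trans ((sum_le_sum fun (n : ℕ) _ => hB (n : ℤ)).trans ?_)
    rw [sum_const, nsmul_eq_mul, card_range]
  have h5 : (L : ℂ) = P * ((L / P : ℕ) : ℂ) + ((L % P : ℕ) : ℂ) := by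
    have := Nat.div_add_mod L P
    exact_mod_cast this.symm
  have h6 : ∑ n ∈ Ioc x (x + L), g n - (L : ℂ) * (G / P) =
      ∑ n ∈ Ioc (x + (L / P * P : ℕ)) (x + L), g n - ((L % P : ℕ) : ℂ) * (G / P) := by
    rw [h2, h5]
    field_simp
    ring
  rw [h6]
  refine (norm_sub_le _ _).trans ?_
  have h7 : ‖((L % P : ℕ) : ℂ) * (G / P)‖ ≤ P * B := by
    rw [norm_mul, norm_div, Complex.norm_natCast, Complex.norm_natCast]
    have h8 : ((L % P : ℕ) : ℝ) ≤ P := by exact_mod_cast (Nat.mod_lt _ hP).le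
    calc ((L % P : ℕ) : ℝ) * (‖G‖ / P) ≤ P * (‖G‖ / P) := by gcongr
      _ = ‖G‖ := by field_simp
      _ ≤ P * B := h4
  linarith

/-- periodic functions twisted by `e(α n)` with `α` far from the frequencies -/
theorem per_twist (W : ℕ) (v : ℤ → ℂ) (hv : ∀ n, v (n + W) = v n) (B : ℝ) (hB : ∀ n, ‖v n‖ ≤ B) (α : ℝ) (x : ℤ) (L : ℕ) :
    ‖ee (α * W) - 1‖ * ‖∑ n ∈ Ioc x (x + L), v n * ee (α * n)‖ ≤ 2 * W * B := by
  have hB0 : 0 ≤ B := (norm_nonneg _).trans (hB 0)
  rw [← norm_mul]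
  have h1 : (ee (α * W) - 1) * ∑ n ∈ Ioc x (x + L), v n * ee (α * n) =
      ∑ n ∈ Ioc (x + L) (x + L + W), v n * ee (α * n) - ∑ n ∈ Ioc x (x + W), v n * ee (α * n) := by
    have e1 : ee (α * W) * ∑ n ∈ Ioc x (x + L), v n * ee (α * n) = ∑ n ∈ Ioc (x + W) (x + L + W), v n * ee (α * n) := by
      rw [mul_sum]
      apply sum_bij (fun (n : ℤ) _ => n + W)
      · intro n hn
        rw [mem_Ioc] at hn ⊢
        omega
      · intro a _ b _ hab
        omega
      · intro n hn
        rw [mem_Ioc] at hn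
        exact ⟨n - W, by rw [mem_Ioc]; omega, by omega⟩
      · intro n _
        rw [hv]
        have : ee (α * ((n + W : ℤ) : ℝ)) = ee (α * W) * ee (α * n) := by
          rw [← ee_add]
          congr 1
          push_cast
          ring
        rw [this]
        ring
    have e2 : ∀ u w z : ℤ, u ≤ w → w ≤ z → ∑ n ∈ Ioc u z, v n * ee (α * n) =
        ∑ n ∈ Ioc u w, v n * ee (α * n) + ∑ n ∈ Ioc w z, v n * ee (α * n) := by
      intro u w z h1 h2
      have : Ioc u z = Ioc u w ∪ Ioc w z := by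
        ext n
        rw [mem_union, mem_Ioc, mem_Ioc, mem_Ioc]
        omega
      rw [this, sum_union]
      rw [disjoint_left]
      intro n hn1 hn2
      rw [mem_Ioc] at hn1 hn2
      omega
    have e3 := e2 x (x + W) (x + L + W) (by omega) (by omega)
    have e4 := e2 x (x + L) (x + L + W) (by omega) (by omega)
    rw [sub_mul, one_mul, e1]
    rw [e4] at e3
    linear_combination -e3
  rw [h1]
  have h2 : ∀ z : ℤ, ‖∑ n ∈ Ioc z (z + W), v n * ee (α * n)‖ ≤ W * B := by
    intro z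
    refine (norm_sum_le _ _).trans ?_
    calc ∑ n ∈ Ioc z (z + (W : ℤ)), ‖v n * ee (α * n)‖ ≤ ∑ _n ∈ Ioc z (z + (W : ℤ)), B := by
          apply sum_le_sum
          intro n _
          rw [norm_mul, norm_ee, mul_one]
          exact hB n
      _ = W * B := by
          rw [sum_const, nsmul_eq_mul, Int.card_Ioc]
          congr 2
          omega
  refine (norm_sub_le _ _).trans ?_
  have := h2 (x + L)
  have := h2 x
  linarith

end Pool.Agent.NH16
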