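import Pool.Agent.NH16.RW

/-!
# Finite Fourier analysis on windows, and rearrangement
-/

set_option autoImplicit false

namespace Pool.Agent.NH16

open Finset
open Pool.Agent.Helper602.MK
open Pool.Agent.Helper602.MK.N_J5b

/-- orthogonality -/
theorem orth (M : ℕ) (hM : 0 < M) (s : ℤ) :
    ∑ ξ ∈ range M, ee ((ξ : ℝ) * s / M) = if (M : ℤ) ∣ s then (M : ℂ) else 0 := by
  have hM' : (M : ℝ) ≠ 0 := by positivity
  have e : ∀ ξ : ℕ, ee ((ξ : ℝ) * s / M) = ee ((s : ℝ) / M) ^ ξ := by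
    intro ξ
    rw [← ee_nat_mul]
    congr 1
    ring
  simp only [e]
  split_ifs with h
  · obtain ⟨c, hc⟩ := h
    have e1 : ee ((s : ℝ) / M) = 1 := by
      rw [ee_eq_one_iff]
      refine ⟨c, ?_⟩
      rw [hc]
      push_cast
      field_simp
    rw [e1]
    simp
  · have e1 : ee ((s : ℝ) / M) ≠ 1 := by
      intro h1
      rw [ee_eq_one_iff] at h1
      obtain ⟨n, hn⟩ := h1
      apply h
      refine ⟨n, ?_⟩
      have h2 : (s : ℝ) = M * n := by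
        rw [div_eq_iff hM'] at hn
        linarith
      exact_mod_cast h2
    have e2 : ee ((s : ℝ) / M) ^ M = 1 := by
      rw [← ee_nat_mul, ee_eq_one_iff]
      refine ⟨s, ?_⟩
      field_simp
    rw [geom_sum_eq e1, e2, sub_self, zero_div]

theorem ee_re (x : ℝ) : (ee x).re = Real.cos (2 * Real.pi * x) := by
  rw [ee_eq, Complex.exp_ofReal_mul_I_re]

/-- Fourier transform of `g` on the window `(x, x + L]` -/
noncomputable def wft (g : ℤ → ℂ) (x : ℤ) (L M ξ : ℕ) : ℂ :=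
  ∑ n ∈ Ioc x (x + L), g n * ee ((ξ : ℝ) * n / M)

theorem wft_sq (g : ℤ → ℂ) (x : ℤ) (L M ξ : ℕ) :
    ((‖wft g x L M ξ‖ ^ 2 : ℝ) : ℂ) = ∑ n ∈ Ioc x (x + L), ∑ m ∈ Ioc x (x + L),
      g n * (starRingEnd ℂ) (g m) * ee ((ξ : ℝ) * ((n - m : ℤ) : ℝ) / M) := by
  unfold wft
  rw [normsq_sum]
  apply sum_congr rfl
  intro n _
  apply sum_congr rfl
  intro m _
  rw [map_mul, ee_conj]
  have : (ξ : ℝ) * ((n - m : ℤ) : ℝ) / M = (ξ : ℝ) * n / M + -((ξ : ℝ) * m / M) := by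
    push_cast; ring
  rw [this, ee_add]
  ring

/-- correlations from the Fourier transform -/
theorem wft_corr (g : ℤ → ℂ) (x : ℤ) (L M : ℕ) (hM : 0 < M) (h : ℕ) (hLM : L + h ≤ M) :
    ∑ ξ ∈ range M, ((‖wft g x L M ξ‖ ^ 2 : ℝ) : ℂ) * ee ((ξ : ℝ) * h / M) =
      M * ∑ n ∈ (Ioc x (x + L)).filter (fun n => n + h ≤ x + L), g n * (starRingEnd ℂ) (g (n + h)) := by
  simp only [wft_sq, sum_mul]
  rw [sum_comm]
  have e1 : ∀ n ∈ Ioc x (x + L), ∑ ξ ∈ range M, ∑ m ∈ Ioc x (x + L),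
      g n * (starRingEnd ℂ) (g m) * ee ((ξ : ℝ) * ((n - m : ℤ) : ℝ) / M) * ee ((ξ : ℝ) * h / M) =
      if n + h ≤ x + L then (M : ℂ) * (g n * (starRingEnd ℂ) (g (n + h))) else 0 := by
    intro n hn
    rw [mem_Ioc] at hn
    rw [sum_comm]
    have e2 : ∀ m ∈ Ioc x (x + L), ∑ ξ ∈ range M,
        g n * (starRingEnd ℂ) (g m) * ee ((ξ : ℝ) * ((n - m : ℤ) : ℝ) / M) * ee ((ξ : ℝ) * h / M) =
        if m = n + h then (M : ℂ) * (g n * (starRingEnd ℂ) (g m)) else 0 := by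
      intro m hm
      rw [mem_Ioc] at hm
      have e3 : ∀ ξ ∈ range M, g n * (starRingEnd ℂ) (g m) * ee ((ξ : ℝ) * ((n - m : ℤ) : ℝ) / M) *
          ee ((ξ : ℝ) * h / M) = g n * (starRingEnd ℂ) (g m) * ee ((ξ : ℝ) * ((n - m + h : ℤ) : ℝ) / M) := by
        intro ξ _
        rw [mul_assoc, ← ee_add]
        congr 2
        push_cast
        ring
      rw [sum_congr rfl e3, ← mul_sum, orth M hM]
      by_cases h1 : m = n + h
      · rw [if_pos h1, if_pos]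
        · ring
        · rw [h1]; simp
      · rw [if_neg h1, if_neg, mul_zero]
        intro h2
        have h3 : n - m + h = 0 := by
          apply Int.eq_zero_of_abs_lt_dvd h2
          rw [abs_lt]
          omega
        omega
    rw [sum_congr rfl e2, sum_ite_eq']
    by_cases h4 : n + h ≤ x + L
    · rw [if_pos h4, if_pos]
      rw [mem_Ioc]
      omega
    · rw [if_neg h4, if_neg]
      rw [mem_Ioc]
      omega
  rw [sum_congr rfl e1, ← sum_filter, mul_sum]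

/-- Parseval on a window -/
theorem wft_parseval (g : ℤ → ℂ) (x : ℤ) (L M : ℕ) (hM : 0 < M) (hLM : L ≤ M) :
    ∑ ξ ∈ range M, ‖wft g x L M ξ‖ ^ 2 = M * ∑ n ∈ Ioc x (x + L), ‖g n‖ ^ 2 := by
  have h := wft_corr g x L M hM 0 (by omega)
  simp only [Nat.cast_zero, mul_zero, zero_div, ee_zero, mul_one, add_zero] at h
  have e2 : (Ioc x (x + L)).filter (fun n => n ≤ x + L) = Ioc x (x + L) := by
    apply filter_true_of_mem
    intro n hn
    exact (mem_Ioc.1 hn).2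
  rw [e2] at h
  have e3 : ∀ n : ℤ, g n * (starRingEnd ℂ) (g n) = ((‖g n‖ ^ 2 : ℝ) : ℂ) := by
    intro n
    rw [Complex.mul_conj, Complex.normSq_eq_norm_sq]
  simp only [e3] at h
  exact_mod_cast h

/-- Parseval for exponential polynomials with frequencies in `Y ⊆ [0, M)` -/
theorem poly_parseval (M : ℕ) (hM : 0 < M) (Y : Finset ℕ) (hY : Y ⊆ range M) (c : ℕ → ℂ) :
    ∑ h ∈ range M, ‖∑ ξ ∈ Y, c ξ * ee ((ξ : ℝ) * h / M)‖ ^ 2 = M * ∑ ξ ∈ Y, ‖c ξ‖ ^ 2 := by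
  have e0 : ∀ h : ℕ, ((‖∑ ξ ∈ Y, c ξ * ee ((ξ : ℝ) * h / M)‖ ^ 2 : ℝ) : ℂ) =
      ∑ ξ ∈ Y, ∑ η ∈ Y, c ξ * (starRingEnd ℂ) (c η) * ee ((h : ℝ) * ((ξ - η : ℤ) : ℝ) / M) := by
    intro h
    rw [normsq_sum]
    apply sum_congr rfl
    intro ξ _
    apply sum_congr rfl
    intro η _
    rw [map_mul, ee_conj]
    have : (h : ℝ) * ((ξ - η : ℤ) : ℝ) / M = (ξ : ℝ) * h / M + -((η : ℝ) * h / M) := by
      push_cast; ring
    rw [this, ee_add]
    ring
  have e1 : ((∑ h ∈ range M, ‖∑ ξ ∈ Y, c ξ * ee ((ξ : ℝ) * h / M)‖ ^ 2 : ℝ) : ℂ) =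
      ((M * ∑ ξ ∈ Y, ‖c ξ‖ ^ 2 : ℝ) : ℂ) := by
    rw [Complex.ofReal_sum]
    simp only [e0]
    rw [sum_comm]
    push_cast
    rw [mul_sum]
    apply sum_congr rfl
    intro ξ hξ
    rw [sum_comm]
    have e2 : ∀ η ∈ Y, ∑ h ∈ range M, c ξ * (starRingEnd ℂ) (c η) * ee ((h : ℝ) * ((ξ : ℝ) - η) / M) =
        if ξ = η then (M : ℂ) * ((‖c ξ‖ : ℂ) ^ 2) else 0 := by
      intro η hη
      have e3 : (ξ : ℝ) - η = ((ξ - η : ℤ) : ℝ) := by push_cast; rfl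
      rw [← mul_sum, e3, orth M hM]
      have h1 := mem_range.1 (hY hξ)
      have h2 := mem_range.1 (hY hη)
      by_cases h3 : ξ = η
      · subst h3
        rw [if_pos rfl, if_pos (by simp), Complex.mul_conj, Complex.normSq_eq_norm_sq]
        push_cast
        ring
      · rw [if_neg h3, if_neg, mul_zero]
        intro h4
        have h5 : (ξ : ℤ) - η = 0 := by
          apply Int.eq_zero_of_abs_lt_dvd h4
          rw [abs_lt]
          omega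
        omega
    rw [sum_congr rfl e2, sum_ite_eq, if_pos hξ]
  exact_mod_cast e1

/-! ### rearrangement -/

theorem weight_le (s : ℝ) (hs : 1 < s) : ∃ D : ℝ, 0 < D ∧ ∀ n : ℕ, 1 ≤ n →
    (Real.log (2 * n) / n) ^ s ≤ D * (n : ℝ) ^ (-((s + 1) / 2)) := by
  set δ : ℝ := (s - 1) / (2 * s) with hδ
  have hs0 : 0 < s := by linarith
  have hδ0 : 0 < δ := by
    rw [hδ]
    apply div_pos <;> linarith
  refine ⟨(2 ^ δ / δ) ^ s, by positivity, fun n hn => ?_⟩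
  have hn0 : (0 : ℝ) < n := by exact_mod_cast hn
  have hn1 : (1 : ℝ) ≤ n := by exact_mod_cast hn
  have h1 : Real.log (2 * n) ≤ (2 * (n : ℝ)) ^ δ / δ :=
    Real.log_le_rpow_div (by positivity) hδ0
  have h5 : 0 ≤ Real.log (2 * n) / n := div_nonneg (Real.log_nonneg (by linarith)) hn0.le
  have h4 : Real.log (2 * n) / n ≤ (2 ^ δ / δ) * (n : ℝ) ^ (δ - 1) := by
    rw [div_le_iff₀ hn0, mul_assoc]
    have : (n : ℝ) ^ (δ - 1) * n = (n : ℝ) ^ δ := by
      nth_rewrite 2 [← Real.rpow_one (n : ℝ)]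
      rw [← Real.rpow_add hn0]
      norm_num
    rw [this]
    rw [Real.mul_rpow (by norm_num) hn0.le] at h1
    calc Real.log (2 * n) ≤ 2 ^ δ * (n : ℝ) ^ δ / δ := h1
      _ = _ := by ring
  calc (Real.log (2 * n) / n) ^ s ≤ ((2 ^ δ / δ) * (n : ℝ) ^ (δ - 1)) ^ s :=
        Real.rpow_le_rpow h5 h4 hs0.le
    _ = _ := by
      rw [Real.mul_rpow (by positivity) (by positivity), ← Real.rpow_mul hn0.le]
      congr 2
      rw [hδ]
      field_simp
      ring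

theorem rearr_aux {ι : Type*} (s : ℝ) (hs : 1 < s) (F : ι → ℝ) (hF : ∀ i, 0 ≤ F i) (B : ℝ) (R : Finset ι)
    (h : ∀ X : Finset ι, X ⊆ R → X.Nonempty → ∑ i ∈ X, F i ≤ B * Real.log (2 * X.card)) :
    ∀ n : ℕ, ∀ X : Finset ι, X ⊆ R → X.card = n → ∑ i ∈ X, F i ^ s ≤
      ∑ i ∈ range n, (B * Real.log (2 * ((i + 1 : ℕ) : ℝ)) / ((i + 1 : ℕ) : ℝ)) ^ s := by
  classical
  intro n
  induction n with
  | zero =>
    intro X _ hc
    rw [Finset.card_eq_zero] at hc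
    subst hc
    simp
  | succ n ih =>
    intro X hX hc
    have hne : X.Nonempty := Finset.card_pos.1 (by omega)
    obtain ⟨ξ, hξ, hmin⟩ := Finset.exists_min_image X F hne
    have h1 := h X hX hne
    have h2 : (X.card : ℝ) * F ξ ≤ ∑ η ∈ X, F η := by
      rw [← nsmul_eq_mul]
      exact Finset.card_nsmul_le_sum _ _ _ fun η hη => hmin η hη
    rw [hc] at h1 h2
    have hpos : (0 : ℝ) < ((n + 1 : ℕ) : ℝ) := by positivity
    have h3 : F ξ ≤ B * Real.log (2 * ((n + 1 : ℕ) : ℝ)) / ((n + 1 : ℕ) : ℝ) := by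
      rw [le_div_iff₀ hpos]
      linarith
    have h4 : F ξ ^ s ≤ (B * Real.log (2 * ((n + 1 : ℕ) : ℝ)) / ((n + 1 : ℕ) : ℝ)) ^ s :=
      Real.rpow_le_rpow (hF ξ) h3 (by linarith)
    have h5 := ih (X.erase ξ) ((Finset.erase_subset _ _).trans hX) (by
      rw [Finset.card_erase_of_mem hξ]; omega)
    rw [← Finset.add_sum_erase X _ hξ, Finset.sum_range_succ]
    linarith

/-- if the sum over any `m` points is at most `B log (2 m)`, then the `s`-th powers are summable, `s > 1` -/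
theorem rearr (s : ℝ) (hs : 1 < s) : ∃ Z : ℝ, 0 < Z ∧ ∀ {ι : Type} (F : ι → ℝ) (_ : ∀ i, 0 ≤ F i)
    (B : ℝ) (_ : 0 ≤ B) (R : Finset ι)
    (_ : ∀ X : Finset ι, X ⊆ R → X.Nonempty → ∑ i ∈ X, F i ≤ B * Real.log (2 * X.card)),
    ∑ i ∈ R, F i ^ s ≤ Z * B ^ s := by
  obtain ⟨D, hD, hw⟩ := weight_le s hs
  have hsum : Summable (fun n : ℕ => ((n : ℝ)) ^ (-((s + 1) / 2))) :=
    Real.summable_nat_rpow.2 (by linarith)
  have hsum' : Summable (fun n : ℕ => (((n + 1 : ℕ) : ℝ)) ^ (-((s + 1) / 2))) :=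
    (summable_nat_add_iff 1).2 hsum
  set S := ∑' n : ℕ, (((n + 1 : ℕ) : ℝ)) ^ (-((s + 1) / 2)) with hS
  have hS0 : 0 ≤ S := tsum_nonneg (fun n => by positivity)
  refine ⟨D * S + 1, by positivity, ?_⟩
  intro ι F hF B hB R h
  have h8 := rearr_aux s hs F hF B R h R.card R (Finset.Subset.refl _) rfl
  refine h8.trans ?_
  have h9 : ∀ i ∈ range R.card, (B * Real.log (2 * ((i + 1 : ℕ) : ℝ)) / ((i + 1 : ℕ) : ℝ)) ^ s ≤
      B ^ s * D * (((i + 1 : ℕ) : ℝ)) ^ (-((s + 1) / 2)) := by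
    intro i _
    have hi1 : (1 : ℝ) ≤ ((i + 1 : ℕ) : ℝ) := by exact_mod_cast Nat.succ_pos i
    rw [mul_div_assoc, Real.mul_rpow hB (div_nonneg (Real.log_nonneg (by linarith)) (by linarith)), mul_assoc]
    exact mul_le_mul_of_nonneg_left (hw (i + 1) (Nat.succ_pos i)) (by positivity)
  refine (Finset.sum_le_sum h9).trans ?_
  rw [← Finset.mul_sum]
  have h10 : ∑ i ∈ range R.card, (((i + 1 : ℕ) : ℝ)) ^ (-((s + 1) / 2)) ≤ S :=
    hsum'.sum_le_tsum _ (fun i _ => by positivity)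
  have hBs : 0 ≤ B ^ s := Real.rpow_nonneg hB _
  calc B ^ s * D * ∑ i ∈ range R.card, (((i + 1 : ℕ) : ℝ)) ^ (-((s + 1) / 2))
      ≤ B ^ s * D * S := mul_le_mul_of_nonneg_left h10 (by positivity)
    _ ≤ (D * S + 1) * B ^ s := by nlinarith

/-- few large values -/
theorem heavy_card {ι : Type*} (F : ι → ℝ) (hF : ∀ i, 0 ≤ F i) (s : ℝ) (hs : 0 < s) (R : Finset ι)
    (D τ : ℝ) (hτ : 0 < τ) (h : ∑ i ∈ R, F i ^ s ≤ D) :
    ((R.filter (fun i => τ < F i)).card : ℝ) ≤ D / τ ^ s := by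
  have hτs : 0 < τ ^ s := Real.rpow_pos_of_pos hτ s
  rw [le_div_iff₀ hτs, ← nsmul_eq_mul]
  refine le_trans (card_nsmul_le_sum _ (fun i => F i ^ s) _ ?_) (le_trans ?_ h)
  · intro i hi
    exact Real.rpow_le_rpow hτ.le (mem_filter.1 hi).2.le hs.le
  · exact sum_le_sum_of_subset_of_nonneg (filter_subset _ _)
      (fun i _ _ => Real.rpow_nonneg (hF i) _)

/-- the square sum of the small values is small -/
theorem light_sum {ι : Type*} (F : ι → ℝ) (hF : ∀ i, 0 ≤ F i) (s : ℝ) (hs2 : s < 2) (R : Finset ι)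
    (D τ : ℝ) (hτ : 0 < τ) (h : ∑ i ∈ R, F i ^ s ≤ D) :
    ∑ i ∈ R.filter (fun i => ¬ τ < F i), F i ^ 2 ≤ τ ^ (2 - s) * D := by
  have hτs : 0 < τ ^ (2 - s) := Real.rpow_pos_of_pos hτ _
  refine le_trans ?_ (mul_le_mul_of_nonneg_left h hτs.le)
  rw [mul_sum]
  refine le_trans (sum_le_sum (f := fun i => F i ^ 2) (g := fun i => τ ^ (2 - s) * F i ^ s) ?_)
    (sum_le_sum_of_subset_of_nonneg (filter_subset _ _)
      (fun i _ _ => mul_nonneg hτs.le (Real.rpow_nonneg (hF i) _)))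
  intro i hi
  have h1 : F i ≤ τ := not_lt.1 (mem_filter.1 hi).2
  rcases (hF i).eq_or_lt with h0 | h0
  · rw [← h0]
    simp only [ne_eq, OfNat.ofNat_ne_zero, not_false_eq_true, zero_pow]
    exact mul_nonneg hτs.le (Real.rpow_nonneg le_rfl _)
  · have h2 : F i ^ 2 = F i ^ (2 - s) * F i ^ s := by
      rw [← Real.rpow_add h0]
      norm_num
    rw [h2]
    apply mul_le_mul_of_nonneg_right _ (Real.rpow_nonneg (hF i) _)
    exact Real.rpow_le_rpow h0.le h1 (by linarith)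

end Pool.Agent.NH16
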