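import Pool.Agent.NH16.Sing
import Pool.Agent.Helper602.MK.J13

/-!
# Counting primes and rough numbers in tuples
-/

set_option autoImplicit false

namespace Pool.Agent.NH16

open Finset
open Pool.Agent.H386R2.HL
open Pool.Agent.H387R2.Uni (WW WW_pos WW_factors totient_WW)

theorem sy_fun {r : ℕ} (a : Fin r → ℕ) (y : ℕ) :
    sy a y = ((WW y : ℝ) / Nat.totient (WW y)) ^ r * ((gg (WW y) a : ℝ) / WW y) := by
  unfold sy localFactor
  rw [prod_mul_distrib, prod_one_sub_nu a _ (fun p hp => Nat.prime_of_mem_primesBelow hp)]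
  change _ * ((gg (WW y) a : ℝ) / (WW y : ℝ)) = _
  congr 1
  rw [Finset.prod_pow, totient_WW, prod_inv_distrib]
  congr 1
  have hW : (WW y : ℝ) ≠ 0 := by exact_mod_cast (WW_pos y).ne'
  rw [div_mul_eq_div_div, div_self hW, one_div]

/-- two conditions which agree away from the ends -/
theorem card_close (N m h : ℕ) (P Q : ℕ → Prop) [DecidablePred P] [DecidablePred Q]
    (hPQ : ∀ n, m < n → n + h ≤ N → (P n ↔ Q n)) :
    |(((Icc 1 N).filter P).card : ℝ) - ((Icc 1 N).filter Q).card| ≤ m + h := by
  classical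
  have key : ∀ (P Q : ℕ → Prop) [DecidablePred P] [DecidablePred Q],
      (∀ n, m < n → n + h ≤ N → (P n → Q n)) →
      (((Icc 1 N).filter P).card : ℝ) ≤ ((Icc 1 N).filter Q).card + (m + h) := by
    intro P Q _ _ hPQ
    have h1 : (Icc 1 N).filter P ⊆ ((Icc 1 N).filter Q) ∪ (Icc 1 m ∪ Ioc (N - h) N) := by
      intro n hn
      rw [mem_filter, mem_Icc] at hn
      rw [mem_union, mem_filter, mem_union, mem_Icc, mem_Icc, mem_Ioc]
      by_cases h2 : m < n
      · by_cases h3 : n + h ≤ N
        · left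
          exact ⟨hn.1, hPQ n h2 h3 hn.2⟩
        · right; right
          omega
      · right; left
        omega
    have h2 := (card_le_card h1).trans ((card_union_le _ _).trans
      (add_le_add_right (card_union_le _ _) _))
    rw [Nat.card_Icc, Nat.card_Ioc] at h2
    have h3 : ((Icc 1 N).filter P).card ≤ ((Icc 1 N).filter Q).card + (m + h) := by omega
    exact_mod_cast h3
  have h1 := key P Q (fun n a b => (hPQ n a b).1)
  have h2 := key Q P (fun n a b => (hPQ n a b).2)
  rw [abs_le]
  constructor <;> linarith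

lemma coprime_periodic (W u : ℕ) : Function.Periodic (fun n => Nat.Coprime W (n + u)) W := by
  intro n
  simp only
  rw [eq_iff_iff]
  have : n + W + u = (n + u) + W := by ring
  rw [this]
  exact Nat.coprime_add_self_right

theorem cnt_rough (W : ℕ) (hW : 0 < W) {r : ℕ} (a : Fin r → ℕ) (N : ℕ) :
    |(((Icc 1 N).filter (fun n => ∀ i, Nat.Coprime W (n + a i))).card : ℝ) - N * ((gg W a : ℝ) / W)| ≤ W := by
  classical
  set P : ℕ → Prop := fun n => ∀ i, Nat.Coprime W (n + a i) with hP
  have hper : Function.Periodic P W := by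
    intro n
    simp only [hP]
    rw [eq_iff_iff]
    constructor
    · intro h i
      have := coprime_periodic W (a i) n
      simp only at this
      rw [← this]
      exact h i
    · intro h i
      have := coprime_periodic W (a i) n
      simp only at this
      rw [this]
      exact h i
  have hgg : gg W a = ((Ico 0 W).filter P).card := by
    unfold gg
    rw [range_eq_Ico]
  have hcount : ∀ m : ℕ, ((Ico m (m + W)).filter P).card = gg W a := by
    intro m
    rw [Nat.filter_Ico_card_eq_of_periodic m W P hper, hgg]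
    have := Nat.filter_Ico_card_eq_of_periodic 0 W P hper
    rw [zero_add] at this
    exact this.symm
  have hblock : ∀ q : ℕ, ((Ico 1 (1 + q * W)).filter P).card = q * gg W a := by
    intro q
    induction q with
    | zero => simp
    | succ q ih =>
      have h1 : Ico 1 (1 + (q + 1) * W) = Ico 1 (1 + q * W) ∪ Ico (1 + q * W) (1 + q * W + W) := by
        rw [Ico_union_Ico_eq_Ico (by omega) (by omega)]
        congr 1
        ring
      rw [h1, filter_union, card_union_of_disjoint, ih, hcount]
      · ring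
      · apply disjoint_filter_filter
        exact Ico_disjoint_Ico_consecutive _ _ _
  set q := N / W with hq
  have hdiv : q * W + N % W = N := Nat.div_add_mod' N W
  have hs : N % W < W := Nat.mod_lt _ hW
  have hlow : q * gg W a ≤ ((Icc 1 N).filter P).card := by
    rw [← hblock q]
    apply card_le_card
    apply filter_subset_filter
    intro n hn
    rw [mem_Ico] at hn
    rw [mem_Icc]
    omega
  have hup : ((Icc 1 N).filter P).card ≤ q * gg W a + N % W := by
    rw [← hblock q]
    have h1 : (Icc 1 N).filter P ⊆ ((Ico 1 (1 + q * W)).filter P) ∪ Ico (1 + q * W) (N + 1) := by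
      intro n hn
      rw [mem_filter, mem_Icc] at hn
      rw [mem_union, mem_filter, mem_Ico, mem_Ico]
      by_cases h2 : n < 1 + q * W
      · left; exact ⟨⟨hn.1.1, h2⟩, hn.2⟩
      · right; omega
    have h2 := (card_le_card h1).trans (card_union_le _ _)
    rw [Nat.card_Ico] at h2
    omega
  have hW0 : (0 : ℝ) < W := by exact_mod_cast hW
  have hggW : (gg W a : ℝ) / W ≤ 1 := by
    rw [div_le_one hW0]
    have : gg W a ≤ W := by
      unfold gg
      exact (card_filter_le _ _).trans (le_of_eq (card_range W))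
    exact_mod_cast this
  have hgg0 : 0 ≤ (gg W a : ℝ) / W := by positivity
  have hNr : (N : ℝ) = q * W + (N % W : ℕ) := by exact_mod_cast hdiv.symm
  have e1 : (N : ℝ) * ((gg W a : ℝ) / W) = q * gg W a + (N % W : ℕ) * ((gg W a : ℝ) / W) := by
    rw [hNr]
    field_simp
  have e2 : ((N % W : ℕ) : ℝ) ≤ W := by exact_mod_cast hs.le
  have e3 : (0 : ℝ) ≤ ((N % W : ℕ) : ℝ) := Nat.cast_nonneg _
  have e4 : ((N % W : ℕ) : ℝ) * ((gg W a : ℝ) / W) ≤ W := by
    calc ((N % W : ℕ) : ℝ) * ((gg W a : ℝ) / W) ≤ W * 1 := by gcongr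
      _ = W := mul_one _
  have e5 : 0 ≤ ((N % W : ℕ) : ℝ) * ((gg W a : ℝ) / W) := by positivity
  have l1 : (q : ℝ) * gg W a ≤ ((Icc 1 N).filter P).card := by exact_mod_cast hlow
  have l2 : (((Icc 1 N).filter P).card : ℝ) ≤ q * gg W a + (N % W : ℕ) := by exact_mod_cast hup
  rw [e1, abs_le]
  constructor <;> linarith

/-- number of primes up to `N` in a class -/
def Dp (W N c : ℕ) : ℕ := ((Icc 1 N).filter (fun p => p.Prime ∧ p ≡ c [MOD W])).card

theorem Dp_mod (W N c : ℕ) : Dp W N (c % W) = Dp W N c := by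
  unfold Dp
  congr 1
  apply filter_congr
  intro p _
  constructor
  · rintro ⟨h1, h2⟩
    exact ⟨h1, h2.trans (Nat.mod_modEq c W)⟩
  · rintro ⟨h1, h2⟩
    exact ⟨h1, h2.trans (Nat.mod_modEq c W).symm⟩

theorem pnt_unif (W : ℕ) (hW : 0 < W) (δ : ℝ) (hδ : 0 < δ) : ∃ N0 : ℕ, ∀ N : ℕ, N0 ≤ N → ∀ c : ℕ,
    Nat.Coprime W c → |(Dp W N c : ℝ) * Real.log N / N - 1 / (Nat.totient W : ℝ)| ≤ δ := by
  have h1 : ∀ᶠ N : ℕ in Filter.atTop, ∀ c ∈ range W, Nat.Coprime W c →
      |(Dp W N c : ℝ) * Real.log N / N - 1 / (Nat.totient W : ℝ)| ≤ δ := by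
    rw [Filter.eventually_all_finset]
    intro c _
    by_cases hc : Nat.Coprime W c
    · have h2 := Pool.Agent.Helper602.MK.N_J13.J13 W c hW hc.symm
      rw [Metric.tendsto_nhds] at h2
      filter_upwards [h2 δ hδ] with N hN _
      rw [Real.dist_eq] at hN
      exact hN.le
    · exact Filter.Eventually.of_forall fun N h => absurd h hc
  obtain ⟨N0, hN0⟩ := Filter.eventually_atTop.1 h1
  refine ⟨N0, fun N hN c hc => ?_⟩
  rw [← Dp_mod]
  apply hN0 N hN (c % W) (mem_range.2 (Nat.mod_lt _ hW))
  have := coprime_mod_add W c 0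
  simp only [add_zero] at this
  exact this.2 hc

theorem Dp_shift (W N b s : ℕ) :
    |(((Icc 1 N).filter (fun n => (n + s).Prime ∧ n ≡ b [MOD W])).card : ℝ) - Dp W N (b + s)| ≤ s := by
  classical
  set A := (Icc 1 N).filter (fun n => (n + s).Prime ∧ n ≡ b [MOD W]) with hA
  have h1 : A.card ≤ Dp W N (b + s) + s := by
    have h2 : A.image (· + s) ⊆ ((Icc 1 N).filter (fun p => p.Prime ∧ p ≡ b + s [MOD W])) ∪ Ioc N (N + s) := by
      intro p hp
      rw [mem_image] at hp
      obtain ⟨n, hn, rfl⟩ := hp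
      rw [hA, mem_filter, mem_Icc] at hn
      rw [mem_union, mem_filter, mem_Icc, mem_Ioc]
      by_cases h3 : n + s ≤ N
      · left
        exact ⟨⟨by omega, h3⟩, hn.2.1, hn.2.2.add_right s⟩
      · right; omega
    have h3 := (card_le_card h2).trans (card_union_le _ _)
    rw [card_image_of_injective _ (add_left_injective s), Nat.card_Ioc] at h3
    unfold Dp
    omega
  have h2 : Dp W N (b + s) ≤ A.card + s := by
    have h3 : ((Icc 1 N).filter (fun p => p.Prime ∧ p ≡ b + s [MOD W])) ⊆ A.image (· + s) ∪ Icc 1 s := by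
      intro p hp
      rw [mem_filter, mem_Icc] at hp
      rw [mem_union, mem_image, mem_Icc]
      by_cases h4 : p ≤ s
      · right; omega
      · left
        refine ⟨p - s, ?_, by omega⟩
        rw [hA, mem_filter, mem_Icc]
        have h5 : p - s + s = p := by omega
        refine ⟨by omega, by rw [h5]; exact hp.2.1, ?_⟩
        apply Nat.ModEq.add_right_cancel' s
        rw [h5]
        exact hp.2.2
    have h4 := (card_le_card h3).trans (card_union_le _ _)
    rw [card_image_of_injective _ (add_left_injective s), Nat.card_Icc] at h4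
    unfold Dp
    omega
  have h3 : (A.card : ℝ) ≤ Dp W N (b + s) + s := by exact_mod_cast h1
  have h4 : (Dp W N (b + s) : ℝ) ≤ A.card + s := by exact_mod_cast h2
  rw [abs_le]
  constructor <;> linarith

/-- primes in one place of the tuple, rough numbers in the others -/
theorem cnt_prime (W : ℕ) (hW : 0 < W) (δ : ℝ) (hδ : 0 < δ) : ∃ N0 : ℕ, ∀ N : ℕ, N0 ≤ N →
    ∀ (r : ℕ) (a : Fin r → ℕ) (i : Fin r),
    |(((Icc 1 N).filter (fun n => (n + a i).Prime ∧ ∀ j, Nat.Coprime W (n + a j))).card : ℝ) * Real.log N / N -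
      (gg W a : ℝ) / Nat.totient W| ≤ δ + W * a i * Real.log N / N := by
  classical
  have hW0 : (0 : ℝ) < W := by exact_mod_cast hW
  obtain ⟨N0, hN0⟩ := pnt_unif W hW (δ / W) (by positivity)
  refine ⟨max N0 1, fun N hN r a i => ?_⟩
  have hN1 : 1 ≤ N := le_trans (le_max_right _ _) hN
  have hNr : (0 : ℝ) < N := by exact_mod_cast hN1
  have hlog : 0 ≤ Real.log N := Real.log_nonneg (by exact_mod_cast hN1)
  set G : ℕ → Prop := fun b => ∀ j, Nat.Coprime W (b + a j) with hG
  have hGmod : ∀ n, G (n % W) ↔ G n := by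
    intro n
    simp only [hG]
    exact forall_congr' fun j => coprime_mod_add W n (a j)
  have hsplit : ((Icc 1 N).filter (fun n => (n + a i).Prime ∧ ∀ j, Nat.Coprime W (n + a j))).card =
      ∑ b ∈ (range W).filter G, ((Icc 1 N).filter (fun n => (n + a i).Prime ∧ n ≡ b [MOD W])).card := by
    rw [card_eq_sum_card_fiberwise (f := fun n => n % W) (t := (range W).filter G)]
    · apply sum_congr rfl
      intro b hb
      rw [mem_filter, mem_range] at hb
      congr 1
      rw [filter_filter]
      apply filter_congr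
      intro n _
      constructor
      · rintro ⟨⟨h1, h2⟩, h3⟩
        exact ⟨h1, by unfold Nat.ModEq; rw [h3, Nat.mod_eq_of_lt hb.1]⟩
      · rintro ⟨h1, h2⟩
        have h3 : n % W = b := by
          unfold Nat.ModEq at h2
          rwa [Nat.mod_eq_of_lt hb.1] at h2
        refine ⟨⟨h1, ?_⟩, h3⟩
        have h4 : G (n % W) := by rw [h3]; exact hb.2
        exact (hGmod n).1 h4
    · intro n hn
      rw [mem_coe, mem_filter] at hn
      rw [mem_coe, mem_filter, mem_range]
      exact ⟨Nat.mod_lt _ hW, (hGmod n).2 hn.2.2⟩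
  have hgg : (gg W a : ℝ) / Nat.totient W = ∑ b ∈ (range W).filter G, 1 / (Nat.totient W : ℝ) := by
    rw [sum_const, nsmul_eq_mul]
    unfold gg
    rw [mul_one_div]
  rw [hsplit, hgg]
  push_cast
  rw [mul_div_assoc, sum_mul, ← sum_sub_distrib]
  have hterm : ∀ b ∈ (range W).filter G,
      |(((Icc 1 N).filter (fun n => (n + a i).Prime ∧ n ≡ b [MOD W])).card : ℝ) * (Real.log N / N) -
        1 / (Nat.totient W : ℝ)| ≤ δ / W + a i * (Real.log N / N) := by
    intro b hb
    rw [mem_filter] at hb
    have h1 := hN0 N (le_trans (le_max_left _ _) hN) (b + a i) (hb.2 i)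
    have h2 := Dp_shift W N b (a i)
    set A : ℝ := (((Icc 1 N).filter (fun n => (n + a i).Prime ∧ n ≡ b [MOD W])).card : ℝ)
    have h3 : A * (Real.log N / N) - 1 / (Nat.totient W : ℝ) =
        (A - Dp W N (b + a i)) * (Real.log N / N) + ((Dp W N (b + a i) : ℝ) * Real.log N / N - 1 / (Nat.totient W : ℝ)) := by
      ring
    rw [h3]
    refine (abs_add_le _ _).trans ?_
    rw [abs_mul, abs_of_nonneg (div_nonneg hlog hNr.le)]
    have h4 : |A - Dp W N (b + a i)| * (Real.log N / N) ≤ a i * (Real.log N / N) :=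
      mul_le_mul_of_nonneg_right h2 (div_nonneg hlog hNr.le)
    linarith
  have hcard : (((range W).filter G).card : ℝ) ≤ W := by
    exact_mod_cast (card_filter_le _ _).trans (le_of_eq (card_range W))
  calc |∑ b ∈ (range W).filter G, ((((Icc 1 N).filter (fun n => (n + a i).Prime ∧ n ≡ b [MOD W])).card : ℝ) *
        (Real.log N / N) - 1 / (Nat.totient W : ℝ))|
      ≤ ∑ b ∈ (range W).filter G, (δ / W + a i * (Real.log N / N)) :=
        (abs_sum_le_sum_abs _ _).trans (sum_le_sum hterm)
    _ = ((range W).filter G).card * (δ / W + a i * (Real.log N / N)) := by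
        rw [sum_const, nsmul_eq_mul]
    _ ≤ W * (δ / W + a i * (Real.log N / N)) := by
        apply mul_le_mul_of_nonneg_right hcard
        positivity
    _ = _ := by field_simp

end Pool.Agent.NH16
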