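import Pool.Agent.NH16.Win

/-!
# Major arcs
-/

set_option autoImplicit false

namespace Pool.Agent.NH16

open Finset
open Pool.Agent.Helper602.MK
open Pool.Agent.Helper602.MK.N_J5b
open Pool.Agent.H386R2.HL
open Pool.Agent.H387R2.Uni (WW WW_pos WW_factors totient_WW)

lemma PS_rat (n L q : ℕ) (hq : 0 < q) (hqn : q ≤ n) (a : ℤ) :
    PS n L ((a : ℝ) / q) = ∑ b ∈ (range q).filter (fun b => b.Coprime q), ee ((a : ℝ) * b / q) * (PA n L q b : ℂ) := by
  classical
  unfold PS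
  rw [← sum_fiberwise_of_maps_to (g := fun p => p % q) (t := (range q).filter (fun b => b.Coprime q))]
  · apply sum_congr rfl
    intro b hb
    rw [mem_filter, mem_range] at hb
    have h1 : ∀ p ∈ ((Ioc n (n + L)).filter Nat.Prime).filter (fun p => p % q = b), ee ((a : ℝ) / q * p) = ee ((a : ℝ) * b / q) := by
      intro p hp
      rw [mem_filter] at hp
      rw [← hp.2, ee_mod q hq a p]
      congr 1
      ring
    rw [sum_congr rfl h1, sum_const, nsmul_eq_mul, mul_comm]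
    congr 2
    unfold PA
    rw [filter_filter]
    congr 1
    apply filter_congr
    intro p _
    unfold Nat.ModEq
    rw [Nat.mod_eq_of_lt hb.1]
  · intro p hp
    rw [mem_filter, mem_Ioc] at hp
    rw [mem_filter, mem_range]
    refine ⟨Nat.mod_lt _ hq, ?_⟩
    have h1 : p.Coprime q := by
      rw [Nat.Prime.coprime_iff_not_dvd hp.2]
      intro h
      have := Nat.le_of_dvd hq h
      omega
    rw [Nat.coprime_iff_gcd_eq_one, ← Nat.gcd_rec, Nat.gcd_comm]
    exact h1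

theorem maj_rat (N L y : ℕ) (hL : 0 < L) (hy : 0 < y) (q : ℕ) (hq : 0 < q) (hqN : q ≤ N.sqrt) (a : ℤ)
    (ha : Int.gcd a q = 1) (B : ℝ) (hB0 : 0 ≤ B) (hB : ∀ x, ‖Se N L y ((a : ℝ) / q) x‖ ≤ B) :
    ∑ x ∈ Ico (-(L : ℤ)) N, ‖Se N L y ((a : ℝ) / q) x‖ ≤
      ∑ n ∈ Icc 1 N, ∑ b ∈ (range q).filter (fun b => b.Coprime q), |Real.log N * PA n L q b - (L : ℝ) / Nat.totient q| +
      N * ((L : ℝ) / y + 2 * (q * WW y : ℕ) * rho y) + B * (N.sqrt + 2 * L + 1) := by
  have hL0 : (0 : ℝ) < L := by exact_mod_cast hL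
  have hy0 : (0 : ℝ) < y := by exact_mod_cast hy
  have hρ := rho_nonneg y
  have hφ0 : (0 : ℝ) < Nat.totient q := by exact_mod_cast Nat.totient_pos.2 hq
  have hφc : (Nat.totient q : ℂ) ≠ 0 := by exact_mod_cast hφ0.ne'
  apply trans2 N L (fun x => ‖Se N L y ((a : ℝ) / q) x‖)
    (fun n => ∑ b ∈ (range q).filter (fun b => b.Coprime q), |Real.log N * PA n L q b - (L : ℝ) / Nat.totient q|)
    _ _ (by positivity) hB0 (fun x => sum_nonneg fun _ _ => abs_nonneg _) hB
  intro n h1 h2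
  rw [Se_good N L y n h1.le h2]
  set c : ℂ := if q ∣ WW y then ram q a / Nat.totient q else 0 with hc
  have h3 := vI_rat y q hq a ha n L
  have h4 : ∑ m ∈ Ioc (n : ℤ) (n + L), (vI y m : ℂ) * ee ((a : ℝ) / q * m) =
      ∑ m ∈ Ioc (n : ℤ) (n + L), (vI y m : ℂ) * ee ((a : ℝ) * m / q) := by
    apply sum_congr rfl
    intro m _
    congr 2
    ring
  rw [h4, PS_rat n L q hq (by omega) a]
  set V : ℂ := ∑ m ∈ Ioc (n : ℤ) (n + L), (vI y m : ℂ) * ee ((a : ℝ) * m / q) with hV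
  have h5 : (Real.log N : ℂ) * ∑ b ∈ (range q).filter (fun b => b.Coprime q), ee ((a : ℝ) * b / q) * (PA n L q b : ℂ) - V =
      ∑ b ∈ (range q).filter (fun b => b.Coprime q), ee ((a : ℝ) * b / q) * ((Real.log N * PA n L q b - (L : ℝ) / Nat.totient q : ℝ) : ℂ) +
      ((L : ℂ) * (ram q a / Nat.totient q - c)) - (V - L * c) := by
    have e1 : ∑ b ∈ (range q).filter (fun b => b.Coprime q), ee ((a : ℝ) * b / q) * ((Real.log N * PA n L q b - (L : ℝ) / Nat.totient q : ℝ) : ℂ) =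
        (Real.log N : ℂ) * ∑ b ∈ (range q).filter (fun b => b.Coprime q), ee ((a : ℝ) * b / q) * (PA n L q b : ℂ) -
        (L : ℂ) / Nat.totient q * ram q a := by
      unfold ram
      rw [mul_sum, mul_sum, ← sum_sub_distrib]
      apply sum_congr rfl
      intro b _
      push_cast
      ring
    rw [e1]
    ring
  rw [h5]
  have h6 : ‖∑ b ∈ (range q).filter (fun b => b.Coprime q), ee ((a : ℝ) * b / q) * ((Real.log N * PA n L q b - (L : ℝ) / Nat.totient q : ℝ) : ℂ)‖ ≤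
      ∑ b ∈ (range q).filter (fun b => b.Coprime q), |Real.log N * PA n L q b - (L : ℝ) / Nat.totient q| := by
    refine (norm_sum_le _ _).trans (sum_le_sum fun b _ => ?_)
    rw [norm_mul, norm_ee, one_mul, Complex.norm_real, Real.norm_eq_abs]
  have h7 : ‖(L : ℂ) * (ram q a / Nat.totient q - c)‖ ≤ (L : ℝ) / y := by
    rw [norm_mul, Complex.norm_natCast]
    have h9 : ‖ram q a / Nat.totient q - c‖ ≤ 1 / (y : ℝ) := by
      by_cases hd : q ∣ WW y
      · rw [hc, if_pos hd, sub_self, norm_zero]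
        positivity
      · rw [hc, if_neg hd, sub_zero, norm_div, Complex.norm_natCast, div_le_div_iff₀ hφ0 hy0]
        have := ram_bound q y hq hd a ha
        linarith
    calc (L : ℝ) * ‖ram q a / Nat.totient q - c‖ ≤ L * (1 / (y : ℝ)) := mul_le_mul_of_nonneg_left h9 hL0.le
      _ = (L : ℝ) / y := by ring
  refine (norm_sub_le _ _).trans ?_
  have h8 := norm_add_le (∑ b ∈ (range q).filter (fun b => b.Coprime q), ee ((a : ℝ) * b / q) * ((Real.log N * PA n L q b - (L : ℝ) / Nat.totient q : ℝ) : ℂ))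
    ((L : ℂ) * (ram q a / Nat.totient q - c))
  linarith

lemma sum_shift_le' (N L : ℕ) (f : ℤ → ℝ) (hf : ∀ x, 0 ≤ f x) (hf0 : ∀ x, x ∉ Ico (-(L : ℤ)) N → f x = 0) (S : Finset ℤ) (b : ℤ) :
    ∑ x ∈ S, f (x + b) ≤ ∑ x ∈ Ico (-(L : ℤ)) N, f x := by
  rw [← sum_image (f := f) (g := fun x : ℤ => x + b) (s := S) (fun a _ c _ hac => by simpa using hac)]
  calc ∑ x ∈ S.image (fun x => x + b), f x
      ≤ ∑ x ∈ S.image (fun x => x + b) ∪ Ico (-(L : ℤ)) N, f x :=
        sum_le_sum_of_subset_of_nonneg subset_union_left (fun x _ _ => hf x)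
    _ = ∑ x ∈ Ico (-(L : ℤ)) N, f x := by
        symm
        apply sum_subset subset_union_right
        intro x _ hx
        exact hf0 x hx

lemma Se_out (N L y : ℕ) (α : ℝ) (x : ℤ) (hx : x ∉ Ico (-(L : ℤ)) N) : Se N L y α x = 0 := by
  unfold Se
  apply sum_eq_zero
  intro n hn
  rw [mem_Ioc] at hn
  rw [mem_Ico] at hx
  rw [Ez_out N y n (fun h => hx (by omega))]
  simp

/-- splitting a sum over a window into blocks -/
lemma sum_blocks {E : Type*} [AddCommMonoid E] (f : ℤ → E) (x : ℤ) (L H J : ℕ) (h : J * L ≤ H) :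
    ∑ m ∈ Ioc x (x + H), f m = ∑ j ∈ range J, ∑ m ∈ Ioc (x + (j * L : ℕ)) (x + (j * L : ℕ) + L), f m +
      ∑ m ∈ Ioc (x + (J * L : ℕ)) (x + H), f m := by
  have h1 : ∀ J : ℕ, ∑ m ∈ Ioc x (x + (J * L : ℕ)), f m = ∑ j ∈ range J, ∑ m ∈ Ioc (x + (j * L : ℕ)) (x + (j * L : ℕ) + L), f m := by
    intro J
    induction J with
    | zero => simp
    | succ J ih =>
      rw [sum_range_succ, ← ih]
      have e1 : Ioc x (x + ((J + 1) * L : ℕ)) = Ioc x (x + (J * L : ℕ)) ∪ Ioc (x + (J * L : ℕ)) (x + (J * L : ℕ) + L) := by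
        ext n
        rw [mem_union, mem_Ioc, mem_Ioc, mem_Ioc]
        have : (J + 1) * L = J * L + L := by ring
        rw [this]
        push_cast
        have h3 : (0 : ℤ) ≤ (J : ℤ) * L := by positivity
        generalize (J : ℤ) * L = z at *
        omega
      rw [e1, sum_union]
      rw [disjoint_left]
      intro n hn1 hn2
      rw [mem_Ioc] at hn1 hn2
      omega
  rw [← h1]
  have e1 : Ioc x (x + (H : ℤ)) = Ioc x (x + (J * L : ℕ)) ∪ Ioc (x + (J * L : ℕ)) (x + H) := by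
    ext n
    rw [mem_union, mem_Ioc, mem_Ioc, mem_Ioc]
    omega
  rw [e1, sum_union]
  rw [disjoint_left]
  intro n hn1 hn2
  rw [mem_Ioc] at hn1 hn2
  omega

lemma Ez_abs_le (N y : ℕ) (n : ℤ) : |Ez N y n| ≤ Real.log N + rho y := by
  unfold Ez
  refine (abs_sub _ _).trans ?_
  rw [abs_of_nonneg (Uz_nonneg _ _), abs_of_nonneg (Vz_nonneg _ _ _)]
  exact add_le_add (Uz_le _ _) (Vz_le _ _ _)

theorem split (N H y J : ℕ) (hJ : 0 < J) (θ β : ℝ) (B : ℝ)
    (hB : ∀ x : ℤ, ∑ m ∈ Ioc x (x + H), |Ez N y m| ≤ B) :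
    ∑ x ∈ Ico (-(H : ℤ)) N, ‖Se N H y (θ + β) x‖ ≤
      J * ∑ x ∈ Ico (-((H / J : ℕ) : ℤ)) N, ‖Se N (H / J) y θ x‖ +
      (N + H) * (2 * Real.pi * |β| * (H / J : ℕ) * B + J * (Real.log N + rho y)) := by
  set L : ℕ := H / J with hL
  have hJL : J * L ≤ H := by rw [hL, mul_comm]; exact Nat.div_mul_le_self H J
  have hrest : H - J * L ≤ J := by
    have h1 := Nat.div_add_mod H J
    have h2 := Nat.mod_lt H hJ
    rw [← hL] at h1
    omega
  have hl := Real.log_natCast_nonneg N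
  have hρ := rho_nonneg y
  have hpi := Real.pi_pos
  have hpt : ∀ x : ℤ, ‖Se N H y (θ + β) x‖ ≤ ∑ j ∈ range J, ‖Se N L y θ (x + (j * L : ℕ))‖ +
      (2 * Real.pi * |β| * L * B + J * (Real.log N + rho y)) := by
    intro x
    have hblock : ∀ z : ℤ, ‖∑ m ∈ Ioc z (z + L), (Ez N y m : ℂ) * ee ((θ + β) * m)‖ ≤
        ‖Se N L y θ z‖ + 2 * Real.pi * |β| * L * ∑ m ∈ Ioc z (z + L), |Ez N y m| := by
      intro z
      have e1 : ∑ m ∈ Ioc z (z + L), (Ez N y m : ℂ) * ee ((θ + β) * m) =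
          ee (β * z) * Se N L y θ z + ∑ m ∈ Ioc z (z + L), (Ez N y m : ℂ) * ee (θ * m) * (ee (β * m) - ee (β * z)) := by
        unfold Se
        rw [mul_sum, ← sum_add_distrib]
        apply sum_congr rfl
        intro m _
        have : ee ((θ + β) * m) = ee (θ * m) * ee (β * m) := by
          rw [← ee_add]
          congr 1
          ring
        rw [this]
        ring
      rw [e1]
      refine (norm_add_le _ _).trans (add_le_add ?_ ?_)
      · rw [norm_mul, norm_ee, one_mul]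
      · rw [mul_sum]
        refine (norm_sum_le _ _).trans (sum_le_sum fun m hm => ?_)
        rw [mem_Ioc] at hm
        rw [norm_mul, norm_mul, norm_ee, mul_one, Complex.norm_real, Real.norm_eq_abs, mul_comm]
        apply mul_le_mul_of_nonneg_right _ (abs_nonneg _)
        refine (ee_lip _ _).trans ?_
        have e2 : β * (m : ℝ) - β * (z : ℝ) = β * ((m - z : ℤ) : ℝ) := by push_cast; ring
        rw [e2, abs_mul]
        have e3 : |((m - z : ℤ) : ℝ)| ≤ L := by
          rw [abs_of_nonneg (by exact_mod_cast (by omega : 0 ≤ m - z))]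
          exact_mod_cast (by omega : m - z ≤ L)
        calc 2 * Real.pi * (|β| * |((m - z : ℤ) : ℝ)|) ≤ 2 * Real.pi * (|β| * L) := by gcongr
          _ = _ := by ring
    have e0 : Se N H y (θ + β) x = ∑ m ∈ Ioc x (x + H), (Ez N y m : ℂ) * ee ((θ + β) * m) := rfl
    rw [e0, sum_blocks _ x L H J hJL]
    refine (norm_add_le _ _).trans ?_
    have h1 : ‖∑ j ∈ range J, ∑ m ∈ Ioc (x + (j * L : ℕ)) (x + (j * L : ℕ) + L), (Ez N y m : ℂ) * ee ((θ + β) * m)‖ ≤
        ∑ j ∈ range J, ‖Se N L y θ (x + (j * L : ℕ))‖ + 2 * Real.pi * |β| * L * B := by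
      refine (norm_sum_le _ _).trans ((sum_le_sum fun j _ => hblock (x + (j * L : ℕ))).trans ?_)
      rw [sum_add_distrib, ← mul_sum]
      apply add_le_add le_rfl
      apply mul_le_mul_of_nonneg_left _ (by positivity)
      have h2 := sum_blocks (fun m => |Ez N y m|) x L H J hJL
      have h3 : 0 ≤ ∑ m ∈ Ioc (x + (J * L : ℕ)) (x + H), |Ez N y m| := sum_nonneg fun _ _ => abs_nonneg _
      have h4 := hB x
      linarith
    have h2 : ‖∑ m ∈ Ioc (x + (J * L : ℕ)) (x + H), (Ez N y m : ℂ) * ee ((θ + β) * m)‖ ≤ J * (Real.log N + rho y) := by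
      refine (norm_sum_le _ _).trans ?_
      calc ∑ m ∈ Ioc (x + (J * L : ℕ)) (x + (H : ℤ)), ‖(Ez N y m : ℂ) * ee ((θ + β) * m)‖ ≤
            ∑ _m ∈ Ioc (x + (J * L : ℕ)) (x + (H : ℤ)), (Real.log N + rho y) := by
            apply sum_le_sum
            intro m _
            rw [norm_mul, norm_ee, mul_one, Complex.norm_real, Real.norm_eq_abs]
            exact Ez_abs_le N y m
        _ ≤ J * (Real.log N + rho y) := by
            rw [sum_const, nsmul_eq_mul, Int.card_Ioc]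
            apply mul_le_mul_of_nonneg_right _ (by positivity)
            exact_mod_cast (by omega : (x + (H : ℤ) - (x + (J * L : ℕ))).toNat ≤ J)
    linarith
  refine (sum_le_sum fun x _ => hpt x).trans ?_
  rw [sum_add_distrib, sum_comm, sum_const, nsmul_eq_mul, card_win]
  apply add_le_add _ le_rfl
  calc ∑ j ∈ range J, ∑ x ∈ Ico (-(H : ℤ)) N, ‖Se N L y θ (x + (j * L : ℕ))‖ ≤
      ∑ _j ∈ range J, ∑ x ∈ Ico (-(L : ℤ)) N, ‖Se N L y θ x‖ := by
        apply sum_le_sum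
        intro j _
        exact sum_shift_le' N L (fun x => ‖Se N L y θ x‖) (fun x => norm_nonneg _) (fun x hx => by
          rw [Se_out N L y θ x hx, norm_zero]) (Ico (-(H : ℤ)) N) ((j * L : ℕ) : ℤ)
    _ = _ := by rw [sum_const, card_range, nsmul_eq_mul]

end Pool.Agent.NH16
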