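import Pool.Agent.NH16.Ram

/-!
# Exponential sums of the model over windows
-/

set_option autoImplicit false

namespace Pool.Agent.NH16

open Finset
open Pool.Agent.Helper602.MK
open Pool.Agent.Helper602.MK.N_J5b
open Pool.Agent.H386R2.HL
open Pool.Agent.H387R2.Uni (WW WW_pos WW_factors totient_WW)

lemma far_norm (t δ : ℝ) (hδ : 0 < δ) (h : ∀ n : ℤ, δ ≤ |t - n|) : 4 * δ ≤ ‖ee t - 1‖ := by
  obtain ⟨u, hu⟩ : ∃ u : ℝ, u = t - round t := ⟨_, rfl⟩
  have hu1 : |u| ≤ 1 / 2 := by rw [hu]; exact abs_sub_round t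
  have hu2 : δ ≤ |u| := by rw [hu]; exact h _
  have ht : t = u + (round t : ℤ) := by rw [hu]; ring
  rw [ht, ee_add_int]
  have hpi := Real.pi_pos
  have hsin : 2 * |u| ≤ |Real.sin (Real.pi * u)| := by
    have h1 := Real.mul_abs_le_abs_sin (x := Real.pi * u) (by
      rw [abs_mul, abs_of_pos hpi]
      nlinarith)
    rw [abs_mul, abs_of_pos hpi] at h1
    have e : 2 / Real.pi * (Real.pi * |u|) = 2 * |u| := by field_simp
    rw [e] at h1
    exact h1
  rw [norm_sub_rev, norm_one_sub_ee]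
  linarith

lemma ee_lip (u v : ℝ) : ‖ee u - ee v‖ ≤ 2 * Real.pi * |u - v| := by
  have h2 : ‖ee u - ee v‖ = ‖1 - ee (v - u)‖ := by
    have h3 : ee u - ee v = ee u * (1 - ee (v - u)) := by
      rw [mul_sub, ← ee_add]
      have : u + (v - u) = v := by ring
      rw [this]
      ring
    rw [h3, norm_mul, norm_ee, one_mul]
  rw [h2, norm_one_sub_ee]
  have h4 : |Real.sin (Real.pi * (v - u))| ≤ |Real.pi * (v - u)| := Real.abs_sin_le_abs
  rw [abs_mul, abs_of_pos Real.pi_pos, abs_sub_comm] at h4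
  linarith

/-- `W / φ(W)` -/
noncomputable def rho (y : ℕ) : ℝ := (WW y : ℝ) / Nat.totient (WW y)

lemma rho_nonneg (y : ℕ) : 0 ≤ rho y := by unfold rho; positivity

/-- the model on the integers, not truncated -/
noncomputable def vI (y : ℕ) (n : ℤ) : ℝ := if Int.gcd n (WW y) = 1 then rho y else 0

lemma vI_nonneg (y : ℕ) (n : ℤ) : 0 ≤ vI y n := by
  unfold vI
  split_ifs
  · exact rho_nonneg y
  · exact le_rfl

lemma vI_le (y : ℕ) (n : ℤ) : vI y n ≤ rho y := by
  unfold vI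
  split_ifs
  · exact le_rfl
  · exact rho_nonneg y

lemma vI_per (y : ℕ) (n : ℤ) : vI y (n + WW y) = vI y n := by
  unfold vI
  have h1 := gcd_shift (WW y) (WW y) (fun r _ h => h) n
  by_cases h2 : Int.gcd n (WW y) = 1
  · rw [if_pos h2, if_pos (h1.2 h2)]
  · rw [if_neg h2, if_neg (fun h => h2 (h1.1 h))]

lemma Vz_vI (N y : ℕ) (n : ℤ) (h1 : 1 ≤ n) (h2 : n ≤ N) : Vz N (WW y) n = vI y n := by
  rw [Vz_ite]
  unfold vI rho
  have h3 : Int.gcd n (WW y) = Nat.gcd n.toNat (WW y) := by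
    obtain ⟨m, rfl⟩ := Int.eq_ofNat_of_zero_le (by omega : 0 ≤ n)
    rw [Int.gcd_natCast_natCast]
    simp
  rw [h3]
  have h4 : (1 ≤ n ∧ n.toNat ≤ N ∧ Nat.Coprime (WW y) n.toNat) ↔ Nat.gcd n.toNat (WW y) = 1 := by
    constructor
    · rintro ⟨_, _, h⟩
      exact Nat.coprime_comm.1 h
    · intro h
      exact ⟨h1, by omega, Nat.coprime_comm.1 h⟩
  by_cases h5 : Nat.gcd n.toNat (WW y) = 1
  · rw [if_pos (h4.2 h5), if_pos h5]
  · rw [if_neg (fun h => h5 (h4.1 h)), if_neg h5]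

lemma vI_norm (y : ℕ) (n : ℤ) (α : ℝ) : ‖(vI y n : ℂ) * ee α‖ ≤ rho y := by
  rw [norm_mul, norm_ee, mul_one, Complex.norm_real, Real.norm_eq_abs, abs_of_nonneg (vI_nonneg _ _)]
  exact vI_le y n

/-- the model at a rational frequency -/
theorem vI_rat (y q : ℕ) (hq : 0 < q) (a : ℤ) (ha : Int.gcd a q = 1) (x : ℤ) (L : ℕ) :
    ‖∑ n ∈ Ioc x (x + L), (vI y n : ℂ) * ee ((a : ℝ) * n / q) -
      (L : ℂ) * (if q ∣ WW y then ram q a / Nat.totient q else 0)‖ ≤ 2 * (q * WW y : ℕ) * rho y := by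
  have hW := WW_pos y
  have hq0 : (q : ℝ) ≠ 0 := by exact_mod_cast hq.ne'
  have hW0 : (WW y : ℝ) ≠ 0 := by exact_mod_cast hW.ne'
  have hφ : (Nat.totient (WW y) : ℂ) ≠ 0 := by exact_mod_cast (Nat.totient_pos.2 hW).ne'
  have hφq : (Nat.totient q : ℂ) ≠ 0 := by exact_mod_cast (Nat.totient_pos.2 hq).ne'
  by_cases hd : q ∣ WW y
  · rw [if_pos hd]
    obtain ⟨k, hk⟩ := hd
    have hk0 : (k : ℝ) ≠ 0 := by
      intro h
      have : k = 0 := by exact_mod_cast h
      rw [this, mul_zero] at hk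
      omega
    have hfun : ∀ n : ℤ, (vI y n : ℂ) * ee ((a : ℝ) * n / q) = (rho y : ℂ) * gt (WW y) (WW y) (a * k) n := by
      intro n
      unfold vI gt
      have e1 : ((a * k : ℤ) : ℝ) * n / (WW y : ℝ) = (a : ℝ) * n / q := by
        have : (WW y : ℝ) = q * k := by exact_mod_cast hk
        rw [this]
        push_cast
        field_simp
      rw [e1]
      by_cases h1 : Int.gcd n (WW y) = 1
      · rw [if_pos h1, if_pos h1]
      · rw [if_neg h1, if_neg h1]; simp
    have hper : ∀ n : ℤ, (vI y (n + WW y) : ℂ) * ee ((a : ℝ) * ((n + WW y : ℤ) : ℝ) / q) = (vI y n : ℂ) * ee ((a : ℝ) * n / q) := by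
      intro n
      rw [hfun, hfun, gt_per (WW y) (WW y) hW dvd_rfl]
    have h1 := per_sum (WW y) hW (fun n => (vI y n : ℂ) * ee ((a : ℝ) * n / q)) hper (rho y) (fun n => vI_norm y n _) x L
    have h2 : (∑ n ∈ range (WW y), (vI y (n : ℤ) : ℂ) * ee ((a : ℝ) * ((n : ℤ) : ℝ) / q)) / (WW y : ℂ) =
        ram q a / Nat.totient q := by
      have e1 : ∑ n ∈ range (WW y), (vI y (n : ℤ) : ℂ) * ee ((a : ℝ) * ((n : ℤ) : ℝ) / q) =
          (rho y : ℂ) * ram (WW y) (a * k) := by
        rw [ram_eq, mul_sum]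
        apply sum_congr rfl
        intro n _
        exact hfun n
      have e2 : ram (WW y) (a * k) = ∑ b ∈ (range (WW y)).filter (fun b => b.Coprime (WW y)), ee ((a : ℝ) * b / q) := by
        unfold ram
        apply sum_congr rfl
        intro b _
        congr 1
        have : (WW y : ℝ) = q * k := by exact_mod_cast hk
        rw [this]
        push_cast
        field_simp
      have e3 := fibre q (WW y) hq hW (Dvd.intro _ hk.symm) (fun b => ee ((a : ℝ) * b / q)) (fun b => ee_mod q hq a b)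
      have e4 : ∑ c ∈ (range q).filter (fun b => b.Coprime q), ee ((a : ℝ) * c / q) = ram q a := rfl
      rw [e4, ← e2] at e3
      rw [e1]
      have e5 : (rho y : ℂ) = (WW y : ℂ) / Nat.totient (WW y) := by unfold rho; push_cast; rfl
      have hW0' : (WW y : ℂ) ≠ 0 := by exact_mod_cast hW.ne'
      rw [e5]
      field_simp
      linear_combination e3
    rw [h2] at h1
    refine h1.trans ?_
    have hρ := rho_nonneg y
    apply mul_le_mul_of_nonneg_right _ hρ
    have : (WW y : ℝ) ≤ ((q * WW y : ℕ) : ℝ) := by exact_mod_cast Nat.le_mul_of_pos_left _ hq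
    linarith
  · rw [if_neg hd, mul_zero, sub_zero]
    have hqW : 0 < q * WW y := Nat.mul_pos hq hW
    have hfun : ∀ n : ℤ, (vI y n : ℂ) * ee ((a : ℝ) * n / q) = (rho y : ℂ) * gt (WW y) (q * WW y) (a * WW y) n := by
      intro n
      unfold vI gt
      have e1 : ((a * WW y : ℤ) : ℝ) * n / ((q * WW y : ℕ) : ℝ) = (a : ℝ) * n / q := by
        push_cast
        field_simp
      rw [e1]
      by_cases h1 : Int.gcd n (WW y) = 1
      · rw [if_pos h1, if_pos h1]
      · rw [if_neg h1, if_neg h1]; simp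
    have hper : ∀ n : ℤ, (vI y (n + (q * WW y : ℕ)) : ℂ) * ee ((a : ℝ) * ((n + (q * WW y : ℕ) : ℤ) : ℝ) / q) =
        (vI y n : ℂ) * ee ((a : ℝ) * n / q) := by
      intro n
      rw [hfun, hfun, gt_per (WW y) (q * WW y) hqW (Dvd.intro_left _ rfl)]
    have h1 := per_sum (q * WW y) hqW (fun n => (vI y n : ℂ) * ee ((a : ℝ) * n / q)) hper (rho y) (fun n => vI_norm y n _) x L
    have h2 : ∑ n ∈ range (q * WW y), (vI y (n : ℤ) : ℂ) * ee ((a : ℝ) * ((n : ℤ) : ℝ) / q) = 0 := by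
      have e1 : ∑ n ∈ range (q * WW y), (vI y (n : ℤ) : ℂ) * ee ((a : ℝ) * ((n : ℤ) : ℝ) / q) =
          (rho y : ℂ) * ∑ n ∈ range (q * WW y), gt (WW y) (q * WW y) (a * WW y) n := by
        rw [mul_sum]
        apply sum_congr rfl
        intro n _
        exact hfun n
      rw [e1, gt_sum_zero (WW y) (q * WW y) (WW y) hqW (Dvd.intro_left _ rfl) (a * WW y), mul_zero]
      · exact gcd_shift _ _ (fun r _ hr => hr)
      · have e2 : ((a * WW y : ℤ) : ℝ) * (WW y : ℝ) / ((q * WW y : ℕ) : ℝ) = ((a * WW y : ℤ) : ℝ) / q := by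
          push_cast
          field_simp
        rw [e2]
        intro h3
        rw [ee_eq_one_iff] at h3
        obtain ⟨n, hn⟩ := h3
        apply hd
        rw [div_eq_iff hq0] at hn
        have h4 : a * WW y = n * q := by exact_mod_cast hn
        have h5 : (q : ℤ) ∣ a * WW y := ⟨n, by rw [h4]; ring⟩
        have h6 : IsCoprime (q : ℤ) a := (Int.isCoprime_iff_gcd_eq_one.2 ha).symm
        exact Int.natCast_dvd_natCast.1 (h6.dvd_of_dvd_mul_left h5)
    rw [h2, zero_div, mul_zero, sub_zero] at h1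
    exact h1

/-- the model in a residue class -/
theorem vI_class (y q : ℕ) (hq : 0 < q) (hqy : q ≤ y) (a : ℕ) (ha : a.Coprime q) (x : ℤ) (L : ℕ) :
    |∑ n ∈ Ioc x (x + L), (if (q : ℤ) ∣ n - a then vI y n else 0) - (L : ℝ) / Nat.totient q| ≤
      2 * (q * WW y : ℕ) * rho y := by
  have hW := WW_pos y
  have hqW : 0 < q * WW y := Nat.mul_pos hq hW
  have hφ : (Nat.totient (WW y) : ℝ) ≠ 0 := by exact_mod_cast (Nat.totient_pos.2 hW).ne'
  have hφq : (Nat.totient q : ℝ) ≠ 0 := by exact_mod_cast (Nat.totient_pos.2 hq).ne'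
  have hW0 : (WW y : ℝ) ≠ 0 := by exact_mod_cast hW.ne'
  have hq0 : (q : ℝ) ≠ 0 := by exact_mod_cast hq.ne'
  set g : ℤ → ℂ := fun n => ((if (q : ℤ) ∣ n - a then vI y n else 0 : ℝ) : ℂ) with hg
  have hper : ∀ n : ℤ, g (n + (q * WW y : ℕ)) = g n := by
    intro n
    rw [hg]
    simp only
    have h1 : ((q : ℤ) ∣ n + ((q * WW y : ℕ) : ℤ) - a) ↔ ((q : ℤ) ∣ n - a) := by
      have : n + ((q * WW y : ℕ) : ℤ) - a = (n - a) + q * (WW y : ℤ) := by push_cast; ring
      rw [this]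
      exact (Int.dvd_add_left (Dvd.intro _ rfl))
    have h2 : vI y (n + ((q * WW y : ℕ) : ℤ)) = vI y n := by
      unfold vI
      have h3 : Int.gcd (n + ((q * WW y : ℕ) : ℤ)) (WW y) = Int.gcd n (WW y) := by
        push_cast
        rw [Int.gcd_add_mul_right_left]
      rw [h3]
    simp only [h1, h2]
  have hB : ∀ n, ‖g n‖ ≤ rho y := by
    intro n
    rw [hg]
    simp only
    rw [Complex.norm_real, Real.norm_eq_abs]
    split_ifs
    · rw [abs_of_nonneg (vI_nonneg _ _)]; exact vI_le y n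
    · rw [abs_zero]; exact rho_nonneg y
  have h1 := per_sum (q * WW y) hqW g hper (rho y) hB x L
  have hqW' : ∀ p : ℕ, p.Prime → p ∣ q → p ∣ WW y := by
    intro p hp hpq
    have h2 : p ∈ (WW y).primeFactors := by
      rw [WW_factors, Nat.mem_primesBelow]
      exact ⟨Nat.lt_succ_of_le ((Nat.le_of_dvd hq hpq).trans hqy), hp⟩
    exact Nat.dvd_of_mem_primeFactors h2
  have hco : ∀ n : ℕ, n.Coprime (WW y) ↔ n.Coprime (q * WW y) := by
    intro n
    constructor
    · intro h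
      rw [Nat.coprime_mul_iff_right]
      refine ⟨?_, h⟩
      apply Nat.Coprime.symm
      apply Nat.Coprime.symm
      rw [Nat.coprime_iff_gcd_eq_one]
      by_contra hcon
      obtain ⟨p, hp, hpd⟩ := Nat.exists_prime_and_dvd hcon
      have h2 := hqW' p hp (hpd.trans (Nat.gcd_dvd_right _ _))
      have h3 := hpd.trans (Nat.gcd_dvd_left _ _)
      have h4 := Nat.dvd_gcd h3 h2
      rw [Nat.coprime_iff_gcd_eq_one.1 h] at h4
      exact hp.one_lt.ne' (Nat.dvd_one.1 h4)
    · intro h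
      exact Nat.Coprime.coprime_mul_left_right h
  have htot : Nat.totient (q * WW y) = q * Nat.totient (WW y) := by
    have e1 : (q * WW y).primeFactors = (WW y).primeFactors := by
      rw [Nat.primeFactors_mul hq.ne' hW.ne']
      apply union_eq_right.2
      intro p hp
      rw [Nat.mem_primeFactors]
      exact ⟨Nat.prime_of_mem_primeFactors hp, hqW' p (Nat.prime_of_mem_primeFactors hp)
        (Nat.dvd_of_mem_primeFactors hp), hW.ne'⟩
    have e2 := Nat.totient_eq_mul_prod_factors (q * WW y)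
    have e3 := Nat.totient_eq_mul_prod_factors (WW y)
    rw [e1] at e2
    have e4 : (Nat.totient (q * WW y) : ℚ) = ((q * Nat.totient (WW y) : ℕ) : ℚ) := by
      rw [e2]
      push_cast
      rw [e3]
      ring
    exact_mod_cast e4
  have hsum : (∑ n ∈ range (q * WW y), g (n : ℤ)) / ((q * WW y : ℕ) : ℂ) = ((1 / Nat.totient q : ℝ) : ℂ) := by
    have e1 : ∑ n ∈ range (q * WW y), g (n : ℤ) = (rho y : ℂ) * ∑ b ∈ (range (q * WW y)).filter (fun b => b.Coprime (q * WW y)),
        (if b % q = a % q then 1 else 0) := by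
      rw [sum_filter, mul_sum]
      apply sum_congr rfl
      intro n _
      rw [hg]
      simp only
      have h2 : ((q : ℤ) ∣ (n : ℤ) - a) ↔ n % q = a % q := by
        rw [← Int.modEq_iff_dvd, Int.natCast_modEq_iff]
        exact ⟨fun h => h.symm, fun h => h.symm⟩
      unfold vI
      rw [Int.gcd_natCast_natCast]
      by_cases h3 : n.Coprime (WW y)
      · rw [if_pos ((hco n).1 h3)]
        by_cases h4 : n % q = a % q
        · rw [if_pos (h2.2 h4), if_pos h4, if_pos h3]; simp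
        · rw [if_neg (fun h => h4 (h2.1 h)), if_neg h4]; simp
      · rw [if_neg (fun h => h3 ((hco n).2 h)), if_neg (show ¬ Nat.gcd n (WW y) = 1 from h3)]
        simp
    have e2 := fibre q (q * WW y) hq hqW (Dvd.intro _ rfl) (fun b => if b % q = a % q then 1 else 0) (fun b => by
      simp only [Nat.mod_mod])
    have e3 : ∑ c ∈ (range q).filter (fun b => b.Coprime q), (if c % q = a % q then (1 : ℂ) else 0) = 1 := by
      rw [sum_eq_single (a % q)]
      · rw [Nat.mod_mod, if_pos rfl]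
      · intro c hc hne
        rw [mem_filter, mem_range] at hc
        rw [if_neg]
        intro h
        apply hne
        rw [← h, Nat.mod_eq_of_lt hc.1]
      · intro h
        exfalso
        apply h
        rw [mem_filter, mem_range]
        refine ⟨Nat.mod_lt _ hq, ?_⟩
        rw [Nat.coprime_iff_gcd_eq_one, ← Nat.gcd_rec, Nat.gcd_comm]
        exact ha
    rw [e3, mul_one, htot] at e2
    rw [e1]
    have e5 : (rho y : ℂ) = (WW y : ℂ) / Nat.totient (WW y) := by unfold rho; push_cast; rfl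
    have hφ' : (Nat.totient (WW y) : ℂ) ≠ 0 := by exact_mod_cast hφ
    have hφq' : (Nat.totient q : ℂ) ≠ 0 := by exact_mod_cast hφq
    have hW0' : (WW y : ℂ) ≠ 0 := by exact_mod_cast hW.ne'
    have hq0' : (q : ℂ) ≠ 0 := by exact_mod_cast hq.ne'
    rw [e5]
    push_cast at e2 ⊢
    field_simp
    linear_combination e2
  rw [hsum] at h1
  have h2 : ∑ n ∈ Ioc x (x + L), g n - (L : ℂ) * ((1 / Nat.totient q : ℝ) : ℂ) =
      ((∑ n ∈ Ioc x (x + L), (if (q : ℤ) ∣ n - a then vI y n else 0) - (L : ℝ) / Nat.totient q : ℝ) : ℂ) := by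
    rw [hg]
    push_cast
    ring
  rw [h2, Complex.norm_real, Real.norm_eq_abs] at h1
  exact h1

/-- the model on minor arcs -/
theorem vI_minor (y : ℕ) (H K : ℝ) (hH : 0 < H) (hK : 0 < K) (α : ℝ) (hα : ∀ a : ℤ, K / H < |α - a / (WW y : ℝ)|)
    (x : ℤ) (L : ℕ) : ‖∑ n ∈ Ioc x (x + L), (vI y n : ℂ) * ee (α * n)‖ ≤ rho y * H / (2 * K) := by
  have hW0 : (0 : ℝ) < WW y := by exact_mod_cast WW_pos y
  have h1 := per_twist (WW y) (fun n => (vI y n : ℂ)) (fun n => by
    simp only [vI_per]) (rho y) (fun n => by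
    rw [Complex.norm_real, Real.norm_eq_abs, abs_of_nonneg (vI_nonneg _ _)]; exact vI_le y n) α x L
  have h2 : 4 * (WW y * (K / H)) ≤ ‖ee (α * WW y) - 1‖ := by
    apply far_norm _ _ (by positivity)
    intro n
    have h3 : α * WW y - n = (α - n / (WW y : ℝ)) * WW y := by field_simp
    rw [h3, abs_mul, abs_of_pos hW0, mul_comm]
    exact mul_le_mul_of_nonneg_right (hα n).le hW0.le
  have h3 : 4 * (WW y * (K / H)) * ‖∑ n ∈ Ioc x (x + L), (vI y n : ℂ) * ee (α * n)‖ ≤ 2 * WW y * rho y :=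
    (mul_le_mul_of_nonneg_right h2 (norm_nonneg _)).trans h1
  rw [le_div_iff₀ (by positivity)]
  have h4 : 4 * (WW y * (K / H)) * ‖∑ n ∈ Ioc x (x + L), (vI y n : ℂ) * ee (α * n)‖ * H ≤ 2 * WW y * rho y * H :=
    mul_le_mul_of_nonneg_right h3 hH.le
  have h5 : 4 * (WW y * (K / H)) * ‖∑ n ∈ Ioc x (x + L), (vI y n : ℂ) * ee (α * n)‖ * H =
      (2 * WW y) * (‖∑ n ∈ Ioc x (x + L), (vI y n : ℂ) * ee (α * n)‖ * (2 * K)) := by
    field_simp
    ring
  rw [h5] at h4
  have h6 : (2 * (WW y : ℝ)) * (‖∑ n ∈ Ioc x (x + L), (vI y n : ℂ) * ee (α * n)‖ * (2 * K)) ≤ (2 * (WW y : ℝ)) * (rho y * H) := by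
    linarith
  exact le_of_mul_le_mul_left h6 (by positivity)

end Pool.Agent.NH16
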