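import Pool.Agent.NH16.Loc
import Pool.Agent.NH16.Corr

/-!
# The autocorrelation of `primes - model`
-/

set_option autoImplicit false

namespace Pool.Agent.NH16

open Finset
open Pool.Agent.H386R2.HL
open Pool.Agent.H387R2.Uni (WW WW_pos WW_factors totient_WW)

/-- number of `n ≤ N` with `n` and `n + h` prime -/
def twins (N h : ℕ) : ℕ := ((Icc 1 N).filter (fun n => n.Prime ∧ (n + h).Prime)).card

/-- `log N` on the primes in `(T, N]` -/
noncomputable def uu (N T : ℕ) (n : ℕ) : ℝ := if n ≤ N ∧ T < n ∧ n.Prime then Real.log N else 0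

/-- the model: `W / φ(W)` on the integers up to `N` coprime to `W` -/
noncomputable def VV (N W : ℕ) (n : ℕ) : ℝ := if n ≤ N ∧ Nat.Coprime W n then (W : ℝ) / Nat.totient W else 0

lemma uu_uu (N T n h : ℕ) (hn : n ≤ N) : uu N T n * uu N T (n + h) =
    Real.log N ^ 2 * (if T < n ∧ n.Prime ∧ (n + h).Prime ∧ n + h ≤ N then 1 else 0) := by
  unfold uu
  by_cases h1 : T < n ∧ n.Prime ∧ (n + h).Prime ∧ n + h ≤ N
  · obtain ⟨a, b, c, d⟩ := h1
    rw [if_pos ⟨hn, a, b⟩, if_pos ⟨d, by omega, c⟩, if_pos ⟨a, b, c, d⟩]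
    ring
  · rw [if_neg h1, mul_zero]
    by_cases h2 : n ≤ N ∧ T < n ∧ n.Prime
    · rw [if_neg (c := n + h ≤ N ∧ T < n + h ∧ (n + h).Prime), mul_zero]
      rintro ⟨a, b, c⟩
      exact h1 ⟨h2.2.1, h2.2.2, c, a⟩
    · rw [if_neg h2, zero_mul]

lemma uu_VV (N T W n h : ℕ) (hn : n ≤ N) : uu N T n * VV N W (n + h) =
    Real.log N * (W / Nat.totient W) * (if T < n ∧ n.Prime ∧ n + h ≤ N ∧ Nat.Coprime W (n + h) then 1 else 0) := by
  unfold uu VV
  by_cases h1 : T < n ∧ n.Prime ∧ n + h ≤ N ∧ Nat.Coprime W (n + h)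
  · obtain ⟨a, b, c, d⟩ := h1
    rw [if_pos ⟨hn, a, b⟩, if_pos ⟨c, d⟩, if_pos ⟨a, b, c, d⟩]
    ring
  · rw [if_neg h1, mul_zero]
    by_cases h2 : n ≤ N ∧ T < n ∧ n.Prime
    · rw [if_neg (c := n + h ≤ N ∧ Nat.Coprime W (n + h)), mul_zero]
      rintro ⟨a, b⟩
      exact h1 ⟨h2.2.1, h2.2.2, a, b⟩
    · rw [if_neg h2, zero_mul]

lemma VV_uu (N T W n h : ℕ) (hn : n ≤ N) : VV N W n * uu N T (n + h) =
    Real.log N * (W / Nat.totient W) * (if Nat.Coprime W n ∧ n + h ≤ N ∧ T < n + h ∧ (n + h).Prime then 1 else 0) := by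
  unfold uu VV
  by_cases h1 : Nat.Coprime W n ∧ n + h ≤ N ∧ T < n + h ∧ (n + h).Prime
  · obtain ⟨a, b, c, d⟩ := h1
    rw [if_pos ⟨hn, a⟩, if_pos ⟨b, c, d⟩, if_pos ⟨a, b, c, d⟩]
    ring
  · rw [if_neg h1, mul_zero]
    by_cases h2 : n ≤ N ∧ Nat.Coprime W n
    · rw [if_neg (c := n + h ≤ N ∧ T < n + h ∧ (n + h).Prime), mul_zero]
      rintro ⟨a, b, c⟩
      exact h1 ⟨h2.2, a, b, c⟩
    · rw [if_neg h2, zero_mul]

lemma VV_VV (N W n h : ℕ) (hn : n ≤ N) : VV N W n * VV N W (n + h) =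
    ((W : ℝ) / Nat.totient W) ^ 2 * (if Nat.Coprime W n ∧ n + h ≤ N ∧ Nat.Coprime W (n + h) then 1 else 0) := by
  unfold VV
  by_cases h1 : Nat.Coprime W n ∧ n + h ≤ N ∧ Nat.Coprime W (n + h)
  · obtain ⟨a, b, c⟩ := h1
    rw [if_pos ⟨hn, a⟩, if_pos ⟨b, c⟩, if_pos ⟨a, b, c⟩]
    ring
  · rw [if_neg h1, mul_zero]
    by_cases h2 : n ≤ N ∧ Nat.Coprime W n
    · rw [if_neg (c := n + h ≤ N ∧ Nat.Coprime W (n + h)), mul_zero]
      rintro ⟨a, b⟩
      exact h1 ⟨h2.2, a, b⟩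
    · rw [if_neg h2, zero_mul]

lemma sum_ite_card (S : Finset ℕ) (P : ℕ → Prop) [DecidablePred P] (c : ℝ) :
    ∑ n ∈ S, c * (if P n then (1 : ℝ) else 0) = c * (S.filter P).card := by
  rw [← mul_sum, sum_boole]

/-- the limit we need -/
theorem lim_small (ε : ℝ) (hε : 0 < ε) (c δ : ℝ) (hδ : 0 < δ) : ∀ᶠ N : ℕ in Filter.atTop,
    c * (Real.log N ^ 2 * (N : ℝ) ^ (1 - ε) / N) ≤ δ := by
  have h1 := ((isLittleO_log_rpow_rpow_atTop (2 : ℝ) hε).tendsto_div_nhds_zero).comp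
      (tendsto_natCast_atTop_atTop (R := ℝ))
  have h2 := h1.const_mul c
  rw [mul_zero] at h2
  filter_upwards [h2.eventually_lt_const hδ, Filter.eventually_gt_atTop 0] with N hN hN0
  have hN' : (0 : ℝ) < N := by exact_mod_cast hN0
  refine le_trans (le_of_eq ?_) hN.le
  simp only [Function.comp_apply]
  congr 1
  rw [Real.rpow_sub hN', Real.rpow_one, Real.rpow_two]
  have : (N : ℝ) ^ ε ≠ 0 := (Real.rpow_pos_of_pos hN' _).ne'
  field_simp

/-- the autocorrelation of `uu - VV` is the error term in the Hardy-Littlewood conjecture for pairs, with the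
truncated singular series -/
theorem pair_corr (y : ℕ) (ε δ : ℝ) (hε : 0 < ε) (hε2 : ε ≤ 1 / 2) (hδ : 0 < δ) :
    ∀ᶠ N : ℕ in Filter.atTop, ∀ h : ℕ, (h : ℝ) ≤ (N : ℝ) ^ (1 - ε) →
    |(∑ n ∈ Icc 1 N, (uu N N.sqrt n - VV N (WW y) n) * (uu N N.sqrt (n + h) - VV N (WW y) (n + h))) / N -
      (Real.log N ^ 2 / N * twins N h - sy (![0, h] : Fin 2 → ℕ) y)| ≤ δ := by
  set W := WW y with hWdef
  have hW : 0 < W := WW_pos y
  have hW0 : (0 : ℝ) < W := by exact_mod_cast hW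
  have hφ : (0 : ℝ) < Nat.totient W := by exact_mod_cast Nat.totient_pos.2 hW
  have hφ1 : (1 : ℝ) ≤ Nat.totient W := by exact_mod_cast Nat.totient_pos.2 hW
  set E : ℝ := (W : ℝ) / Nat.totient W with hE
  have hE0 : 0 < E := by positivity
  have hEW : E ≤ W := by
    rw [hE, div_le_iff₀ hφ]
    nlinarith
  obtain ⟨N1, hN1⟩ := cnt_prime W hW (δ / (8 * E)) (by positivity)
  have hlim := lim_small ε hε (3 + 4 * E * (W + 3) + E ^ 2 * 3) (δ / 2) (by positivity)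
  have hbig : ∀ᶠ N : ℕ in Filter.atTop, (W : ℝ) ≤ (N : ℝ) ^ (1 - ε) := by
    have h1 := (tendsto_rpow_atTop (by linarith : 0 < 1 - ε)).comp (tendsto_natCast_atTop_atTop (R := ℝ))
    exact h1.eventually_ge_atTop _
  have hlog1 : ∀ᶠ N : ℕ in Filter.atTop, (1 : ℝ) ≤ Real.log N :=
    (Real.tendsto_log_atTop.comp (tendsto_natCast_atTop_atTop (R := ℝ))).eventually_ge_atTop _
  filter_upwards [hlim, hbig, hlog1, Filter.eventually_ge_atTop N1, Filter.eventually_ge_atTop 1] with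
    N hlimN hbigN hlog hN1' hNpos h hh
  have hN0 : (0 : ℝ) < N := by exact_mod_cast hNpos
  have hN1r : (1 : ℝ) ≤ N := by exact_mod_cast hNpos
  have hT : ((N.sqrt : ℕ) : ℝ) ≤ (N : ℝ) ^ (1 - ε) := by
    have h1 : ((N.sqrt : ℕ) : ℝ) ≤ (N : ℝ) ^ (1 / 2 : ℝ) := by
      rw [← Real.sqrt_eq_rpow]
      apply Real.le_sqrt_of_sq_le
      have := Nat.sqrt_le' N
      exact_mod_cast this
    exact h1.trans (Real.rpow_le_rpow_of_exponent_le hN1r (by linarith))
  set X : ℝ := (N : ℝ) ^ (1 - ε) with hX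
  have hX0 : 0 < X := Real.rpow_pos_of_pos hN0 _
  set T := N.sqrt with hTdef
  set a : Fin 2 → ℕ := ![0, h] with ha
  -- the four counts
  set C1 : ℝ := (((Icc 1 N).filter (fun n => T < n ∧ n.Prime ∧ (n + h).Prime ∧ n + h ≤ N)).card : ℝ) with hC1
  set C2 : ℝ := (((Icc 1 N).filter (fun n => T < n ∧ n.Prime ∧ n + h ≤ N ∧ Nat.Coprime W (n + h))).card : ℝ) with hC2
  set C3 : ℝ := (((Icc 1 N).filter (fun n => Nat.Coprime W n ∧ n + h ≤ N ∧ T < n + h ∧ (n + h).Prime)).card : ℝ) with hC3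
  set C4 : ℝ := (((Icc 1 N).filter (fun n => Nat.Coprime W n ∧ n + h ≤ N ∧ Nat.Coprime W (n + h))).card : ℝ) with hC4
  have hexp : ∑ n ∈ Icc 1 N, (uu N T n - VV N W n) * (uu N T (n + h) - VV N W (n + h)) =
      Real.log N ^ 2 * C1 - Real.log N * E * C2 - Real.log N * E * C3 + E ^ 2 * C4 := by
    rw [hC1, hC2, hC3, hC4, ← sum_ite_card, ← sum_ite_card, ← sum_ite_card, ← sum_ite_card,
      ← sum_sub_distrib, ← sum_sub_distrib, ← sum_add_distrib]
    apply sum_congr rfl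
    intro n hn
    rw [mem_Icc] at hn
    have e1 := uu_uu N T n h hn.2
    have e2 := uu_VV N T W n h hn.2
    have e3 := VV_uu N T W n h hn.2
    have e4 := VV_VV N W n h hn.2
    rw [← hE] at e2 e3 e4
    linear_combination e1 - e2 - e3 + e4
  -- comparison of the counts
  have k1 : |C1 - twins N h| ≤ (T : ℝ) + h := by
    unfold twins
    apply card_close N T h
    intro n h1 h2
    exact ⟨fun h => ⟨h.2.1, h.2.2.1⟩, fun h => ⟨h1, h.1, h.2, h2⟩⟩
  have hcop : ∀ p : ℕ, p.Prime → W < p → Nat.Coprime W p := by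
    intro p hp hpW
    exact (hp.coprime_iff_not_dvd.2 (fun hd => absurd (Nat.le_of_dvd hW hd) (by omega))).symm
  have k2 : |C2 - (((Icc 1 N).filter (fun n => (n + a 0).Prime ∧ ∀ j, Nat.Coprime W (n + a j))).card : ℝ)| ≤
      ((T + W : ℕ) : ℝ) + h := by
    apply card_close N (T + W) h
    intro n h1 h2
    simp only [ha, Fin.forall_fin_two, Matrix.cons_val_zero, Matrix.cons_val_one, add_zero]
    constructor
    · rintro ⟨_, h4, _, h6⟩
      exact ⟨h4, hcop n h4 (by omega), h6⟩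
    · rintro ⟨h3, _, h5⟩
      exact ⟨by omega, h3, h2, h5⟩
  have k3 : |C3 - (((Icc 1 N).filter (fun n => (n + a 1).Prime ∧ ∀ j, Nat.Coprime W (n + a j))).card : ℝ)| ≤
      ((T + W : ℕ) : ℝ) + h := by
    apply card_close N (T + W) h
    intro n h1 h2
    simp only [ha, Fin.forall_fin_two, Matrix.cons_val_zero, Matrix.cons_val_one, add_zero]
    constructor
    · rintro ⟨h3, _, _, h6⟩
      exact ⟨h6, h3, hcop (n + h) h6 (by omega)⟩
    · rintro ⟨h3, h4, _⟩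
      exact ⟨h4, h2, by omega, h3⟩
  have k4 : |C4 - (((Icc 1 N).filter (fun n => ∀ j, Nat.Coprime W (n + a j))).card : ℝ)| ≤
      ((0 : ℕ) : ℝ) + h := by
    apply card_close N 0 h
    intro n h1 h2
    simp only [ha, Fin.forall_fin_two, Matrix.cons_val_zero, Matrix.cons_val_one, add_zero]
    exact ⟨fun h => ⟨h.1, h.2.2⟩, fun h => ⟨h.1, h2, h.2⟩⟩
  set D2 : ℝ := (((Icc 1 N).filter (fun n => (n + a 0).Prime ∧ ∀ j, Nat.Coprime W (n + a j))).card : ℝ)
  set D3 : ℝ := (((Icc 1 N).filter (fun n => (n + a 1).Prime ∧ ∀ j, Nat.Coprime W (n + a j))).card : ℝ)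
  set D4 : ℝ := (((Icc 1 N).filter (fun n => ∀ j, Nat.Coprime W (n + a j))).card : ℝ)
  have m2 := hN1 N hN1' 2 a 0
  have m3 := hN1 N hN1' 2 a 1
  have m4 := cnt_rough W hW a N
  have ha0 : ((a 0 : ℕ) : ℝ) = 0 := by simp [ha]
  have ha1 : ((a 1 : ℕ) : ℝ) = h := by simp [ha]
  rw [ha0] at m2
  rw [ha1] at m3
  set g : ℝ := (gg W a : ℝ) with hg
  have hs : sy a y = E ^ 2 * (g / W) := sy_fun a y
  have hs2 : E * (g / Nat.totient W) = E ^ 2 * (g / W) := by
    rw [hE]; field_simp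
  set Lg := Real.log N with hLg
  -- normalised quantities
  have hLN : 0 ≤ Lg / N := by positivity
  have hbd : ∀ z : ℝ, z ≤ 3 * X → Lg ^ 2 / N * z ≤ 3 * (Lg ^ 2 * X / N) := by
    intro z hz
    calc Lg ^ 2 / N * z ≤ Lg ^ 2 / N * (3 * X) := mul_le_mul_of_nonneg_left hz (by positivity)
      _ = _ := by ring
  have hLg2 : Lg ≤ Lg ^ 2 := by nlinarith
  have hUnit : X / N ≤ Lg ^ 2 * X / N := by
    apply div_le_div_of_nonneg_right _ hN0.le
    have : 1 * X ≤ Lg ^ 2 * X := mul_le_mul_of_nonneg_right (by linarith) hX0.le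
    linarith
  have hUnit1 : Lg * X / N ≤ Lg ^ 2 * X / N := by
    apply div_le_div_of_nonneg_right _ hN0.le
    exact mul_le_mul_of_nonneg_right hLg2 hX0.le
  set U : ℝ := Lg ^ 2 * X / N with hU
  have hU0 : 0 ≤ U := by positivity
  -- first
  have q1 : |Lg ^ 2 / N * C1 - Lg ^ 2 / N * twins N h| ≤ 2 * U := by
    rw [← mul_sub, abs_mul, abs_of_nonneg (by positivity : 0 ≤ Lg ^ 2 / N)]
    calc Lg ^ 2 / N * |C1 - twins N h| ≤ Lg ^ 2 / N * (T + h) := mul_le_mul_of_nonneg_left k1 (by positivity)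
      _ ≤ Lg ^ 2 / N * (X + X) := mul_le_mul_of_nonneg_left (by linarith) (by positivity)
      _ = 2 * U := by rw [hU]; ring
  have q23 : ∀ C D : ℝ, |C - D| ≤ ((T + W : ℕ) : ℝ) + h → |D * Lg / N - g / Nat.totient W| ≤
      δ / (8 * E) + W * h * Lg / N → |Lg * E * C / N - E ^ 2 * (g / W)| ≤ δ / 8 + E * (W + 3) * U := by
    intro C D hCD hD
    have e1 : Lg * E * C / N - E ^ 2 * (g / W) =
        E * (Lg / N) * (C - D) + E * (D * Lg / N - g / Nat.totient W) := by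
      rw [← hs2]; ring
    rw [e1]
    refine (abs_add_le _ _).trans ?_
    have f1 : |E * (Lg / N) * (C - D)| = E * (Lg / N) * |C - D| := by
      rw [abs_mul, abs_of_nonneg (by positivity : 0 ≤ E * (Lg / N))]
    have f2 : |E * (D * Lg / N - g / Nat.totient W)| = E * |D * Lg / N - g / Nat.totient W| := by
      rw [abs_mul, abs_of_pos hE0]
    rw [f1, f2]
    have e2 : E * (Lg / N) * |C - D| ≤ E * (Lg / N) * (3 * X) := by
      apply mul_le_mul_of_nonneg_left _ (by positivity)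
      push_cast at hCD
      linarith
    have e3 : E * |D * Lg / N - g / Nat.totient W| ≤ E * (δ / (8 * E) + W * h * Lg / N) :=
      mul_le_mul_of_nonneg_left hD hE0.le
    have e4 : E * (Lg / N) * (3 * X) ≤ E * 3 * U := by
      calc E * (Lg / N) * (3 * X) = E * 3 * (Lg * X / N) := by ring
        _ ≤ E * 3 * U := by gcongr
    have e5 : E * (δ / (8 * E) + W * h * Lg / N) ≤ δ / 8 + E * W * U := by
      have e6 : E * (δ / (8 * E)) = δ / 8 := by field_simp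
      have e7 : W * h * Lg / N ≤ W * U := by
        calc W * h * Lg / N = W * (h * Lg / N) := by ring
          _ ≤ W * (X * Lg / N) := by gcongr
          _ = W * (Lg * X / N) := by ring
          _ ≤ W * U := by gcongr
      calc E * (δ / (8 * E) + W * h * Lg / N) = E * (δ / (8 * E)) + E * (W * h * Lg / N) := by ring
        _ ≤ δ / 8 + E * (W * U) := by rw [e6]; gcongr
        _ = _ := by ring
    calc _ ≤ E * 3 * U + (δ / 8 + E * W * U) := by linarith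
      _ = _ := by ring
  have q2 := q23 C2 D2 k2 (by
    refine m2.trans ?_
    have : (W : ℝ) * 0 * Lg / N = 0 := by ring
    rw [this]
    have : 0 ≤ W * (h : ℝ) * Lg / N := by positivity
    linarith)
  have q3 := q23 C3 D3 k3 m3
  have q4 : |E ^ 2 * C4 / N - E ^ 2 * (g / W)| ≤ E ^ 2 * 2 * U := by
    have e1 : E ^ 2 * C4 / N - E ^ 2 * (g / W) = E ^ 2 / N * ((C4 - D4) + (D4 - N * (g / W))) := by
      field_simp
      ring
    rw [e1, abs_mul, abs_of_nonneg (by positivity : 0 ≤ E ^ 2 / N)]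
    have e2 : |(C4 - D4) + (D4 - N * (g / W))| ≤ X + X := by
      refine (abs_add_le _ _).trans ?_
      have k4' : |C4 - D4| ≤ h := by simpa using k4
      linarith
    calc E ^ 2 / N * |(C4 - D4) + (D4 - N * (g / W))| ≤ E ^ 2 / N * (X + X) :=
          mul_le_mul_of_nonneg_left e2 (by positivity)
      _ = E ^ 2 * 2 * (X / N) := by ring
      _ ≤ _ := by gcongr
  rw [hexp, hs]
  have e0 : (Lg ^ 2 * C1 - Lg * E * C2 - Lg * E * C3 + E ^ 2 * C4) / N -
      (Lg ^ 2 / N * twins N h - E ^ 2 * (g / W)) =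
      (Lg ^ 2 / N * C1 - Lg ^ 2 / N * twins N h) - (Lg * E * C2 / N - E ^ 2 * (g / W)) -
        (Lg * E * C3 / N - E ^ 2 * (g / W)) + (E ^ 2 * C4 / N - E ^ 2 * (g / W)) := by
    ring
  rw [e0]
  have hfin : |(Lg ^ 2 / N * C1 - Lg ^ 2 / N * twins N h) - (Lg * E * C2 / N - E ^ 2 * (g / W)) -
        (Lg * E * C3 / N - E ^ 2 * (g / W)) + (E ^ 2 * C4 / N - E ^ 2 * (g / W))| ≤
      2 * U + (δ / 8 + E * (W + 3) * U) + (δ / 8 + E * (W + 3) * U) + E ^ 2 * 2 * U := by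
    rw [abs_le] at q1 q2 q3 q4 ⊢
    constructor <;> linarith [q1.1, q1.2, q2.1, q2.2, q3.1, q3.2, q4.1, q4.2]
  refine hfin.trans ?_
  have h5 : 0 ≤ E * (W + 3) * U := by positivity
  have h6 : 0 ≤ E ^ 2 * U := by positivity
  have h7 : (3 + 4 * E * (W + 3) + E ^ 2 * 3) * U = 3 * U + 4 * (E * (W + 3) * U) + 3 * (E ^ 2 * U) := by ring
  rw [h7] at hlimN
  linarith

end Pool.Agent.NH16
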