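import Pool.Agent.NH16.Pair

/-!
# The structure theorem for pairs
-/

set_option autoImplicit false

namespace Pool.Agent.NH16

open Finset
open Pool.Agent.H386R2.HL
open Pool.Agent.Helper602.MK
open Pool.Agent.Helper602.MK.N_J5b
open Pool.Agent.H387R2.Uni (WW WW_pos WW_factors totient_WW)

/-- for almost all `h` the singular series of `(0, h)` is close to its truncation -/
theorem sing_pair_close (η : ℝ) (hη : 0 < η) : ∃ y : ℕ, ∀ H : ℕ,
    (((Icc 1 H).filter (fun h => η < |singularSeries (![0, h] : Fin 2 → ℕ) - sy (![0, h] : Fin 2 → ℕ) y|)).card : ℝ) ≤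
      η * H := by
  obtain ⟨y0, hy03, hy0⟩ := sing_close 2 (by norm_num) η hη
  have h1 := (tendsto_rpow_neg_atTop (by norm_num : (0:ℝ) < 1 / 2)).comp (tendsto_natCast_atTop_atTop (R := ℝ))
  obtain ⟨y, hy1, hy2⟩ := ((h1.eventually_lt_const hη).and (Filter.eventually_ge_atTop y0)).exists
  simp only [Function.comp_apply] at hy1
  have hypos : (0 : ℝ) < y := by
    have : 0 < y := by omega
    exact_mod_cast this
  refine ⟨y, fun H => ?_⟩
  set t : ℝ := (y : ℝ) ^ (-(1 / 2) : ℝ) with ht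
  have ht0 : 0 < t := Real.rpow_pos_of_pos hypos _
  have hsub : (Icc 1 H).filter (fun h => η < |singularSeries (![0, h] : Fin 2 → ℕ) - sy (![0, h] : Fin 2 → ℕ) y|) ⊆
      (Icc 1 H).filter (fun h => t < sg y h) := by
    intro h hh
    rw [mem_filter, mem_Icc] at hh ⊢
    refine ⟨hh.1, ?_⟩
    by_contra hcon
    push Not at hcon
    have hinj : Function.Injective (![0, h] : Fin 2 → ℕ) := by
      intro i j hij
      fin_cases i <;> fin_cases j <;> simp at hij ⊢ <;> omega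
    have key : sg y (Nat.dist 0 h) ≤ (y : ℝ) ^ (-(1 / 2) : ℝ) := by
      unfold Nat.dist
      simp only [zero_tsub, zero_add, tsub_zero]
      exact hcon
    have := hy0 y hy2 ![0, h] hinj (by
      intro i j hij
      fin_cases i <;> fin_cases j
      · exact absurd hij (lt_irrefl _)
      · exact key
      · exact absurd hij (by decide)
      · exact absurd hij (lt_irrefl _))
    linarith [hh.2]
  calc _ ≤ (((Icc 1 H).filter (fun h => t < sg y h)).card : ℝ) := by exact_mod_cast card_le_card hsub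
    _ ≤ H / (y * t) := sg_large y H (by omega) t ht0
    _ = H * t := by
        have h2 : (y : ℝ) * t * t = 1 := by
          rw [ht, mul_assoc, ← Real.rpow_add hypos]
          norm_num
          rw [Real.rpow_neg_one]
          exact mul_inv_cancel₀ hypos.ne'
        rw [div_eq_iff (by positivity)]
        calc (H : ℝ) = H * ((y : ℝ) * t * t) := by rw [h2, mul_one]
          _ = _ := by ring
    _ ≤ η * H := by
        rw [mul_comm]
        exact mul_le_mul_of_nonneg_right hy1.le (Nat.cast_nonneg _)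

/-- a sum over few points as a sum over `Fin K` -/
theorem to_fin {ι : Type*} (Y : Finset ι) (K : ℕ) (hK : Y.card ≤ K) (a b : ι → ℝ) (B : ℝ) (hB : 0 ≤ B)
    (ha : ∀ i ∈ Y, 0 ≤ a i ∧ a i ≤ B) :
    ∃ c α : Fin K → ℝ, (∀ j, 0 ≤ c j ∧ c j ≤ B) ∧ ∀ F : ℝ → ℝ,
      ∑ j, c j * F (α j) = ∑ i ∈ Y, a i * F (b i) := by
  classical
  have hcard : Fintype.card Y ≤ Fintype.card (Fin K) := by simpa using hK
  obtain ⟨e⟩ := Function.Embedding.nonempty_of_card_le hcard
  refine ⟨Function.extend e (fun i : Y => a i) 0, Function.extend e (fun i : Y => b i) 0, ?_, ?_⟩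
  · intro j
    by_cases hj : ∃ i, e i = j
    · obtain ⟨i, rfl⟩ := hj
      rw [e.injective.extend_apply]
      exact ha i i.2
    · rw [Function.extend_apply' _ _ _ hj]
      exact ⟨le_rfl, hB⟩
  · intro F
    have h1 : ∑ j, Function.extend e (fun i : Y => a i) 0 j * F (Function.extend e (fun i : Y => b i) 0 j) =
        ∑ j ∈ univ.map e, Function.extend e (fun i : Y => a i) 0 j * F (Function.extend e (fun i : Y => b i) 0 j) := by
      symm
      apply sum_subset (subset_univ _)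
      intro j _ hj
      have : ¬ ∃ i, e i = j := by
        intro h
        apply hj
        rw [mem_map]
        obtain ⟨i, hi⟩ := h
        exact ⟨i, mem_univ _, hi⟩
      rw [Function.extend_apply' _ _ _ this]
      simp
    rw [h1, sum_map]
    simp only [e.injective.extend_apply]
    exact sum_coe_sort Y (fun i => a i * F (b i))

/-- real version of `uu - VV` on the integers -/
noncomputable def ef (N W : ℕ) (n : ℤ) : ℂ :=
  if 1 ≤ n then ((uu N N.sqrt n.toNat - VV N W n.toNat : ℝ) : ℂ) else 0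

noncomputable def euf (N : ℕ) (n : ℤ) : ℂ := if 1 ≤ n then ((uu N N.sqrt n.toNat : ℝ) : ℂ) else 0

noncomputable def evf (N W : ℕ) (n : ℤ) : ℂ := if 1 ≤ n then ((VV N W n.toNat : ℝ) : ℂ) else 0

lemma ef_eq (N W : ℕ) (n : ℤ) : ef N W n = euf N n - evf N W n := by
  unfold ef euf evf
  split_ifs
  · push_cast; rfl
  · simp

lemma sum_int_nat (N : ℕ) (f : ℤ → ℂ) : ∑ n ∈ Icc (1 : ℤ) N, f n = ∑ n ∈ Icc (1 : ℕ) N, f (n : ℤ) := by
  symm
  apply sum_bij (fun (n : ℕ) _ => (n : ℤ))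
  · intro n hn
    rw [mem_Icc] at hn ⊢
    omega
  · intro a _ b _ hab
    exact_mod_cast hab
  · intro n hn
    rw [mem_Icc] at hn
    exact ⟨n.toNat, by rw [mem_Icc]; omega, by omega⟩
  · intro n _
    rfl

lemma ef_corr (N W h : ℕ) : ∑ n ∈ Icc (1 : ℤ) N, ef N W n * (starRingEnd ℂ) (ef N W (n + h)) =
    ((∑ n ∈ Icc 1 N, (uu N N.sqrt n - VV N W n) * (uu N N.sqrt (n + h) - VV N W (n + h)) : ℝ) : ℂ) := by
  rw [sum_int_nat, Complex.ofReal_sum]
  apply sum_congr rfl
  intro n hn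
  rw [mem_Icc] at hn
  unfold ef
  rw [if_pos (by omega), if_pos (by omega), Complex.conj_ofReal]
  have h1 : ((n : ℤ) + (h : ℤ)).toNat = n + h := by omega
  rw [h1, Int.toNat_natCast]
  push_cast
  rfl

lemma uu_nonneg (N T n : ℕ) : 0 ≤ uu N T n := by
  unfold uu
  split_ifs
  · exact Real.log_natCast_nonneg N
  · exact le_rfl

lemma uu_le (N T n : ℕ) : uu N T n ≤ Real.log N := by
  unfold uu
  split_ifs
  · exact le_rfl
  · exact Real.log_natCast_nonneg N

lemma VV_nonneg (N W n : ℕ) : 0 ≤ VV N W n := by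
  unfold VV
  split_ifs
  · positivity
  · exact le_rfl

lemma VV_le (N W n : ℕ) : VV N W n ≤ (W : ℝ) / Nat.totient W := by
  unfold VV
  split_ifs
  · exact le_rfl
  · positivity

/-- the Fourier coefficients of the windows of `uu - VV` -/
theorem ef_restr (ε : ℝ) (hε : 0 < ε) (W : ℕ) : ∃ B : ℝ, 0 < B ∧ ∀ N L : ℕ, 2 ≤ N → 2 ^ 100 ≤ L → L ≤ N →
    ε * Real.log N ≤ Real.log L →
    ∀ X : Finset ℕ, X ⊆ range (2 * L) → X.Nonempty →
    ∑ ξ ∈ X, acoef (ef N W) N L (2 * L) ξ ≤ B * Real.log (2 * X.card) := by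
  obtain ⟨C, hC, hr⟩ := wft_restr
  set E : ℝ := (W : ℝ) / Nat.totient W with hE
  have hE0 : 0 ≤ E := by positivity
  refine ⟨2 * C * (1 / ε) ^ 2 + 8 * E ^ 2, by positivity, ?_⟩
  intro N L hN hL hLN hlog X hX hXne
  have hN0 : (0 : ℝ) < N := by
    have : 0 < N := by omega
    exact_mod_cast this
  have hL1 : 1 < L := lt_of_lt_of_le (by norm_num) hL
  have hL0 : (0 : ℝ) < L := by
    have : 0 < L := by omega
    exact_mod_cast this
  have hlogL : 0 < Real.log L := Real.log_pos (by exact_mod_cast hL1)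
  have hlogN : 0 < Real.log N := Real.log_pos (by exact_mod_cast (by omega : 1 < N))
  have hr1 : (1 : ℝ) ≤ X.card := by exact_mod_cast Finset.card_pos.2 hXne
  have hl2 : Real.log 2 ≤ Real.log (2 * X.card) := Real.log_le_log (by norm_num) (by linarith)
  have hl21 : (1 : ℝ) / 2 ≤ Real.log 2 := by have := Real.log_two_gt_d9; linarith
  set lg := Real.log (2 * X.card) with hlg
  have hlg0 : 0 < lg := by linarith
  have hwin : ∀ x : ℤ, ∑ ξ ∈ X, ‖wft (ef N W) x L (2 * L) ξ‖ ^ 2 ≤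
      (2 * C * (1 / ε) ^ 2 + 8 * E ^ 2) * lg * (L : ℝ) ^ 2 := by
    intro x
    have h1 : ∀ ξ : ℕ, ‖wft (ef N W) x L (2 * L) ξ‖ ^ 2 ≤
        2 * ‖wft (euf N) x L (2 * L) ξ‖ ^ 2 + 2 * ‖wft (evf N W) x L (2 * L) ξ‖ ^ 2 := by
      intro ξ
      have e1 : wft (ef N W) x L (2 * L) ξ = wft (euf N) x L (2 * L) ξ - wft (evf N W) x L (2 * L) ξ := by
        unfold wft
        rw [← sum_sub_distrib]
        apply sum_congr rfl
        intro n _
        rw [ef_eq]; ring
      rw [e1]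
      have e2 := norm_sub_le (wft (euf N) x L (2 * L) ξ) (wft (evf N W) x L (2 * L) ξ)
      have e3 := norm_nonneg (wft (euf N) x L (2 * L) ξ - wft (evf N W) x L (2 * L) ξ)
      nlinarith [sq_nonneg (‖wft (euf N) x L (2 * L) ξ‖ - ‖wft (evf N W) x L (2 * L) ξ‖)]
    have h2 : ∑ ξ ∈ X, ‖wft (euf N) x L (2 * L) ξ‖ ^ 2 ≤ C * (1 / ε) ^ 2 * lg * (L : ℝ) ^ 2 := by
      have h3 := hr L hL (2 * L) (by omega) (by omega) X hX hXne x (euf N) (Real.log N) (by
        intro n hn
        unfold euf at hn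
        have hn1 : 1 ≤ n := by
          by_contra hcon
          rw [if_neg hcon] at hn
          exact hn rfl
        rw [if_pos hn1] at hn
        unfold uu at hn
        have hn2 : n.toNat ≤ N ∧ N.sqrt < n.toNat ∧ n.toNat.Prime := by
          by_contra hcon
          rw [if_neg hcon] at hn
          exact hn (by simp)
        refine ⟨hn2.2.2, ?_⟩
        have h4 : N < n.toNat ^ 2 := by
          have := Nat.lt_succ_sqrt N
          have h5 : N.sqrt + 1 ≤ n.toNat := hn2.2.1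
          calc N < (N.sqrt + 1) * (N.sqrt + 1) := this
            _ ≤ n.toNat * n.toNat := Nat.mul_le_mul h5 h5
            _ = n.toNat ^ 2 := by ring
        have h6 : n.toNat ^ 2 ≤ n.toNat ^ 50 := Nat.pow_le_pow_right (by omega) (by norm_num)
        omega) (by
        intro n
        unfold euf
        split_ifs
        · rw [Complex.norm_real, Real.norm_eq_abs, abs_of_nonneg (uu_nonneg _ _ _)]
          exact uu_le _ _ _
        · rw [norm_zero]; exact hlogN.le)
      refine h3.trans ?_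
      have h4 : Real.log N * (L / Real.log L) ≤ (1 / ε) * L := by
        rw [← mul_div_assoc, div_le_iff₀ hlogL]
        calc Real.log N * L = (1 / ε) * L * (ε * Real.log N) := by field_simp
          _ ≤ (1 / ε) * L * Real.log L := mul_le_mul_of_nonneg_left hlog (by positivity)
      calc C * (Real.log N * (L / Real.log L)) ^ 2 * lg ≤ C * ((1 / ε) * L) ^ 2 * lg := by
            gcongr
        _ = _ := by ring
    have h3 : ∑ ξ ∈ X, ‖wft (evf N W) x L (2 * L) ξ‖ ^ 2 ≤ 4 * E ^ 2 * lg * (L : ℝ) ^ 2 := by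
      calc ∑ ξ ∈ X, ‖wft (evf N W) x L (2 * L) ξ‖ ^ 2 ≤ ∑ ξ ∈ range (2 * L), ‖wft (evf N W) x L (2 * L) ξ‖ ^ 2 :=
            sum_le_sum_of_subset_of_nonneg hX (fun _ _ _ => by positivity)
        _ = (2 * L : ℕ) * ∑ n ∈ Ioc x (x + L), ‖evf N W n‖ ^ 2 :=
            wft_parseval _ x L (2 * L) (by omega) (by omega)
        _ ≤ (2 * L : ℕ) * ∑ n ∈ Ioc x (x + L), E ^ 2 := by
            apply mul_le_mul_of_nonneg_left _ (Nat.cast_nonneg _)
            apply sum_le_sum
            intro n _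
            apply pow_le_pow_left₀ (norm_nonneg _)
            unfold evf
            split_ifs
            · rw [Complex.norm_real, Real.norm_eq_abs, abs_of_nonneg (VV_nonneg _ _ _)]
              exact VV_le _ _ _
            · rw [norm_zero]; exact hE0
        _ = 4 * E ^ 2 * (1 / 2) * (L : ℝ) ^ 2 := by
            rw [sum_const, nsmul_eq_mul, Int.card_Ioc]
            have : (x + (L : ℤ) - x).toNat = L := by omega
            rw [this]
            push_cast
            ring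
        _ ≤ 4 * E ^ 2 * lg * (L : ℝ) ^ 2 := by
            gcongr
            linarith
    calc ∑ ξ ∈ X, ‖wft (ef N W) x L (2 * L) ξ‖ ^ 2 ≤ ∑ ξ ∈ X, (2 * ‖wft (euf N) x L (2 * L) ξ‖ ^ 2 +
          2 * ‖wft (evf N W) x L (2 * L) ξ‖ ^ 2) := sum_le_sum fun ξ _ => h1 ξ
      _ = 2 * ∑ ξ ∈ X, ‖wft (euf N) x L (2 * L) ξ‖ ^ 2 + 2 * ∑ ξ ∈ X, ‖wft (evf N W) x L (2 * L) ξ‖ ^ 2 := by
          rw [sum_add_distrib, mul_sum, mul_sum]
      _ ≤ _ := by nlinarith
  have h5 := acoef_sum_le (ef N W) N L (2 * L) (by omega) (by omega) hLN (by omega) X _ hwin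
  refine h5.trans (le_of_eq ?_)
  push_cast
  field_simp

theorem pair_struct (ε η : ℝ) (hε : 0 < ε) (hε2 : ε ≤ 1 / 2) (hη : 0 < η) : ∃ K : ℕ, ∀ᶠ N : ℕ in Filter.atTop,
    ∀ H : ℕ, (N : ℝ) ^ ε ≤ H → (H : ℝ) ≤ (N : ℝ) ^ (1 - ε) → ∃ c α : Fin K → ℝ, (∀ j, 0 ≤ c j ∧ c j ≤ K) ∧
      (((Icc 1 H).filter (fun h => η < |Real.log N ^ 2 / N * twins N h - singularSeries (![0, h] : Fin 2 → ℕ) -
        ∑ j, c j * Real.cos (2 * Real.pi * (α j * h))|)).card : ℝ) ≤ η * H := by
  obtain ⟨y, hy⟩ := sing_pair_close (η / 8) (by positivity)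
  obtain ⟨B, hB0, hB⟩ := ef_restr ε hε (WW y)
  obtain ⟨Z, hZ0, hZ⟩ := rearr (3 / 2) (by norm_num)
  set D : ℝ := Z * B ^ (3 / 2 : ℝ) with hD
  have hD0 : 0 < D := by positivity
  set D2 : ℝ := B ^ (2 - 3 / 2 : ℝ) * D with hD2
  have hD20 : 0 < D2 := by positivity
  obtain ⟨K1, hK1⟩ := exists_nat_ge (2048 * D2 / η ^ 3)
  set K' : ℕ := max K1 2 with hK'
  have hK'2 : 2 ≤ K' := le_max_right _ _
  have hK'0 : (0 : ℝ) < K' := by
    have : 0 < K' := by omega
    exact_mod_cast this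
  have hK'r : 2048 * D2 / η ^ 3 ≤ K' := hK1.trans (by exact_mod_cast le_max_left _ _)
  set τ : ℝ := (η ^ 3 / (512 * K' * D)) ^ 2 with hτ
  have hτ0 : 0 < τ := by positivity
  obtain ⟨K, hK⟩ := exists_nat_ge (max (D / τ ^ (3 / 2 : ℝ)) B)
  refine ⟨K, ?_⟩
  have e1 : ∀ᶠ N : ℕ in Filter.atTop, (2 : ℝ) ^ 100 ≤ (N : ℝ) ^ ε :=
    ((tendsto_rpow_atTop hε).comp (tendsto_natCast_atTop_atTop (R := ℝ))).eventually_ge_atTop _
  have e2 : ∀ᶠ N : ℕ in Filter.atTop, (K' : ℝ) ≤ (N : ℝ) ^ ε :=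
    ((tendsto_rpow_atTop hε).comp (tendsto_natCast_atTop_atTop (R := ℝ))).eventually_ge_atTop _
  filter_upwards [pair_corr y ε (η / 8) hε hε2 (by positivity), e1, e2, Filter.eventually_ge_atTop 2] with
    N hpc hN1 hN2 hN H hH1 hH2
  have hN0 : (0 : ℝ) < N := by
    have : 0 < N := by omega
    exact_mod_cast this
  have hH0 : 0 < H := by
    have : (0 : ℝ) < H := lt_of_lt_of_le (Real.rpow_pos_of_pos hN0 _) hH1
    exact_mod_cast this
  have hH0r : (0 : ℝ) < H := by exact_mod_cast hH0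
  set L := K' * H with hL
  have hL0 : 0 < L := by positivity
  have hLr : (L : ℝ) = K' * H := by rw [hL]; push_cast; rfl
  have hL0r : (0 : ℝ) < L := by exact_mod_cast hL0
  have hHL : H ≤ L := Nat.le_mul_of_pos_left H (by omega)
  have hLbig : 2 ^ 100 ≤ L := by
    have : (2 : ℝ) ^ 100 ≤ H := hN1.trans hH1
    have h2 : 2 ^ 100 ≤ H := by exact_mod_cast this
    omega
  have hLN : L ≤ N := by
    have : (L : ℝ) ≤ N := by
      rw [hLr]
      calc (K' : ℝ) * H ≤ (N : ℝ) ^ ε * (N : ℝ) ^ (1 - ε) := by gcongr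
        _ = N := by
          rw [← Real.rpow_add hN0]
          norm_num
    exact_mod_cast this
  have hlogL : ε * Real.log N ≤ Real.log L := by
    rw [← Real.log_rpow hN0]
    apply Real.log_le_log (Real.rpow_pos_of_pos hN0 _)
    refine hH1.trans ?_
    exact_mod_cast hHL
  have hrestr := hB N L hN hLbig hLN hlogL
  set a : ℕ → ℝ := acoef (ef N (WW y)) N L (2 * L) with ha
  have ha0 : ∀ ξ, 0 ≤ a ξ := fun ξ => acoef_nonneg _ _ _ _ _
  have hl2 : Real.log 2 ≤ 1 := by have := Real.log_two_lt_d9; linarith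
  have hsum := hZ a ha0 B hB0.le (range (2 * L)) hrestr
  rw [← hD] at hsum
  have haB : ∀ ξ ∈ range (2 * L), a ξ ≤ B := by
    intro ξ hξ
    have h1 := hrestr {ξ} (by simpa using hξ) (by simp)
    rw [sum_singleton, card_singleton, Nat.cast_one, mul_one] at h1
    nlinarith
  have hsq : ∑ ξ ∈ range (2 * L), a ξ ^ 2 ≤ D2 := by
    have h1 := light_sum a ha0 (3 / 2) (by norm_num) (range (2 * L)) D B hB0 hsum
    rw [filter_true_of_mem (fun ξ hξ => not_lt.2 (haB ξ hξ))] at h1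
    exact h1
  set Y := (range (2 * L)).filter (fun ξ => τ < a ξ) with hY
  set Y' := (range (2 * L)).filter (fun ξ => ¬ τ < a ξ) with hY'
  have hYcard : Y.card ≤ K := by
    have h1 := heavy_card a ha0 (3 / 2) (by norm_num) (range (2 * L)) D τ hτ0 hsum
    have h2 : ((Y.card : ℕ) : ℝ) ≤ K := h1.trans ((le_max_left _ _).trans hK)
    exact_mod_cast h2
  have hlight : ∑ ξ ∈ Y', a ξ ^ 2 ≤ η ^ 3 / (512 * K') := by
    have h1 := light_sum a ha0 (3 / 2) (by norm_num) (range (2 * L)) D τ hτ0 hsum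
    refine h1.trans (le_of_eq ?_)
    have h2 : τ ^ (2 - 3 / 2 : ℝ) = η ^ 3 / (512 * K' * D) := by
      rw [hτ, ← Real.rpow_natCast, ← Real.rpow_mul (by positivity)]
      norm_num
    rw [h2]
    field_simp
  obtain ⟨c, α, hc, hcα⟩ := to_fin Y K hYcard a (fun ξ => (ξ : ℝ) / (2 * L : ℕ)) B hB0.le
    (fun ξ hξ => ⟨ha0 ξ, haB ξ (mem_filter.1 hξ).1⟩)
  refine ⟨c, α, fun j => ⟨(hc j).1, (hc j).2.trans ((le_max_right _ _).trans hK)⟩, ?_⟩
  -- the three functions
  set G : ℕ → ℂ := fun h => ∑ ξ ∈ range (2 * L), (a ξ : ℂ) * ee ((ξ : ℝ) * h / (2 * L : ℕ)) with hG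
  set Gl : ℕ → ℂ := fun h => ∑ ξ ∈ Y', (a ξ : ℂ) * ee ((ξ : ℝ) * h / (2 * L : ℕ)) with hGl
  set A : ℕ → ℝ := fun h => (∑ n ∈ Icc 1 N, (uu N N.sqrt n - VV N (WW y) n) *
    (uu N N.sqrt (n + h) - VV N (WW y) (n + h))) / N with hA
  have hGA : ∀ h ∈ Icc 1 H, G h = (((1 - (h : ℝ) / L) * A h : ℝ) : ℂ) := by
    intro h hh
    rw [mem_Icc] at hh
    have h1 := corr_id (ef N (WW y)) N L (2 * L) (by omega) hL0 (by omega) (by
      intro n hn
      unfold ef uu VV
      split_ifs with h1 h2 h3 h3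
      · omega
      · omega
      · omega
      · simp
      · rfl) h (by omega) (by omega)
    rw [ef_corr] at h1
    rw [hG]
    simp only
    rw [h1, hA]
    push_cast
    rfl
  have hGsplit : ∀ h, (G h).re = ∑ ξ ∈ Y, a ξ * Real.cos (2 * Real.pi * ((ξ : ℝ) / (2 * L : ℕ) * h)) + (Gl h).re := by
    intro h
    have h1 : G h = ∑ ξ ∈ Y, (a ξ : ℂ) * ee ((ξ : ℝ) * h / (2 * L : ℕ)) + Gl h := by
      rw [hG, hGl]
      simp only
      rw [hY, hY', sum_filter_add_sum_filter_not]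
    rw [h1, Complex.add_re, Complex.re_sum]
    congr 1
    apply sum_congr rfl
    intro ξ _
    rw [Complex.re_ofReal_mul, ee_re]
    congr 3
    ring
  -- the parseval bounds
  have hP1 : ∑ h ∈ range (2 * L), ‖G h‖ ^ 2 ≤ (2 * L : ℕ) * D2 := by
    have h1 := poly_parseval (2 * L) (by omega) (range (2 * L)) (Finset.Subset.refl _) (fun ξ => (a ξ : ℂ))
    rw [hG]
    simp only at h1 ⊢
    rw [h1]
    apply mul_le_mul_of_nonneg_left _ (Nat.cast_nonneg _)
    refine le_trans (le_of_eq ?_) hsq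
    apply sum_congr rfl
    intro ξ _
    rw [Complex.norm_real, Real.norm_eq_abs, abs_of_nonneg (ha0 ξ)]
  have hP2 : ∑ h ∈ range (2 * L), ‖Gl h‖ ^ 2 ≤ (2 * L : ℕ) * (η ^ 3 / (512 * K')) := by
    have h1 := poly_parseval (2 * L) (by omega) Y' (filter_subset _ _) (fun ξ => (a ξ : ℂ))
    rw [hGl]
    simp only at h1 ⊢
    rw [h1]
    apply mul_le_mul_of_nonneg_left _ (Nat.cast_nonneg _)
    refine le_trans (le_of_eq ?_) hlight
    apply sum_congr rfl
    intro ξ _
    rw [Complex.norm_real, Real.norm_eq_abs, abs_of_nonneg (ha0 ξ)]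
  -- Chebyshev
  have cheb : ∀ (g : ℕ → ℂ) (R S : ℝ), 0 < R → ∑ h ∈ range (2 * L), ‖g h‖ ^ 2 ≤ S →
      (((Icc 1 H).filter (fun h => R < ‖g h‖)).card : ℝ) ≤ S / R ^ 2 := by
    intro g R S hR hS
    rw [le_div_iff₀ (by positivity), ← nsmul_eq_mul]
    refine le_trans (card_nsmul_le_sum _ (fun h => ‖g h‖ ^ 2) _ ?_) (le_trans ?_ hS)
    · intro h hh
      exact pow_le_pow_left₀ hR.le (mem_filter.1 hh).2.le 2
    · apply sum_le_sum_of_subset_of_nonneg
      · intro h hh
        rw [mem_filter, mem_Icc] at hh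
        rw [mem_range]; omega
      · intro _ _ _
        positivity
  set R : ℝ := Real.sqrt (8 * K' * D2 / η) with hR
  have hR0 : 0 < R := Real.sqrt_pos.2 (by positivity)
  have hR2 : R ^ 2 = 8 * K' * D2 / η := Real.sq_sqrt (by positivity)
  have hc1 := cheb G R _ hR0 hP1
  have hc2 := cheb Gl (η / 8) _ (by positivity) hP2
  have hc1' : (2 * L : ℕ) * D2 / R ^ 2 = η / 4 * H := by
    rw [hR2]
    push_cast
    rw [hLr]
    field_simp
    ring
  have hc2' : (2 * L : ℕ) * (η ^ 3 / (512 * K')) / (η / 8) ^ 2 = η / 4 * H := by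
    push_cast
    rw [hLr]
    field_simp
    ring
  rw [hc1'] at hc1
  rw [hc2'] at hc2
  have hRK : 2 / K' * R ≤ η / 8 := by
    have h1 : (2 / K' * R) ^ 2 ≤ (η / 8) ^ 2 := by
      rw [mul_pow, hR2]
      rw [div_le_iff₀ (by positivity)] at hK'r
      have h2 : (2 / (K' : ℝ)) ^ 2 * (8 * K' * D2 / η) = 32 * D2 / (η * K') := by
        field_simp
        ring
      rw [h2, div_le_iff₀ (by positivity)]
      nlinarith
    exact abs_le_of_sq_le_sq' h1 (by positivity) |>.2
  -- the exceptional set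
  have hsub : (Icc 1 H).filter (fun h => η < |Real.log N ^ 2 / N * twins N h - singularSeries (![0, h] : Fin 2 → ℕ) -
        ∑ j, c j * Real.cos (2 * Real.pi * (α j * h))|) ⊆
      ((Icc 1 H).filter (fun h => η / 8 < |singularSeries (![0, h] : Fin 2 → ℕ) - sy (![0, h] : Fin 2 → ℕ) y|)) ∪
      (((Icc 1 H).filter (fun h => R < ‖G h‖)) ∪ ((Icc 1 H).filter (fun h => η / 8 < ‖Gl h‖))) := by
    intro h hh
    rw [mem_filter] at hh
    obtain ⟨hh1, hh2⟩ := hh
    rw [mem_union, mem_union, mem_filter, mem_filter, mem_filter]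
    by_contra hcon
    push Not at hcon
    obtain ⟨q1, q2, q3⟩ := hcon
    have q1 := q1 hh1
    have q2 := q2 hh1
    have q3 := q3 hh1
    have hh1' := mem_Icc.1 hh1
    have hhH : (h : ℝ) ≤ H := by exact_mod_cast hh1'.2
    have q4 := hpc h (hhH.trans hH2)
    have q5 := hGA h hh1
    have q6 := hcα (fun x => Real.cos (2 * Real.pi * (x * h)))
    have q7 := hGsplit h
    have hre : (G h).re = (1 - (h : ℝ) / L) * A h := by
      rw [q5, Complex.ofReal_re]
    have hhL : (h : ℝ) / L ≤ 1 / K' := by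
      rw [div_le_div_iff₀ hL0r hK'0, one_mul, hLr, mul_comm (K' : ℝ)]
      exact mul_le_mul_of_nonneg_right hhH hK'0.le
    have hhL0 : 0 ≤ (h : ℝ) / L := by positivity
    have hK'h : 1 / (K' : ℝ) ≤ 1 / 2 := one_div_le_one_div_of_le (by norm_num) (by exact_mod_cast hK'2)
    have hAbd : |A h| ≤ 2 * R := by
      have h1 : ‖G h‖ = (1 - (h : ℝ) / L) * |A h| := by
        rw [q5, Complex.norm_real, Real.norm_eq_abs, abs_mul, abs_of_nonneg (by linarith)]
      rw [h1] at q2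
      have h2 : 1 / 2 * |A h| ≤ (1 - (h : ℝ) / L) * |A h| :=
        mul_le_mul_of_nonneg_right (by linarith) (abs_nonneg _)
      linarith
    have hdiff : |A h - (G h).re| ≤ η / 8 := by
      rw [hre]
      have h1 : A h - (1 - (h : ℝ) / L) * A h = (h : ℝ) / L * A h := by ring
      rw [h1, abs_mul, abs_of_nonneg hhL0]
      calc (h : ℝ) / L * |A h| ≤ 1 / K' * (2 * R) := by gcongr
        _ = 2 / K' * R := by ring
        _ ≤ η / 8 := hRK
    have hGlre : |(Gl h).re| ≤ η / 8 := (Complex.abs_re_le_norm _).trans q3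
    have q4' : |A h - (Real.log N ^ 2 / N * twins N h - sy (![0, h] : Fin 2 → ℕ) y)| ≤ η / 8 := q4
    rw [q6] at hh2
    have : |Real.log N ^ 2 / N * twins N h - singularSeries (![0, h] : Fin 2 → ℕ) -
        ∑ ξ ∈ Y, a ξ * Real.cos (2 * Real.pi * ((ξ : ℝ) / (2 * L : ℕ) * h))| ≤ η := by
      rw [abs_le] at q1 hdiff hGlre q4' ⊢
      constructor <;> linarith [q1.1, q1.2, hdiff.1, hdiff.2, hGlre.1, hGlre.2, q4'.1, q4'.2]
    linarith
  have hcard := (card_le_card hsub).trans ((card_union_le _ _).trans (add_le_add_right (card_union_le _ _) _))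
  have hcard' : (((Icc 1 H).filter (fun h => η < |Real.log N ^ 2 / N * twins N h -
      singularSeries (![0, h] : Fin 2 → ℕ) - ∑ j, c j * Real.cos (2 * Real.pi * (α j * h))|)).card : ℝ) ≤
      (((Icc 1 H).filter (fun h => η / 8 < |singularSeries (![0, h] : Fin 2 → ℕ) -
        sy (![0, h] : Fin 2 → ℕ) y|)).card : ℝ) +
      ((((Icc 1 H).filter (fun h => R < ‖G h‖)).card : ℝ) + (((Icc 1 H).filter (fun h => η / 8 < ‖Gl h‖)).card : ℝ)) := by
    exact_mod_cast hcard
  have := hy H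
  have : 0 < η * H := by positivity
  linarith

end Pool.Agent.NH16
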