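import Pool.Agent.NH16.Up3

/-!
# Part 1: the exponential sums over windows control the mean error over larger boxes
-/

set_option autoImplicit false

namespace Pool.Agent.NH16

open Finset
open Pool.Agent.Helper602.MK
open Pool.Agent.Helper602.MK.N_J5b
open Pool.Agent.H386R2.HL
open Pool.Agent.H387R2.Uni (WW WW_pos WW_factors totient_WW)

/-- `W / φ(W)` -/
theorem rho_le : ∃ C : ℝ, 1 ≤ C ∧ ∀ y : ℕ, 3 ≤ y → (WW y : ℝ) / Nat.totient (WW y) ≤ C * Real.log y := by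
  obtain ⟨C, hC, h⟩ := mert_prod
  refine ⟨C, hC, fun y hy => ?_⟩
  have hW : (0 : ℝ) < WW y := by exact_mod_cast WW_pos y
  rw [totient_WW]
  have e1 : (WW y : ℝ) / (WW y * ∏ p ∈ (y + 1).primesBelow, (1 - 1 / (p : ℝ))) =
      ∏ p ∈ (y + 1).primesBelow, (1 - 1 / (p : ℝ))⁻¹ := by
    rw [prod_inv_distrib, div_mul_eq_div_div, div_self hW.ne', one_div]
  rw [e1]
  exact h y hy

/-- covering a large box by small boxes -/
theorem cover {m : ℕ} (L H : ℕ) (hL : 0 < L) (G : (Fin m → ℕ) → ℝ) (hG : ∀ a, 0 ≤ G a) :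
    ∑ t : Fin m → Fin H, G (bx t) ≤
      ∑ b : Fin m → Fin (H / L + 1), ∑ t : Fin m → Fin L, G (fun i => L * (b i : ℕ) + bx t i) := by
  classical
  set e : (Fin m → Fin H) → (Fin m → Fin (H / L + 1)) × (Fin m → Fin L) := fun t =>
    (fun i => ⟨(t i : ℕ) / L, by
      have h1 := Nat.div_le_div_right (c := L) (t i).2.le
      omega⟩,
    fun i => ⟨(t i : ℕ) % L, Nat.mod_lt _ hL⟩) with he
  have hrec : ∀ t : Fin m → Fin H, (fun i => L * ((e t).1 i : ℕ) + bx (e t).2 i) = bx t := by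
    intro t
    funext i
    rw [he]
    unfold bx
    simp only
    have := Nat.div_add_mod (t i : ℕ) L
    omega
  have hinj : Function.Injective e := by
    intro t t' h
    apply bx_inj
    rw [← hrec t, ← hrec t', h]
  rw [← sum_product' (s := (univ : Finset (Fin m → Fin (H / L + 1)))) (t := (univ : Finset (Fin m → Fin L)))
    (f := fun b t => G (fun i => L * (b i : ℕ) + bx t i))]
  calc ∑ t : Fin m → Fin H, G (bx t) = ∑ t : Fin m → Fin H, G (fun i => L * ((e t).1 i : ℕ) + bx (e t).2 i) := by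
        apply sum_congr rfl
        intro t _
        rw [hrec]
    _ = ∑ z ∈ (univ : Finset (Fin m → Fin H)).image e, G (fun i => L * (z.1 i : ℕ) + bx z.2 i) := by
        rw [sum_image (fun a _ b _ hab => hinj hab)]
    _ ≤ _ := by
        apply sum_le_sum_of_subset_of_nonneg
        · intro z _
          rw [mem_product]
          exact ⟨mem_univ _, mem_univ _⟩
        · intro z _ _
          exact hG _

open Classical in
theorem EE_le (r : ℕ) : ∃ C : ℝ, 1 ≤ C ∧ ∀ y : ℕ, C ≤ y → ∀ N L : ℕ, 0 < L →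
    EE (r + 1) N L ≤ DD (r + 1) N L y + err2 N (r + 1) L + C * Real.log y ^ r / y := by
  obtain ⟨C1, hC1, h1⟩ := sing_avg r
  refine ⟨C1, hC1, ?_⟩
  intro y hy N L hL
  have hL0 : (0 : ℝ) < L := by exact_mod_cast hL
  have hlogN := Real.log_natCast_nonneg N
  rw [EE_eq]
  unfold DD
  rw [div_le_iff₀ (by positivity)]
  have he : 0 ≤ err2 N (r + 1) L := by unfold err2; positivity
  have hpt : ∀ t : Fin (r + 1) → Fin L, (if Function.Injective t then |Fr N (bx t) - singularSeries (bx t)| else 0) ≤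
      |Cr N L (bx t) - sy (bx t) y| + err2 N (r + 1) L +
      (if Function.Injective t then |singularSeries (bx t) - sy (bx t) y| else 0) := by
    intro t
    by_cases ht : Function.Injective t
    · rw [if_pos ht, if_pos ht]
      have h3 := Cr_Fr N L (bx t) (bx_mem t)
      have h4 : Fr N (bx t) - singularSeries (bx t) = (Cr N L (bx t) - sy (bx t) y) -
        (Cr N L (bx t) - Fr N (bx t)) - (singularSeries (bx t) - sy (bx t) y) := by ring
      rw [h4]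
      refine (abs_sub _ _).trans ?_
      have := abs_sub (Cr N L (bx t) - sy (bx t) y) (Cr N L (bx t) - Fr N (bx t))
      linarith
    · rw [if_neg ht, if_neg ht]
      positivity
  refine (sum_le_sum fun t _ => hpt t).trans ?_
  rw [sum_add_distrib, sum_add_distrib]
  have e2 : ∑ _t : Fin (r + 1) → Fin L, err2 N (r + 1) L = err2 N (r + 1) L * (L : ℝ) ^ (r + 1) := by
    rw [sum_const, card_univ, Fintype.card_fun, Fintype.card_fin, Fintype.card_fin, nsmul_eq_mul]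
    push_cast
    ring
  have e3 := h1 y hy L
  rw [e2, add_mul, add_mul, div_mul_cancel₀ _ (by positivity)]
  linarith

/-- the main bound for the large box -/
theorem DD_main (k : ℕ) (M : ℕ) [NeZero M] (N L y H : ℕ) (hM : M = 2 * L) (hN : 0 < N) (hLN : L ≤ N) (hLH : L ≤ H)
    (D S T δ : ℝ)
    (hD : 0 ≤ D) (hS : 0 ≤ S) (hT0 : 0 ≤ T) (hT : ∀ α, Tn N L y α ≤ T)
    (hnice : ∀ j i : Fin (k + 2), Nice M L (tk k) D S (fun n => (phi N y j i n : ℂ)))
    (hδ : ((WW y : ℝ) / Nat.totient (WW y)) ^ (k + 2) * ((2 * H + 1 + WW y) / N) ≤ δ) :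
    DD (k + 2) N H y ≤ 2 ^ (k + 1) * ((k + 2) * BB k D S T) + δ := by
  have hM' : 0 < M := Nat.pos_of_ne_zero (NeZero.ne M)
  have hL : 0 < L := by omega
  have hH : 0 < H := by omega
  have hL0 : (0 : ℝ) < L := by exact_mod_cast hL
  have hH0 : (0 : ℝ) < H := by exact_mod_cast hH
  have hN0 : (0 : ℝ) < N := by exact_mod_cast hN
  have hBB : 0 ≤ BB k D S T := Real.sqrt_nonneg _
  unfold DD
  rw [div_le_iff₀ (by positivity), add_mul]
  have h1 : ∑ t : Fin (k + 2) → Fin H, |Cr N H (bx t) - sy (bx t) y| ≤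
      ∑ t : Fin (k + 2) → Fin H, |Cr N H (bx t) - Cv N (WW y) H (bx t)| + δ * (H : ℝ) ^ (k + 2) := by
    have e2 : δ * (H : ℝ) ^ (k + 2) = ∑ _t : Fin (k + 2) → Fin H, δ := by
      rw [sum_const, card_univ, Fintype.card_fun, Fintype.card_fin, Fintype.card_fin, nsmul_eq_mul]
      push_cast
      ring
    rw [e2, ← sum_add_distrib]
    apply sum_le_sum
    intro t _
    have h3 := (Cv_sy N y H hN (bx t) (bx_mem t)).trans hδ
    have h4 : Cr N H (bx t) - sy (bx t) y = (Cr N H (bx t) - Cv N (WW y) H (bx t)) + (Cv N (WW y) H (bx t) - sy (bx t) y) := by ring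
    rw [h4]
    exact (abs_add_le _ _).trans (add_le_add le_rfl h3)
  refine h1.trans (add_le_add ?_ le_rfl)
  rw [sum_cons]
  have h2 : ∀ a : Fin H, ∑ f : Fin (k + 1) → Fin H, |Cr N H (bx (Fin.cons (α := fun _ => Fin H) a f)) -
      Cv N (WW y) H (bx (Fin.cons (α := fun _ => Fin H) a f))| ≤
      (2 * (H : ℝ)) ^ (k + 1) * ((k + 2) * BB k D S T) := by
    intro a
    have e1 : ∀ f : Fin (k + 1) → Fin H, |Cr N H (bx (Fin.cons (α := fun _ => Fin H) a f)) -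
        Cv N (WW y) H (bx (Fin.cons (α := fun _ => Fin H) a f))| =
        (fun g : Fin (k + 1) → ℕ => |Cr N H (Fin.cons (α := fun _ => ℕ) ((a : ℕ) + 1) g) -
          Cv N (WW y) H (Fin.cons (α := fun _ => ℕ) ((a : ℕ) + 1) g)|) (bx f) := by
      intro f
      simp only [bx_cons]
    rw [sum_congr rfl (fun f _ => e1 f)]
    refine (cover L H hL (fun g : Fin (k + 1) → ℕ => |Cr N H (Fin.cons (α := fun _ => ℕ) ((a : ℕ) + 1) g) -
          Cv N (WW y) H (Fin.cons (α := fun _ => ℕ) ((a : ℕ) + 1) g)|) (fun g => abs_nonneg _)).trans ?_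
    have e3 : ∀ b : Fin (k + 1) → Fin (H / L + 1), ∑ t : Fin (k + 1) → Fin L,
        (fun g : Fin (k + 1) → ℕ => |Cr N H (Fin.cons (α := fun _ => ℕ) ((a : ℕ) + 1) g) -
          Cv N (WW y) H (Fin.cons (α := fun _ => ℕ) ((a : ℕ) + 1) g)|) (fun i => L * (b i : ℕ) + bx t i) ≤
        (k + 2) * ((L : ℝ) ^ (k + 1) * BB k D S T) := by
      intro b
      exact one_box k M N L y H hM hN hLN D S T hD hS hT0 hT hnice ((a : ℕ) + 1) (by omega) (by have := a.2; omega)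
        (fun i => L * (b i : ℕ))
    refine (sum_le_sum fun b _ => e3 b).trans ?_
    rw [sum_const, card_univ, Fintype.card_fun, Fintype.card_fin, Fintype.card_fin, nsmul_eq_mul]
    push_cast
    have h5 : (((H / L : ℕ) : ℝ) + 1) * L ≤ 2 * H := by
      have h6 : H / L * L ≤ H := Nat.div_mul_le_self H L
      have h7 : ((H / L : ℕ) : ℝ) * L ≤ H := by exact_mod_cast h6
      have h8 : (L : ℝ) ≤ H := by exact_mod_cast hLH
      linarith
    calc (((H / L : ℕ) : ℝ) + 1) ^ (k + 1) * ((k + 2) * ((L : ℝ) ^ (k + 1) * BB k D S T)) =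
        ((((H / L : ℕ) : ℝ) + 1) * L) ^ (k + 1) * ((k + 2) * BB k D S T) := by rw [mul_pow]; ring
      _ ≤ (2 * (H : ℝ)) ^ (k + 1) * ((k + 2) * BB k D S T) := by gcongr
  refine (sum_le_sum fun a _ => h2 a).trans (le_of_eq ?_)
  rw [sum_const, card_univ, Fintype.card_fin, nsmul_eq_mul, mul_pow]
  ring

/-- polynomial bound of `BB` -/
theorem BB_le (k : ℕ) (C ℓ : ℝ) (hC : 1 ≤ C) (hℓ : 1 ≤ ℓ) (ρ : ℝ) (hρ0 : 0 ≤ ρ) (hρ : ρ ≤ C * ℓ) (T : ℝ) (hT : 0 ≤ T) :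
    BB k (2 ^ tk k * (C + ρ ^ tk k)) (C + ρ) T ≤
      √(2 ^ (k + 1) * (3 * (2 * C) ^ (k + 1) * (16 * ((k + 2) * (16 * C ^ 3) ^ (k + 1))))) * ℓ ^ (2 * (k + 1)) *
        T ^ (1 / (4 * ((k : ℝ) + 2))) := by
  have hk : (0 : ℝ) ≤ k := Nat.cast_nonneg k
  have htk3 : tk k ≤ 3 := by
    unfold tk
    rw [div_mul_div_comm, div_le_iff₀ (by positivity)]
    nlinarith
  have htk2 := tk_gt k
  have hCℓ : 1 ≤ C * ℓ := by nlinarith
  have hD : 2 ^ tk k * (C + ρ ^ tk k) ≤ 16 * C ^ 3 * ℓ ^ 3 := by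
    have h1 : (2 : ℝ) ^ tk k ≤ 8 := by
      calc (2 : ℝ) ^ tk k ≤ 2 ^ (3 : ℝ) := Real.rpow_le_rpow_of_exponent_le (by norm_num) htk3
        _ = 8 := by norm_num
    have h2 : ρ ^ tk k ≤ (C * ℓ) ^ 3 := by
      calc ρ ^ tk k ≤ (C * ℓ) ^ tk k := Real.rpow_le_rpow hρ0 hρ (by linarith)
        _ ≤ (C * ℓ) ^ (3 : ℝ) := Real.rpow_le_rpow_of_exponent_le hCℓ htk3
        _ = (C * ℓ) ^ 3 := by norm_num
    have h3 : C ≤ (C * ℓ) ^ 3 := by
      calc C ≤ C * ℓ := by nlinarith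
        _ ≤ (C * ℓ) ^ 3 := le_self_pow₀ hCℓ (by norm_num)
    calc (2 : ℝ) ^ tk k * (C + ρ ^ tk k) ≤ 8 * ((C * ℓ) ^ 3 + (C * ℓ) ^ 3) := by gcongr
      _ = 16 * C ^ 3 * ℓ ^ 3 := by ring
  have hS : C + ρ ≤ 2 * C * ℓ := by nlinarith
  have hD0 : 0 ≤ 2 ^ tk k * (C + ρ ^ tk k) := by positivity
  have hS1 : 1 ≤ 3 * (2 * C * ℓ) ^ (k + 1) := by
    have : 1 ≤ (2 * C * ℓ) ^ (k + 1) := one_le_pow₀ (by nlinarith)
    linarith
  have hS0 : 0 ≤ C + ρ := by linarith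
  have hfac : (3 * (C + ρ) ^ (k + 1) * √T) ^ (1 / ((k : ℝ) + 2)) ≤
      3 * (2 * C * ℓ) ^ (k + 1) * T ^ (1 / (2 * ((k : ℝ) + 2))) := by
    calc (3 * (C + ρ) ^ (k + 1) * √T) ^ (1 / ((k : ℝ) + 2)) ≤ (3 * (2 * C * ℓ) ^ (k + 1) * √T) ^ (1 / ((k : ℝ) + 2)) := by
          apply Real.rpow_le_rpow (by positivity) _ (by positivity)
          gcongr
      _ = (3 * (2 * C * ℓ) ^ (k + 1)) ^ (1 / ((k : ℝ) + 2)) * (√T) ^ (1 / ((k : ℝ) + 2)) :=
          Real.mul_rpow (by positivity) (Real.sqrt_nonneg _)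
      _ ≤ (3 * (2 * C * ℓ) ^ (k + 1)) ^ (1 : ℝ) * (√T) ^ (1 / ((k : ℝ) + 2)) := by
          apply mul_le_mul_of_nonneg_right _ (by positivity)
          apply Real.rpow_le_rpow_of_exponent_le hS1
          rw [div_le_one (by positivity)]
          linarith
      _ = 3 * (2 * C * ℓ) ^ (k + 1) * T ^ (1 / (2 * ((k : ℝ) + 2))) := by
          rw [Real.rpow_one, Real.sqrt_eq_rpow, ← Real.rpow_mul hT]
          congr 2
          field_simp
  unfold BB
  have hin : 2 ^ (k + 1) * ((3 * (C + ρ) ^ (k + 1) * √T) ^ (1 / ((k : ℝ) + 2)) *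
      (16 * ((k + 2) * (2 ^ tk k * (C + ρ ^ tk k)) ^ (k + 1)))) ≤
      (2 ^ (k + 1) * (3 * (2 * C) ^ (k + 1) * (16 * ((k + 2) * (16 * C ^ 3) ^ (k + 1))))) *
        (ℓ ^ (2 * (k + 1)) * T ^ (1 / (4 * ((k : ℝ) + 2)))) ^ 2 := by
    have e1 : (T ^ (1 / (4 * ((k : ℝ) + 2)))) ^ 2 = T ^ (1 / (2 * ((k : ℝ) + 2))) := by
      rw [← Real.rpow_natCast, ← Real.rpow_mul hT]
      congr 1
      push_cast
      field_simp
      norm_num
    calc 2 ^ (k + 1) * ((3 * (C + ρ) ^ (k + 1) * √T) ^ (1 / ((k : ℝ) + 2)) *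
          (16 * ((k + 2) * (2 ^ tk k * (C + ρ ^ tk k)) ^ (k + 1)))) ≤
        2 ^ (k + 1) * ((3 * (2 * C * ℓ) ^ (k + 1) * T ^ (1 / (2 * ((k : ℝ) + 2)))) *
          (16 * ((k + 2) * (16 * C ^ 3 * ℓ ^ 3) ^ (k + 1)))) := by
          gcongr
      _ = _ := by
          rw [mul_pow (ℓ ^ (2 * (k + 1))), e1]
          ring
  calc √(2 ^ (k + 1) * ((3 * (C + ρ) ^ (k + 1) * √T) ^ (1 / ((k : ℝ) + 2)) *
          (16 * ((k + 2) * (2 ^ tk k * (C + ρ ^ tk k)) ^ (k + 1))))) ≤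
      √((2 ^ (k + 1) * (3 * (2 * C) ^ (k + 1) * (16 * ((k + 2) * (16 * C ^ 3) ^ (k + 1))))) *
        (ℓ ^ (2 * (k + 1)) * T ^ (1 / (4 * ((k : ℝ) + 2)))) ^ 2) := Real.sqrt_le_sqrt hin
    _ = _ := by
        rw [Real.sqrt_mul (by positivity), Real.sqrt_sq (by positivity)]
        ring

theorem part1 (k : ℕ) (ε : ℝ) (hε : 0 < ε) (hε2 : ε ≤ 1 / 2) : ∃ C : ℝ, 1 ≤ C ∧ ∀ y : ℕ, C ≤ y → ∀ δ : ℝ, 0 < δ →
    ∀ᶠ N : ℕ in Filter.atTop, ∀ L H : ℕ, (N : ℝ) ^ ε ≤ L → L ≤ H → (H : ℝ) ≤ (N : ℝ) ^ (1 - ε) → ∀ T : ℝ, 0 ≤ T →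
    (∀ α, Tn N L y α ≤ T) →
    EE (k + 2) N H ≤ C * Real.log y ^ (2 * (k + 1)) * T ^ (1 / (4 * ((k : ℝ) + 2))) + C * Real.log y ^ (k + 1) / y + δ := by
  obtain ⟨C1, hC1, h1⟩ := EE_le (k + 1)
  obtain ⟨C2, hC2, h2⟩ := phi_nice k ε hε
  obtain ⟨C3, hC3, h3⟩ := rho_le
  set CC : ℝ := C2 + C3 with hCC
  set Z : ℝ := √(2 ^ (k + 1) * (3 * (2 * CC) ^ (k + 1) * (16 * ((k + 2) * (16 * CC ^ 3) ^ (k + 1))))) with hZ
  have hZ0 : 0 ≤ Z := Real.sqrt_nonneg _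
  set C4 : ℝ := 2 ^ (k + 1) * ((k + 2) * Z) with hC4
  have hC40 : 0 ≤ C4 := by rw [hC4]; positivity
  refine ⟨C1 + C4 + 3, by linarith, ?_⟩
  intro y hy δ hδ
  have hy1 : C1 ≤ y := by linarith
  have hy3 : (3 : ℝ) ≤ y := by linarith
  have hy0 : (0 : ℝ) < y := by linarith
  have hlogy : 1 ≤ Real.log y := by
    have h5 : Real.exp 1 ≤ y := by
      have := Real.exp_one_lt_d9
      linarith
    calc (1 : ℝ) = Real.log (Real.exp 1) := (Real.log_exp 1).symm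
      _ ≤ Real.log y := Real.log_le_log (Real.exp_pos 1) h5
  set W : ℝ := (WW y : ℝ) with hW
  have hW0 : 0 < W := by rw [hW]; exact_mod_cast WW_pos y
  set ρ : ℝ := W / Nat.totient (WW y) with hρ
  have hρ0 : 0 ≤ ρ := by rw [hρ]; positivity
  have hρl : ρ ≤ CC * Real.log y := by
    have h6 := h3 y (by exact_mod_cast hy3)
    calc ρ ≤ C3 * Real.log y := h6
      _ ≤ CC * Real.log y := by
          apply mul_le_mul_of_nonneg_right _ (by linarith)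
          rw [hCC]; linarith
  set δ1 : ℝ := δ / 2 with hδ1
  have hδ1p : 0 < δ1 := by rw [hδ1]; positivity
  filter_upwards [big_N ε hε hε2 W, err2_small (k + 2) ε δ1 hε hδ1p,
    small_a 0 ε hε (ρ ^ (k + 2) * 4) δ1 hδ1p, small_a 0 ε hε 4 1 one_pos] with N hb he s1 s2
  intro L H hL hLH hH T hT0 hT
  obtain ⟨hN2, hb⟩ := hb
  obtain ⟨hL100, -, hlog, hLN'⟩ := hb L hL
  have hHε : (N : ℝ) ^ ε ≤ H := hL.trans (by exact_mod_cast hLH)
  obtain ⟨hH100, hWH, hlogH, hHN'⟩ := hb H hHε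
  have hHN := hHN' hH
  have hN : 0 < N := by omega
  have hL0' : 0 < L := lt_of_lt_of_le (by norm_num) hL100
  have hH0' : 0 < H := by omega
  have hN0 : (0 : ℝ) < N := by exact_mod_cast hN
  have hL0 : (0 : ℝ) < L := by exact_mod_cast hL0'
  have hH0 : (0 : ℝ) < H := by exact_mod_cast hH0'
  have hNε : 0 < (N : ℝ) ^ ε := by positivity
  have t1 : ρ ^ (k + 2) * 4 * (Real.log N ^ 0 / (N : ℝ) ^ ε) ≤ δ1 := s1
  have t2 : 4 * (Real.log N ^ 0 / (N : ℝ) ^ ε) ≤ 1 := s2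
  rw [pow_zero] at t1 t2
  have hHN4 : (4 : ℝ) * H ≤ N := by
    rw [mul_one_div, div_le_one hNε] at t2
    calc (4 : ℝ) * H ≤ (N : ℝ) ^ ε * (N : ℝ) ^ (1 - ε) := by gcongr
      _ = N := by rw [← Real.rpow_add hN0]; norm_num
  have hMN : 2 * L ≤ N := by
    have : (2 : ℝ) * L ≤ N := by
      have : (L : ℝ) ≤ H := by exact_mod_cast hLH
      linarith
    exact_mod_cast this
  have : NeZero (2 * L) := ⟨by omega⟩
  have hnice := h2 (2 * L) N L y rfl hN2 hL100 hMN hlog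
  set D : ℝ := 2 ^ tk k * (CC + ρ ^ tk k) with hD
  set S : ℝ := CC + ρ with hS
  have hD0 : 0 ≤ D := by rw [hD]; positivity
  have hS0 : 0 ≤ S := by rw [hS]; positivity
  have hnice' : ∀ j i : Fin (k + 2), Nice (2 * L) L (tk k) D S (fun n => (phi N y j i n : ℂ)) := by
    intro j i
    refine (hnice j i).mono ?_ ?_
    · rw [hD]
      apply mul_le_mul_of_nonneg_left _ (by positivity)
      rw [hCC]; linarith
    · rw [hS, hCC]; linarith
  have herr : ρ ^ (k + 2) * ((2 * H + 1 + W) / N) ≤ δ1 := by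
    refine le_trans ?_ t1
    rw [mul_assoc]
    apply mul_le_mul_of_nonneg_left _ (by positivity)
    have h6 : (1 : ℝ) ≤ H := by exact_mod_cast hH0'
    have h7 : (2 * H + 1 + W) ≤ 4 * (N : ℝ) ^ (1 - ε) := by linarith
    calc (2 * H + 1 + W) / N ≤ 4 * (N : ℝ) ^ (1 - ε) / N := by gcongr
      _ = 4 * (1 / (N : ℝ) ^ ε) := by
          rw [Real.rpow_sub hN0, Real.rpow_one]
          field_simp
  have hmain := DD_main k (2 * L) N L y H rfl hN (by omega) hLH D S T δ1 hD0 hS0 hT0 hT hnice' herr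
  have hBB := BB_le k CC (Real.log y) (by rw [hCC]; linarith) hlogy ρ hρ0 hρl T hT0
  have hEE := h1 y hy1 N H hH0'
  have he' : err2 N (k + 2) H ≤ δ1 := he H hH0' hH
  have hBB' : BB k D S T ≤ Z * Real.log y ^ (2 * (k + 1)) * T ^ (1 / (4 * ((k : ℝ) + 2))) := hBB
  have hTn : 0 ≤ T ^ (1 / (4 * ((k : ℝ) + 2))) := Real.rpow_nonneg hT0 _
  have h8 : 2 ^ (k + 1) * ((k + 2) * BB k D S T) ≤ C4 * Real.log y ^ (2 * (k + 1)) * T ^ (1 / (4 * ((k : ℝ) + 2))) := by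
    calc 2 ^ (k + 1) * (((k : ℝ) + 2) * BB k D S T) ≤
        2 ^ (k + 1) * ((k + 2) * (Z * Real.log y ^ (2 * (k + 1)) * T ^ (1 / (4 * ((k : ℝ) + 2))))) := by gcongr
      _ = _ := by rw [hC4]; ring
  have h9 : C4 * Real.log y ^ (2 * (k + 1)) * T ^ (1 / (4 * ((k : ℝ) + 2))) ≤
      (C1 + C4 + 3) * Real.log y ^ (2 * (k + 1)) * T ^ (1 / (4 * ((k : ℝ) + 2))) := by
    apply mul_le_mul_of_nonneg_right _ hTn
    apply mul_le_mul_of_nonneg_right _ (by positivity)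
    linarith
  have h10 : C1 * Real.log y ^ (k + 1) / y ≤ (C1 + C4 + 3) * Real.log y ^ (k + 1) / y := by
    apply div_le_div_of_nonneg_right _ hy0.le
    apply mul_le_mul_of_nonneg_right _ (by positivity)
    linarith
  have hEE' : EE (k + 2) N H ≤ DD (k + 2) N H y + err2 N (k + 2) H + C1 * Real.log y ^ (k + 1) / y := hEE
  have hδ2 : δ = δ1 + δ1 := by rw [hδ1]; ring
  linarith

end Pool.Agent.NH16
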