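import Pool.Agent.NH16.Down3

/-!
# Part 2: the mean error over the box controls the exponential sums over windows
-/

set_option autoImplicit false

namespace Pool.Agent.NH16

open Finset
open Pool.Agent.Helper602.MK
open Pool.Agent.Helper602.MK.N_J5b
open Pool.Agent.H386R2.HL
open Pool.Agent.H387R2.Uni (WW WW_pos WW_factors totient_WW)

theorem small_a (m : ℕ) (ε : ℝ) (hε : 0 < ε) (c δ : ℝ) (hδ : 0 < δ) : ∀ᶠ N : ℕ in Filter.atTop,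
    c * (Real.log N ^ m / (N : ℝ) ^ ε) ≤ δ := by
  have h1 := ((isLittleO_log_rpow_rpow_atTop (m : ℝ) hε).tendsto_div_nhds_zero).comp
      (tendsto_natCast_atTop_atTop (R := ℝ))
  have h2 := h1.const_mul c
  rw [mul_zero] at h2
  filter_upwards [h2.eventually_lt_const hδ] with N hN
  refine le_trans ?_ hN.le
  simp only [Function.comp_apply]
  rw [Real.rpow_natCast]

/-- everything which holds for large `N` -/
theorem big_N (ε : ℝ) (hε : 0 < ε) (hε2 : ε ≤ 1 / 2) (D : ℝ) : ∀ᶠ N : ℕ in Filter.atTop, 2 ≤ N ∧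
    ∀ L : ℕ, (N : ℝ) ^ ε ≤ L → (2 ^ 100 ≤ L ∧ D ≤ L ∧ ε * Real.log N ≤ Real.log L ∧
      ((L : ℝ) ≤ (N : ℝ) ^ (1 - ε) → L ≤ N)) := by
  have h1 : Filter.Tendsto (fun N : ℕ => (N : ℝ) ^ ε) Filter.atTop Filter.atTop :=
    (tendsto_rpow_atTop hε).comp tendsto_natCast_atTop_atTop
  filter_upwards [h1.eventually_ge_atTop (2 ^ 100), h1.eventually_ge_atTop D, Filter.eventually_ge_atTop 2]
    with N hN1 hN2 hN3
  refine ⟨hN3, ?_⟩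
  intro L hL
  have hN0 : (0 : ℝ) < N := by
    have : 0 < N := by omega
    exact_mod_cast this
  have hN1' : (1 : ℝ) ≤ N := by
    have : 1 ≤ N := by omega
    exact_mod_cast this
  refine ⟨?_, hN2.trans hL, ?_, ?_⟩
  · have := hN1.trans hL
    exact_mod_cast this
  · rw [← Real.log_rpow hN0]
    exact Real.log_le_log (by positivity) hL
  · intro h
    have h2 : (L : ℝ) ≤ N := by
      refine h.trans ?_
      calc (N : ℝ) ^ (1 - ε) ≤ (N : ℝ) ^ (1 : ℝ) := Real.rpow_le_rpow_of_exponent_le hN1' (by linarith)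
        _ = N := Real.rpow_one _
    exact_mod_cast h2

theorem err2_small (R : ℕ) (ε δ : ℝ) (hε : 0 < ε) (hδ : 0 < δ) : ∀ᶠ N : ℕ in Filter.atTop,
    ∀ L : ℕ, 1 ≤ L → (L : ℝ) ≤ (N : ℝ) ^ (1 - ε) → err2 N R L ≤ δ := by
  filter_upwards [sqrt_small R (δ / 2) (by positivity), small_a R ε hε 3 (δ / 2) (by positivity),
    Filter.eventually_gt_atTop 0] with N h1 h2 hN
  intro L hL1 hL
  have hN0 : (0 : ℝ) < N := by exact_mod_cast hN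
  have hl := Real.log_natCast_nonneg N
  unfold err2
  have h1' : Real.log N ^ R / N * N.sqrt ≤ δ / 2 := h1
  have h2' : 3 * (Real.log N ^ R / (N : ℝ) ^ ε) ≤ δ / 2 := h2
  have hL1' : (1 : ℝ) ≤ L := by exact_mod_cast hL1
  calc Real.log N ^ R / N * (N.sqrt + 2 * L + 1) = Real.log N ^ R / N * N.sqrt + Real.log N ^ R / N * (2 * L + 1) := by ring
    _ ≤ δ / 2 + Real.log N ^ R / N * (3 * (N : ℝ) ^ (1 - ε)) := by
        apply add_le_add h1'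
        apply mul_le_mul_of_nonneg_left _ (by positivity)
        linarith
    _ = δ / 2 + 3 * (Real.log N ^ R / (N : ℝ) ^ ε) := by
        rw [Real.rpow_sub hN0, Real.rpow_one]
        field_simp
    _ ≤ δ / 2 + δ / 2 := by linarith
    _ = δ := by ring

theorem part2 (k : ℕ) (ε : ℝ) (hε : 0 < ε) (hε2 : ε ≤ 1 / 2) : ∃ C : ℝ, 1 ≤ C ∧ ∀ y : ℕ, C ≤ y → ∀ δ : ℝ, 0 < δ →
    ∀ᶠ N : ℕ in Filter.atTop, ∀ L : ℕ, (N : ℝ) ^ ε ≤ L → (L : ℝ) ≤ (N : ℝ) ^ (1 - ε) → ∀ α : ℝ,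
    Tn N L y α ≤ C * ((EE (k + 2) N L + C * Real.log y ^ (k + 1) / y + δ) +
      √(EE (k + 2) N L + C * Real.log y ^ (k + 1) / y + δ)) := by
  obtain ⟨C1, hC1, h1⟩ := DD_le (k + 1)
  obtain ⟨C2, hC2, h2⟩ := U_win ε hε
  set C3 : ℝ := C2 ^ 2 * (k * C2 ^ k) * 2 with hC3
  have hC3n : 0 ≤ C3 := by rw [hC3]; positivity
  refine ⟨C1 + C3 + 1, by linarith, ?_⟩
  intro y hy δ hδ
  have hy1 : C1 ≤ y := by linarith
  have hy0 : (0 : ℝ) < y := by linarith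
  have hlogy : 0 ≤ Real.log y := Real.log_nonneg (by linarith)
  set W : ℝ := (WW y : ℝ) with hW
  have hW0 : 0 < W := by rw [hW]; exact_mod_cast WW_pos y
  set δ1 : ℝ := δ / 8 with hδ1
  have hδ1p : 0 < δ1 := by rw [hδ1]; positivity
  filter_upwards [big_N ε hε hε2 (W ^ 2), err2_small (k + 2) ε δ1 hε hδ1p,
    small_a (k + 2) ε hε (((k + 1 : ℕ) + 1 : ℝ) ^ 2 * 2) δ1 hδ1p,
    small_a 0 ε hε (((k + 1 : ℕ) + 1 : ℝ) ^ 2 * (C1 * Real.log y) ^ (k + 1)) δ1 hδ1p,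
    small_a 0 ε hε (((k + 2 : ℕ) : ℝ) * 2 ^ (k + 2) * W ^ 2) δ1 hδ1p,
    small_a 0 ε hε (k + 1) δ1 hδ1p,
    small_a 0 ε hε (W ^ 2 * (k * 2 ^ k * W ^ 2)) δ1 hδ1p,
    mN_lim (δ1 / (k + 2)) (by positivity), E_pair y ε δ1 hε hε2 hδ1p] with N hb he s1 s2 s3 s5 s6 s4 hE
  intro L hL hLN α
  obtain ⟨hN2, hb⟩ := hb
  obtain ⟨hL100, hWL, hlog, hLN'⟩ := hb L hL
  have hLN2 := hLN' hLN
  have hN : 0 < N := by omega
  have hL0' : 0 < L := lt_of_lt_of_le (by norm_num) hL100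
  have hN0 : (0 : ℝ) < N := by exact_mod_cast hN
  have hL0 : (0 : ℝ) < L := by exact_mod_cast hL0'
  have hl := Real.log_natCast_nonneg N
  have hNε : 0 < (N : ℝ) ^ ε := by positivity
  have t1 : ((k + 1 : ℕ) + 1 : ℝ) ^ 2 * 2 * (Real.log N ^ (k + 2) / (N : ℝ) ^ ε) ≤ δ1 := s1
  have t2 : ((k + 1 : ℕ) + 1 : ℝ) ^ 2 * (C1 * Real.log y) ^ (k + 1) * (Real.log N ^ 0 / (N : ℝ) ^ ε) ≤ δ1 := s2
  have t3 : ((k + 2 : ℕ) : ℝ) * 2 ^ (k + 2) * W ^ 2 * (Real.log N ^ 0 / (N : ℝ) ^ ε) ≤ δ1 := s3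
  have t5 : ((k : ℝ) + 1) * (Real.log N ^ 0 / (N : ℝ) ^ ε) ≤ δ1 := s5
  have t6 : W ^ 2 * (k * 2 ^ k * W ^ 2) * (Real.log N ^ 0 / (N : ℝ) ^ ε) ≤ δ1 := s6
  have t4 : |mN N - 1| ≤ δ1 / (k + 2) := s4
  have t7 : err2 N (k + 2) L ≤ δ1 := he L hL0' hLN
  rw [pow_zero] at t2 t3 t5 t6
  -- the bound for `DD`
  have d1 := h1 y hy1 N L hN hL0' hLN2
  have d2 : (((k + 1 : ℕ) : ℝ) + 1) ^ 2 * (2 * Real.log N ^ (k + 1 + 1) + (C1 * Real.log y) ^ (k + 1)) / L ≤ 2 * δ1 := by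
    have e1 : (((k + 1 : ℕ) : ℝ) + 1) ^ 2 * (2 * Real.log N ^ (k + 1 + 1) + (C1 * Real.log y) ^ (k + 1)) / L =
        (((k + 1 : ℕ) : ℝ) + 1) ^ 2 * 2 * (Real.log N ^ (k + 2) / L) +
        (((k + 1 : ℕ) : ℝ) + 1) ^ 2 * (C1 * Real.log y) ^ (k + 1) * (1 / L) := by ring
    rw [e1]
    have e2 : (((k + 1 : ℕ) : ℝ) + 1) ^ 2 * 2 * (Real.log N ^ (k + 2) / L) ≤
        (((k + 1 : ℕ) : ℝ) + 1) ^ 2 * 2 * (Real.log N ^ (k + 2) / (N : ℝ) ^ ε) := by gcongr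
    have e3 : (((k + 1 : ℕ) : ℝ) + 1) ^ 2 * (C1 * Real.log y) ^ (k + 1) * (1 / L) ≤
        (((k + 1 : ℕ) : ℝ) + 1) ^ 2 * (C1 * Real.log y) ^ (k + 1) * (1 / (N : ℝ) ^ ε) := by gcongr
    linarith
  set Z : ℝ := EE (k + 2) N L + C1 * Real.log y ^ (k + 1) / y with hZ
  have hDD : DD (k + 2) N L y ≤ Z + 3 * δ1 := by
    have d1' : DD (k + 2) N L y ≤ EE (k + 2) N L + err2 N (k + 2) L + C1 * Real.log y ^ (k + 1) / y +
      (((k + 1 : ℕ) : ℝ) + 1) ^ 2 * (2 * Real.log N ^ (k + 1 + 1) + (C1 * Real.log y) ^ (k + 1)) / L := d1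
    rw [hZ]
    linarith
  -- the variance
  have a1 := AA_le k N L y hN hL0' hWL
  have a2 : ((k + 2 : ℕ) : ℝ) * 2 ^ (k + 2) * (W ^ 2 / L) ≤ δ1 := by
    refine le_trans ?_ t3
    calc ((k + 2 : ℕ) : ℝ) * 2 ^ (k + 2) * (W ^ 2 / L) = ((k + 2 : ℕ) : ℝ) * 2 ^ (k + 2) * W ^ 2 * (1 / L) := by ring
      _ ≤ ((k + 2 : ℕ) : ℝ) * 2 ^ (k + 2) * W ^ 2 * (1 / (N : ℝ) ^ ε) := by gcongr
  have a3 : ((k : ℝ) + 2) * |mN N - 1| ≤ δ1 := by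
    calc ((k : ℝ) + 2) * |mN N - 1| ≤ ((k : ℝ) + 2) * (δ1 / (k + 2)) := by gcongr
      _ = δ1 := by field_simp
  have a4 : ((k : ℝ) + 1) * (L / N) ≤ δ1 := by
    refine le_trans ?_ t5
    apply mul_le_mul_of_nonneg_left _ (by positivity)
    rw [div_le_div_iff₀ hN0 hNε]
    calc (L : ℝ) * (N : ℝ) ^ ε ≤ (N : ℝ) ^ (1 - ε) * (N : ℝ) ^ ε := by gcongr
      _ = 1 * N := by rw [← Real.rpow_add hN0, sub_add_cancel, Real.rpow_one, one_mul]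
  have hAA : AA N L ≤ Z + δ := by
    have : AA N L ≤ DD (k + 2) N L y + ((k + 2 : ℕ) : ℝ) * 2 ^ (k + 2) * (W ^ 2 / L) +
      (k + 2) * |mN N - 1| + (k + 1) * (L / N) := a1
    have : δ = 8 * δ1 := by rw [hδ1]; ring
    linarith
  have hZ0 : 0 ≤ Z := by
    rw [hZ]
    have := EE_nonneg (k + 2) N L
    positivity
  have hCS : (∑ x ∈ Ico (-(L : ℤ)) N, |th N L x - 1|) / N ≤ 2 * √(Z + δ) := by
    have c1 := sum_mul_sq_le_sq_mul_sq (Ico (-(L : ℤ)) N) (fun _ => (1 : ℝ)) (fun x => |th N L x - 1|)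
    simp only [one_mul, one_pow, sum_const, nsmul_eq_mul, mul_one, sq_abs] at c1
    rw [card_win] at c1
    have c2 : ∑ x ∈ Ico (-(L : ℤ)) N, (th N L x - 1) ^ 2 = AA N L * N := by
      unfold AA
      field_simp
    rw [c2] at c1
    have hLN3 : (L : ℝ) ≤ N := by exact_mod_cast hLN2
    have c3 : (∑ x ∈ Ico (-(L : ℤ)) N, |th N L x - 1|) ^ 2 ≤ (2 * √(Z + δ) * N) ^ 2 := by
      refine c1.trans ?_
      rw [mul_pow, mul_pow, Real.sq_sqrt (by linarith)]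
      have hAn := AA_nonneg N L
      calc ((N : ℝ) + L) * (AA N L * N) ≤ (2 * N) * ((Z + δ) * N) := by gcongr; linarith
        _ ≤ 2 ^ 2 * (Z + δ) * (N : ℝ) ^ 2 := by nlinarith [mul_nonneg (by linarith : 0 ≤ Z + δ) (sq_nonneg (N : ℝ))]
    rw [div_le_iff₀ hN0]
    exact le_of_sq_le_sq c3 (by positivity) |>.trans le_rfl
  -- pairs
  have hth : ∀ x, th N L x ≤ C2 := th_le_of N L hL0' C2 (h2 N L hN2 hL100 hLN2 hlog)
  have p1 := pair_le k N L y hN hL0' hWL C2 hC2 hth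
  have p2 : W ^ 2 * (k * 2 ^ k * (W ^ 2 / L)) ≤ δ1 := by
    refine le_trans ?_ t6
    calc W ^ 2 * (k * 2 ^ k * (W ^ 2 / L)) = W ^ 2 * (k * 2 ^ k * W ^ 2) * (1 / L) := by ring
      _ ≤ W ^ 2 * (k * 2 ^ k * W ^ 2) * (1 / (N : ℝ) ^ ε) := by gcongr
  have p3 : C2 ^ 2 * (k * C2 ^ k) * ((∑ x ∈ Ico (-(L : ℤ)) N, |th N L x - 1|) / N) ≤ C3 * √(Z + δ) := by
    calc C2 ^ 2 * (k * C2 ^ k) * ((∑ x ∈ Ico (-(L : ℤ)) N, |th N L x - 1|) / N) ≤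
        C2 ^ 2 * (k * C2 ^ k) * (2 * √(Z + δ)) := by gcongr
      _ = C3 * √(Z + δ) := by rw [hC3]; ring
  have p4 : (∑ a : Fin L, ∑ b : Fin L, |Cr2 N L ((a : ℕ) + 1) ((b : ℕ) + 1) - sy2 y ((a : ℕ) + 1) ((b : ℕ) + 1)|) / (L : ℝ) ^ 2 ≤
      Z + 4 * δ1 + C3 * √(Z + δ) := by
    have p1' : (∑ a : Fin L, ∑ b : Fin L, |Cr2 N L ((a : ℕ) + 1) ((b : ℕ) + 1) - sy2 y ((a : ℕ) + 1) ((b : ℕ) + 1)|) / (L : ℝ) ^ 2 ≤
      DD (k + 2) N L y + C2 ^ 2 * (k * C2 ^ k) * ((∑ x ∈ Ico (-(L : ℤ)) N, |th N L x - 1|) / N) +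
        W ^ 2 * (k * 2 ^ k * (W ^ 2 / L)) := p1
    linarith
  have q1 := Tn_le N L y hN hL0' α
  have q2 : (∑ a : Fin L, ∑ b : Fin L, |(∑ x ∈ Ico (-(L : ℤ)) N, Ez N y (x + ((a : ℕ) + 1 : ℕ)) *
      Ez N y (x + ((b : ℕ) + 1 : ℕ))) / N|) / (L : ℝ) ^ 2 ≤
      (∑ a : Fin L, ∑ b : Fin L, |Cr2 N L ((a : ℕ) + 1) ((b : ℕ) + 1) - sy2 y ((a : ℕ) + 1) ((b : ℕ) + 1)|) / (L : ℝ) ^ 2 + δ1 := by
    rw [div_add' _ _ _ (by positivity)]
    apply div_le_div_of_nonneg_right _ (by positivity)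
    have e1 : δ1 * (L : ℝ) ^ 2 = ∑ _a : Fin L, ∑ _b : Fin L, δ1 := by
      simp only [sum_const, card_univ, Fintype.card_fin, nsmul_eq_mul]
      ring
    rw [e1, ← sum_add_distrib]
    apply sum_le_sum
    intro a _
    rw [← sum_add_distrib]
    apply sum_le_sum
    intro b _
    have e2 := hE L hL0' hLN ((a : ℕ) + 1) ((b : ℕ) + 1) (by omega) (by have := a.2; omega) (by omega) (by have := b.2; omega)
    set X := (∑ x ∈ Ico (-(L : ℤ)) N, Ez N y (x + ((a : ℕ) + 1 : ℕ)) * Ez N y (x + ((b : ℕ) + 1 : ℕ))) / N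
    set Y := Cr2 N L ((a : ℕ) + 1) ((b : ℕ) + 1) - sy2 y ((a : ℕ) + 1) ((b : ℕ) + 1)
    have e3 : X = Y + (X - Y) := by ring
    rw [e3]
    exact (abs_add_le _ _).trans (add_le_add le_rfl e2)
  have hδ8 : δ = 8 * δ1 := by rw [hδ1]; ring
  have hfin : Tn N L y α ≤ (Z + δ) + C3 * √(Z + δ) := by linarith
  set C : ℝ := C1 + C3 + 1 with hC
  have hZ' : Z + δ ≤ EE (k + 2) N L + C * Real.log y ^ (k + 1) / y + δ := by
    rw [hZ]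
    have : C1 * Real.log y ^ (k + 1) / y ≤ C * Real.log y ^ (k + 1) / y := by
      apply div_le_div_of_nonneg_right _ hy0.le
      apply mul_le_mul_of_nonneg_right _ (by positivity)
      rw [hC]; linarith
    linarith
  have hC1' : 1 ≤ C := by rw [hC]; linarith
  have hCC3 : C3 ≤ C := by rw [hC]; linarith
  calc Tn N L y α ≤ (Z + δ) + C3 * √(Z + δ) := hfin
    _ ≤ C * (Z + δ) + C * √(Z + δ) := by
        apply add_le_add
        · nlinarith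
        · exact mul_le_mul_of_nonneg_right hCC3 (Real.sqrt_nonneg _)
    _ = C * ((Z + δ) + √(Z + δ)) := by ring
    _ ≤ _ := by
        apply mul_le_mul_of_nonneg_left _ (by linarith)
        exact add_le_add hZ' (Real.sqrt_le_sqrt hZ')

end Pool.Agent.NH16
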