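import Pool.Agent.NH16.TT
import Pool.Agent.NH16.Young

/-!
# The average of the difference between the singular series and its truncation
-/

set_option autoImplicit false

namespace Pool.Agent.NH16

open Finset
open Pool.Agent.H386R2.HL

/-- a vector in the box `[1, L]^r` -/
def bx {r L : ℕ} (t : Fin r → Fin L) : Fin r → ℕ := fun i => (t i : ℕ) + 1

lemma bx_inj {r L : ℕ} : Function.Injective (bx : (Fin r → Fin L) → Fin r → ℕ) := by
  intro t t' h
  funext i
  have := congrFun h i
  unfold bx at this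
  apply Fin.ext
  omega

/-- sums over the box -/
lemma sum_box {r : ℕ} (L : ℕ) {E : Type*} [AddCommMonoid E] (φ : (Fin r → ℕ) → E) :
    ∑ h ∈ Fintype.piFinset (fun _ : Fin r => Icc 1 L), φ h = ∑ t : Fin r → Fin L, φ (bx t) := by
  symm
  apply sum_bij (fun t _ => bx t)
  · intro t _
    rw [Fintype.mem_piFinset]
    intro i
    rw [mem_Icc]
    unfold bx
    have := (t i).2
    omega
  · intro t _ t' _ h
    exact bx_inj h
  · intro h hh
    rw [Fintype.mem_piFinset] at hh
    refine ⟨fun i => ⟨h i - 1, ?_⟩, mem_univ _, ?_⟩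
    · have := mem_Icc.1 (hh i)
      omega
    · funext i
      have := mem_Icc.1 (hh i)
      unfold bx
      simp only
      omega
  · intro t _
    rfl

lemma one_dim (L : ℕ) (g : ℕ → ℝ) (hg : ∀ n, 0 ≤ g n) (a : Fin L) :
    ∑ b : Fin L, (if b = a then 0 else g (Nat.dist ((a : ℕ) + 1) ((b : ℕ) + 1))) ≤ 2 * ∑ n ∈ Icc 1 L, g n := by
  classical
  have h1 : ∀ b : Fin L, (if b = a then 0 else g (Nat.dist ((a : ℕ) + 1) ((b : ℕ) + 1))) =
      (if (b : ℕ) < a then g ((a : ℕ) - b) else 0) + (if (a : ℕ) < b then g ((b : ℕ) - a) else 0) := by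
    intro b
    rcases lt_trichotomy (b : ℕ) (a : ℕ) with h | h | h
    · have hne : b ≠ a := by intro h'; rw [h'] at h; omega
      rw [if_neg hne, if_pos h, if_neg (by omega), add_zero]
      congr 1
      unfold Nat.dist
      omega
    · have he : b = a := Fin.ext h
      rw [if_pos he, if_neg (by omega), if_neg (by omega), add_zero]
    · have hne : b ≠ a := by intro h'; rw [h'] at h; omega
      rw [if_neg hne, if_neg (by omega), if_pos h, zero_add]
      congr 1
      unfold Nat.dist
      omega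
  simp only [h1]
  rw [sum_add_distrib, two_mul]
  apply add_le_add
  · rw [← sum_filter]
    have h2 : ∑ b ∈ univ.filter (fun b : Fin L => (b : ℕ) < a), g ((a : ℕ) - b) =
        ∑ n ∈ (univ.filter (fun b : Fin L => (b : ℕ) < a)).image (fun b : Fin L => (a : ℕ) - b), g n := by
      rw [sum_image]
      intro b hb b' hb' h
      rw [mem_coe, mem_filter] at hb hb'
      apply Fin.ext
      simp only at h
      omega
    rw [h2]
    apply sum_le_sum_of_subset_of_nonneg
    · intro n hn
      rw [mem_image] at hn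
      obtain ⟨b, hb, rfl⟩ := hn
      rw [mem_filter] at hb
      rw [mem_Icc]
      have := a.2
      omega
    · intro n _ _
      exact hg n
  · rw [← sum_filter]
    have h2 : ∑ b ∈ univ.filter (fun b : Fin L => (a : ℕ) < b), g ((b : ℕ) - a) =
        ∑ n ∈ (univ.filter (fun b : Fin L => (a : ℕ) < b)).image (fun b : Fin L => (b : ℕ) - a), g n := by
      rw [sum_image]
      intro b hb b' hb' h
      rw [mem_coe, mem_filter] at hb hb'
      apply Fin.ext
      simp only at h
      omega
    rw [h2]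
    apply sum_le_sum_of_subset_of_nonneg
    · intro n hn
      rw [mem_image] at hn
      obtain ⟨b, hb, rfl⟩ := hn
      rw [mem_filter] at hb
      rw [mem_Icc]
      have := b.2
      omega
    · intro n _ _
      exact hg n

/-- sum over the box of a function of one difference -/
lemma pair_sum {r : ℕ} (L : ℕ) (g : ℕ → ℝ) (hg : ∀ n, 0 ≤ g n) (i j : Fin (r + 1)) (hij : i ≠ j) :
    ∑ t : Fin (r + 1) → Fin L, (if t j = t i then 0 else g (Nat.dist (bx t i) (bx t j))) ≤
      (L : ℝ) ^ r * (2 * ∑ n ∈ Icc 1 L, g n) := by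
  rw [sum_insertNth j]
  obtain ⟨i', hi'⟩ := Fin.exists_succAbove_eq hij
  calc ∑ f : Fin r → Fin L, ∑ a : Fin L,
        (if Fin.insertNth (α := fun _ => Fin L) j a f j = Fin.insertNth (α := fun _ => Fin L) j a f i then 0 else
          g (Nat.dist (bx (Fin.insertNth (α := fun _ => Fin L) j a f) i)
            (bx (Fin.insertNth (α := fun _ => Fin L) j a f) j)))
      ≤ ∑ _f : Fin r → Fin L, 2 * ∑ n ∈ Icc 1 L, g n := by
        apply sum_le_sum
        intro f _
        refine le_trans (le_of_eq ?_) (one_dim L g hg (f i'))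
        apply sum_congr rfl
        intro a _
        unfold bx
        rw [← hi']
        simp only [Fin.insertNth_apply_same, Fin.insertNth_apply_succAbove]
    _ = (L : ℝ) ^ r * (2 * ∑ n ∈ Icc 1 L, g n) := by
        rw [sum_const, card_univ, Fintype.card_fun, Fintype.card_fin, Fintype.card_fin, nsmul_eq_mul]
        push_cast
        rfl

/-- a product of numbers `≥ 1` in terms of powers -/
lemma prod_sub_one_le {ι : Type*} (s : Finset ι) (f : ι → ℝ) (hf : ∀ i ∈ s, 1 ≤ f i) (m : ℕ) (hm : s.card ≤ m) :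
    ∏ i ∈ s, f i - 1 ≤ ∑ i ∈ s, (f i ^ m - 1) := by
  rcases s.eq_empty_or_nonempty with rfl | hne
  · simp
  · obtain ⟨i0, hi0, hmax⟩ := exists_max_image s f hne
    have h1 : ∏ i ∈ s, f i ≤ f i0 ^ m := by
      calc ∏ i ∈ s, f i ≤ ∏ _i ∈ s, f i0 :=
            prod_le_prod (fun i hi => zero_le_one.trans (hf i hi)) (fun i hi => hmax i hi)
        _ = f i0 ^ s.card := by rw [prod_const]
        _ ≤ f i0 ^ m := pow_le_pow_right₀ (hf i0 hi0) hm
    have h2 := single_le_sum (f := fun i => f i ^ m - 1) (fun i hi => by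
      have : 1 ≤ f i ^ m := one_le_pow₀ (hf i hi)
      linarith) hi0
    linarith

/-- the average over the box `[1, L]^r` of `|𝔖 - 𝔖_y|` is at most `C (log y)^A / y` -/
theorem sing_avg (r : ℕ) : ∃ C : ℝ, 1 ≤ C ∧ ∀ y : ℕ, C ≤ y → ∀ L : ℕ,
    ∑ t : Fin (r + 1) → Fin L, (if Function.Injective t then |singularSeries (bx t) - sy (bx t) y| else 0) ≤
      C * Real.log y ^ r / y * (L : ℝ) ^ (r + 1) := by
  classical
  obtain ⟨C0, hC0, hsy⟩ := sy_le_log (r + 1) (by omega)
  set m : ℕ := (r + 1) * (r + 1) with hm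
  set C : ℝ := 3 + (m : ℝ) + 4 ^ m + C0 ^ r * ((m : ℝ) + m * (4 * 4 ^ m)) with hC
  have hC1 : 1 ≤ C := by
    rw [hC]
    have : (0 : ℝ) ≤ m := Nat.cast_nonneg _
    have : (0 : ℝ) ≤ C0 ^ r * ((m : ℝ) + m * (4 * 4 ^ m)) := by positivity
    have : (0 : ℝ) ≤ 4 ^ m := by positivity
    linarith
  refine ⟨C, hC1, fun y hy L => ?_⟩
  have hm0 : (0 : ℝ) ≤ m := Nat.cast_nonneg _
  have h4m : (0 : ℝ) ≤ 4 ^ m := by positivity
  have hrest : (0 : ℝ) ≤ C0 ^ r * ((m : ℝ) + m * (4 * 4 ^ m)) := by positivity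
  have hy3 : 3 ≤ y := by
    have : (3 : ℝ) ≤ y := by linarith
    exact_mod_cast this
  have hym : m ≤ y := by
    have : (m : ℝ) ≤ y := by linarith
    exact_mod_cast this
  have hy4 : 4 ^ m ≤ y := by
    have : (4 : ℝ) ^ m ≤ y := by linarith
    exact_mod_cast this
  have hy0 : (0 : ℝ) < y := by
    have : 0 < y := by omega
    exact_mod_cast this
  have hlogy : 0 < Real.log y := Real.log_pos (by exact_mod_cast (by omega : 1 < y))
  set S0 : ℝ := (C0 * Real.log y) ^ r with hS0
  have hS00 : 0 ≤ S0 := by positivity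
  have hS : ∀ a : Fin (r + 1) → ℕ, sy a y ≤ S0 := fun a => by
    have := hsy y hy3 a
    simpa using this
  -- pointwise bound
  have hpt : ∀ t : Fin (r + 1) → Fin L,
      (if Function.Injective t then |singularSeries (bx t) - sy (bx t) y| else 0) ≤
      S0 * ((m : ℝ) / y) + S0 * ∑ q ∈ prs (r + 1), (if t q.2 = t q.1 then 0 else
        (tt y (Nat.dist (bx t q.1) (bx t q.2)) ^ m - 1)) := by
    intro t
    have hnn : 0 ≤ ∑ q ∈ prs (r + 1), (if t q.2 = t q.1 then 0 else
        (tt y (Nat.dist (bx t q.1) (bx t q.2)) ^ m - 1)) := by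
      apply sum_nonneg
      intro q _
      split_ifs
      · exact le_rfl
      · have : 1 ≤ tt y (Nat.dist (bx t q.1) (bx t q.2)) ^ m := one_le_pow₀ (one_le_tt _ _)
        linarith
    split_ifs with ht
    · have hinj : Function.Injective (bx t) := by
        intro i j hij
        unfold bx at hij
        exact ht (Fin.ext (by omega))
      have hup := singularSeries_le (bx t) hinj y
      have hlo := sing_ge (bx t) hinj y (by omega) (by
        rw [sq]
        exact hym)
      have hs0 := sy_nonneg (bx t) y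
      have hs1 := hS (bx t)
      have hprod := prod_sub_one_le (prs (r + 1)) (fun q => tt y (Nat.dist (bx t q.1) (bx t q.2)))
        (fun q _ => one_le_tt _ _) m (by
          unfold prs
          refine (card_filter_le _ _).trans ?_
          simp [hm])
      have heq : ∑ q ∈ prs (r + 1), (tt y (Nat.dist (bx t q.1) (bx t q.2)) ^ m - 1) =
          ∑ q ∈ prs (r + 1), (if t q.2 = t q.1 then 0 else
            (tt y (Nat.dist (bx t q.1) (bx t q.2)) ^ m - 1)) := by
        apply sum_congr rfl
        intro q hq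
        have hq' : q.1 < q.2 := (mem_filter.1 hq).2
        rw [if_neg]
        intro h
        exact hq'.ne' (ht h)
      rw [heq] at hprod
      set Q := ∑ q ∈ prs (r + 1), (if t q.2 = t q.1 then 0 else
            (tt y (Nat.dist (bx t q.1) (bx t q.2)) ^ m - 1))
      rw [abs_le]
      constructor
      · have h1 : sy (bx t) y * ((m : ℝ) / y) ≤ S0 * ((m : ℝ) / y) := mul_le_mul_of_nonneg_right hs1 (by positivity)
        have h2 : ((r + 1 : ℕ) : ℝ) ^ 2 / y = (m : ℝ) / y := by
          rw [hm]; push_cast; ring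
        rw [h2] at hlo
        have h3 : 0 ≤ S0 * Q := mul_nonneg hS00 hnn
        linarith
      · have h1 : sy (bx t) y * ∏ q ∈ prs (r + 1), tt y (Nat.dist (bx t q.1) (bx t q.2)) ≤
            sy (bx t) y * (1 + Q) := mul_le_mul_of_nonneg_left (by linarith) hs0
        have h2 : sy (bx t) y * Q ≤ S0 * Q := mul_le_mul_of_nonneg_right hs1 hnn
        have h3 : 0 ≤ S0 * ((m : ℝ) / y) := by positivity
        linarith
    · have h3 : 0 ≤ S0 * ((m : ℝ) / y) := by positivity
      have h4 := mul_nonneg hS00 hnn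
      linarith
  -- summation
  have hq : ∀ q ∈ prs (r + 1), ∑ t : Fin (r + 1) → Fin L, (if t q.2 = t q.1 then 0 else
        (tt y (Nat.dist (bx t q.1) (bx t q.2)) ^ m - 1)) ≤ (4 * 4 ^ m / y) * (L : ℝ) ^ (r + 1) := by
    intro q hq
    have hq' : q.1 < q.2 := (mem_filter.1 hq).2
    have h1 := pair_sum (r := r) L (fun n => tt y n ^ m - 1) (fun n => by
      have : 1 ≤ tt y n ^ m := one_le_pow₀ (one_le_tt _ _)
      linarith) q.1 q.2 hq'.ne
    refine h1.trans ?_
    have h2 := tt_moment' m y L hy4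
    calc (L : ℝ) ^ r * (2 * ∑ n ∈ Icc 1 L, (tt y n ^ m - 1)) ≤ (L : ℝ) ^ r * (2 * (2 * 4 ^ m / y * L)) := by
          gcongr
      _ = _ := by ring
  calc ∑ t : Fin (r + 1) → Fin L, (if Function.Injective t then |singularSeries (bx t) - sy (bx t) y| else 0)
      ≤ ∑ t : Fin (r + 1) → Fin L, (S0 * ((m : ℝ) / y) + S0 * ∑ q ∈ prs (r + 1), (if t q.2 = t q.1 then 0 else
        (tt y (Nat.dist (bx t q.1) (bx t q.2)) ^ m - 1))) := sum_le_sum fun t _ => hpt t
    _ = (L : ℝ) ^ (r + 1) * (S0 * ((m : ℝ) / y)) + S0 * ∑ q ∈ prs (r + 1), ∑ t : Fin (r + 1) → Fin L,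
          (if t q.2 = t q.1 then 0 else (tt y (Nat.dist (bx t q.1) (bx t q.2)) ^ m - 1)) := by
        rw [sum_add_distrib, sum_const, card_univ, Fintype.card_fun, Fintype.card_fin, Fintype.card_fin,
          nsmul_eq_mul, ← mul_sum]
        congr 1
        · push_cast; rfl
        · congr 1
          rw [sum_comm]
    _ ≤ (L : ℝ) ^ (r + 1) * (S0 * ((m : ℝ) / y)) + S0 * ∑ _q ∈ prs (r + 1), (4 * 4 ^ m / y) * (L : ℝ) ^ (r + 1) := by
        gcongr with q hq'
        exact hq q hq'
    _ = (L : ℝ) ^ (r + 1) * (S0 * ((m : ℝ) / y)) + S0 * ((prs (r + 1)).card * ((4 * 4 ^ m / y) * (L : ℝ) ^ (r + 1))) := by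
        rw [sum_const, nsmul_eq_mul]
    _ ≤ (L : ℝ) ^ (r + 1) * (S0 * ((m : ℝ) / y)) + S0 * (m * ((4 * 4 ^ m / y) * (L : ℝ) ^ (r + 1))) := by
        have h1 : ((prs (r + 1)).card : ℝ) ≤ m := by
          have : (prs (r + 1)).card ≤ m := by
            unfold prs
            refine (card_filter_le _ _).trans ?_
            simp [hm]
          exact_mod_cast this
        gcongr
    _ = (C0 ^ r * ((m : ℝ) + m * (4 * 4 ^ m))) * (Real.log y ^ r / y * (L : ℝ) ^ (r + 1)) := by
        rw [hS0, mul_pow]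
        ring
    _ ≤ C * (Real.log y ^ r / y * (L : ℝ) ^ (r + 1)) := by
        apply mul_le_mul_of_nonneg_right _ (by positivity)
        linarith
    _ = _ := by ring

end Pool.Agent.NH16
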