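import Pool.Agent.Helper602.MK.J5a
import Pool.Agent.Helper602.MK.J5b
import Pool.Agent.Helper602.MK.J5c

/-!
# Restriction estimates for primes in short windows
-/

set_option autoImplicit false

namespace Pool.Agent.NH16

open Finset
open Pool.Agent.Helper602.MK
open Pool.Agent.Helper602.MK.N_J5b

/-- the abstract large sieve inequality in the dual form, for a set in a window of length `k` -/
theorem dual_sieve' {α : Type*} (A : Finset α) (d : α → ℂ) (θ : α → ℝ) (k : ℕ) (x : ℤ) (P : Finset ℕ)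
    (hP : ∀ p ∈ P, x < (p : ℤ) ∧ (p : ℤ) ≤ x + k) :
    (k : ℝ) * ∑ p ∈ P, ‖∑ a ∈ A, d a * ee (p * θ a)‖ ^ 2 ≤
      ∑ a ∈ A, ∑ b ∈ A, ‖d a‖ * ‖d b‖ * KD (2 * k) (θ a - θ b) := by
  obtain ⟨H, hH⟩ : ∃ H : ℝ → ℂ, H = fun n => ∑ a ∈ A, (d a * ee (x * θ a)) * ee (n * θ a) := ⟨_, rfl⟩
  have hHx : ∀ p : ℕ, ∑ a ∈ A, d a * ee (p * θ a) = H ((p : ℝ) - x) := by
    intro p
    rw [hH]
    apply Finset.sum_congr rfl
    intro a _
    have : (p : ℝ) * θ a = x * θ a + ((p : ℝ) - x) * θ a := by ring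
    rw [this, ee_add]
    ring
  simp only [hHx]
  have h1 : ∀ j' ∈ range k, ∑ p ∈ P, ‖H ((p : ℝ) - x)‖ ^ 2 ≤
      ∑ j ∈ range (2 * k), ‖H ((j : ℝ) - j')‖ ^ 2 := by
    intro j' hj'
    rw [Finset.mem_range] at hj'
    have e : ∑ p ∈ P, ‖H ((p : ℝ) - x)‖ ^ 2 =
        ∑ j ∈ P.image (fun p : ℕ => (j' + ((p : ℤ) - x).toNat : ℕ)), ‖H ((j : ℝ) - j')‖ ^ 2 := by
      rw [Finset.sum_image]
      · apply Finset.sum_congr rfl
        intro p hp
        have h2 := (hP p hp).1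
        congr 3
        have h3 : (((p : ℤ) - x).toNat : ℤ) = (p : ℤ) - x := Int.toNat_of_nonneg (by omega)
        have h4 : ((((p : ℤ) - x).toNat : ℕ) : ℝ) = (p : ℝ) - x := by exact_mod_cast h3
        push_cast
        rw [h4]
        ring
      · intro a ha b hb hab
        have h2 := (hP a ha).1
        have h3 := (hP b hb).1
        simp only at hab
        omega
    rw [e]
    apply Finset.sum_le_sum_of_subset_of_nonneg
    · intro j hj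
      rw [Finset.mem_image] at hj
      obtain ⟨p, hp, rfl⟩ := hj
      have h2 := hP p hp
      rw [Finset.mem_range]
      omega
    · intro _ _ _
      positivity
  have h2 : (k : ℝ) * ∑ p ∈ P, ‖H ((p : ℝ) - x)‖ ^ 2 ≤
      ∑ j' ∈ range (2 * k), ∑ j ∈ range (2 * k), ‖H ((j : ℝ) - j')‖ ^ 2 := by
    calc (k : ℝ) * ∑ p ∈ P, ‖H ((p : ℝ) - x)‖ ^ 2 = ∑ j' ∈ range k, ∑ p ∈ P, ‖H ((p : ℝ) - x)‖ ^ 2 := by
          rw [Finset.sum_const, Finset.card_range, nsmul_eq_mul]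
      _ ≤ ∑ j' ∈ range k, ∑ j ∈ range (2 * k), ‖H ((j : ℝ) - j')‖ ^ 2 := Finset.sum_le_sum h1
      _ ≤ _ := by
          apply Finset.sum_le_sum_of_subset_of_nonneg
          · intro j hj
            rw [Finset.mem_range] at hj ⊢
            omega
          · intro _ _ _
            positivity
  have h3 : ((∑ j' ∈ range (2 * k), ∑ j ∈ range (2 * k), ‖H ((j : ℝ) - j')‖ ^ 2 : ℝ) : ℂ) =
      ∑ a ∈ A, ∑ b ∈ A, (d a * ee (x * θ a)) * (starRingEnd ℂ) (d b * ee (x * θ b)) *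
        ((KD (2 * k) (θ a - θ b) : ℝ) : ℂ) := by
    rw [Complex.ofReal_sum]
    simp only [Complex.ofReal_sum]
    have e1 : ∀ j' j : ℕ, ((‖H ((j : ℝ) - j')‖ ^ 2 : ℝ) : ℂ) = ∑ a ∈ A, ∑ b ∈ A,
        (d a * ee (x * θ a)) * (starRingEnd ℂ) (d b * ee (x * θ b)) *
          ee (((j : ℝ) - j') * (θ a - θ b)) := by
      intro j' j
      rw [hH, normsq_sum]
      apply Finset.sum_congr rfl
      intro a _
      apply Finset.sum_congr rfl
      intro b _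
      rw [map_mul (starRingEnd ℂ) (d b * ee (x * θ b)), ee_conj]
      have e2 : ((j : ℝ) - j') * (θ a - θ b) = ((j : ℝ) - j') * θ a + -(((j : ℝ) - j') * θ b) := by
        ring
      rw [e2, ee_add]
      ring
    simp only [e1, KD_double]
    rw [Finset.sum_comm]
    have e3 : ∀ j : ℕ, ∑ j' ∈ range (2 * k), ∑ a ∈ A, ∑ b ∈ A,
        (d a * ee (x * θ a)) * (starRingEnd ℂ) (d b * ee (x * θ b)) * ee (((j : ℝ) - j') * (θ a - θ b)) =
        ∑ a ∈ A, ∑ b ∈ A, ∑ j' ∈ range (2 * k),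
        (d a * ee (x * θ a)) * (starRingEnd ℂ) (d b * ee (x * θ b)) *
          ee (((j : ℝ) - j') * (θ a - θ b)) := by
      intro j
      rw [Finset.sum_comm]
      apply Finset.sum_congr rfl
      intro a _
      rw [Finset.sum_comm]
    simp only [e3]
    rw [Finset.sum_comm]
    apply Finset.sum_congr rfl
    intro a _
    rw [Finset.sum_comm]
    apply Finset.sum_congr rfl
    intro b _
    rw [Finset.mul_sum]
    apply Finset.sum_congr rfl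
    intro j _
    rw [Finset.mul_sum]
  have h4 : ∑ j' ∈ range (2 * k), ∑ j ∈ range (2 * k), ‖H ((j : ℝ) - j')‖ ^ 2 ≤
      ∑ a ∈ A, ∑ b ∈ A, ‖d a‖ * ‖d b‖ * KD (2 * k) (θ a - θ b) := by
    have h5 : 0 ≤ ∑ j' ∈ range (2 * k), ∑ j ∈ range (2 * k), ‖H ((j : ℝ) - j')‖ ^ 2 :=
      Finset.sum_nonneg (fun _ _ => Finset.sum_nonneg (fun _ _ => by positivity))
    have h6 : ∑ j' ∈ range (2 * k), ∑ j ∈ range (2 * k), ‖H ((j : ℝ) - j')‖ ^ 2 =
        ‖((∑ j' ∈ range (2 * k), ∑ j ∈ range (2 * k), ‖H ((j : ℝ) - j')‖ ^ 2 : ℝ) : ℂ)‖ := by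
      rw [Complex.norm_real, Real.norm_eq_abs, abs_of_nonneg h5]
    rw [h6, h3]
    refine (norm_sum_le _ _).trans (Finset.sum_le_sum fun a _ => ?_)
    refine (norm_sum_le _ _).trans (Finset.sum_le_sum fun b _ => ?_)
    rw [norm_mul, norm_mul, RCLike.norm_conj, Complex.norm_real, Real.norm_eq_abs,
      abs_of_nonneg (KD_nonneg _ _), norm_mul, norm_mul, norm_ee, norm_ee, mul_one, mul_one]
  exact h2.trans h4

theorem main_ineq' (k M Q : ℕ) (hk : 1 ≤ k) (hkM : k ≤ M) (hM : M ≤ 100 * k)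
    (hQ : 2 ≤ Q) (hQk : Q ^ 50 ≤ k) (X : Finset ℕ) (hX : X ⊆ range M) (hXne : X.Nonempty)
    (x : ℤ) (P : Finset ℕ) (hP : ∀ p ∈ P, x < (p : ℤ) ∧ (p : ℤ) ≤ x + k)
    (hPp : ∀ p ∈ P, p.Prime ∧ Q < p) (c : ℕ → ℂ) :
    ∑ p ∈ P, ‖∑ ξ ∈ X, c ξ * ee ((ξ : ℝ) * p / M)‖ ^ 2 ≤
      503 * (k : ℝ) / GG (4 * X.card) Q * ∑ ξ ∈ X, ‖c ξ‖ ^ 2 := by
  classical
  have ha := N_J5a.J5a
  have hr1 : 1 ≤ X.card := Finset.card_pos.2 hXne
  obtain ⟨z, hz⟩ : ∃ z, z = 4 * X.card := ⟨_, rfl⟩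
  have hz3 : 3 ≤ z := by omega
  have hz0 : (0 : ℝ) < z := by
    have : 0 < z := by omega
    exact_mod_cast this
  rw [← hz]
  obtain ⟨G, hG⟩ : ∃ G, G = GG z Q := ⟨_, rfl⟩
  have hG1 : 1 ≤ G := by rw [hG]; exact GG_ge_one z Q (by omega)
  rw [← hG]
  have hk0 : (0 : ℝ) < k := by exact_mod_cast hk
  have hMpos : 0 < M := by omega
  have hM0 : (0 : ℝ) < M := by exact_mod_cast hMpos
  have hM100 : (M : ℝ) ≤ 100 * k := by exact_mod_cast hM
  have hQ12 : (Q : ℝ) ^ 12 ≤ k := by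
    have h1 : Q ^ 12 ≤ Q ^ 50 := Nat.pow_le_pow_right (by omega) (by norm_num)
    exact_mod_cast h1.trans hQk
  have hrM : (X.card : ℝ) ≤ 100 * k := by
    have h1 : X.card ≤ M := by
      have := Finset.card_le_card hX
      rwa [Finset.card_range] at this
    exact_mod_cast h1.trans hM
  -- the weights
  obtain ⟨w, hw⟩ : ∃ w : ℕ × ℕ → ℂ, w = fun x => (((ArithmeticFunction.moebius x.1 : ℤ) : ℂ) /
      ((Nat.totient x.1 : ℕ) : ℂ)) := ⟨_, rfl⟩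
  have hwn : ∀ x, ‖w x‖ ≤ 1 / (Nat.totient x.1 : ℝ) := by
    intro x
    rw [hw]
    simp only
    rw [norm_div, Complex.norm_natCast, Complex.norm_intCast]
    apply div_le_div_of_nonneg_right _ (by positivity)
    exact_mod_cast ArithmeticFunction.abs_moebius_le_one
  obtain ⟨A, hA⟩ : ∃ A : Finset (ℕ × (ℕ × ℕ)), A = X ×ˢ RR z Q := ⟨_, rfl⟩
  obtain ⟨d, hd⟩ : ∃ d : ℕ × (ℕ × ℕ) → ℂ, d = fun a => c a.1 * w a.2 := ⟨_, rfl⟩
  obtain ⟨θ, hθ⟩ : ∃ θ : ℕ × (ℕ × ℕ) → ℝ, θ = fun a => (a.1 : ℝ) / M + (a.2.2 : ℝ) / a.2.1 := ⟨_, rfl⟩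
  have hds := dual_sieve' A d θ k x P hP
  -- left side
  have hleft : ∀ p ∈ P, ‖∑ a ∈ A, d a * ee (p * θ a)‖ ^ 2 =
      G ^ 2 * ‖∑ ξ ∈ X, c ξ * ee ((ξ : ℝ) * p / M)‖ ^ 2 := by
    intro p hp
    have hpQ : Q < p := (hPp p hp).2
    have h1 : ∑ a ∈ A, d a * ee (p * θ a) =
        (∑ ξ ∈ X, c ξ * ee ((ξ : ℝ) * p / M)) * ((G : ℝ) : ℂ) := by
      rw [hG, GG_rep z Q p (hPp p hp).1 hpQ, hA, Finset.sum_product, Finset.sum_mul]
      apply Finset.sum_congr rfl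
      intro ξ _
      rw [Finset.mul_sum]
      apply Finset.sum_congr rfl
      intro x _
      rw [hd, hθ, hw]
      simp only
      have e : (p : ℝ) * ((ξ : ℝ) / M + (x.2 : ℝ) / x.1) = (ξ : ℝ) * p / M + p * ((x.2 : ℝ) / x.1) := by
        ring
      rw [e, ee_add]
      ring
    rw [h1, norm_mul, Complex.norm_real, Real.norm_eq_abs, abs_of_pos (by linarith)]
    ring
  -- right side
  obtain ⟨U, hU⟩ : ∃ U : ℕ → ℕ → ℝ, U = fun ξ ξ' : ℕ => (Q : ℝ) ^ 12 + ((2 * k : ℕ) : ℝ) ^ 2 * (3 * G / z) +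
      G * KD (2 * k) ((ξ : ℝ) / M - (ξ' : ℝ) / M) := ⟨_, rfl⟩
  have hU0 : ∀ a b, 0 ≤ U a b := by
    intro a b
    rw [hU]
    simp only
    have := KD_nonneg (2 * k) ((a : ℝ) / M - (b : ℝ) / M)
    positivity
  have hUs : ∀ a b, U a b = U b a := by
    intro a b
    rw [hU]
    simp only
    rw [← KD_neg, neg_sub]
  have hright : ∑ a ∈ A, ∑ b ∈ A, ‖d a‖ * ‖d b‖ * KD (2 * k) (θ a - θ b) ≤
      ∑ ξ ∈ X, ∑ ξ' ∈ X, ‖c ξ‖ * ‖c ξ'‖ * U ξ ξ' := by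
    rw [hA, Finset.sum_product]
    apply Finset.sum_le_sum
    intro ξ _
    have e1 : ∑ x ∈ RR z Q, ∑ b ∈ X ×ˢ RR z Q, ‖d (ξ, x)‖ * ‖d b‖ * KD (2 * k) (θ (ξ, x) - θ b) =
        ∑ ξ' ∈ X, ∑ x ∈ RR z Q, ∑ x' ∈ RR z Q,
          ‖d (ξ, x)‖ * ‖d (ξ', x')‖ * KD (2 * k) (θ (ξ, x) - θ (ξ', x')) := by
      rw [Finset.sum_comm, Finset.sum_product]
      apply Finset.sum_congr rfl
      intro ξ' _
      rw [Finset.sum_comm]
    rw [e1]
    apply Finset.sum_le_sum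
    intro ξ' _
    have e2 : ∑ x ∈ RR z Q, ∑ x' ∈ RR z Q,
          ‖d (ξ, x)‖ * ‖d (ξ', x')‖ * KD (2 * k) (θ (ξ, x) - θ (ξ', x')) ≤
        ‖c ξ‖ * ‖c ξ'‖ * ∑ x ∈ RR z Q, ∑ x' ∈ RR z Q, (1 / (Nat.totient x.1 : ℝ)) *
          (1 / (Nat.totient x'.1 : ℝ)) *
          KD (2 * k) (((ξ : ℝ) / M - (ξ' : ℝ) / M) + (x.2 : ℝ) / x.1 - (x'.2 : ℝ) / x'.1) := by
      rw [Finset.mul_sum]
      apply Finset.sum_le_sum
      intro x _
      rw [Finset.mul_sum]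
      apply Finset.sum_le_sum
      intro x' _
      rw [hd, hθ]
      simp only
      rw [norm_mul, norm_mul]
      have e3 : (ξ : ℝ) / M + (x.2 : ℝ) / x.1 - ((ξ' : ℝ) / M + (x'.2 : ℝ) / x'.1) =
          ((ξ : ℝ) / M - (ξ' : ℝ) / M) + (x.2 : ℝ) / x.1 - (x'.2 : ℝ) / x'.1 := by ring
      rw [e3]
      have h1 := hwn x
      have h2 := hwn x'
      have h3 : ‖w x‖ * ‖w x'‖ ≤ (1 / (Nat.totient x.1 : ℝ)) * (1 / (Nat.totient x'.1 : ℝ)) :=
        mul_le_mul h1 h2 (norm_nonneg _) (by positivity)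
      have h4 := KD_nonneg (2 * k) (((ξ : ℝ) / M - (ξ' : ℝ) / M) + (x.2 : ℝ) / x.1 - (x'.2 : ℝ) / x'.1)
      calc _ = (‖c ξ‖ * ‖c ξ'‖ * KD (2 * k) (((ξ : ℝ) / M - (ξ' : ℝ) / M) + (x.2 : ℝ) / x.1 - (x'.2 : ℝ) / x'.1)) *
            (‖w x‖ * ‖w x'‖) := by ring
        _ ≤ (‖c ξ‖ * ‖c ξ'‖ * KD (2 * k) (((ξ : ℝ) / M - (ξ' : ℝ) / M) + (x.2 : ℝ) / x.1 - (x'.2 : ℝ) / x'.1)) *
            ((1 / (Nat.totient x.1 : ℝ)) * (1 / (Nat.totient x'.1 : ℝ))) :=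
            mul_le_mul_of_nonneg_left h3 (by positivity)
        _ = _ := by ring
    refine e2.trans ?_
    apply mul_le_mul_of_nonneg_left _ (by positivity)
    have h5 := W_bound ha z Q (2 * k) hz3 (by omega) ((ξ : ℝ) / M - (ξ' : ℝ) / M)
    rw [hU]
    simp only
    rw [← hG] at h5
    exact h5
  -- row sums
  have hrow : ∀ ξ ∈ X, ∑ ξ' ∈ X, U ξ ξ' ≤ 503 * (k : ℝ) ^ 2 * G := by
    intro ξ _
    rw [hU]
    simp only
    rw [Finset.sum_add_distrib, Finset.sum_const, ← Finset.mul_sum, nsmul_eq_mul]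
    have h1 : ∑ ξ' ∈ X, KD (2 * k) ((ξ : ℝ) / M - (ξ' : ℝ) / M) ≤ 2 * ((2 * k : ℕ) : ℝ) * M :=
      (Finset.sum_le_sum_of_subset_of_nonneg hX (fun _ _ _ => KD_nonneg _ _)).trans
        (KD_sum (2 * k) M hMpos (by omega) ξ)
    have hzr : (z : ℝ) = 4 * X.card := by rw [hz]; push_cast; ring
    have hrpos : (0 : ℝ) < X.card := by exact_mod_cast hr1
    have h2 : (X.card : ℝ) * ((Q : ℝ) ^ 12 + ((2 * k : ℕ) : ℝ) ^ 2 * (3 * G / z)) =
        (X.card : ℝ) * (Q : ℝ) ^ 12 + 3 * (k : ℝ) ^ 2 * G := by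
      rw [hzr]
      push_cast
      field_simp
      ring
    rw [h2]
    have h3 : (X.card : ℝ) * (Q : ℝ) ^ 12 ≤ 100 * (k : ℝ) ^ 2 * G := by
      calc (X.card : ℝ) * (Q : ℝ) ^ 12 ≤ (100 * k) * k := by gcongr
        _ = 100 * (k : ℝ) ^ 2 * 1 := by ring
        _ ≤ 100 * (k : ℝ) ^ 2 * G := by gcongr
    have h4 : G * ∑ ξ' ∈ X, KD (2 * k) ((ξ : ℝ) / M - (ξ' : ℝ) / M) ≤ 400 * (k : ℝ) ^ 2 * G := by
      calc G * ∑ ξ' ∈ X, KD (2 * k) ((ξ : ℝ) / M - (ξ' : ℝ) / M) ≤ G * (2 * ((2 * k : ℕ) : ℝ) * M) := by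
            gcongr
        _ ≤ G * (2 * ((2 * k : ℕ) : ℝ) * (100 * k)) := by gcongr
        _ = 400 * (k : ℝ) ^ 2 * G := by push_cast; ring
    linarith
  have hsch := schur X (fun ξ => ‖c ξ‖) U hU0 hUs _ hrow
  rw [Finset.sum_congr rfl hleft, ← Finset.mul_sum] at hds
  have hfin := (hds.trans hright).trans hsch
  have hG0 : 0 < G := by linarith
  have h6 : (k : ℝ) * G ^ 2 * ∑ p ∈ P, ‖∑ ξ ∈ X, c ξ * ee ((ξ : ℝ) * p / M)‖ ^ 2 ≤
      (k : ℝ) * G ^ 2 * (503 * (k : ℝ) / G * ∑ ξ ∈ X, ‖c ξ‖ ^ 2) := by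
    calc _ = (k : ℝ) * (G ^ 2 * ∑ p ∈ P, ‖∑ ξ ∈ X, c ξ * ee ((ξ : ℝ) * p / M)‖ ^ 2) := by ring
      _ ≤ _ := hfin
      _ = _ := by field_simp
  exact le_of_mul_le_mul_left h6 (by positivity)

/-- restriction for primes in a window: few frequencies -/
theorem restr : ∃ C : ℝ, 1 ≤ C ∧ ∀ k : ℕ, 2 ^ 100 ≤ k → ∀ M : ℕ, k ≤ M → M ≤ 100 * k →
    ∀ X : Finset ℕ, X ⊆ range M → X.Nonempty → ∀ (x : ℤ) (P : Finset ℕ),
    (∀ p ∈ P, x < (p : ℤ) ∧ (p : ℤ) ≤ x + k) → (∀ p ∈ P, p.Prime ∧ k < p ^ 50) → ∀ f : ℕ → ℂ,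
    ∑ ξ ∈ X, ‖∑ p ∈ P, f p * ee ((ξ : ℝ) * p / M)‖ ^ 2 ≤
      C * ((k : ℝ) / Real.log k) * Real.log (2 * X.card) * ∑ p ∈ P, ‖f p‖ ^ 2 := by
  obtain ⟨c, hc0, hc⟩ := N_J5c.J5c
  refine ⟨max 1 (100600 / c), le_max_left _ _, ?_⟩
  intro k hk M hkM hM X hX hXne x P hP hPp f
  obtain ⟨Q, hQ2, hQk, hlog⟩ := exists_Q k hk
  have hk2 : 2 ≤ k := le_trans (by norm_num) hk
  have hr1 : 1 ≤ X.card := Finset.card_pos.2 hXne
  have hr1' : (1 : ℝ) ≤ X.card := by exact_mod_cast hr1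
  have hk0 : (0 : ℝ) < k := by
    have : 0 < k := by omega
    exact_mod_cast this
  have hlogk : 0 < Real.log k := Real.log_pos (by exact_mod_cast (by omega : 1 < k))
  have hl2 : 0 < Real.log 2 := Real.log_pos (by norm_num)
  have hlog2r : Real.log 2 ≤ Real.log (2 * X.card) := Real.log_le_log (by norm_num) (by linarith)
  have hlog2r0 : 0 < Real.log (2 * X.card) := by linarith
  have hlog4r : Real.log ((4 * X.card : ℕ) : ℝ) ≤ 2 * Real.log (2 * X.card) := by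
    have e : ((4 * X.card : ℕ) : ℝ) = 2 * (2 * X.card) := by push_cast; ring
    rw [e, Real.log_mul (by norm_num) (by linarith)]
    linarith
  have hlog4r0 : 0 < Real.log ((4 * X.card : ℕ) : ℝ) := by
    apply Real.log_pos
    exact_mod_cast (by omega : 1 < 4 * X.card)
  have hG1 := GG_ge_one (4 * X.card) Q (by omega)
  have hG := hc (4 * X.card) Q (by omega) hQ2
  have hlow : c * Real.log k / (200 * Real.log (2 * X.card)) ≤ GG (4 * X.card) Q := by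
    refine le_trans ?_ hG
    rw [div_le_div_iff₀ (by positivity) hlog4r0]
    have h1 : c * Real.log k ≤ c * (100 * Real.log Q) := mul_le_mul_of_nonneg_left hlog hc0.le
    have hlQ : 0 ≤ Real.log Q := Real.log_nonneg (by exact_mod_cast (by omega : 1 ≤ Q))
    calc c * Real.log k * Real.log ((4 * X.card : ℕ) : ℝ)
        ≤ c * (100 * Real.log Q) * (2 * Real.log (2 * X.card)) := by
          apply mul_le_mul h1 hlog4r hlog4r0.le (by positivity)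
      _ = c * Real.log Q * (200 * Real.log (2 * X.card)) := by ring
  obtain ⟨B, hB⟩ : ∃ B : ℝ, B = max 1 (100600 / c) * ((k : ℝ) / Real.log k) * Real.log (2 * X.card) := ⟨_, rfl⟩
  have hB0 : 0 ≤ B := by
    rw [hB]
    positivity
  have hGB : 503 * (k : ℝ) / GG (4 * X.card) Q ≤ B := by
    have hlow0 : 0 < c * Real.log k / (200 * Real.log (2 * X.card)) := by positivity
    calc 503 * (k : ℝ) / GG (4 * X.card) Q ≤ 503 * (k : ℝ) / (c * Real.log k / (200 * Real.log (2 * X.card))) :=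
          div_le_div_of_nonneg_left (by positivity) hlow0 hlow
      _ = (100600 / c) * ((k : ℝ) / Real.log k) * Real.log (2 * X.card) := by
          field_simp
          norm_num
      _ ≤ B := by
          rw [hB]
          gcongr
          exact le_max_right _ _
  rw [← hB]
  have hd := duality X P (fun ξ p => ee ((ξ : ℝ) * p / M)) B hB0 (fun c => ?_) f
  · exact hd
  · refine (main_ineq' k M Q (by omega) hkM hM hQ2 hQk X hX hXne x P hP ?_ c).trans ?_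
    · intro p hp
      refine ⟨(hPp p hp).1, ?_⟩
      have h1 := (hPp p hp).2
      have h2 : Q ^ 50 < p ^ 50 := lt_of_le_of_lt hQk h1
      exact lt_of_pow_lt_pow_left₀ 50 (Nat.zero_le _) h2
    · exact mul_le_mul_of_nonneg_right hGB (by positivity)

/-- the number of primes in a window -/
theorem win_card : ∃ C : ℝ, 1 ≤ C ∧ ∀ k : ℕ, 2 ^ 100 ≤ k → ∀ (x : ℤ) (P : Finset ℕ),
    (∀ p ∈ P, x < (p : ℤ) ∧ (p : ℤ) ≤ x + k) → (∀ p ∈ P, p.Prime ∧ k < p ^ 50) →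
    (P.card : ℝ) ≤ C * ((k : ℝ) / Real.log k) := by
  obtain ⟨C, hC, h⟩ := restr
  refine ⟨C, hC, fun k hk x P hP hPp => ?_⟩
  have hk2 : 2 ≤ k := le_trans (by norm_num) hk
  have h1 := h k hk k le_rfl (by omega) {0} (by
    intro y hy
    rw [mem_singleton] at hy
    rw [mem_range]; omega) (by simp) x P hP hPp (fun _ => 1)
  have hk0 : (0 : ℝ) < k := by
    have : 0 < k := by omega
    exact_mod_cast this
  have hlogk : 0 < Real.log k := Real.log_pos (by exact_mod_cast (by omega : 1 < k))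
  simp only [sum_singleton, Nat.cast_zero, zero_mul, zero_div, ee_zero, mul_one, sum_const,
    card_singleton, Nat.cast_one, norm_one, one_pow, nsmul_eq_mul] at h1
  rw [Complex.norm_natCast] at h1
  have hl2 : Real.log 2 ≤ 1 := by
    have := Real.log_two_lt_d9; linarith
  have hl20 : 0 < Real.log 2 := Real.log_pos (by norm_num)
  rcases (Nat.cast_nonneg (α := ℝ) P.card).eq_or_lt with h0 | h0
  · rw [← h0]; positivity
  · have h2 : (P.card : ℝ) * P.card ≤ (C * ((k : ℝ) / Real.log k)) * P.card := by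
      calc (P.card : ℝ) * P.card = (P.card : ℝ) ^ 2 := by ring
        _ ≤ C * (k / Real.log k) * Real.log 2 * P.card := h1
        _ ≤ C * (k / Real.log k) * 1 * P.card := by gcongr
        _ = _ := by ring
    exact le_of_mul_le_mul_right h2 h0

/-- restriction, with bounded coefficients -/
theorem restr' : ∃ C : ℝ, 1 ≤ C ∧ ∀ k : ℕ, 2 ^ 100 ≤ k → ∀ M : ℕ, k ≤ M → M ≤ 100 * k →
    ∀ X : Finset ℕ, X ⊆ range M → X.Nonempty → ∀ (x : ℤ) (P : Finset ℕ),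
    (∀ p ∈ P, x < (p : ℤ) ∧ (p : ℤ) ≤ x + k) → (∀ p ∈ P, p.Prime ∧ k < p ^ 50) → ∀ (f : ℕ → ℂ) (B : ℝ),
    (∀ p ∈ P, ‖f p‖ ≤ B) →
    ∑ ξ ∈ X, ‖∑ p ∈ P, f p * ee ((ξ : ℝ) * p / M)‖ ^ 2 ≤
      C * (B * ((k : ℝ) / Real.log k)) ^ 2 * Real.log (2 * X.card) := by
  obtain ⟨C1, hC1, h1⟩ := restr
  obtain ⟨C2, hC2, h2⟩ := win_card
  refine ⟨C1 * C2, one_le_mul_of_one_le_of_one_le hC1 hC2, ?_⟩
  intro k hk M hkM hM X hX hXne x P hP hPp f B hf
  have hk2 : 2 ≤ k := le_trans (by norm_num) hk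
  have hk0 : (0 : ℝ) < k := by
    have : 0 < k := by omega
    exact_mod_cast this
  have hlogk : 0 < Real.log k := Real.log_pos (by exact_mod_cast (by omega : 1 < k))
  have hr1 : 1 ≤ X.card := Finset.card_pos.2 hXne
  have hr1' : (1 : ℝ) ≤ X.card := by exact_mod_cast hr1
  have hl : 0 ≤ Real.log (2 * X.card) := Real.log_nonneg (by linarith)
  have h3 : ∑ p ∈ P, ‖f p‖ ^ 2 ≤ C2 * ((k : ℝ) / Real.log k) * B ^ 2 := by
    calc ∑ p ∈ P, ‖f p‖ ^ 2 ≤ ∑ p ∈ P, B ^ 2 := by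
          apply sum_le_sum
          intro p hp
          exact pow_le_pow_left₀ (norm_nonneg _) (hf p hp) 2
      _ = P.card * B ^ 2 := by rw [sum_const, nsmul_eq_mul]
      _ ≤ _ := mul_le_mul_of_nonneg_right (h2 k hk x P hP hPp) (sq_nonneg _)
  refine (h1 k hk M hkM hM X hX hXne x P hP hPp f).trans ?_
  calc C1 * (k / Real.log k) * Real.log (2 * X.card) * ∑ p ∈ P, ‖f p‖ ^ 2
      ≤ C1 * (k / Real.log k) * Real.log (2 * X.card) * (C2 * ((k : ℝ) / Real.log k) * B ^ 2) := by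
        gcongr
    _ = _ := by ring

end Pool.Agent.NH16
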