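import Pool.Agent.NH16.Fib

/-!
# Ramanujan sums
-/

set_option autoImplicit false

namespace Pool.Agent.NH16

open Finset
open Pool.Agent.Helper602.MK
open Pool.Agent.Helper602.MK.N_J5b
open Pool.Agent.H386R2.HL
open Pool.Agent.H387R2.Uni (WW WW_pos WW_factors totient_WW)

/-- the twisted indicator of the integers prime to `m` -/
noncomputable def gt (m q : ℕ) (a : ℤ) (n : ℤ) : ℂ := if Int.gcd n m = 1 then ee ((a : ℝ) * n / q) else 0

lemma gt_norm (m q : ℕ) (a n : ℤ) : ‖gt m q a n‖ ≤ 1 := by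
  unfold gt
  split_ifs
  · rw [norm_ee]
  · simp

lemma gt_per (m q : ℕ) (hq : 0 < q) (hmq : m ∣ q) (a n : ℤ) : gt m q a (n + q) = gt m q a n := by
  have hq0 : (q : ℝ) ≠ 0 := by exact_mod_cast hq.ne'
  unfold gt
  have h1 : Int.gcd (n + q) m = Int.gcd n m := by
    obtain ⟨k, rfl⟩ := hmq
    push_cast
    rw [Int.gcd_add_mul_left_left]
  have h2 : ee ((a : ℝ) * ((n + q : ℤ) : ℝ) / q) = ee ((a : ℝ) * n / q) := by
    have : (a : ℝ) * ((n + q : ℤ) : ℝ) / q = (a : ℝ) * n / q + ((a : ℤ) : ℝ) := by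
      push_cast
      field_simp
    rw [this, ee_add_int]
  rw [h1, h2]

lemma gt_shift (m q s : ℕ) (a n : ℤ) (h : ∀ n : ℤ, Int.gcd (n + s) m = 1 ↔ Int.gcd n m = 1) :
    gt m q a (n + s) = ee ((a : ℝ) * s / q) * gt m q a n := by
  unfold gt
  by_cases h1 : Int.gcd n m = 1
  · rw [if_pos h1, if_pos ((h n).2 h1), ← ee_add]
    congr 1
    push_cast
    ring
  · rw [if_neg h1, if_neg (fun h2 => h1 ((h n).1 h2)), mul_zero]

lemma gt_sum_zero (m q s : ℕ) (hq : 0 < q) (hmq : m ∣ q) (a : ℤ) (h : ∀ n : ℤ, Int.gcd (n + s) m = 1 ↔ Int.gcd n m = 1)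
    (hs : ee ((a : ℝ) * s / q) ≠ 1) : ∑ n ∈ range q, gt m q a n = 0 := by
  have h1 := period_shift q (gt m q a) (gt_per m q hq hmq a) s
  have h2 : ∑ n ∈ Ico (s : ℤ) (s + q), gt m q a n = ee ((a : ℝ) * s / q) * ∑ n ∈ range q, gt m q a n := by
    rw [← period_shift q (gt m q a) (gt_per m q hq hmq a) 0, mul_sum]
    symm
    apply sum_bij (fun (n : ℤ) _ => n + s)
    · intro n hn
      rw [mem_Ico] at hn ⊢
      omega
    · intro a _ b _ hab
      omega
    · intro n hn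
      rw [mem_Ico] at hn
      exact ⟨n - s, by rw [mem_Ico]; omega, by omega⟩
    · intro n _
      rw [gt_shift m q s a n h]
  rw [h2] at h1
  have h3 : (ee ((a : ℝ) * s / q) - 1) * ∑ n ∈ range q, gt m q a n = 0 := by
    rw [sub_mul, h1]; ring
  rcases mul_eq_zero.1 h3 with h4 | h4
  · exact absurd (sub_eq_zero.1 h4) hs
  · exact h4

lemma ram_eq (q : ℕ) (a : ℤ) : ram q a = ∑ n ∈ range q, gt q q a n := by
  unfold ram gt
  rw [sum_filter]
  apply sum_congr rfl
  intro b _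
  have : Int.gcd (b : ℤ) q = Nat.gcd b q := Int.gcd_natCast_natCast b q
  simp only [this, Int.cast_natCast]

lemma ee_ne_one (p : ℕ) (hp : 1 < p) (a : ℤ) (h : ¬ (p : ℤ) ∣ a) : ee ((a : ℝ) / p) ≠ 1 := by
  intro h1
  rw [ee_eq_one_iff] at h1
  obtain ⟨n, hn⟩ := h1
  apply h
  have hp0 : (p : ℝ) ≠ 0 := by
    have : p ≠ 0 := by omega
    exact_mod_cast this
  rw [div_eq_iff hp0] at hn
  exact ⟨n, by
    have : (a : ℝ) = ((n * p : ℤ) : ℝ) := by push_cast; exact hn
    have h2 : a = n * p := by exact_mod_cast this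
    rw [h2, mul_comm]⟩

lemma gcd_prime_iff (n : ℤ) (m : ℕ) : Int.gcd n m = 1 ↔ ∀ r : ℕ, r.Prime → r ∣ m → ¬ (r : ℤ) ∣ n := by
  rw [← Int.isCoprime_iff_gcd_eq_one]
  constructor
  · intro h r hr hrm hrn
    have h1 : (r : ℤ) ∣ ((Int.gcd n m : ℕ) : ℤ) := Int.dvd_coe_gcd hrn (by exact_mod_cast hrm)
    rw [Int.isCoprime_iff_gcd_eq_one.1 h] at h1
    have h2 : r ∣ 1 := by exact_mod_cast h1
    exact hr.one_lt.ne' (Nat.dvd_one.1 h2)
  · intro h
    rw [Int.isCoprime_iff_gcd_eq_one]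
    by_contra hcon
    obtain ⟨r, hr, hrd⟩ := Nat.exists_prime_and_dvd hcon
    have h1 : (r : ℤ) ∣ n := (Int.natCast_dvd_natCast.2 hrd).trans (Int.gcd_dvd_left _ _)
    have h2 : (r : ℤ) ∣ (m : ℤ) := (Int.natCast_dvd_natCast.2 hrd).trans (Int.gcd_dvd_right _ _)
    exact h r hr (Int.natCast_dvd_natCast.1 h2) h1

lemma gcd_shift (s m : ℕ) (h : ∀ r : ℕ, r.Prime → r ∣ m → r ∣ s) (n : ℤ) :
    Int.gcd (n + s) m = 1 ↔ Int.gcd n m = 1 := by
  rw [gcd_prime_iff, gcd_prime_iff]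
  constructor
  · intro h1 r hr hrm hrn
    exact h1 r hr hrm (dvd_add hrn (Int.natCast_dvd_natCast.2 (h r hr hrm)))
  · intro h1 r hr hrm hrn
    apply h1 r hr hrm
    have := dvd_sub hrn (Int.natCast_dvd_natCast.2 (h r hr hrm) : (r : ℤ) ∣ (s : ℤ))
    rwa [add_sub_cancel_right] at this

lemma ram_sq (q p : ℕ) (hp : p.Prime) (hq : 0 < q) (hpq : p * p ∣ q) (a : ℤ) (ha : Int.gcd a q = 1) : ram q a = 0 := by
  obtain ⟨k, rfl⟩ := hpq
  rw [ram_eq]
  have hp0 : (p : ℝ) ≠ 0 := by exact_mod_cast hp.ne_zero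
  have hk : k ≠ 0 := by
    rintro rfl
    simp at hq
  have hk0 : (k : ℝ) ≠ 0 := by exact_mod_cast hk
  apply gt_sum_zero (p * p * k) (p * p * k) (p * k) hq dvd_rfl a
  · apply gcd_shift
    intro r hr hrd
    rcases (Nat.Prime.dvd_mul hr).1 hrd with h1 | h1
    · rcases (Nat.Prime.dvd_mul hr).1 h1 with h2 | h2
      · exact h2.trans (Dvd.intro _ rfl)
      · exact h2.trans (Dvd.intro _ rfl)
    · exact h1.trans (Dvd.intro_left _ rfl)
  · have h1 : (a : ℝ) * ((p * k : ℕ) : ℝ) / ((p * p * k : ℕ) : ℝ) = (a : ℝ) / p := by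
      push_cast
      field_simp
    rw [h1]
    apply ee_ne_one p hp.one_lt
    exact (gcd_prime_iff a (p * p * k)).1 ha p hp ⟨p * k, by ring⟩

lemma ram_prime (m p : ℕ) (hp : p.Prime) (hm : 0 < m) (hpm : ¬ p ∣ m) (a : ℤ) (ha : Int.gcd a (p * m : ℕ) = 1) :
    ‖ram (p * m) a‖ * ((p : ℝ) - 1) ≤ Nat.totient (p * m) := by
  have hp0 : (p : ℝ) ≠ 0 := by exact_mod_cast hp.ne_zero
  have hm0 : (m : ℝ) ≠ 0 := by exact_mod_cast hm.ne'
  have hq : 0 < p * m := Nat.mul_pos hp.pos hm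
  have h0 : ∑ n ∈ range (p * m), gt m (p * m) a n = 0 := by
    apply gt_sum_zero m (p * m) m hq (Dvd.intro_left _ rfl) a
    · apply gcd_shift
      intro r _ hrd
      exact hrd
    · have h1 : (a : ℝ) * (m : ℝ) / ((p * m : ℕ) : ℝ) = (a : ℝ) / p := by
        push_cast
        field_simp
      rw [h1]
      apply ee_ne_one p hp.one_lt
      exact (gcd_prime_iff a (p * m)).1 ha p hp (Dvd.intro _ rfl)
  have h1 : ram (p * m) a = -∑ n ∈ (range (p * m)).filter (fun n => p ∣ n), gt m (p * m) a n := by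
    rw [ram_eq, eq_neg_iff_add_eq_zero, ← h0, sum_filter, ← sum_add_distrib]
    apply sum_congr rfl
    intro n _
    unfold gt
    have h2 : Int.gcd (n : ℤ) ((p * m : ℕ) : ℤ) = 1 ↔ (¬ p ∣ n ∧ Int.gcd (n : ℤ) m = 1) := by
      rw [Int.gcd_natCast_natCast, Int.gcd_natCast_natCast]
      constructor
      · intro h
        refine ⟨?_, Nat.Coprime.coprime_mul_left_right h⟩
        intro hpn
        have : Nat.Coprime n p := Nat.Coprime.coprime_mul_right_right h
        exact hp.one_lt.ne' (Nat.dvd_one.1 (this ▸ Nat.dvd_gcd hpn dvd_rfl))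
      · rintro ⟨h3, h4⟩
        exact Nat.Coprime.mul_right ((Nat.coprime_comm.1 ((Nat.Prime.coprime_iff_not_dvd hp).2 h3))) h4
    by_cases h3 : p ∣ n
    · rw [if_neg (fun h => (h2.1 h).1 h3), if_pos h3, zero_add]
    · rw [if_neg h3, add_zero]
      by_cases h4 : Int.gcd (n : ℤ) m = 1
      · rw [if_pos (h2.2 ⟨h3, h4⟩), if_pos h4]
      · rw [if_neg (fun h => h4 (h2.1 h).2), if_neg h4]
  have h2 : ‖ram (p * m) a‖ ≤ Nat.totient m := by
    rw [h1, norm_neg]
    have e1 : ∑ n ∈ (range (p * m)).filter (fun n => p ∣ n), gt m (p * m) a n = ∑ b ∈ range m, gt m (p * m) a ((p * b : ℕ) : ℤ) := by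
      symm
      apply sum_bij (fun b _ => p * b)
      · intro b hb
        rw [mem_range] at hb
        rw [mem_filter, mem_range]
        exact ⟨Nat.mul_lt_mul_of_pos_left hb hp.pos, Dvd.intro _ rfl⟩
      · intro b _ c _ hbc
        exact Nat.eq_of_mul_eq_mul_left hp.pos hbc
      · intro n hn
        rw [mem_filter, mem_range] at hn
        obtain ⟨hn1, ⟨b, rfl⟩⟩ := hn
        exact ⟨b, mem_range.2 (Nat.lt_of_mul_lt_mul_left hn1), rfl⟩
      · intro b _
        rfl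
    rw [e1]
    have e2 : ∀ b ∈ range m, ‖gt m (p * m) a ((p * b : ℕ) : ℤ)‖ ≤ if m.Coprime b then 1 else 0 := by
      intro b _
      unfold gt
      rw [Int.gcd_natCast_natCast]
      by_cases h3 : m.Coprime b
      · rw [if_pos h3]
        split_ifs
        · rw [norm_ee]
        · simp
      · rw [if_neg h3, if_neg]
        · simp
        · intro h4
          apply h3
          exact (Nat.coprime_comm.1 (Nat.Coprime.coprime_mul_left h4))
    refine (norm_sum_le _ _).trans ((sum_le_sum e2).trans ?_)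
    rw [sum_ite, sum_const_zero, add_zero, sum_const, nsmul_eq_mul, mul_one]
    rfl
  have h3 : Nat.totient (p * m) = (p - 1) * Nat.totient m := by
    rw [Nat.totient_mul ((Nat.Prime.coprime_iff_not_dvd hp).2 hpm), Nat.totient_prime hp]
  rw [h3]
  push_cast [hp.one_lt.le]
  rw [mul_comm]
  have : (1 : ℝ) ≤ p := by exact_mod_cast hp.one_lt.le
  exact mul_le_mul_of_nonneg_left h2 (by linarith)

theorem ram_bound (q y : ℕ) (hq : 0 < q) (hy : ¬ q ∣ WW y) (a : ℤ) (ha : Int.gcd a q = 1) :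
    ‖ram q a‖ * y ≤ Nat.totient q := by
  by_cases hsq : Squarefree q
  · have h1 : ∃ p, p.Prime ∧ p ∣ q ∧ y < p := by
      by_contra hcon
      push Not at hcon
      apply hy
      rw [← Nat.prod_primeFactors_of_squarefree hsq]
      unfold WW
      apply prod_dvd_prod_of_subset
      intro p hp
      rw [Nat.mem_primesBelow]
      have := Nat.prime_of_mem_primeFactors hp
      exact ⟨Nat.lt_succ_of_le (hcon p this (Nat.dvd_of_mem_primeFactors hp)), this⟩
    obtain ⟨p, hp, hpq, hyp⟩ := h1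
    obtain ⟨m, rfl⟩ := hpq
    have hpm : ¬ p ∣ m := by
      rintro ⟨k, rfl⟩
      have h2 : p * p ∣ p * (p * k) := ⟨k, by ring⟩
      have := hsq p h2
      exact hp.one_lt.ne' (Nat.isUnit_iff.1 this)
    have hm : 0 < m := Nat.pos_of_ne_zero (by rintro rfl; simp at hq)
    have h2 := ram_prime m p hp hm hpm a ha
    refine le_trans ?_ h2
    apply mul_le_mul_of_nonneg_left _ (norm_nonneg _)
    have : (y : ℝ) + 1 ≤ p := by exact_mod_cast hyp
    linarith
  · rw [Nat.squarefree_iff_prime_squarefree] at hsq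
    push Not at hsq
    obtain ⟨p, hp, hpq⟩ := hsq
    rw [ram_sq q p hp hq hpq a ha]
    simp

end Pool.Agent.NH16
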