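import Pool.Agent.NH16.Maj

/-!
# The prime tuples conjecture on average over short shifts and primes in almost all short intervals
-/

set_option autoImplicit false

namespace Pool.Agent.NH16

open Finset Filter
open Pool.Agent.Helper602.MK
open Pool.Agent.Helper602.MK.N_J5b
open Pool.Agent.H386R2.HL
open Pool.Agent.H387R2.Uni (WW WW_pos WW_factors totient_WW)

/-- mean error in the count of the primes of a residue class in windows of length `γ H` -/
noncomputable def majM (H N : ℕ) (γ : ℝ) (q a : ℕ) : ℝ :=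
  (∑ n ∈ Icc 1 N, |Real.log N / H * PA n ⌊γ * H⌋₊ q a - γ / Nat.totient q|) / N

/-- mean size of an exponential sum over the primes in windows of length `H` -/
noncomputable def minM (H N : ℕ) (α : ℝ) : ℝ := (∑ n ∈ Icc 1 N, Real.log N / H * ‖PS n H α‖) / N

lemma majM_nonneg (H N : ℕ) (γ : ℝ) (q a : ℕ) : 0 ≤ majM H N γ q a :=
  div_nonneg (sum_nonneg fun _ _ => abs_nonneg _) (Nat.cast_nonneg _)

/-- equidistribution in residue classes in almost all short windows -/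
def Major (H : ℕ → ℕ) : Prop := ∀ q a : ℕ, 0 < q → a.Coprime q → ∀ γ : ℝ, 0 < γ → γ ≤ 1 →
  Tendsto (fun N => majM (H N) N γ q a) atTop (nhds 0)

/-- small exponential sums on the minor arcs in almost all short windows -/
def Minor (H : ℕ → ℕ) : Prop := ∀ η : ℝ, 0 < η → ∃ K : ℕ, ∀ᶠ N : ℕ in atTop, ∀ α : ℝ,
  (∀ q : ℕ, 0 < q → q ≤ K → ∀ a : ℤ, (K : ℝ) / H N < |α - a / q|) → minM (H N) N α ≤ η

/-- the exponential sums are small -/
theorem UU (k : ℕ) (ε : ℝ) (hε : 0 < ε) (hε2 : ε ≤ 1 / 2) (L : ℕ → ℕ)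
    (hL : ∀ᶠ N : ℕ in atTop, (N : ℝ) ^ ε ≤ L N ∧ (L N : ℝ) ≤ (N : ℝ) ^ (1 - ε))
    (hE : Tendsto (fun N => EE (k + 2) N (L N)) atTop (nhds 0)) (η : ℝ) (hη : 0 < η) :
    ∃ y0 : ℕ, ∀ y : ℕ, y0 ≤ y → ∀ᶠ N : ℕ in atTop, ∀ α : ℝ, Rs N (L N) y α ≤ η := by
  obtain ⟨C, hC, h2⟩ := part2 k ε hε hε2
  set κ : ℝ := (η / 2) ^ 2 with hκ
  have hκ0 : 0 < κ := by rw [hκ]; positivity
  set τ : ℝ := min 1 ((κ / (2 * C)) ^ 2) with hτ
  have hτ0 : 0 < τ := by rw [hτ]; exact lt_min one_pos (by positivity)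
  have hτ1 : τ ≤ 1 := min_le_left _ _
  have hsq : √τ ≤ κ / (2 * C) := by
    calc √τ ≤ √((κ / (2 * C)) ^ 2) := Real.sqrt_le_sqrt (min_le_right _ _)
      _ = κ / (2 * C) := Real.sqrt_sq (by positivity)
  have hττ : τ ≤ √τ := by
    have h3 := Real.sq_sqrt hτ0.le
    have h4 : √τ ≤ 1 := Real.sqrt_le_one.2 hτ1
    nlinarith [Real.sqrt_nonneg τ]
  have hlim : ∀ᶠ y : ℕ in atTop, C * Real.log y ^ (k + 1) / y ≤ τ / 3 := by
    have h3 := ((isLittleO_log_rpow_rpow_atTop ((k + 1 : ℕ) : ℝ) one_pos).tendsto_div_nhds_zero).comp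
      (tendsto_natCast_atTop_atTop (R := ℝ))
    have h4 := h3.const_mul C
    rw [mul_zero] at h4
    filter_upwards [h4.eventually_lt_const (by positivity : 0 < τ / 3)] with y hy
    refine le_trans (le_of_eq ?_) hy.le
    simp only [Function.comp_apply]
    rw [Real.rpow_natCast, Real.rpow_one]
    ring
  obtain ⟨y1, hy1⟩ := eventually_atTop.1 hlim
  refine ⟨max y1 ⌈C⌉₊, ?_⟩
  intro y hy
  have hyC : C ≤ y := (Nat.le_ceil C).trans (by exact_mod_cast (le_max_right _ _).trans hy)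
  have hylog := hy1 y ((le_max_left _ _).trans hy)
  filter_upwards [h2 y hyC (τ / 3) (by positivity), hL, hE.eventually_lt_const (by positivity : 0 < τ / 3),
    big_N ε hε hε2 1] with N hN hLN hEN hb α
  obtain ⟨hN2, hb⟩ := hb
  obtain ⟨hL100, -, -, hLN'⟩ := hb (L N) hLN.1
  have hLN2 := hLN' hLN.2
  have h5 := hN (L N) hLN.1 hLN.2 α
  have h6 : EE (k + 2) N (L N) + C * Real.log y ^ (k + 1) / y + τ / 3 ≤ τ := by linarith
  have h7 : Tn N (L N) y α ≤ κ := by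
    calc Tn N (L N) y α ≤ C * ((EE (k + 2) N (L N) + C * Real.log y ^ (k + 1) / y + τ / 3) +
          √(EE (k + 2) N (L N) + C * Real.log y ^ (k + 1) / y + τ / 3)) := h5
      _ ≤ C * (τ + √τ) := by
          apply mul_le_mul_of_nonneg_left _ (by linarith)
          exact add_le_add h6 (Real.sqrt_le_sqrt h6)
      _ ≤ C * (2 * (κ / (2 * C))) := by
          apply mul_le_mul_of_nonneg_left _ (by linarith)
          linarith
      _ = κ := by field_simp
  have hL0 : 0 < L N := lt_of_lt_of_le (by norm_num) hL100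
  refine (Rs_le_Tn N (L N) y (by omega) hL0 hLN2 α).trans ?_
  calc 2 * √(Tn N (L N) y α) ≤ 2 * √κ := by
        apply mul_le_mul_of_nonneg_left (Real.sqrt_le_sqrt h7) (by norm_num)
    _ = η := by
        rw [hκ, Real.sqrt_sq (by positivity)]
        ring

lemma EE_sub (r N L H : ℕ) (hL : 0 < L) (hLH : L ≤ H) : EE r N L ≤ ((H : ℝ) / L) ^ r * EE r N H := by
  have hL0 : (0 : ℝ) < L := by exact_mod_cast hL
  have hH0 : (0 : ℝ) < H := by
    have : 0 < H := by omega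
    exact_mod_cast this
  unfold EE
  rw [div_pow, div_mul_div_comm, mul_comm ((H : ℝ) ^ r), mul_div_mul_right _ _ (by positivity)]
  apply div_le_div_of_nonneg_right _ (by positivity)
  apply sum_le_sum_of_subset_of_nonneg
  · intro a ha
    rw [mem_filter, Fintype.mem_piFinset] at ha ⊢
    refine ⟨fun i => ?_, ha.2⟩
    have := ha.1 i
    rw [mem_Icc] at this ⊢
    omega
  · intro _ _ _
    exact abs_nonneg _

/-- windows of proportional length -/
lemma prop_len (ε : ℝ) (hε : 0 < ε) (γ : ℝ) (hγ : 0 < γ) (hγ1 : γ ≤ 1) (H : ℕ → ℕ)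
    (hH : ∀ᶠ N : ℕ in atTop, (N : ℝ) ^ ε ≤ H N ∧ (H N : ℝ) ≤ (N : ℝ) ^ (1 - ε)) :
    ∀ᶠ N : ℕ in atTop, (N : ℝ) ^ (ε / 2) ≤ (⌊γ * H N⌋₊ : ℝ) ∧ ((⌊γ * H N⌋₊ : ℝ) ≤ (N : ℝ) ^ (1 - ε / 2)) ∧
      γ / 2 * H N ≤ (⌊γ * H N⌋₊ : ℝ) ∧ ⌊γ * H N⌋₊ ≤ H N := by
  have h1 : Tendsto (fun N : ℕ => (N : ℝ) ^ (ε / 2)) atTop atTop :=
    (tendsto_rpow_atTop (by positivity)).comp tendsto_natCast_atTop_atTop
  filter_upwards [hH, h1.eventually_ge_atTop (2 / γ), eventually_ge_atTop 1] with N hN h2 hN1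
  have hN1' : (1 : ℝ) ≤ N := by exact_mod_cast hN1
  have hN0 : (0 : ℝ) < N := by linarith
  have h3 : (N : ℝ) ^ ε = (N : ℝ) ^ (ε / 2) * (N : ℝ) ^ (ε / 2) := by
    rw [← Real.rpow_add hN0]
    congr 1
    ring
  have h4 : 1 ≤ (N : ℝ) ^ (ε / 2) := Real.one_le_rpow hN1' (by positivity)
  have h5 : γ * H N - 1 < (⌊γ * H N⌋₊ : ℝ) := Nat.sub_one_lt_floor _
  have h6 : (⌊γ * H N⌋₊ : ℝ) ≤ γ * H N := Nat.floor_le (by positivity)
  have h7 : 2 / γ * (N : ℝ) ^ (ε / 2) ≤ H N := by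
    refine le_trans ?_ hN.1
    rw [h3]
    exact mul_le_mul_of_nonneg_right h2 (by positivity)
  have h8 : 2 * (N : ℝ) ^ (ε / 2) ≤ γ * H N := by
    have := mul_le_mul_of_nonneg_left h7 hγ.le
    calc 2 * (N : ℝ) ^ (ε / 2) = γ * (2 / γ * (N : ℝ) ^ (ε / 2)) := by field_simp
      _ ≤ _ := this
  have h9 : γ * H N ≤ H N := by
    have : (0 : ℝ) ≤ H N := Nat.cast_nonneg _
    nlinarith
  refine ⟨by linarith, ?_, by linarith, ?_⟩
  · refine (h6.trans h9).trans (hN.2.trans ?_)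
    exact Real.rpow_le_rpow_of_exponent_le hN1' (by linarith)
  · have : (⌊γ * H N⌋₊ : ℝ) ≤ H N := h6.trans h9
    exact_mod_cast this

theorem fwd_major (k : ℕ) (ε : ℝ) (hε : 0 < ε) (hε2 : ε ≤ 1 / 2) (H : ℕ → ℕ)
    (hH : ∀ᶠ N : ℕ in atTop, (N : ℝ) ^ ε ≤ H N ∧ (H N : ℝ) ≤ (N : ℝ) ^ (1 - ε))
    (hE : Tendsto (fun N => EE (k + 2) N (H N)) atTop (nhds 0)) : Major H := by
  intro q a hq ha γ hγ hγ1
  set L : ℕ → ℕ := fun N => ⌊γ * H N⌋₊ with hL
  have hpl := prop_len ε hε γ hγ hγ1 H hH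
  have hbig := big_N (ε / 2) (by positivity) (by linarith) 1
  have hEL : Tendsto (fun N => EE (k + 2) N (L N)) atTop (nhds 0) := by
    have h1 : Tendsto (fun N => (2 / γ) ^ (k + 2) * EE (k + 2) N (H N)) atTop (nhds 0) := by
      have := hE.const_mul ((2 / γ) ^ (k + 2))
      rwa [mul_zero] at this
    apply squeeze_zero' (Eventually.of_forall fun N => EE_nonneg _ _ _) _ h1
    filter_upwards [hpl, hbig] with N hN hb
    obtain ⟨-, hb⟩ := hb
    obtain ⟨hL100, -, -, -⟩ := hb (L N) hN.1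
    have hL0 : 0 < L N := lt_of_lt_of_le (by norm_num) hL100
    have hL0' : (0 : ℝ) < L N := by exact_mod_cast hL0
    refine (EE_sub (k + 2) N (L N) (H N) hL0 hN.2.2.2).trans ?_
    apply mul_le_mul_of_nonneg_right _ (EE_nonneg _ _ _)
    apply pow_le_pow_left₀ (by positivity)
    rw [div_le_div_iff₀ hL0' hγ]
    have := hN.2.2.1
    have e : (L N : ℝ) = (⌊γ * H N⌋₊ : ℝ) := rfl
    rw [e]
    linarith
  have hLL : ∀ᶠ N : ℕ in atTop, (N : ℝ) ^ (ε / 2) ≤ L N ∧ (L N : ℝ) ≤ (N : ℝ) ^ (1 - ε / 2) := by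
    filter_upwards [hpl] with N hN
    exact ⟨hN.1, hN.2.1⟩
  rw [Metric.tendsto_atTop']
  intro η hη
  obtain ⟨y0, hy0⟩ := UU k (ε / 2) (by positivity) (by linarith) L hLL hEL (η / 8) (by positivity)
  set y : ℕ := max y0 q with hy
  have hU := hy0 y (le_max_left _ _)
  have hqy : q ≤ y := le_max_right _ _
  have hev : ∀ᶠ N : ℕ in atTop, majM (H N) N γ q a ≤ η / 2 := by
    filter_upwards [hU, hpl, hbig, hH, small_a 0 ε hε (2 * (q * WW y : ℕ) * rho y + 1) (η / 8) (by positivity),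
      err2_small 1 ε (η / 8) hε (by positivity), err2_small 0 ε (η / 8) hε (by positivity)] with N hR hN hb hHN s1 s2 s3
    obtain ⟨hN2, hb⟩ := hb
    obtain ⟨hL100, -, -, -⟩ := hb (L N) hN.1
    have hL0 : 0 < L N := lt_of_lt_of_le (by norm_num) hL100
    have hL0' : (0 : ℝ) < L N := by exact_mod_cast hL0
    have hLH : L N ≤ H N := hN.2.2.2
    have hH0 : 0 < H N := by omega
    have hH0' : (0 : ℝ) < H N := by exact_mod_cast hH0
    have hN0 : (0 : ℝ) < N := by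
      have : 0 < N := by omega
      exact_mod_cast this
    have hNε : 0 < (N : ℝ) ^ ε := by positivity
    have hl := Real.log_natCast_nonneg N
    have hρ := rho_nonneg y
    have hφ : (1 : ℝ) ≤ Nat.totient q := by exact_mod_cast Nat.totient_pos.2 hq
    have h1 := maj_fwd N (L N) y (by omega) hL0 q hq hqy a ha (η / 8) hR
    have hLH' : (L N : ℝ) ≤ H N := by exact_mod_cast hLH
    have t1 : (2 * (q * WW y : ℕ) * rho y + 1) * (Real.log N ^ 0 / (N : ℝ) ^ ε) ≤ η / 8 := s1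
    have t2 : err2 N 1 (H N) ≤ η / 8 := s2 (H N) hH0 hHN.2
    have t3 : err2 N 0 (H N) ≤ η / 8 := s3 (H N) hH0 hHN.2
    unfold err2 at t2 t3
    rw [pow_one] at t2
    rw [pow_zero] at t1 t3
    unfold majM
    rw [div_le_iff₀ hN0]
    have h2 : ∀ n ∈ Icc 1 N, |Real.log N / H N * PA n ⌊γ * H N⌋₊ q a - γ / Nat.totient q| ≤
        (1 / H N) * |Real.log N * PA n (L N) q a - (L N : ℝ) / Nat.totient q| + 1 / H N := by
      intro n _
      have e1 : Real.log N / H N * PA n ⌊γ * H N⌋₊ q a - γ / Nat.totient q =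
          (1 / H N) * (Real.log N * PA n (L N) q a - (L N : ℝ) / Nat.totient q) +
          (1 / H N) * (((L N : ℝ) - γ * H N) / Nat.totient q) := by
        rw [hL]
        field_simp
        ring
      rw [e1]
      refine (abs_add_le _ _).trans (add_le_add (le_of_eq ?_) ?_)
      · rw [abs_mul, abs_of_pos (by positivity : (0 : ℝ) < 1 / H N)]
      · rw [abs_mul, abs_of_pos (by positivity : (0 : ℝ) < 1 / H N)]
        have e2 : |((L N : ℝ) - γ * H N) / Nat.totient q| ≤ 1 := by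
          rw [abs_div, abs_of_pos (by linarith : (0 : ℝ) < Nat.totient q), div_le_one (by linarith)]
          have e3 : γ * H N - 1 < (⌊γ * H N⌋₊ : ℝ) := Nat.sub_one_lt_floor _
          have e4 : (⌊γ * H N⌋₊ : ℝ) ≤ γ * H N := Nat.floor_le (by positivity)
          have e5 : (L N : ℝ) = (⌊γ * H N⌋₊ : ℝ) := rfl
          rw [e5, abs_le]
          constructor <;> linarith
        calc 1 / (H N : ℝ) * |((L N : ℝ) - γ * H N) / Nat.totient q| ≤ 1 / (H N : ℝ) * 1 :=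
              mul_le_mul_of_nonneg_left e2 (by positivity)
          _ = 1 / H N := mul_one _
    refine (sum_le_sum h2).trans ?_
    rw [sum_add_distrib, ← mul_sum, sum_const, Nat.card_Icc, Nat.add_sub_cancel, nsmul_eq_mul]
    have h3 : (1 / (H N : ℝ)) * ∑ n ∈ Icc 1 N, |Real.log N * PA n (L N) q a - (L N : ℝ) / Nat.totient q| ≤
        (1 / (H N : ℝ)) * (N * H N * (η / 8) + N * (2 * (q * WW y : ℕ) * rho y) + (Real.log N * H N + H N) * (N.sqrt + H N)) := by
      apply mul_le_mul_of_nonneg_left _ (by positivity)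
      refine h1.trans ?_
      gcongr
    have h4 : (1 / (H N : ℝ)) * (N * H N * (η / 8) + N * (2 * (q * WW y : ℕ) * rho y) + (Real.log N * H N + H N) * (N.sqrt + H N)) =
        N * (η / 8) + N * (2 * (q * WW y : ℕ) * rho y * (1 / H N)) + (Real.log N * (N.sqrt + H N) + (N.sqrt + H N)) := by
      field_simp
    have h5 : 1 / (H N : ℝ) ≤ 1 / (N : ℝ) ^ ε := one_div_le_one_div_of_le hNε hHN.1
    have h6 : (2 * (q * WW y : ℕ) * rho y + 1) * (1 / (H N : ℝ)) ≤ η / 8 :=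
      (mul_le_mul_of_nonneg_left h5 (by positivity)).trans t1
    have h7 : Real.log N * (N.sqrt + H N) ≤ N * (η / 8) := by
      have e1 : Real.log N / N * (N.sqrt + 2 * H N + 1) * N ≤ η / 8 * N := mul_le_mul_of_nonneg_right t2 hN0.le
      have e2 : Real.log N / N * (N.sqrt + 2 * H N + 1) * N = Real.log N * (N.sqrt + 2 * H N + 1) := by field_simp
      rw [e2] at e1
      nlinarith
    have h8 : ((N.sqrt : ℕ) : ℝ) + H N ≤ N * (η / 8) := by
      have e1 : 1 / N * (N.sqrt + 2 * H N + 1) * N ≤ η / 8 * N := mul_le_mul_of_nonneg_right t3 hN0.le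
      have e2 : 1 / N * (N.sqrt + 2 * H N + 1) * N = (N.sqrt + 2 * H N + 1 : ℝ) := by field_simp
      rw [e2] at e1
      linarith
    have h9 : N * (2 * (q * WW y : ℕ) * rho y * (1 / H N)) + N * (1 / H N) ≤ N * (η / 8) := by
      rw [← mul_add]
      apply mul_le_mul_of_nonneg_left _ hN0.le
      linarith
    linarith
  rw [eventually_atTop] at hev
  obtain ⟨N0, hN0⟩ := hev
  refine ⟨N0, fun N hN => ?_⟩
  rw [Real.dist_eq, sub_zero, abs_of_nonneg (majM_nonneg _ _ _ _ _)]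
  linarith [hN0 N (le_of_lt hN)]

theorem fwd_minor (k : ℕ) (ε : ℝ) (hε : 0 < ε) (hε2 : ε ≤ 1 / 2) (H : ℕ → ℕ)
    (hH : ∀ᶠ N : ℕ in atTop, (N : ℝ) ^ ε ≤ H N ∧ (H N : ℝ) ≤ (N : ℝ) ^ (1 - ε))
    (hE : Tendsto (fun N => EE (k + 2) N (H N)) atTop (nhds 0)) : Minor H := by
  intro η hη
  obtain ⟨y, hy0⟩ := UU k ε hε hε2 H hH hE (η / 4) (by positivity)
  have hU := hy0 y le_rfl
  set K : ℕ := max (WW y) (⌈rho y * (2 / η)⌉₊ + 1) with hK
  have hρ := rho_nonneg y
  have hK1 : WW y ≤ K := le_max_left _ _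
  have hK2 : rho y * (2 / η) ≤ K := by
    have h1 : rho y * (2 / η) ≤ (⌈rho y * (2 / η)⌉₊ : ℝ) := Nat.le_ceil _
    have h2 : (⌈rho y * (2 / η)⌉₊ : ℝ) ≤ K := by exact_mod_cast (Nat.le_succ _).trans (le_max_right _ _)
    linarith
  have hK0 : (0 : ℝ) < K := by
    have : 0 < K := lt_of_lt_of_le (Nat.succ_pos _) (le_max_right _ _)
    exact_mod_cast this
  refine ⟨K, ?_⟩
  filter_upwards [hU, big_N ε hε hε2 1, hH, err2_small 1 ε (η / 4) hε (by positivity)] with N hR hb hHN s2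
  intro α hα
  obtain ⟨hN2, hb⟩ := hb
  obtain ⟨hH100, -, -, -⟩ := hb (H N) hHN.1
  have hH0 : 0 < H N := lt_of_lt_of_le (by norm_num) hH100
  have hH0' : (0 : ℝ) < H N := by exact_mod_cast hH0
  have hN0 : (0 : ℝ) < N := by
    have : 0 < N := by omega
    exact_mod_cast this
  have hl := Real.log_natCast_nonneg N
  have t2 : err2 N 1 (H N) ≤ η / 4 := s2 (H N) hH0 hHN.2
  unfold err2 at t2
  rw [pow_one] at t2
  have h1 := min_fwd N (H N) y hH0 K hK0 α (fun a => hα (WW y) (WW_pos y) hK1 a)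
  have h2 := hR α
  unfold Rs at h2
  rw [div_le_iff₀ (by positivity)] at h2
  unfold minM
  rw [div_le_iff₀ hN0]
  have e1 : ∑ n ∈ Icc 1 N, Real.log N / H N * ‖PS n (H N) α‖ = (1 / (H N : ℝ)) * ∑ n ∈ Icc 1 N, Real.log N * ‖PS n (H N) α‖ := by
    rw [mul_sum]
    apply sum_congr rfl
    intro n _
    ring
  rw [e1]
  have e2 : (1 / (H N : ℝ)) * ∑ n ∈ Icc 1 N, Real.log N * ‖PS n (H N) α‖ ≤
      (1 / (H N : ℝ)) * (η / 4 * (N * H N) + N * (rho y * H N / (2 * K)) + Real.log N * H N * (N.sqrt + H N)) := by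
    apply mul_le_mul_of_nonneg_left _ (by positivity)
    linarith
  refine e2.trans ?_
  have e3 : (1 / (H N : ℝ)) * (η / 4 * (N * H N) + N * (rho y * H N / (2 * K)) + Real.log N * H N * (N.sqrt + H N)) =
      η / 4 * N + N * (rho y / (2 * K)) + Real.log N * (N.sqrt + H N) := by
    field_simp
  rw [e3]
  have e4 : rho y / (2 * K) ≤ η / 4 := by
    rw [div_le_iff₀ (by positivity)]
    have := mul_le_mul_of_nonneg_left hK2 (by positivity : 0 ≤ η / 2)
    calc rho y = η / 2 * (rho y * (2 / η)) := by field_simp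
      _ ≤ η / 2 * K := this
      _ = η / 4 * (2 * K) := by ring
  have e5 : Real.log N * (N.sqrt + H N) ≤ N * (η / 4) := by
    have e1 : Real.log N / N * (N.sqrt + 2 * H N + 1) * N ≤ η / 4 * N := mul_le_mul_of_nonneg_right t2 hN0.le
    have e2 : Real.log N / N * (N.sqrt + 2 * H N + 1) * N = Real.log N * (N.sqrt + 2 * H N + 1) := by field_simp
    rw [e2] at e1
    nlinarith
  have e6 : N * (rho y / (2 * K)) ≤ N * (η / 4) := mul_le_mul_of_nonneg_left e4 hN0.le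
  linarith [mul_pos hN0 hη]

end Pool.Agent.NH16
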