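import Pool.Agent.NH16.Short

/-!
# From short intervals to tuples
-/

set_option autoImplicit false

namespace Pool.Agent.NH16

open Finset Filter
open Pool.Agent.Helper602.MK
open Pool.Agent.Helper602.MK.N_J5b
open Pool.Agent.H386R2.HL
open Pool.Agent.H387R2.Uni (WW WW_pos WW_factors totient_WW)

lemma Ez_win (N L y : ℕ) (C : ℝ) (h : ∀ x : ℤ, ∑ n ∈ Ioc x (x + L), Uz N n ≤ C * L) (x : ℤ) :
    ∑ n ∈ Ioc x (x + L), |Ez N y n| ≤ (C + rho y) * L := by
  calc ∑ n ∈ Ioc x (x + L), |Ez N y n| ≤ ∑ n ∈ Ioc x (x + L), (Uz N n + Vz N (WW y) n) := by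
        apply sum_le_sum
        intro n _
        unfold Ez
        refine (abs_sub _ _).trans ?_
        rw [abs_of_nonneg (Uz_nonneg _ _), abs_of_nonneg (Vz_nonneg _ _ _)]
    _ = ∑ n ∈ Ioc x (x + L), Uz N n + ∑ n ∈ Ioc x (x + L), Vz N (WW y) n := sum_add_distrib
    _ ≤ C * L + rho y * L := add_le_add (h x) (Vz_win N y L x)
    _ = _ := by ring

lemma Se_le (N L y : ℕ) (α : ℝ) (x : ℤ) (B : ℝ) (h : ∑ n ∈ Ioc x (x + L), |Ez N y n| ≤ B) : ‖Se N L y α x‖ ≤ B := by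
  unfold Se
  refine (norm_sum_le _ _).trans (le_trans (le_of_eq ?_) h)
  apply sum_congr rfl
  intro n _
  rw [norm_mul, norm_ee, mul_one, Complex.norm_real, Real.norm_eq_abs]

lemma floor_J (H J : ℕ) : ⌊(1 / (J : ℝ)) * (H : ℝ)⌋₊ = H / J := by
  rw [one_div_mul_eq_div]
  exact Nat.floor_div_eq_div H J

theorem bwd_rat (ε : ℝ) (hε : 0 < ε) (hε2 : ε ≤ 1 / 2) (H : ℕ → ℕ)
    (hH : ∀ᶠ N : ℕ in atTop, (N : ℝ) ^ ε ≤ H N ∧ (H N : ℝ) ≤ (N : ℝ) ^ (1 - ε)) (hM : Major H)
    (y q J : ℕ) (hy : 0 < y) (hq : 0 < q) (hJ : 0 < J) (κ : ℝ) (hκ : 0 < κ) :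
    ∀ᶠ N : ℕ in atTop, ∀ a : ℤ, Int.gcd a q = 1 → Rs N (H N / J) y ((a : ℝ) / q) ≤ 1 / y + κ := by
  obtain ⟨C2, hC2, h2⟩ := U_win (ε / 2) (by positivity)
  have hJ0 : (0 : ℝ) < J := by exact_mod_cast hJ
  have hJ1 : (1 : ℝ) ≤ J := by exact_mod_cast hJ
  have hq0 : (0 : ℝ) < q := by exact_mod_cast hq
  have hy0 : (0 : ℝ) < y := by exact_mod_cast hy
  have hρ := rho_nonneg y
  have hpl := prop_len ε hε (1 / J) (by positivity) (by rw [div_le_one hJ0]; exact hJ1) H hH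
  have hMM : ∀ᶠ N : ℕ in atTop, ∀ b ∈ range q, b.Coprime q → majM (H N) N (1 / J) q b ≤ κ / (8 * q * J) := by
    rw [Filter.eventually_all_finset]
    intro b _
    by_cases hb : b.Coprime q
    · have h3 := hM q b hq hb (1 / J) (by positivity) (by rw [div_le_one hJ0]; exact hJ1)
      filter_upwards [h3.eventually_lt_const (by positivity : 0 < κ / (8 * q * J))] with N hN _
      exact hN.le
    · exact Eventually.of_forall fun N h => absurd h hb
  filter_upwards [hMM, hpl, big_N (ε / 2) (by positivity) (by linarith) (4 * q / κ + 4 * (2 * (q * WW y : ℕ) * rho y) / κ),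
    hH, err2_small 0 ε (κ / (4 * (C2 + rho y))) hε (by positivity), eventually_ge_atTop (q * q)] with N hMN hN hb hHN s3 hNq
  intro a ha
  obtain ⟨hN2, hb⟩ := hb
  rw [floor_J] at hN
  set L : ℕ := H N / J with hL
  obtain ⟨hL100, hLbig, hlog, -⟩ := hb L hN.1
  have hL0 : 0 < L := lt_of_lt_of_le (by norm_num) hL100
  have hL0' : (0 : ℝ) < L := by exact_mod_cast hL0
  have hLH : L ≤ H N := hN.2.2.2
  have hLH' : (L : ℝ) ≤ H N := by exact_mod_cast hLH
  have hH0 : 0 < H N := by omega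
  have hH0' : (0 : ℝ) < H N := by exact_mod_cast hH0
  have hN0 : (0 : ℝ) < N := by
    have : 0 < N := by omega
    exact_mod_cast this
  have hHN2 : H N ≤ N := by
    have h3 : (H N : ℝ) ≤ N := by
      refine hHN.2.trans ?_
      calc (N : ℝ) ^ (1 - ε) ≤ (N : ℝ) ^ (1 : ℝ) :=
            Real.rpow_le_rpow_of_exponent_le (by exact_mod_cast (by omega : 1 ≤ N)) (by linarith)
        _ = N := Real.rpow_one _
    exact_mod_cast h3
  have hLN : L ≤ N := hLH.trans hHN2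
  have hqs : q ≤ N.sqrt := Nat.le_sqrt.2 hNq
  have hE := Ez_win N L y C2 (h2 N L hN2 hL100 hLN hlog)
  have hmr := maj_rat N L y hL0 hy q hq hqs a ha ((C2 + rho y) * L) (by positivity) (fun x => Se_le N L y _ x _ (hE x))
  have t3 : err2 N 0 (H N) ≤ κ / (4 * (C2 + rho y)) := s3 (H N) hH0 hHN.2
  unfold err2 at t3
  rw [pow_zero] at t3
  have hHJ : (H N : ℝ) ≤ 2 * J * L := by
    have := hN.2.2.1
    have e : 1 / (J : ℝ) / 2 * H N = H N / (2 * J) := by field_simp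
    rw [e, div_le_iff₀ (by positivity)] at this
    linarith
  -- the sum over the classes
  have hcl : ∑ n ∈ Icc 1 N, ∑ b ∈ (range q).filter (fun b => b.Coprime q), |Real.log N * PA n L q b - (L : ℝ) / Nat.totient q| ≤
      N * L * (κ / 4) + N * q := by
    rw [sum_comm]
    have h3 : ∀ b ∈ (range q).filter (fun b => b.Coprime q), ∑ n ∈ Icc 1 N, |Real.log N * PA n L q b - (L : ℝ) / Nat.totient q| ≤
        N * L * (κ / (4 * q)) + N := by
      intro b hb
      rw [mem_filter] at hb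
      have h4 := hMN b hb.1 hb.2
      unfold majM at h4
      rw [div_le_iff₀ hN0] at h4
      have hφ : (1 : ℝ) ≤ Nat.totient q := by exact_mod_cast Nat.totient_pos.2 hq
      have h5 : ∀ n ∈ Icc 1 N, |Real.log N * PA n L q b - (L : ℝ) / Nat.totient q| ≤
          H N * |Real.log N / H N * PA n ⌊(1 / (J : ℝ)) * H N⌋₊ q b - (1 / (J : ℝ)) / Nat.totient q| + 1 := by
        intro n _
        have e1 : Real.log N * PA n L q b - (L : ℝ) / Nat.totient q =
            H N * (Real.log N / H N * PA n ⌊(1 / (J : ℝ)) * H N⌋₊ q b - (1 / (J : ℝ)) / Nat.totient q) +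
            ((1 / (J : ℝ)) * H N - L) / Nat.totient q := by
          rw [floor_J, ← hL]
          field_simp
          ring
        rw [e1]
        refine (abs_add_le _ _).trans (add_le_add (le_of_eq ?_) ?_)
        · rw [abs_mul, abs_of_pos hH0']
        · rw [abs_div, abs_of_pos (by linarith : (0 : ℝ) < Nat.totient q), div_le_one (by linarith)]
          have e3 : (1 / (J : ℝ)) * H N - 1 < (⌊(1 / (J : ℝ)) * H N⌋₊ : ℝ) := Nat.sub_one_lt_floor _
          have e4 : (⌊(1 / (J : ℝ)) * H N⌋₊ : ℝ) ≤ (1 / (J : ℝ)) * H N := Nat.floor_le (by positivity)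
          rw [floor_J, ← hL] at e3 e4
          rw [abs_le]
          constructor <;> linarith
      refine (sum_le_sum h5).trans ?_
      rw [sum_add_distrib, ← mul_sum, sum_const, Nat.card_Icc, Nat.add_sub_cancel, nsmul_eq_mul, mul_one]
      apply add_le_add _ le_rfl
      calc (H N : ℝ) * ∑ n ∈ Icc 1 N, |Real.log N / H N * PA n ⌊(1 / (J : ℝ)) * H N⌋₊ q b - (1 / (J : ℝ)) / Nat.totient q|
          ≤ (2 * J * L) * (κ / (8 * q * J) * N) := by
            apply mul_le_mul hHJ h4 (sum_nonneg fun _ _ => abs_nonneg _) (by positivity)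
        _ = N * L * (κ / (4 * q)) := by
            field_simp
            ring
    refine (sum_le_sum h3).trans ?_
    rw [sum_const, nsmul_eq_mul]
    have h6 : (((range q).filter (fun b => b.Coprime q)).card : ℝ) ≤ q := by
      have := card_filter_le (range q) (fun b => b.Coprime q)
      rw [card_range] at this
      exact_mod_cast this
    calc (((range q).filter (fun b => b.Coprime q)).card : ℝ) * (N * L * (κ / (4 * q)) + N) ≤
        q * (N * L * (κ / (4 * q)) + N) := mul_le_mul_of_nonneg_right h6 (by positivity)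
      _ = N * L * (κ / 4) + N * q := by
          field_simp
  unfold Rs
  rw [div_le_iff₀ (by positivity)]
  refine hmr.trans ?_
  have h7 : (q : ℝ) + 2 * (q * WW y : ℕ) * rho y ≤ L * (κ / 4) := by
    have e1 : 4 * q / κ + 4 * (2 * (q * WW y : ℕ) * rho y) / κ = (4 / κ) * (q + 2 * (q * WW y : ℕ) * rho y) := by ring
    rw [e1] at hLbig
    have := mul_le_mul_of_nonneg_right hLbig (by positivity : (0 : ℝ) ≤ κ / 4)
    calc (q : ℝ) + 2 * (q * WW y : ℕ) * rho y = 4 / κ * (q + 2 * (q * WW y : ℕ) * rho y) * (κ / 4) := by field_simp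
      _ ≤ _ := this
  have h8 : (C2 + rho y) * ((N.sqrt : ℕ) + 2 * L + 1) ≤ N * (κ / 4) := by
    have e1 : 1 / N * (N.sqrt + 2 * H N + 1) * N ≤ κ / (4 * (C2 + rho y)) * N := mul_le_mul_of_nonneg_right t3 hN0.le
    have e2 : 1 / N * (N.sqrt + 2 * H N + 1) * N = (N.sqrt + 2 * H N + 1 : ℝ) := by field_simp
    rw [e2] at e1
    have hCρ : 0 < C2 + rho y := by linarith
    calc (C2 + rho y) * ((N.sqrt : ℕ) + 2 * L + 1) ≤ (C2 + rho y) * ((N.sqrt : ℕ) + 2 * H N + 1) := by gcongr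
      _ ≤ (C2 + rho y) * (κ / (4 * (C2 + rho y)) * N) := mul_le_mul_of_nonneg_left e1 hCρ.le
      _ = N * (κ / 4) := by field_simp
  have h9 : (C2 + rho y) * L * ((N.sqrt : ℕ) + 2 * L + 1) ≤ N * L * (κ / 4) := by
    calc (C2 + rho y) * L * ((N.sqrt : ℕ) + 2 * L + 1) = L * ((C2 + rho y) * ((N.sqrt : ℕ) + 2 * L + 1)) := by ring
      _ ≤ L * (N * (κ / 4)) := mul_le_mul_of_nonneg_left h8 hL0'.le
      _ = _ := by ring
  have h10 : N * ((q : ℝ) + 2 * (q * WW y : ℕ) * rho y) ≤ N * (L * (κ / 4)) := mul_le_mul_of_nonneg_left h7 hN0.le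
  have h11 : 0 ≤ (N : ℝ) * L * κ := by positivity
  have e9 : (1 / (y : ℝ) + κ) * (N * L) = N * (L / y) + N * L * κ := by ring
  rw [e9]
  nlinarith

theorem bwd_Rs (ε : ℝ) (hε : 0 < ε) (hε2 : ε ≤ 1 / 2) (H : ℕ → ℕ)
    (hH : ∀ᶠ N : ℕ in atTop, (N : ℝ) ^ ε ≤ H N ∧ (H N : ℝ) ≤ (N : ℝ) ^ (1 - ε)) (hM : Major H) (hm : Minor H)
    (y : ℕ) (hy : 0 < y) : ∀ᶠ N : ℕ in atTop, ∀ α : ℝ, Rs N (H N) y α ≤ 2 / y := by
  obtain ⟨C2, hC2, h2⟩ := U_win ε hε
  have hρ := rho_nonneg y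
  have hy0 : (0 : ℝ) < y := by exact_mod_cast hy
  obtain ⟨K0, hK0⟩ := hm (1 / (2 * y)) (by positivity)
  set K : ℕ := max K0 (max (WW y) (⌈rho y * y⌉₊ + 1)) with hK
  have hKK0 : K0 ≤ K := le_max_left _ _
  have hKW : WW y ≤ K := (le_max_left _ _).trans (le_max_right _ _)
  have hKρ : rho y * y ≤ K := by
    have h1 : rho y * y ≤ (⌈rho y * y⌉₊ : ℝ) := Nat.le_ceil _
    have h3 : (⌈rho y * y⌉₊ : ℝ) ≤ K := by
      exact_mod_cast (Nat.le_succ _).trans ((le_max_right _ _).trans (le_max_right _ _))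
    linarith
  have hKp : 0 < K := lt_of_lt_of_le (WW_pos y) hKW
  have hKp' : (0 : ℝ) < K := by exact_mod_cast hKp
  set J : ℕ := ⌈16 * Real.pi * K * (C2 + rho y) * y⌉₊ + 1 with hJ
  have hJp : 0 < J := Nat.succ_pos _
  have hJp' : (0 : ℝ) < J := by exact_mod_cast hJp
  have hpi := Real.pi_pos
  have hJK : 16 * Real.pi * K * (C2 + rho y) * y ≤ J := by
    have h1 : 16 * Real.pi * K * (C2 + rho y) * y ≤ (⌈16 * Real.pi * K * (C2 + rho y) * y⌉₊ : ℝ) := Nat.le_ceil _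
    have h3 : (⌈16 * Real.pi * K * (C2 + rho y) * y⌉₊ : ℝ) ≤ J := by exact_mod_cast Nat.le_succ _
    linarith
  have hrat : ∀ᶠ N : ℕ in atTop, ∀ q ∈ range (K + 1), 0 < q → ∀ a : ℤ, Int.gcd a q = 1 →
      Rs N (H N / J) y ((a : ℝ) / q) ≤ 1 / y + 1 / (4 * y) := by
    rw [Filter.eventually_all_finset]
    intro q _
    by_cases hq : 0 < q
    · filter_upwards [bwd_rat ε hε hε2 H hH hM y q J hy hq hJp (1 / (4 * y)) (by positivity)] with N hN _
      exact hN
    · exact Eventually.of_forall fun N h => absurd h hq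
  filter_upwards [hrat, hK0, big_N ε hε hε2 J, hH, err2_small 0 ε (1 / (2 * y * (C2 + rho y))) hε (by positivity),
    small_a 1 ε hε (8 * J * y) 1 one_pos, small_a 0 ε hε (8 * J * y * rho y) 1 one_pos] with N hR hmin hb hHN s3 s1 s0
  intro α
  obtain ⟨hN2, hb⟩ := hb
  obtain ⟨hH100, hHJ, hlog, hHN'⟩ := hb (H N) hHN.1
  have hHN2 := hHN' hHN.2
  have hH0 : 0 < H N := lt_of_lt_of_le (by norm_num) hH100
  have hH0' : (0 : ℝ) < H N := by exact_mod_cast hH0
  have hN0 : (0 : ℝ) < N := by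
    have : 0 < N := by omega
    exact_mod_cast this
  have hNε : 0 < (N : ℝ) ^ ε := by positivity
  have hl := Real.log_natCast_nonneg N
  have hCρ : 0 < C2 + rho y := by linarith
  have hE := Ez_win N (H N) y C2 (h2 N (H N) hN2 hH100 hHN2 hlog)
  have t3 : err2 N 0 (H N) ≤ 1 / (2 * y * (C2 + rho y)) := s3 (H N) hH0 hHN.2
  have t1 : 8 * J * y * (Real.log N ^ 1 / (N : ℝ) ^ ε) ≤ 1 := s1
  have t0 : 8 * J * y * rho y * (Real.log N ^ 0 / (N : ℝ) ^ ε) ≤ 1 := s0
  unfold err2 at t3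
  rw [pow_zero] at t3 t0
  rw [pow_one] at t1
  by_cases hα : ∀ q : ℕ, 0 < q → q ≤ K → ∀ a : ℤ, (K : ℝ) / H N < |α - a / q|
  · -- minor arcs
    have hmin' := hmin α (fun q hq hqK a => by
      refine lt_of_le_of_lt ?_ (hα q hq (hqK.trans hKK0) a)
      apply div_le_div_of_nonneg_right _ hH0'.le
      exact_mod_cast hKK0)
    have h1 := min_bwd N (H N) y hH0 K hKp' α (fun a => hα (WW y) (WW_pos y) hKW a) ((C2 + rho y) * H N) (by positivity)
      (fun x => Se_le N (H N) y _ x _ (hE x))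
    unfold minM at hmin'
    rw [div_le_iff₀ hN0] at hmin'
    unfold Rs
    rw [div_le_iff₀ (by positivity)]
    refine h1.trans ?_
    have e1 : ∑ n ∈ Icc 1 N, Real.log N * ‖PS n (H N) α‖ = H N * ∑ n ∈ Icc 1 N, Real.log N / H N * ‖PS n (H N) α‖ := by
      rw [mul_sum]
      apply sum_congr rfl
      intro n _
      field_simp
    rw [e1]
    have e2 : (H N : ℝ) * ∑ n ∈ Icc 1 N, Real.log N / H N * ‖PS n (H N) α‖ ≤ H N * (1 / (2 * y) * N) :=
      mul_le_mul_of_nonneg_left hmin' hH0'.le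
    have e3 : N * (rho y * H N / (2 * K)) ≤ N * (H N * (1 / (2 * y))) := by
      apply mul_le_mul_of_nonneg_left _ hN0.le
      rw [div_le_iff₀ (by positivity)]
      calc rho y * H N = (H N * (1 / (2 * y))) * (2 * (rho y * y)) := by field_simp
        _ ≤ (H N * (1 / (2 * y))) * (2 * K) := by gcongr
    have e4 : (C2 + rho y) * H N * ((N.sqrt : ℕ) + 2 * H N + 1) ≤ H N * (N * (1 / (2 * y))) := by
      have e5 : 1 / N * (N.sqrt + 2 * H N + 1) * N ≤ 1 / (2 * y * (C2 + rho y)) * N := mul_le_mul_of_nonneg_right t3 hN0.le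
      have e6 : 1 / N * (N.sqrt + 2 * H N + 1) * N = (N.sqrt + 2 * H N + 1 : ℝ) := by field_simp
      rw [e6] at e5
      calc (C2 + rho y) * H N * ((N.sqrt : ℕ) + 2 * H N + 1) ≤ (C2 + rho y) * H N * (1 / (2 * y * (C2 + rho y)) * N) := by
            apply mul_le_mul_of_nonneg_left e5 (by positivity)
        _ = _ := by field_simp
    have e7 : 2 / (y : ℝ) * (N * H N) = H N * (1 / (2 * y) * N) + N * (H N * (1 / (2 * y))) + H N * (N * (1 / (2 * y))) +
        (N * H N) / (2 * y) := by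
      field_simp
      ring
    have e8 : 0 ≤ ((N : ℝ) * H N) / (2 * y) := by positivity
    linarith
  · -- major arcs
    push Not at hα
    obtain ⟨q', hq', hqK', a', ha'⟩ := hα
    -- reduce the fraction
    obtain ⟨q, a, hq, hqK, hcop, hfrac⟩ : ∃ (q : ℕ) (a : ℤ), 0 < q ∧ q ≤ K ∧ Int.gcd a q = 1 ∧ (a : ℝ) / q = (a' : ℝ) / q' := by
      set g : ℕ := Int.gcd a' q' with hg
      have hg0 : 0 < g := Int.gcd_pos_of_ne_zero_right _ (by exact_mod_cast hq'.ne')
      have hgq : g ∣ q' := by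
        have := Int.gcd_dvd_right a' (q' : ℤ)
        exact_mod_cast this
      have hga : (g : ℤ) ∣ a' := Int.gcd_dvd_left a' (q' : ℤ)
      obtain ⟨q, hq⟩ := hgq
      obtain ⟨a, ha⟩ := hga
      have hq0 : 0 < q := Nat.pos_of_ne_zero (by rintro rfl; omega)
      refine ⟨q, a, hq0, ?_, ?_, ?_⟩
      · refine le_trans ?_ hqK'
        rw [hq]
        exact Nat.le_mul_of_pos_left _ hg0
      · have h5 : g = g * Int.gcd a q := by
          have h6 : Int.gcd ((g : ℤ) * a) ((g : ℤ) * q) = g * Int.gcd a q := by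
            rw [Int.gcd_mul_left, Int.natAbs_natCast]
          have h7 : ((q' : ℕ) : ℤ) = (g : ℤ) * q := by exact_mod_cast hq
          rw [← h6, ← ha, ← h7]
        exact (Nat.eq_of_mul_eq_mul_left hg0 (by rw [mul_one]; exact h5)).symm
      · have hg0' : (g : ℝ) ≠ 0 := by exact_mod_cast hg0.ne'
        have hq0' : (q : ℝ) ≠ 0 := by exact_mod_cast hq0.ne'
        have h7 : (q' : ℝ) = (g : ℝ) * q := by exact_mod_cast hq
        have h8 : (a' : ℝ) = (g : ℝ) * a := by exact_mod_cast ha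
        rw [h7, h8]
        field_simp
    set β : ℝ := α - (a : ℝ) / q with hβ
    have hβK : |β| ≤ K / H N := by rw [hβ, hfrac]; exact ha'
    have hαβ : α = (a : ℝ) / q + β := by rw [hβ]; ring
    have hsp := split N (H N) y J hJp ((a : ℝ) / q) β ((C2 + rho y) * H N) hE
    rw [← hαβ] at hsp
    have hrr := hR q (mem_range.2 (by omega)) hq a hcop
    have hJL : J * (H N / J) ≤ H N := by rw [mul_comm]; exact Nat.div_mul_le_self _ _
    have hJL' : (J : ℝ) * ((H N / J : ℕ) : ℝ) ≤ H N := by exact_mod_cast hJL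
    have hJH : J ≤ H N := by exact_mod_cast hHJ
    have hL0 : 0 < H N / J := Nat.div_pos hJH hJp
    have hL0' : (0 : ℝ) < ((H N / J : ℕ) : ℝ) := by exact_mod_cast hL0
    unfold Rs at hrr
    rw [div_le_iff₀ (by positivity)] at hrr
    unfold Rs
    rw [div_le_iff₀ (by positivity)]
    refine hsp.trans ?_
    have f1 : (J : ℝ) * ∑ x ∈ Ico (-((H N / J : ℕ) : ℤ)) N, ‖Se N (H N / J) y ((a : ℝ) / q) x‖ ≤
        (1 / y + 1 / (4 * y)) * (N * H N) := by
      calc (J : ℝ) * ∑ x ∈ Ico (-((H N / J : ℕ) : ℤ)) N, ‖Se N (H N / J) y ((a : ℝ) / q) x‖ ≤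
          J * ((1 / y + 1 / (4 * y)) * (N * ((H N / J : ℕ) : ℝ))) := mul_le_mul_of_nonneg_left hrr hJp'.le
        _ = (1 / y + 1 / (4 * y)) * (N * (J * ((H N / J : ℕ) : ℝ))) := by ring
        _ ≤ (1 / y + 1 / (4 * y)) * (N * H N) := by gcongr
    have f2 : 2 * Real.pi * |β| * ((H N / J : ℕ) : ℝ) * ((C2 + rho y) * H N) ≤ H N * (1 / (8 * y)) := by
      have g1 : |β| * ((H N / J : ℕ) : ℝ) ≤ K / J := by
        calc |β| * ((H N / J : ℕ) : ℝ) ≤ (K / H N) * (H N / J) := by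
              apply mul_le_mul hβK _ hL0'.le (by positivity)
              rw [le_div_iff₀ hJp']
              linarith
          _ = K / J := by field_simp
      calc 2 * Real.pi * |β| * ((H N / J : ℕ) : ℝ) * ((C2 + rho y) * H N) =
          2 * Real.pi * (|β| * ((H N / J : ℕ) : ℝ)) * ((C2 + rho y) * H N) := by ring
        _ ≤ 2 * Real.pi * (K / J) * ((C2 + rho y) * H N) := by gcongr
        _ = H N * (2 * Real.pi * K * (C2 + rho y) / J) := by ring
        _ ≤ H N * (1 / (8 * y)) := by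
            apply mul_le_mul_of_nonneg_left _ hH0'.le
            rw [div_le_div_iff₀ hJp' (by positivity)]
            linarith
    have f3 : (J : ℝ) * (Real.log N + rho y) ≤ H N * (1 / (4 * y)) := by
      have g1 : 8 * J * y * Real.log N ≤ H N := by
        rw [← mul_div_assoc, div_le_one hNε] at t1
        exact t1.trans hHN.1
      have g2 : 8 * J * y * rho y ≤ H N := by
        rw [mul_one_div, div_le_one hNε] at t0
        exact t0.trans hHN.1
      rw [mul_one_div, le_div_iff₀ (by positivity)]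
      linarith
    have f4 : ((N : ℝ) + H N) * (2 * Real.pi * |β| * ((H N / J : ℕ) : ℝ) * ((C2 + rho y) * H N) + J * (Real.log N + rho y)) ≤
        (2 * N) * (H N * (1 / (8 * y)) + H N * (1 / (4 * y))) := by
      apply mul_le_mul _ (add_le_add f2 f3) (by positivity) (by positivity)
      have : (H N : ℝ) ≤ N := by exact_mod_cast hHN2
      linarith
    have f5 : 2 / (y : ℝ) * (N * H N) = (1 / y + 1 / (4 * y)) * (N * H N) + (2 * N) * (H N * (1 / (8 * y)) + H N * (1 / (4 * y))) := by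
      field_simp
      norm_num
    rw [f5]
    exact add_le_add f1 f4

theorem bwd (k : ℕ) (ε : ℝ) (hε : 0 < ε) (hε2 : ε ≤ 1 / 2) (H : ℕ → ℕ)
    (hH : ∀ᶠ N : ℕ in atTop, (N : ℝ) ^ ε ≤ H N ∧ (H N : ℝ) ≤ (N : ℝ) ^ (1 - ε)) (hM : Major H) (hm : Minor H) :
    Tendsto (fun N => EE (k + 2) N (H N)) atTop (nhds 0) := by
  obtain ⟨C1, hC1, h1⟩ := part1 k ε hε hε2
  obtain ⟨C2, hC2, h2⟩ := U_win ε hε
  obtain ⟨C3, hC3, h3⟩ := rho_le
  set c : ℝ := 1 / (4 * ((k : ℝ) + 2)) with hc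
  have hc0 : 0 < c := by rw [hc]; positivity
  obtain ⟨A1, hA1, ha1⟩ := log_pow_le (2 * (k + 1)) (c / 4) (by positivity)
  obtain ⟨A2, hA2, ha2⟩ := log_pow_le 1 (1 / 2) (by norm_num)
  obtain ⟨A3, hA3, ha3⟩ := log_pow_le (k + 1) (1 / 2) (by norm_num)
  set A4 : ℝ := 2 * (C2 + C3 * A2) with hA4
  have hA40 : 0 < A4 := by rw [hA4]; positivity
  -- the bound as a function of `y`
  have hbound : ∀ y : ℕ, C1 ≤ y → 3 ≤ y → ∀ δ : ℝ, 0 < δ → ∀ᶠ N : ℕ in atTop,
      EE (k + 2) N (H N) ≤ C1 * A1 * A4 ^ c * (y : ℝ) ^ (-(c / 4)) + C1 * A3 * (y : ℝ) ^ (-(1 / 2 : ℝ)) + δ := by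
    intro y hyC hy3 δ hδ
    have hy0 : (0 : ℝ) < y := by
      have : 0 < y := by omega
      exact_mod_cast this
    have hy1 : (1 : ℝ) ≤ y := by exact_mod_cast (by omega : 1 ≤ y)
    have hρ := rho_nonneg y
    have hρl : rho y ≤ C3 * Real.log y := h3 y hy3
    have hlog0 : 0 ≤ Real.log y := Real.log_nonneg hy1
    filter_upwards [h1 y hyC δ hδ, hH, big_N ε hε hε2 1, bwd_Rs ε hε hε2 H hH hM hm y (by omega)] with N hN hHN hb hR
    obtain ⟨hN2, hb⟩ := hb
    obtain ⟨hH100, -, hlog, hHN'⟩ := hb (H N) hHN.1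
    have hHN2 := hHN' hHN.2
    have hH0 : 0 < H N := lt_of_lt_of_le (by norm_num) hH100
    have hE := Ez_win N (H N) y C2 (h2 N (H N) hN2 hH100 hHN2 hlog)
    set T : ℝ := A4 * (y : ℝ) ^ (-(1 / 2 : ℝ)) with hT
    have hTn : ∀ α, Tn N (H N) y α ≤ T := by
      intro α
      have g1 := Tn_le_Rs N (H N) y (by omega) hH0 α (C2 + rho y) (fun x => Se_le N (H N) y α x _ (hE x))
      refine g1.trans ?_
      have g2 : rho y ≤ C3 * A2 * (y : ℝ) ^ (1 / 2 : ℝ) := by
        have := ha2 y hy1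
        rw [pow_one] at this
        calc rho y ≤ C3 * Real.log y := hρl
          _ ≤ C3 * (A2 * (y : ℝ) ^ (1 / 2 : ℝ)) := mul_le_mul_of_nonneg_left this (by linarith)
          _ = _ := by ring
      have g3 : (1 : ℝ) ≤ (y : ℝ) ^ (1 / 2 : ℝ) := Real.one_le_rpow hy1 (by norm_num)
      have g4 : C2 + rho y ≤ (C2 + C3 * A2) * (y : ℝ) ^ (1 / 2 : ℝ) := by nlinarith
      calc (C2 + rho y) * Rs N (H N) y α ≤ ((C2 + C3 * A2) * (y : ℝ) ^ (1 / 2 : ℝ)) * (2 / y) := by
            apply mul_le_mul g4 (hR α) (Rs_nonneg _ _ _ _) (by positivity)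
        _ = T := by
            have : (y : ℝ) ^ (-(1 / 2 : ℝ)) = (y : ℝ) ^ (1 / 2 : ℝ) / y := by
              nth_rewrite 3 [← Real.rpow_one (y : ℝ)]
              rw [← Real.rpow_sub hy0]
              norm_num
            rw [hT, hA4, this]
            ring
    have hT0 : 0 ≤ T := by rw [hT]; positivity
    have hfin := hN (H N) (H N) hHN.1 le_rfl hHN.2 T hT0 hTn
    refine hfin.trans ?_
    have e1 : T ^ c = A4 ^ c * (y : ℝ) ^ (-(c / 2)) := by
      rw [hT, Real.mul_rpow hA40.le (by positivity), ← Real.rpow_mul hy0.le]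
      congr 2
      ring
    have e2 : C1 * Real.log y ^ (2 * (k + 1)) * T ^ c ≤ C1 * A1 * A4 ^ c * (y : ℝ) ^ (-(c / 4)) := by
      rw [e1]
      calc C1 * Real.log y ^ (2 * (k + 1)) * (A4 ^ c * (y : ℝ) ^ (-(c / 2))) ≤
          C1 * (A1 * (y : ℝ) ^ (c / 4)) * (A4 ^ c * (y : ℝ) ^ (-(c / 2))) := by
            have := ha1 y hy1
            gcongr
        _ = C1 * A1 * A4 ^ c * ((y : ℝ) ^ (c / 4) * (y : ℝ) ^ (-(c / 2))) := by ring
        _ = _ := by
            rw [← Real.rpow_add hy0]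
            congr 2
            ring
    have e3 : C1 * Real.log y ^ (k + 1) / y ≤ C1 * A3 * (y : ℝ) ^ (-(1 / 2 : ℝ)) := by
      have g5 : (y : ℝ) ^ (-(1 / 2 : ℝ)) = (y : ℝ) ^ (1 / 2 : ℝ) / y := by
        nth_rewrite 3 [← Real.rpow_one (y : ℝ)]
        rw [← Real.rpow_sub hy0]
        norm_num
      rw [g5]
      have := ha3 y hy1
      calc C1 * Real.log y ^ (k + 1) / y ≤ C1 * (A3 * (y : ℝ) ^ (1 / 2 : ℝ)) / y := by gcongr
        _ = _ := by ring
    exact add_le_add (add_le_add e2 e3) le_rfl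
  have hlim : Tendsto (fun y : ℕ => C1 * A1 * A4 ^ c * (y : ℝ) ^ (-(c / 4)) + C1 * A3 * (y : ℝ) ^ (-(1 / 2 : ℝ))) atTop (nhds 0) := by
    have l1 : Tendsto (fun y : ℕ => (y : ℝ) ^ (-(c / 4))) atTop (nhds 0) :=
      (tendsto_rpow_neg_atTop (by positivity)).comp tendsto_natCast_atTop_atTop
    have l2 : Tendsto (fun y : ℕ => (y : ℝ) ^ (-(1 / 2 : ℝ))) atTop (nhds 0) :=
      (tendsto_rpow_neg_atTop (by norm_num)).comp tendsto_natCast_atTop_atTop
    have := (l1.const_mul (C1 * A1 * A4 ^ c)).add (l2.const_mul (C1 * A3))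
    rwa [mul_zero, mul_zero, add_zero] at this
  rw [Metric.tendsto_atTop']
  intro η hη
  obtain ⟨y1, hy1⟩ := eventually_atTop.1 (hlim.eventually_lt_const (by positivity : 0 < η / 4))
  set y : ℕ := max y1 (max 3 ⌈C1⌉₊) with hy
  have hyC : C1 ≤ y := (Nat.le_ceil C1).trans (by exact_mod_cast (le_max_right _ _).trans (le_max_right _ _))
  have hy3 : 3 ≤ y := (le_max_left _ _).trans (le_max_right _ _)
  have h5 := hy1 y (le_max_left _ _)
  obtain ⟨N0, hN0⟩ := eventually_atTop.1 (hbound y hyC hy3 (η / 4) (by positivity))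
  refine ⟨N0, fun N hN => ?_⟩
  rw [Real.dist_eq, sub_zero, abs_of_nonneg (EE_nonneg _ _ _)]
  linarith [hN0 N (le_of_lt hN)]

end Pool.Agent.NH16
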