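import Mathlib
import Pool.Agent.NH16.Short2

/-!
# Variances of primes in short intervals and the prime tuples conjecture on average
-/

set_option autoImplicit false

namespace Pool.Agent.NH16

open Finset Filter
open Pool.Agent.Helper602.MK
open Pool.Agent.Helper602.MK.N_J5b

/-- the number of primes of a window of length `≥ N ^ ε` is at most `C H / log N` -/
theorem win_bdd (ε : ℝ) (hε : 0 < ε) (H : ℕ → ℕ) (hH : ∀ᶠ N : ℕ in atTop, (N : ℝ) ^ ε ≤ H N) :
    ∃ C : ℝ, 1 ≤ C ∧ ∀ᶠ N : ℕ in atTop, ∀ n : ℕ,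
      Real.log N / H N * (((Ioc n (n + H N)).filter Nat.Prime).card : ℝ) ≤ C := by
  obtain ⟨C, hC, h⟩ := win_card
  refine ⟨max 1 ((C + 4) / ε), le_max_left _ _, ?_⟩
  have h1 : Tendsto (fun N : ℕ => (N : ℝ) ^ ε) atTop atTop :=
    (tendsto_rpow_atTop hε).comp tendsto_natCast_atTop_atTop
  filter_upwards [hH, h1.eventually_ge_atTop ((2 : ℝ) ^ 100), eventually_ge_atTop 2] with N hN hN2 hN3 n
  set L := H N with hL
  have hL100 : 2 ^ 100 ≤ L := by
    have : ((2 : ℝ) ^ 100) ≤ L := hN2.trans hN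
    exact_mod_cast this
  have hL1 : 1 < L := lt_of_lt_of_le (by norm_num) hL100
  have hL0 : (0 : ℝ) < L := by
    have : 0 < L := by omega
    exact_mod_cast this
  have hN0 : (0 : ℝ) < N := by exact_mod_cast (by omega : 0 < N)
  have hlogL : 0 < Real.log L := Real.log_pos (by exact_mod_cast hL1)
  have hlogN : 0 < Real.log N := Real.log_pos (by exact_mod_cast (by omega : 1 < N))
  have hlog : ε * Real.log N ≤ Real.log L := by
    rw [← Real.log_rpow hN0]
    exact Real.log_le_log (by positivity) hN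
  have hlog' : Real.log N ≤ Real.log L / ε := by
    rw [le_div_iff₀ hε]
    linarith
  have h3 := h L hL100 n ((Ioc n (n + L)).filter (fun p => p.Prime ∧ L < p ^ 50)) (by
    intro p hp
    rw [mem_filter, mem_Ioc] at hp
    omega) (by
    intro p hp
    rw [mem_filter] at hp
    exact hp.2)
  have h4 : ((Ioc n (n + L)).filter Nat.Prime).card ≤
      ((Ioc n (n + L)).filter (fun p => p.Prime ∧ L < p ^ 50)).card + (L.sqrt + 1) := by
    calc ((Ioc n (n + L)).filter Nat.Prime).card ≤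
        (((Ioc n (n + L)).filter (fun p => p.Prime ∧ L < p ^ 50)) ∪ range (L.sqrt + 1)).card := by
          apply card_le_card
          intro p hp
          rw [mem_filter] at hp
          rw [mem_union, mem_filter, mem_range]
          by_cases hp50 : L < p ^ 50
          · exact Or.inl ⟨hp.1, hp.2, hp50⟩
          · right
            have hp2 := hp.2.two_le
            have h5 : p * p ≤ L := by
              calc p * p = p ^ 2 := by ring
                _ ≤ p ^ 50 := Nat.pow_le_pow_right (by omega) (by norm_num)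
                _ ≤ L := by omega
            have := Nat.le_sqrt.2 h5
            omega
      _ ≤ _ := (card_union_le _ _).trans (by rw [card_range])
  have h5 : (((Ioc n (n + L)).filter Nat.Prime).card : ℝ) ≤ C * (L / Real.log L) + (L.sqrt + 1) := by
    have h6 : (((Ioc n (n + L)).filter Nat.Prime).card : ℝ) ≤
      (((Ioc n (n + L)).filter (fun p => p.Prime ∧ L < p ^ 50)).card : ℝ) + (L.sqrt + 1) := by exact_mod_cast h4
    linarith
  have hsq : (L.sqrt : ℝ) + 1 ≤ 2 * √(L : ℝ) := by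
    have h6 : (L.sqrt : ℝ) ≤ √(L : ℝ) := Real.nat_sqrt_le_real_sqrt
    have h7 : (1 : ℝ) ≤ √(L : ℝ) := Real.one_le_sqrt.2 (by exact_mod_cast hL1.le)
    linarith
  have hlogsq : Real.log L ≤ 2 * √(L : ℝ) := by
    have h6 := Real.log_le_rpow_div hL0.le (by norm_num : (0 : ℝ) < 1 / 2)
    rw [← Real.sqrt_eq_rpow] at h6
    linarith
  have hs0 : 0 ≤ √(L : ℝ) := Real.sqrt_nonneg _
  have hss : √(L : ℝ) * √(L : ℝ) = L := Real.mul_self_sqrt hL0.le
  refine le_trans ?_ (le_max_right _ _)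
  calc Real.log N / L * (((Ioc n (n + L)).filter Nat.Prime).card : ℝ)
      ≤ (Real.log L / ε) / L * (C * (L / Real.log L) + 2 * √(L : ℝ)) := by
        have h8 : (((Ioc n (n + L)).filter Nat.Prime).card : ℝ) ≤ C * (L / Real.log L) + 2 * √(L : ℝ) := by
          linarith
        have h9 : Real.log N / L ≤ (Real.log L / ε) / L := by
          gcongr
        exact mul_le_mul h9 h8 (Nat.cast_nonneg _) (by positivity)
    _ = C / ε + 2 * (Real.log L * √(L : ℝ)) / (ε * L) := by
        field_simp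
    _ ≤ C / ε + 2 * (2 * √(L : ℝ) * √(L : ℝ)) / (ε * L) := by
        gcongr
    _ = (C + 4) / ε := by
        rw [mul_assoc 2 (√(L : ℝ)), hss]
        field_simp
        ring

/-- mean of squares in terms of the mean -/
lemma mean_sq_le (N : ℕ) (f : ℕ → ℝ) (C : ℝ) (hf : ∀ n ∈ Icc 1 N, |f n| ≤ C) :
    (∑ n ∈ Icc 1 N, f n ^ 2) / N ≤ C * ((∑ n ∈ Icc 1 N, |f n|) / N) := by
  rw [← mul_div_assoc, mul_sum]
  apply div_le_div_of_nonneg_right _ (Nat.cast_nonneg _)
  apply sum_le_sum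
  intro n hn
  rw [← sq_abs, pow_two]
  exact mul_le_mul_of_nonneg_right (hf n hn) (abs_nonneg _)

/-- mean in terms of the mean of squares -/
lemma mean_le_sqrt (N : ℕ) (f : ℕ → ℝ) :
    (∑ n ∈ Icc 1 N, |f n|) / N ≤ √((∑ n ∈ Icc 1 N, f n ^ 2) / N) := by
  rcases Nat.eq_zero_or_pos N with rfl | hN
  · simp
  have hN0 : (0 : ℝ) < N := by exact_mod_cast hN
  apply Real.le_sqrt_of_sq_le
  have h1 : (∑ n ∈ Icc 1 N, |f n|) ^ 2 ≤ (Icc 1 N).card * ∑ n ∈ Icc 1 N, |f n| ^ 2 := sq_sum_le_card_mul_sum_sq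
  simp only [sq_abs, Nat.card_Icc, Nat.add_sub_cancel] at h1
  rw [div_pow, div_le_div_iff₀ (by positivity) hN0]
  calc (∑ n ∈ Icc 1 N, |f n|) ^ 2 * N ≤ (N * ∑ n ∈ Icc 1 N, f n ^ 2) * N := by gcongr
    _ = (∑ n ∈ Icc 1 N, f n ^ 2) * N ^ 2 := by ring

lemma tendsto_sq_iff (f : ℕ → ℕ → ℝ) (C : ℝ) (hf : ∀ᶠ N : ℕ in atTop, ∀ n ∈ Icc 1 N, |f N n| ≤ C) :
    Tendsto (fun N : ℕ => (∑ n ∈ Icc 1 N, |f N n|) / N) atTop (nhds 0) ↔
      Tendsto (fun N : ℕ => (∑ n ∈ Icc 1 N, f N n ^ 2) / N) atTop (nhds 0) := by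
  constructor
  · intro h
    have h2 := h.const_mul C
    rw [mul_zero] at h2
    refine tendsto_of_tendsto_of_tendsto_of_le_of_le' tendsto_const_nhds h2
      (Eventually.of_forall fun N => div_nonneg (sum_nonneg fun _ _ => sq_nonneg _) (Nat.cast_nonneg _)) ?_
    filter_upwards [hf] with N hN
    exact mean_sq_le N (f N) C hN
  · intro h
    have h2 := (Real.continuous_sqrt.tendsto 0).comp h
    rw [Real.sqrt_zero] at h2
    exact tendsto_of_tendsto_of_tendsto_of_le_of_le' tendsto_const_nhds h2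
      (Eventually.of_forall fun N => div_nonneg (sum_nonneg fun _ _ => abs_nonneg _) (Nat.cast_nonneg _))
      (Eventually.of_forall fun N => mean_le_sqrt N (f N))

/-- variance of the primes of a residue class in windows of length `γ H` -/
noncomputable def majV (H N : ℕ) (γ : ℝ) (q a : ℕ) : ℝ :=
  (∑ n ∈ Icc 1 N, (Real.log N / H * PA n ⌊γ * H⌋₊ q a - γ / Nat.totient q) ^ 2) / N

/-- mean square of an exponential sum over the primes in windows of length `H` -/
noncomputable def minV (H N : ℕ) (α : ℝ) : ℝ := (∑ n ∈ Icc 1 N, (Real.log N / H * ‖PS n H α‖) ^ 2) / N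

/-- small variance in residue classes -/
def MajorV (H : ℕ → ℕ) : Prop := ∀ q a : ℕ, 0 < q → a.Coprime q → ∀ γ : ℝ, 0 < γ → γ ≤ 1 →
  Tendsto (fun N => majV (H N) N γ q a) atTop (nhds 0)

/-- small mean squares on the minor arcs -/
def MinorV (H : ℕ → ℕ) : Prop := ∀ η : ℝ, 0 < η → ∃ K : ℕ, ∀ᶠ N : ℕ in atTop, ∀ α : ℝ,
  (∀ q : ℕ, 0 < q → q ≤ K → ∀ a : ℤ, (K : ℝ) / H N < |α - a / q|) → minV (H N) N α ≤ η

lemma PA_le (n L H q a : ℕ) (h : L ≤ H) : PA n L q a ≤ ((Ioc n (n + H)).filter Nat.Prime).card := by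
  unfold PA
  apply card_le_card
  intro p hp
  rw [mem_filter, mem_Ioc] at hp ⊢
  exact ⟨by omega, hp.2.1⟩

theorem major_iff_V (ε : ℝ) (hε : 0 < ε) (H : ℕ → ℕ) (hH : ∀ᶠ N : ℕ in atTop, (N : ℝ) ^ ε ≤ H N) :
    Major H ↔ MajorV H := by
  obtain ⟨C, hC, h⟩ := win_bdd ε hε H hH
  unfold Major MajorV majM majV
  refine forall_congr' fun q => forall_congr' fun a => forall_congr' fun hq => forall_congr' fun ha =>
    forall_congr' fun γ => forall_congr' fun hγ => forall_congr' fun hγ1 => ?_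
  refine tendsto_sq_iff (fun N n => Real.log N / H N * PA n ⌊γ * H N⌋₊ q a - γ / Nat.totient q) (C + 1) ?_
  filter_upwards [h, eventually_ge_atTop 1] with N hN hN1 n _
  have h1 : 0 ≤ Real.log N / H N * PA n ⌊γ * H N⌋₊ q a :=
    mul_nonneg (div_nonneg (Real.log_natCast_nonneg N) (Nat.cast_nonneg _)) (Nat.cast_nonneg _)
  have h2 : Real.log N / H N * PA n ⌊γ * H N⌋₊ q a ≤ C := by
    refine le_trans ?_ (hN n)
    apply mul_le_mul_of_nonneg_left _ (div_nonneg (Real.log_natCast_nonneg N) (Nat.cast_nonneg _))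
    have h3 : ⌊γ * H N⌋₊ ≤ H N := by
      apply Nat.floor_le_of_le
      have : (0 : ℝ) ≤ H N := Nat.cast_nonneg _
      nlinarith
    exact_mod_cast PA_le n _ _ q a h3
  have h4 : 0 ≤ γ / Nat.totient q := div_nonneg hγ.le (Nat.cast_nonneg _)
  have h5 : γ / Nat.totient q ≤ 1 := by
    have h6 : (1 : ℝ) ≤ Nat.totient q := by
      have := Nat.totient_pos.2 hq
      exact_mod_cast this
    rw [div_le_one (by linarith)]
    linarith
  rw [abs_le]
  constructor <;> linarith

lemma norm_PS_le (n L : ℕ) (α : ℝ) : ‖PS n L α‖ ≤ (((Ioc n (n + L)).filter Nat.Prime).card : ℝ) := by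
  unfold PS
  refine (norm_sum_le _ _).trans (le_of_eq ?_)
  rw [sum_congr rfl (fun (p : ℕ) _ => norm_ee (α * (p : ℝ))), sum_const, nsmul_eq_mul, mul_one]

theorem minor_iff_V (ε : ℝ) (hε : 0 < ε) (H : ℕ → ℕ) (hH : ∀ᶠ N : ℕ in atTop, (N : ℝ) ^ ε ≤ H N) :
    Minor H ↔ MinorV H := by
  obtain ⟨C, hC, h⟩ := win_bdd ε hε H hH
  have e : ∀ (N n : ℕ) (α : ℝ), |Real.log N / H N * ‖PS n (H N) α‖| = Real.log N / H N * ‖PS n (H N) α‖ := fun N n α =>
    abs_of_nonneg (mul_nonneg (div_nonneg (Real.log_natCast_nonneg N) (Nat.cast_nonneg _)) (norm_nonneg _))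
  constructor
  · intro h1 η hη
    obtain ⟨K, hK⟩ := h1 (η / C) (by positivity)
    refine ⟨K, ?_⟩
    filter_upwards [hK, h] with N hN hN2 α hα
    have h3 := hN α hα
    have h4 := mean_sq_le N (fun n => Real.log N / H N * ‖PS n (H N) α‖) C (fun n _ => by
      rw [e]
      exact (mul_le_mul_of_nonneg_left (norm_PS_le n (H N) α)
        (div_nonneg (Real.log_natCast_nonneg N) (Nat.cast_nonneg _))).trans (hN2 n))
    simp only [e] at h4
    unfold minV
    unfold minM at h3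
    refine h4.trans ?_
    calc C * ((∑ n ∈ Icc 1 N, Real.log N / H N * ‖PS n (H N) α‖) / N) ≤ C * (η / C) :=
          mul_le_mul_of_nonneg_left h3 (by linarith)
      _ = η := by
          have : C ≠ 0 := by linarith
          field_simp
  · intro h1 η hη
    obtain ⟨K, hK⟩ := h1 (η ^ 2) (by positivity)
    refine ⟨K, ?_⟩
    filter_upwards [hK] with N hN α hα
    have h3 := hN α hα
    have h4 := mean_le_sqrt N (fun n => Real.log N / H N * ‖PS n (H N) α‖)
    simp only [e] at h4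
    unfold minM
    unfold minV at h3
    refine h4.trans ?_
    rw [← Real.sqrt_sq hη.le]
    exact Real.sqrt_le_sqrt h3

end Pool.Agent.NH16
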