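import Pool.Agent.Helper602.MK.J5c
import Pool.Agent.H387R2.U2

/-!
# Singular series and its truncations
-/

set_option autoImplicit false

namespace Pool.Agent.NH16

open Finset
open Pool.Agent.H386R2.HL

/-- Mertens: `∏_{p ≤ y} (1 - 1/p)⁻¹ ≤ C log y` -/
theorem mert_prod : ∃ C : ℝ, 1 ≤ C ∧ ∀ y : ℕ, 3 ≤ y →
    ∏ p ∈ (y + 1).primesBelow, (1 - 1 / (p : ℝ))⁻¹ ≤ C * Real.log y := by
  obtain ⟨C, hC⟩ := Pool.Agent.Helper602.MK.N_J5c.Mert.mertens_inv
  refine ⟨Real.exp (|C| + 1), Real.one_le_exp (by positivity), fun y hy => ?_⟩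
  have hset : (y + 1).primesBelow = (Icc 1 y).filter Nat.Prime := by
    ext p
    rw [Nat.mem_primesBelow, mem_filter, mem_Icc]
    constructor
    · rintro ⟨h1, h2⟩
      exact ⟨⟨h2.one_le, by omega⟩, h2⟩
    · rintro ⟨⟨h1, h2⟩, h3⟩
      exact ⟨by omega, h3⟩
  have hp : ∀ p ∈ (y + 1).primesBelow, (1 - 1 / (p : ℝ))⁻¹ ≤ Real.exp (1 / p + (1 / ((p : ℝ) - 1) - 1 / p)) := by
    intro p hp
    have hp' := Nat.prime_of_mem_primesBelow hp
    have hp2 : (2 : ℝ) ≤ p := by exact_mod_cast hp'.two_le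
    have hx := one_sub_pos hp'
    have h1 := Real.one_sub_inv_le_log_of_pos hx
    have h2 : 1 - (1 - 1 / (p : ℝ))⁻¹ = -(1 / ((p : ℝ) - 1)) := by
      have : (p : ℝ) - 1 ≠ 0 := by linarith
      field_simp
      ring
    rw [h2] at h1
    rw [← Real.exp_log (inv_pos.2 hx), Real.log_inv]
    apply Real.exp_le_exp.2
    linarith
  have hlog : 0 < Real.log y := Real.log_pos (by exact_mod_cast (by omega : 1 < y))
  calc ∏ p ∈ (y + 1).primesBelow, (1 - 1 / (p : ℝ))⁻¹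
      ≤ ∏ p ∈ (y + 1).primesBelow, Real.exp (1 / p + (1 / ((p : ℝ) - 1) - 1 / p)) :=
        prod_le_prod (fun p hp => (inv_pos.2 (one_sub_pos (Nat.prime_of_mem_primesBelow hp))).le) hp
    _ = Real.exp (∑ p ∈ (y + 1).primesBelow, ((1 : ℝ) / p + (1 / ((p : ℝ) - 1) - 1 / p))) := by
        rw [Real.exp_sum]
    _ ≤ Real.exp (Real.log (Real.log y) + (|C| + 1)) := by
        apply Real.exp_le_exp.2
        rw [sum_add_distrib]
        have h1 : ∑ p ∈ (y + 1).primesBelow, (1 : ℝ) / p ≤ Real.log (Real.log y) + |C| := by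
          rw [hset]
          have := hC y hy
          have h2 := le_abs_self (∑ p ∈ (Icc 1 y).filter Nat.Prime, (1 : ℝ) / p - Real.log (Real.log y))
          have h3 := le_abs_self C
          linarith
        have h2 : ∑ p ∈ (y + 1).primesBelow, (1 / ((p : ℝ) - 1) - 1 / p) ≤ 1 := by
          have h3 : ∑ p ∈ (y + 1).primesBelow, (1 / ((p : ℝ) - 1) - 1 / p) ≤
              ∑ n ∈ Ico 2 (y + 1), (1 / ((n : ℝ) - 1) - 1 / n) := by
            apply sum_le_sum_of_subset_of_nonneg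
            · intro p hp
              rw [Nat.mem_primesBelow] at hp
              rw [mem_Ico]
              exact ⟨hp.2.two_le, hp.1⟩
            · intro n hn _
              rw [mem_Ico] at hn
              have : (2 : ℝ) ≤ n := by exact_mod_cast hn.1
              have : 1 / (n : ℝ) ≤ 1 / ((n : ℝ) - 1) :=
                one_div_le_one_div_of_le (by linarith) (by linarith)
              linarith
          have h4 : ∀ m : ℕ, 2 ≤ m → ∑ n ∈ Ico 2 m, (1 / ((n : ℝ) - 1) - 1 / n) = 1 - 1 / ((m : ℝ) - 1) := by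
            intro m hm
            induction m, hm using Nat.le_induction with
            | base => norm_num
            | succ m hm ih =>
              rw [sum_Ico_succ_top hm, ih]
              push_cast
              ring
          rw [h4 (y + 1) (by omega)] at h3
          have : (0 : ℝ) ≤ 1 / (((y + 1 : ℕ) : ℝ) - 1) := by
            apply div_nonneg zero_le_one
            push_cast
            linarith [Nat.cast_nonneg (α := ℝ) y]
          linarith
        linarith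
    _ = Real.exp (|C| + 1) * Real.log y := by
        rw [Real.exp_add, Real.exp_log hlog]
        ring

theorem sy_le_log (r : ℕ) (hr : 1 ≤ r) : ∃ C : ℝ, 1 ≤ C ∧ ∀ y : ℕ, 3 ≤ y → ∀ a : Fin r → ℕ,
    sy a y ≤ (C * Real.log y) ^ (r - 1) := by
  obtain ⟨C, hC, h⟩ := mert_prod
  refine ⟨C, hC, fun y hy a => ?_⟩
  unfold sy
  refine le_trans (prod_le_prod (g := fun p : ℕ => ((1 - 1 / (p : ℝ))⁻¹) ^ (r - 1))
    (fun p hp => localFactor_nonneg a (Nat.prime_of_mem_primesBelow hp)) ?_) ?_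
  · intro p hp
    have hp' := Nat.prime_of_mem_primesBelow hp
    have hx := one_sub_pos hp'
    have hp0 : (0 : ℝ) < p := by exact_mod_cast hp'.pos
    unfold localFactor
    obtain ⟨r', rfl⟩ : ∃ r', r = r' + 1 := ⟨r - 1, by omega⟩
    rw [Nat.add_sub_cancel, pow_succ, mul_assoc]
    have h1 : (1 : ℝ) ≤ nu a p := by
      have : 0 < nu a p := by
        unfold nu
        apply card_pos.2
        exact ⟨a 0 % p, mem_image.2 ⟨0, mem_univ _, rfl⟩⟩
      exact_mod_cast this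
    have h2 : (1 - 1 / (p : ℝ))⁻¹ * (1 - (nu a p : ℝ) / p) ≤ 1 := by
      rw [inv_mul_le_iff₀ hx, mul_one]
      have : 1 / (p : ℝ) ≤ (nu a p : ℝ) / p := div_le_div_of_nonneg_right h1 hp0.le
      linarith
    have h3 : (0 : ℝ) ≤ ((1 - 1 / (p : ℝ))⁻¹) ^ r' := by positivity
    calc ((1 - 1 / (p : ℝ))⁻¹) ^ r' * ((1 - 1 / (p : ℝ))⁻¹ * (1 - (nu a p : ℝ) / p)) ≤
        ((1 - 1 / (p : ℝ))⁻¹) ^ r' * 1 := mul_le_mul_of_nonneg_left h2 h3
      _ = _ := mul_one _
  · rw [prod_pow]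
    apply pow_le_pow_left₀ _ (h y hy)
    exact prod_nonneg fun p hp => (inv_pos.2 (one_sub_pos (Nat.prime_of_mem_primesBelow hp))).le

/-- local factors are at least `1 - r² / p²` -/
lemma localFactor_ge {r : ℕ} (a : Fin r → ℕ) {p : ℕ} (hp : 2 ≤ p) (hrp : r ≤ p) :
    1 - (r : ℝ) ^ 2 * ((p : ℝ) ^ 2)⁻¹ ≤ localFactor a p := by
  unfold localFactor
  have hp0 : (0:ℝ) < p := by exact_mod_cast (by omega : 0 < p)
  have hp2 : (2:ℝ) ≤ p := by exact_mod_cast hp
  set x : ℝ := 1 / p with hx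
  have hx0 : 0 < x := by positivity
  have hx1 : x ≤ 1 / 2 := one_div_le_one_div_of_le (by norm_num) hp2
  have hrx : (r:ℝ) * x ≤ 1 := by
    rw [hx, mul_one_div, div_le_one hp0]
    exact_mod_cast hrp
  have h1 : (1 - x) ^ r * (1 + r * x) ≤ 1 := by
    have h2 : 1 + (r:ℝ) * x ≤ (1 + x) ^ r := one_add_mul_le_pow (by linarith) r
    calc (1 - x) ^ r * (1 + r * x) ≤ (1 - x) ^ r * (1 + x) ^ r :=
          mul_le_mul_of_nonneg_left h2 (pow_nonneg (by linarith) _)
      _ = ((1 - x) * (1 + x)) ^ r := by rw [mul_pow]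
      _ ≤ 1 := pow_le_one₀ (mul_nonneg (by linarith) (by linarith)) (by nlinarith)
  have h2 : 0 < (1 - x) ^ r := pow_pos (by linarith) _
  rw [inv_pow, inv_mul_eq_div, le_div_iff₀ h2]
  have h3 : (nu a p : ℝ) / p ≤ r * x := by
    rw [hx, mul_one_div]
    apply div_le_div_of_nonneg_right _ hp0.le
    exact_mod_cast nu_le_r a p
  have h4 : 1 - (r:ℝ) ^ 2 * ((p : ℝ) ^ 2)⁻¹ = (1 - r * x) * (1 + r * x) := by
    rw [hx]; field_simp; ring
  rw [h4]
  calc (1 - r * x) * (1 + r * x) * (1 - x) ^ r = (1 - r * x) * ((1 - x) ^ r * (1 + r * x)) := by ring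
    _ ≤ (1 - r * x) * 1 := mul_le_mul_of_nonneg_left h1 (by linarith)
    _ ≤ 1 - (nu a p : ℝ) / p := by linarith

lemma sum_inv_sq_gt {y : ℕ} (hy : 1 ≤ y) (S : Finset ℕ) (hS : ∀ p ∈ S, y < p) :
    ∑ p ∈ S, ((p:ℝ) ^ 2)⁻¹ ≤ 1 / y := by
  have hy0 : (0:ℝ) < y := by exact_mod_cast hy
  rcases S.eq_empty_or_nonempty with rfl | hne
  · simp
  · have hsub : S ⊆ Ioc y (S.sup id) := by
      intro p hp
      rw [mem_Ioc]
      exact ⟨hS p hp, le_sup (f := id) hp⟩
    have hle : y ≤ S.sup id := by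
      obtain ⟨p, hp⟩ := hne
      have := mem_Ioc.1 (hsub hp)
      omega
    have h1 := sum_Ioc_inv_sq_le_sub (α := ℝ) (by omega : y ≠ 0) hle
    refine (sum_le_sum_of_subset_of_nonneg hsub fun i _ _ => by positivity).trans (h1.trans ?_)
    have : (0:ℝ) ≤ ((S.sup id : ℕ) : ℝ)⁻¹ := by positivity
    rw [one_div]
    linarith

lemma one_sub_sum_le {ι : Type*} (s : Finset ι) (x : ι → ℝ) (h0 : ∀ i ∈ s, 0 ≤ x i) (h1 : ∀ i ∈ s, x i ≤ 1) :
    1 - ∑ i ∈ s, x i ≤ ∏ i ∈ s, (1 - x i) := by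
  classical
  induction s using Finset.induction_on with
  | empty => simp
  | insert a s ha ih =>
    rw [sum_insert ha, prod_insert ha]
    have i1 := ih (fun i hi => h0 i (mem_insert_of_mem hi)) (fun i hi => h1 i (mem_insert_of_mem hi))
    have i2 := h0 a (mem_insert_self _ _)
    have i3 := h1 a (mem_insert_self _ _)
    have i4 : 0 ≤ ∑ i ∈ s, x i := sum_nonneg fun i hi => h0 i (mem_insert_of_mem hi)
    have i5 : (1 - x a) * (1 - ∑ i ∈ s, x i) ≤ (1 - x a) * ∏ i ∈ s, (1 - x i) :=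
      mul_le_mul_of_nonneg_left i1 (by linarith)
    nlinarith [mul_nonneg i2 i4]

/-- lower bound of the singular series by its truncation -/
theorem sing_ge {r : ℕ} (a : Fin r → ℕ) (ha : Function.Injective a) (y : ℕ) (hy : 1 ≤ y) (hr : r ^ 2 ≤ y) :
    (1 - (r : ℝ) ^ 2 / y) * sy a y ≤ singularSeries a := by
  classical
  have hm := (multipliable_localFactor a ha).hasProd
  unfold singularSeries
  set s0 : Finset Nat.Primes := (y + 1).primesBelow.preimage (fun p : Nat.Primes => (p : ℕ))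
    Subtype.val_injective.injOn with hs0
  have hs0' : ∀ p : Nat.Primes, p ∈ s0 ↔ (p : ℕ) ≤ y := by
    intro p
    rw [hs0, mem_preimage, Nat.mem_primesBelow]
    constructor
    · rintro ⟨h, _⟩; omega
    · intro h; exact ⟨by omega, p.2⟩
  refine ge_of_tendsto hm ?_
  filter_upwards [Filter.eventually_ge_atTop s0] with s hs
  have hsplit : ∏ p ∈ s, localFactor a (p : ℕ) =
      (∏ p ∈ s \ s0, localFactor a (p : ℕ)) * ∏ p ∈ s0, localFactor a (p : ℕ) := by
    rw [prod_sdiff hs]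
  rw [hsplit]
  have h1 : ∏ p ∈ s0, localFactor a (p : ℕ) = sy a y := by
    unfold sy
    rw [hs0]
    refine prod_preimage (fun p : Nat.Primes => (p : ℕ)) _ Subtype.val_injective.injOn
      (fun p : ℕ => localFactor a p) ?_
    intro p hp hp2
    exact absurd ⟨⟨p, Nat.prime_of_mem_primesBelow hp⟩, rfl⟩ hp2
  rw [h1]
  apply mul_le_mul_of_nonneg_right _ (sy_nonneg a y)
  have hy0 : (0:ℝ) < y := by exact_mod_cast hy
  have hbig : ∀ p ∈ s \ s0, y < (p : ℕ) := by
    intro p hp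
    rw [mem_sdiff, hs0'] at hp
    omega
  have hr' : ∀ p ∈ s \ s0, r ≤ (p : ℕ) := by
    intro p hp
    have := hbig p hp
    have : r ≤ r ^ 2 := Nat.le_self_pow (by norm_num) _
    omega
  have hsum : ∑ p ∈ s \ s0, (r : ℝ) ^ 2 * (((p : ℕ) : ℝ) ^ 2)⁻¹ ≤ (r : ℝ) ^ 2 / y := by
    rw [← mul_sum]
    have h2 : ∑ p ∈ s \ s0, (((p : ℕ) : ℝ) ^ 2)⁻¹ ≤ 1 / y := by
      have h3 := sum_inv_sq_gt hy ((s \ s0).image (fun p : Nat.Primes => (p : ℕ))) (by
        intro p hp
        rw [mem_image] at hp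
        obtain ⟨p', hp', rfl⟩ := hp
        exact hbig p' hp')
      rw [sum_image (by
        intro a _ b _ hab
        exact Nat.Primes.coe_nat_injective hab)] at h3
      exact h3
    calc (r : ℝ) ^ 2 * ∑ p ∈ s \ s0, (((p : ℕ) : ℝ) ^ 2)⁻¹ ≤ (r : ℝ) ^ 2 * (1 / y) := by gcongr
      _ = (r : ℝ) ^ 2 / y := by rw [mul_one_div]
  have h2 := one_sub_sum_le (s \ s0) (fun p => (r : ℝ) ^ 2 * (((p : ℕ) : ℝ) ^ 2)⁻¹)
    (fun p _ => by positivity) (fun p hp => by
      have h3 : (r : ℝ) ≤ ((p : ℕ) : ℝ) := by exact_mod_cast hr' p hp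
      have h4 : (0:ℝ) < ((p : ℕ) : ℝ) := by exact_mod_cast p.2.pos
      rw [← div_eq_mul_inv, div_le_one (by positivity)]
      exact pow_le_pow_left₀ (Nat.cast_nonneg _) h3 2)
  have h3 : ∏ p ∈ s \ s0, (1 - (r : ℝ) ^ 2 * (((p : ℕ) : ℝ) ^ 2)⁻¹) ≤
      ∏ p ∈ s \ s0, localFactor a (p : ℕ) := by
    apply prod_le_prod
    · intro p hp
      have h3 : (r : ℝ) ≤ ((p : ℕ) : ℝ) := by exact_mod_cast hr' p hp
      have h4 : (0:ℝ) < ((p : ℕ) : ℝ) := by exact_mod_cast p.2.pos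
      rw [sub_nonneg, ← div_eq_mul_inv, div_le_one (by positivity)]
      exact pow_le_pow_left₀ (Nat.cast_nonneg _) h3 2
    · intro p hp
      exact localFactor_ge a p.2.two_le (hr' p hp)
  linarith

/-- `σ_y(n) = ∑_{p | n, p > y} 1 / p` -/
noncomputable def sg (y n : ℕ) : ℝ := ∑ p ∈ n.primeFactors.filter (fun p => y < p), 1 / (p : ℝ)

theorem sg_nonneg (y n : ℕ) : 0 ≤ sg y n := sum_nonneg fun _ _ => by positivity

theorem tt_le_exp (y n : ℕ) : tt y n ≤ Real.exp (2 * sg y n) := by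
  unfold tt sg
  rw [mul_sum, Real.exp_sum]
  apply prod_le_prod
  · intro p hp
    exact zero_le_one.trans (one_le_inv (Nat.prime_of_mem_primeFactors (mem_filter.1 hp).1))
  · intro p hp
    have hp' := Nat.prime_of_mem_primeFactors (mem_filter.1 hp).1
    have hp2 : (2:ℝ) ≤ p := by exact_mod_cast hp'.two_le
    have hp0 : (0:ℝ) < p := by linarith
    have a1 : (1 - 1 / (p : ℝ))⁻¹ ≤ 1 + 2 / p := by
      have a2 : 1 - 1 / (p : ℝ) = (p - 1) / p := by field_simp
      rw [a2, inv_div, div_le_iff₀ (by linarith)]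
      have : (1 + 2 / (p:ℝ)) * (p - 1) = p + 1 - 2 / p := by field_simp; ring
      rw [this]
      have : 2 / (p:ℝ) ≤ 1 := by rw [div_le_one hp0]; exact hp2
      linarith
    have a4 := Real.add_one_le_exp (2 / (p:ℝ))
    have a5 : 2 * (1 / (p : ℝ)) = 2 / p := by ring
    rw [a5]
    linarith

theorem sum_sg (y H : ℕ) (hy : 1 ≤ y) : ∑ n ∈ Icc 1 H, sg y n ≤ H / y := by
  classical
  have hy0 : (0:ℝ) < y := by exact_mod_cast hy
  have h1 : ∀ n ∈ Icc 1 H, sg y n = ∑ p ∈ Ioc y H, if p.Prime ∧ p ∣ n then 1 / (p : ℝ) else 0 := by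
    intro n hn
    rw [mem_Icc] at hn
    unfold sg
    rw [← sum_filter]
    apply sum_congr _ (fun _ _ => rfl)
    ext p
    rw [mem_filter, mem_filter, Nat.mem_primeFactors, mem_Ioc]
    constructor
    · rintro ⟨⟨h1, h2, h3⟩, h4⟩
      exact ⟨⟨h4, (Nat.le_of_dvd (by omega) h2).trans hn.2⟩, h1, h2⟩
    · rintro ⟨⟨h1, h2⟩, h3, h4⟩
      exact ⟨⟨h3, h4, by omega⟩, h1⟩
  rw [sum_congr rfl h1, sum_comm]
  have h2 : ∀ p ∈ Ioc y H, ∑ n ∈ Icc 1 H, (if p.Prime ∧ p ∣ n then 1 / (p : ℝ) else 0) ≤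
      H * ((p : ℝ) ^ 2)⁻¹ := by
    intro p hp
    rw [mem_Ioc] at hp
    have hp0 : (0 : ℝ) < p := by
      have : 0 < p := by omega
      exact_mod_cast this
    rw [← sum_filter, sum_const, nsmul_eq_mul]
    have h3 : ((Icc 1 H).filter (fun n => p.Prime ∧ p ∣ n)).card ≤ H / p := by
      have h5 : (Icc 1 H).filter (fun n => p.Prime ∧ p ∣ n) ⊆ (Ioc 0 H).filter (fun n => p ∣ n) := by
        intro n hn
        rw [mem_filter, mem_Icc] at hn
        rw [mem_filter, mem_Ioc]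
        exact ⟨⟨by omega, hn.1.2⟩, hn.2.2⟩
      exact (card_le_card h5).trans (le_of_eq (Nat.Ioc_filter_dvd_card_eq_div H p))
    have h4 : (((Icc 1 H).filter (fun n => p.Prime ∧ p ∣ n)).card : ℝ) ≤ (H : ℝ) / p :=
      le_trans (by exact_mod_cast h3) Nat.cast_div_le
    calc (((Icc 1 H).filter (fun n => p.Prime ∧ p ∣ n)).card : ℝ) * (1 / p) ≤ (H : ℝ) / p * (1 / p) :=
          mul_le_mul_of_nonneg_right h4 (by positivity)
      _ = _ := by field_simp
  refine (sum_le_sum h2).trans ?_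
  rw [← mul_sum]
  have h3 := sum_inv_sq_gt hy (Ioc y H) (fun p hp => (mem_Ioc.1 hp).1)
  calc (H : ℝ) * ∑ p ∈ Ioc y H, ((p:ℝ) ^ 2)⁻¹ ≤ H * (1 / y) :=
        mul_le_mul_of_nonneg_left h3 (Nat.cast_nonneg _)
    _ = H / y := by ring

/-- few `n` with large `σ_y(n)` -/
theorem sg_large (y H : ℕ) (hy : 1 ≤ y) (lam : ℝ) (hl : 0 < lam) :
    (((Icc 1 H).filter (fun n => lam < sg y n)).card : ℝ) ≤ H / (y * lam) := by
  have hy0 : (0:ℝ) < y := by exact_mod_cast hy
  rw [← div_div, le_div_iff₀ hl, ← nsmul_eq_mul]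
  refine le_trans (card_nsmul_le_sum _ (fun n => sg y n) _ ?_) (le_trans ?_ (sum_sg y H hy))
  · intro n hn
    exact (mem_filter.1 hn).2.le
  · exact sum_le_sum_of_subset_of_nonneg (filter_subset _ _) (fun _ _ _ => sg_nonneg _ _)

/-- the singular series is close to its truncation unless some difference has many large prime factors -/
theorem sing_close (r : ℕ) (hr : 1 ≤ r) (η : ℝ) (hη : 0 < η) : ∃ y0 : ℕ, 3 ≤ y0 ∧ ∀ y : ℕ, y0 ≤ y →
    ∀ a : Fin r → ℕ, Function.Injective a →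
    (∀ i j, i < j → sg y (Nat.dist (a i) (a j)) ≤ (y : ℝ) ^ (-(1 / 2) : ℝ)) →
    |singularSeries a - sy a y| ≤ η := by
  obtain ⟨C, hC, hsy⟩ := sy_le_log r hr
  -- the bounds tend to zero
  have hlim2 : Filter.Tendsto (fun y : ℕ => 4 * (r : ℝ) ^ 2 * (y : ℝ) ^ (-(1 / 2) : ℝ)) Filter.atTop (nhds 0) := by
    have h1 := (tendsto_rpow_neg_atTop (by norm_num : (0:ℝ) < 1 / 2)).comp (tendsto_natCast_atTop_atTop (R := ℝ))
    have h2 := h1.const_mul (4 * (r : ℝ) ^ 2)
    rw [mul_zero] at h2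
    exact h2
  have hlim1 : Filter.Tendsto (fun y : ℕ => (C * Real.log y) ^ (r - 1) * (4 * (r : ℝ) ^ 2 * (y : ℝ) ^ (-(1 / 2) : ℝ)))
      Filter.atTop (nhds 0) := by
    have h1 := ((isLittleO_log_rpow_rpow_atTop ((r - 1 : ℕ) : ℝ) (by norm_num : (0:ℝ) < 1 / 2)).tendsto_div_nhds_zero).comp
      (tendsto_natCast_atTop_atTop (R := ℝ))
    have h2 := h1.const_mul (C ^ (r - 1) * (4 * (r : ℝ) ^ 2))
    rw [mul_zero] at h2
    refine h2.congr fun y => ?_
    simp only [Function.comp_apply]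
    rw [Real.rpow_natCast, Real.rpow_neg (Nat.cast_nonneg _), mul_pow]
    ring
  have hev : ∀ᶠ y : ℕ in Filter.atTop,
      (C * Real.log y) ^ (r - 1) * (4 * (r : ℝ) ^ 2 * (y : ℝ) ^ (-(1 / 2) : ℝ)) < η ∧
      4 * (r : ℝ) ^ 2 * (y : ℝ) ^ (-(1 / 2) : ℝ) < 1 ∧ 3 ≤ y ∧ r ^ 2 ≤ y := by
    filter_upwards [hlim1.eventually_lt_const hη, hlim2.eventually_lt_const one_pos,
      Filter.eventually_ge_atTop 3, Filter.eventually_ge_atTop (r ^ 2)] with y h1 h2 h3 h4
    exact ⟨h1, h2, h3, h4⟩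
  obtain ⟨y0, hy0⟩ := Filter.eventually_atTop.1 hev
  refine ⟨max y0 3, le_max_right _ _, fun y hy a ha hsg => ?_⟩
  obtain ⟨b1, b2, b3, b4⟩ := hy0 y (le_trans (le_max_left _ _) hy)
  have hyr : (3 : ℝ) ≤ y := by exact_mod_cast b3
  have hS0 := sy_nonneg a y
  have hS := hsy y b3 a
  set t : ℝ := (y : ℝ) ^ (-(1 / 2) : ℝ) with ht
  have ht0 : 0 ≤ t := by rw [ht]; positivity
  have hup := singularSeries_le a ha y
  have hlo := sing_ge a ha y (by omega) b4
  have hprod : ∏ q ∈ prs r, tt y (Nat.dist (a q.1) (a q.2)) ≤ Real.exp (2 * (r : ℝ) ^ 2 * t) := by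
    calc ∏ q ∈ prs r, tt y (Nat.dist (a q.1) (a q.2)) ≤ ∏ _q ∈ prs r, Real.exp (2 * t) := by
          apply prod_le_prod
          · intro q _
            exact zero_le_one.trans (one_le_tt _ _)
          · intro q hq
            have hq' : q.1 < q.2 := (mem_filter.1 hq).2
            refine (tt_le_exp _ _).trans (Real.exp_le_exp.2 ?_)
            have := hsg q.1 q.2 hq'
            linarith
      _ = Real.exp (2 * t) ^ (prs r).card := by rw [prod_const]
      _ = Real.exp ((prs r).card * (2 * t)) := by rw [← Real.exp_nat_mul]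
      _ ≤ Real.exp (2 * (r : ℝ) ^ 2 * t) := by
          apply Real.exp_le_exp.2
          have h1 : ((prs r).card : ℝ) ≤ (r : ℝ) ^ 2 := by
            have h2 : (prs r).card ≤ r * r := by
              unfold prs
              refine (card_filter_le _ _).trans ?_
              simp
            rw [sq]
            exact_mod_cast h2
          calc ((prs r).card : ℝ) * (2 * t) ≤ (r : ℝ) ^ 2 * (2 * t) := by gcongr
            _ = _ := by ring
  have hexp : Real.exp (2 * (r : ℝ) ^ 2 * t) ≤ 1 + 4 * (r : ℝ) ^ 2 * t := by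
    have h1 := Real.abs_exp_sub_one_le (x := 2 * (r : ℝ) ^ 2 * t) (by
      rw [abs_of_nonneg (by positivity)]
      linarith)
    have h2 := le_abs_self (Real.exp (2 * (r : ℝ) ^ 2 * t) - 1)
    rw [abs_of_nonneg (by positivity : 0 ≤ 2 * (r : ℝ) ^ 2 * t)] at h1
    linarith
  have hu : singularSeries a - sy a y ≤ η := by
    have h1 : singularSeries a ≤ sy a y * (1 + 4 * (r : ℝ) ^ 2 * t) :=
      hup.trans (mul_le_mul_of_nonneg_left (hprod.trans hexp) hS0)
    have h2 : sy a y * (4 * (r : ℝ) ^ 2 * t) ≤ (C * Real.log y) ^ (r - 1) * (4 * (r : ℝ) ^ 2 * t) :=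
      mul_le_mul_of_nonneg_right hS (by positivity)
    linarith
  have hl : sy a y - singularSeries a ≤ η := by
    have h1 : (r : ℝ) ^ 2 / y ≤ 4 * (r : ℝ) ^ 2 * t := by
      have h3 : 1 / (y : ℝ) ≤ t := by
        rw [ht, one_div, ← Real.rpow_neg_one]
        exact Real.rpow_le_rpow_of_exponent_le (by linarith) (by norm_num)
      calc (r : ℝ) ^ 2 / y = (r : ℝ) ^ 2 * (1 / y) := by ring
        _ ≤ (r : ℝ) ^ 2 * t := by gcongr
        _ ≤ _ := by
          have : 0 ≤ (r : ℝ) ^ 2 * t := by positivity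
          linarith
    have h2 : sy a y * ((r : ℝ) ^ 2 / y) ≤ (C * Real.log y) ^ (r - 1) * (4 * (r : ℝ) ^ 2 * t) := by
      apply mul_le_mul hS h1 (by positivity)
      have : 0 < Real.log y := Real.log_pos (by linarith)
      have : 0 ≤ C * Real.log y := mul_nonneg (by linarith) this.le
      exact pow_nonneg this _
    linarith
  rw [abs_le]
  constructor <;> linarith

end Pool.Agent.NH16
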