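import Pool.Agent.NH16.SingAvg

/-!
# Symmetrization
-/

set_option autoImplicit false

namespace Pool.Agent.NH16

open Finset
open Pool.Agent.H386R2.HL

lemma nu_shift {r : ℕ} (a : Fin r → ℕ) (m p : ℕ) : nu (fun i => a i + m) p = nu a p := by
  unfold nu
  have h : univ.image (fun i => (a i + m) % p) = (univ.image (fun i => a i % p)).image (fun v => (v + m) % p) := by
    rw [image_image]
    congr 1
    funext i
    simp [Nat.add_mod]
  rw [h]
  apply card_image_of_injOn
  intro u hu v hv huv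
  rw [mem_coe, mem_image] at hu hv
  obtain ⟨i, -, rfl⟩ := hu
  obtain ⟨j, -, rfl⟩ := hv
  have h1 : a i % p + m ≡ a j % p + m [MOD p] := huv
  have h2 : a i % p ≡ a j % p [MOD p] := Nat.ModEq.add_right_cancel' m h1
  unfold Nat.ModEq at h2
  rwa [Nat.mod_mod, Nat.mod_mod] at h2

lemma nu_insert {r : ℕ} (i : Fin (r + 1)) (m : ℕ) (f : Fin r → ℕ) (p : ℕ) :
    nu (Fin.insertNth (α := fun _ => ℕ) i m f) p = nu (Fin.cons (α := fun _ => ℕ) m f) p := by
  unfold nu
  congr 1
  ext v
  simp only [mem_image, mem_univ, true_and]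
  constructor
  · rintro ⟨j, rfl⟩
    by_cases hj : j = i
    · subst hj
      exact ⟨0, by simp⟩
    · obtain ⟨j', rfl⟩ := Fin.exists_succAbove_eq hj
      exact ⟨j'.succ, by simp⟩
  · rintro ⟨j, rfl⟩
    refine Fin.cases ?_ (fun j' => ?_) j
    · exact ⟨i, by simp⟩
    · exact ⟨i.succAbove j', by simp⟩

lemma nu_norm {r : ℕ} (i : Fin (r + 1)) (m : ℕ) (h : Fin r → ℕ) (p : ℕ) :
    nu (Fin.insertNth (α := fun _ => ℕ) i m (fun j => h j + m)) p = nu (Fin.cons (α := fun _ => ℕ) 0 h) p := by
  rw [nu_insert, ← nu_shift (Fin.cons (α := fun _ => ℕ) 0 h) m]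
  congr 1
  funext j
  refine Fin.cases ?_ (fun j' => ?_) j
  · simp
  · simp

lemma sing_norm {r : ℕ} (i : Fin (r + 1)) (m : ℕ) (h : Fin r → ℕ) :
    singularSeries (Fin.insertNth (α := fun _ => ℕ) i m (fun j => h j + m)) =
      singularSeries (Fin.cons (α := fun _ => ℕ) 0 h) := by
  unfold singularSeries localFactor
  simp only [nu_norm]

lemma sy_norm {r : ℕ} (i : Fin (r + 1)) (m : ℕ) (h : Fin r → ℕ) (y : ℕ) :
    sy (Fin.insertNth (α := fun _ => ℕ) i m (fun j => h j + m)) y = sy (Fin.cons (α := fun _ => ℕ) 0 h) y := by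
  unfold sy localFactor
  simp only [nu_norm]

/-- passing from all tuples in a box to tuples `(0, h)` -/
theorem symm_sum {r : ℕ} (L : ℕ) (Ψ : (Fin (r + 1) → ℕ) → ℝ) (Φ : (Fin r → ℕ) → ℝ) (hΦ : ∀ h, 0 ≤ Φ h)
    (hle : ∀ (i : Fin (r + 1)) (m : ℕ) (h : Fin r → ℕ), 1 ≤ m → m ≤ L → (∀ j, 1 ≤ h j ∧ h j ≤ L) →
      Function.Injective h → Ψ (Fin.insertNth (α := fun _ => ℕ) i m (fun j => h j + m)) ≤ Φ h) :
    ∑ t : Fin (r + 1) → Fin L, (if Function.Injective t then Ψ (bx t) else 0) ≤
      (r + 1) * L * ∑ h ∈ (Fintype.piFinset (fun _ : Fin r => Icc 1 L)).filter (fun h => Function.Injective h), Φ h := by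
  classical
  rw [← sum_filter]
  have hmin : ∀ t : Fin (r + 1) → Fin L, ∃ i, ∀ j, t i ≤ t j := by
    intro t
    obtain ⟨i, -, hi⟩ := exists_min_image (univ : Finset (Fin (r + 1))) t ⟨0, mem_univ _⟩
    exact ⟨i, fun j => hi j (mem_univ _)⟩
  choose am ham using hmin
  set e : (Fin (r + 1) → Fin L) → Fin (r + 1) × ℕ × (Fin r → ℕ) := fun t =>
    (am t, bx t (am t), fun j => bx t ((am t).succAbove j) - bx t (am t)) with he
  have hrec : ∀ t : Fin (r + 1) → Fin L, bx t =
      Fin.insertNth (α := fun _ => ℕ) (e t).1 (e t).2.1 (fun j => (e t).2.2 j + (e t).2.1) := by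
    intro t
    funext j
    by_cases hj : j = am t
    · rw [he]
      simp only
      rw [hj, Fin.insertNth_apply_same]
    · obtain ⟨j', hj'⟩ := Fin.exists_succAbove_eq hj
      rw [he]
      simp only
      rw [← hj', Fin.insertNth_apply_succAbove]
      have := ham t ((am t).succAbove j')
      unfold bx
      have h2 : (t (am t) : ℕ) ≤ t ((am t).succAbove j') := this
      omega
  have hmem : ∀ t ∈ univ.filter (fun t : Fin (r + 1) → Fin L => Function.Injective t),
      e t ∈ (univ : Finset (Fin (r + 1))) ×ˢ ((Icc 1 L) ×ˢ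
        ((Fintype.piFinset (fun _ : Fin r => Icc 1 L)).filter (fun h => Function.Injective h))) := by
    intro t ht
    have ht' := (mem_filter.1 ht).2
    rw [mem_product, mem_product, mem_filter, Fintype.mem_piFinset, he]
    simp only
    refine ⟨mem_univ _, ?_, ?_, ?_⟩
    · rw [mem_Icc]
      unfold bx
      have := (t (am t)).2
      omega
    · intro j
      rw [mem_Icc]
      have h1 := ham t ((am t).succAbove j)
      have h2 : t (am t) ≠ t ((am t).succAbove j) := fun h => (Fin.succAbove_ne (am t) j) (ht' h).symm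
      have h3 : (t (am t) : ℕ) < t ((am t).succAbove j) := Fin.lt_def.1 (lt_of_le_of_ne h1 h2)
      have h4 := (t ((am t).succAbove j)).2
      unfold bx
      omega
    · intro j j' hjj
      simp only at hjj
      have h1 : (t (am t) : ℕ) ≤ t ((am t).succAbove j) := ham t _
      have h1' : (t (am t) : ℕ) ≤ t ((am t).succAbove j') := ham t _
      unfold bx at hjj
      have h2 : t ((am t).succAbove j) = t ((am t).succAbove j') := Fin.ext (by omega)
      exact Fin.succAbove_right_injective (ht' h2)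
  have hinj : Set.InjOn e (univ.filter (fun t : Fin (r + 1) → Fin L => Function.Injective t) : Finset _) := by
    intro t _ t' _ h
    apply bx_inj
    rw [hrec t, hrec t', h]
  have h1 : ∀ t ∈ univ.filter (fun t : Fin (r + 1) → Fin L => Function.Injective t), Ψ (bx t) ≤ Φ (e t).2.2 := by
    intro t ht
    have hm := hmem t ht
    rw [mem_product, mem_product, mem_filter, Fintype.mem_piFinset] at hm
    rw [hrec t]
    exact hle _ _ _ (mem_Icc.1 hm.2.1).1 (mem_Icc.1 hm.2.1).2 (fun j => mem_Icc.1 (hm.2.2.1 j)) hm.2.2.2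
  refine (sum_le_sum h1).trans ?_
  rw [← sum_image (f := fun z : Fin (r + 1) × ℕ × (Fin r → ℕ) => Φ z.2.2) hinj]
  refine (sum_le_sum_of_subset_of_nonneg (image_subset_iff.2 hmem) (fun z _ _ => hΦ _)).trans (le_of_eq ?_)
  rw [sum_product]
  simp only [sum_product]
  rw [sum_const, sum_const, card_univ, Fintype.card_fin, Nat.card_Icc, Nat.add_sub_cancel, nsmul_eq_mul, nsmul_eq_mul]
  push_cast
  ring

end Pool.Agent.NH16
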