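import Pool.Agent.NH16.Sing

/-!
# Moments of the tail factors and averages of the singular series
-/

set_option autoImplicit false

namespace Pool.Agent.NH16

open Finset
open Pool.Agent.H386R2.HL

/-- `(1 - 1/p)^{-m} - 1 ≤ c_m / p` -/
lemma inv_pow_le (m : ℕ) {p : ℕ} (hp : p.Prime) :
    ((1 - 1 / (p : ℝ))⁻¹) ^ m ≤ 1 + 4 ^ m / p := by
  have hp2 : (2 : ℝ) ≤ p := by exact_mod_cast hp.two_le
  have hp0 : (0 : ℝ) < p := by linarith
  have a1 : (1 - 1 / (p : ℝ))⁻¹ ≤ 1 + 2 / p := by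
    have a2 : 1 - 1 / (p : ℝ) = (p - 1) / p := by field_simp
    rw [a2, inv_div, div_le_iff₀ (by linarith)]
    have : (1 + 2 / (p:ℝ)) * (p - 1) = p + 1 - 2 / p := by field_simp; ring
    rw [this]
    have : 2 / (p:ℝ) ≤ 1 := by rw [div_le_one hp0]; exact hp2
    linarith
  have a0 : 0 ≤ (1 - 1 / (p : ℝ))⁻¹ := inv_nonneg.2 (one_sub_pos hp).le
  refine (pow_le_pow_left₀ a0 a1 m).trans ?_
  induction m with
  | zero =>
    simp only [pow_zero]
    have : 0 ≤ 1 / (p : ℝ) := by positivity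
    linarith
  | succ m ih =>
    have h1 : (2 : ℝ) / p ≤ 1 := by rw [div_le_one hp0]; exact hp2
    have h4 : (1 : ℝ) ≤ 4 ^ m := one_le_pow₀ (by norm_num)
    have h5 : 0 ≤ 4 ^ m / (p : ℝ) := by positivity
    calc (1 + 2 / (p : ℝ)) ^ (m + 1) = (1 + 2 / (p : ℝ)) ^ m * (1 + 2 / p) := pow_succ _ _
      _ ≤ (1 + 4 ^ m / p) * (1 + 2 / p) := mul_le_mul_of_nonneg_right ih (by positivity)
      _ = 1 + 4 ^ m / p + 2 / p + 4 ^ m / p * (2 / p) := by ring
      _ ≤ 1 + 4 ^ m / p + 2 * 4 ^ m / p + 4 ^ m / p * 1 := by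
          have h2 : 2 / (p : ℝ) ≤ 2 * 4 ^ m / p := by
            apply div_le_div_of_nonneg_right _ hp0.le
            linarith
          have h3 : 4 ^ m / (p : ℝ) * (2 / p) ≤ 4 ^ m / p * 1 := mul_le_mul_of_nonneg_left h1 h5
          linarith
      _ = 1 + 4 ^ (m + 1) / p := by rw [pow_succ]; ring

/-- sums over the integers up to `H` of products over the prime factors in a set -/
theorem sum_prod_le (P : Finset ℕ) (hP : ∀ p ∈ P, p.Prime) (g : ℕ → ℝ) (hg : ∀ p ∈ P, 0 ≤ g p) (H : ℕ) :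
    ∑ n ∈ Icc 1 H, ∏ p ∈ P.filter (fun p => p ∣ n), (1 + g p) ≤ H * ∏ p ∈ P, (1 + g p / p) := by
  classical
  have h1 : ∀ n, ∏ p ∈ P.filter (fun p => p ∣ n), (1 + g p) =
      ∑ S ∈ P.powerset, if (∏ p ∈ S, p) ∣ n then ∏ p ∈ S, g p else 0 := by
    intro n
    rw [Finset.prod_one_add, ← sum_filter]
    apply sum_congr _ (fun _ _ => rfl)
    ext S
    rw [mem_powerset, mem_filter, mem_powerset]
    constructor
    · intro h
      refine ⟨h.trans (filter_subset _ _), ?_⟩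
      apply Finset.prod_primes_dvd
      · intro p hp
        exact (hP p (mem_filter.1 (h hp)).1).prime
      · intro p hp
        exact (mem_filter.1 (h hp)).2
    · rintro ⟨h2, h3⟩ p hp
      rw [mem_filter]
      exact ⟨h2 hp, (dvd_prod_of_mem _ hp).trans h3⟩
  simp only [h1]
  rw [sum_comm, Finset.prod_one_add, mul_sum]
  apply sum_le_sum
  intro S hS
  rw [mem_powerset] at hS
  rw [← sum_filter, sum_const, nsmul_eq_mul]
  have h2 : ((Icc 1 H).filter (fun n => (∏ p ∈ S, p) ∣ n)).card ≤ H / (∏ p ∈ S, p) := by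
    have h5 : (Icc 1 H).filter (fun n => (∏ p ∈ S, p) ∣ n) = (Ioc 0 H).filter (fun n => (∏ p ∈ S, p) ∣ n) := by
      ext n
      rw [mem_filter, mem_Icc, mem_filter, mem_Ioc]
      constructor <;> rintro ⟨⟨a, b⟩, c⟩ <;> exact ⟨⟨by omega, b⟩, c⟩
    rw [h5, Nat.Ioc_filter_dvd_card_eq_div]
  have hg0 : 0 ≤ ∏ p ∈ S, g p := prod_nonneg fun p hp => hg p (hS hp)
  have h3 : (((Icc 1 H).filter (fun n => (∏ p ∈ S, p) ∣ n)).card : ℝ) ≤ H / ((∏ p ∈ S, p : ℕ) : ℝ) :=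
    le_trans (by exact_mod_cast h2) Nat.cast_div_le
  calc (((Icc 1 H).filter (fun n => (∏ p ∈ S, p) ∣ n)).card : ℝ) * ∏ p ∈ S, g p ≤
      H / ((∏ p ∈ S, p : ℕ) : ℝ) * ∏ p ∈ S, g p := mul_le_mul_of_nonneg_right h3 hg0
    _ = H * ∏ p ∈ S, g p / p := by
        rw [prod_div_distrib]
        push_cast
        ring

/-- the moments of the tail factors -/
theorem tt_moment (m y H : ℕ) (hy : 1 ≤ y) :
    ∑ n ∈ Icc 1 H, tt y n ^ m ≤ H * Real.exp (4 ^ m / y) := by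
  classical
  set P : Finset ℕ := (Ioc y H).filter Nat.Prime with hP
  have hPp : ∀ p ∈ P, p.Prime := fun p hp => (mem_filter.1 hp).2
  have h1 : ∀ n ∈ Icc 1 H, tt y n ^ m ≤ ∏ p ∈ P.filter (fun p => p ∣ n), (1 + 4 ^ m / (p : ℝ)) := by
    intro n hn
    rw [mem_Icc] at hn
    unfold tt
    have h2 : n.primeFactors.filter (fun p => y < p) = P.filter (fun p => p ∣ n) := by
      ext p
      rw [mem_filter, mem_filter, Nat.mem_primeFactors, hP, mem_filter, mem_Ioc]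
      constructor
      · rintro ⟨⟨a, b, c⟩, d⟩
        exact ⟨⟨⟨d, (Nat.le_of_dvd (by omega) b).trans hn.2⟩, a⟩, b⟩
      · rintro ⟨⟨⟨a, b⟩, c⟩, d⟩
        exact ⟨⟨c, d, by omega⟩, a⟩
    rw [h2, ← prod_pow]
    apply prod_le_prod
    · intro p hp
      have := one_sub_pos (hPp p (mem_filter.1 hp).1)
      positivity
    · intro p hp
      exact inv_pow_le m (hPp p (mem_filter.1 hp).1)
  refine (sum_le_sum h1).trans ?_
  refine (sum_prod_le P hPp (fun p => 4 ^ m / (p : ℝ)) (fun p _ => by positivity) H).trans ?_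
  apply mul_le_mul_of_nonneg_left _ (Nat.cast_nonneg _)
  calc ∏ p ∈ P, (1 + 4 ^ m / (p : ℝ) / p) ≤ ∏ p ∈ P, Real.exp (4 ^ m * ((p : ℝ) ^ 2)⁻¹) := by
        apply prod_le_prod
        · intro p _
          positivity
        · intro p _
          have h2 : 4 ^ m / (p : ℝ) / p = 4 ^ m * ((p : ℝ) ^ 2)⁻¹ := by
            rw [div_div, ← sq, div_eq_mul_inv]
          rw [h2]
          have := Real.add_one_le_exp (4 ^ m * ((p : ℝ) ^ 2)⁻¹)
          linarith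
    _ = Real.exp (4 ^ m * ∑ p ∈ P, ((p : ℝ) ^ 2)⁻¹) := by
        rw [← Real.exp_sum, mul_sum]
    _ ≤ Real.exp (4 ^ m / y) := by
        apply Real.exp_le_exp.2
        have h3 := sum_inv_sq_gt hy P (fun p hp => (mem_Ioc.1 (mem_filter.1 hp).1).1)
        calc 4 ^ m * ∑ p ∈ P, ((p : ℝ) ^ 2)⁻¹ ≤ 4 ^ m * (1 / y) := by gcongr
          _ = _ := by ring

/-- `∑ (tt^m - 1) ≤ 2 · 4^m H / y` -/
theorem tt_moment' (m y H : ℕ) (hy : 4 ^ m ≤ y) :
    ∑ n ∈ Icc 1 H, (tt y n ^ m - 1) ≤ 2 * 4 ^ m / y * H := by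
  have hy1 : 1 ≤ y := le_trans (Nat.one_le_pow _ _ (by norm_num)) hy
  have hy0 : (0 : ℝ) < y := by exact_mod_cast hy1
  have h1 := tt_moment m y H hy1
  have h2 : (4 : ℝ) ^ m / y ≤ 1 := by
    rw [div_le_one hy0]
    exact_mod_cast hy
  have h3 := Real.abs_exp_sub_one_le (x := 4 ^ m / (y : ℝ)) (by
    rw [abs_of_nonneg (by positivity)]
    exact h2)
  rw [abs_of_nonneg (by positivity : (0 : ℝ) ≤ 4 ^ m / y)] at h3
  have h4 := le_abs_self (Real.exp (4 ^ m / (y : ℝ)) - 1)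
  rw [sum_sub_distrib, sum_const, Nat.card_Icc, Nat.add_sub_cancel, nsmul_eq_mul, mul_one]
  have h5 : (H : ℝ) * Real.exp (4 ^ m / y) - H ≤ H * (2 * (4 ^ m / y)) := by
    have : (H : ℝ) * Real.exp (4 ^ m / y) - H = H * (Real.exp (4 ^ m / y) - 1) := by ring
    rw [this]
    exact mul_le_mul_of_nonneg_left (by linarith) (Nat.cast_nonneg _)
  calc _ ≤ (H : ℝ) * Real.exp (4 ^ m / y) - H := by linarith
    _ ≤ _ := h5
    _ = _ := by ring

end Pool.Agent.NH16
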