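import Pool.Agent.NH16.Tup

/-!
# From tuples to pairs
-/

set_option autoImplicit false

namespace Pool.Agent.NH16

open Finset
open Pool.Agent.H386R2.HL
open Pool.Agent.H387R2.Uni (WW WW_pos WW_factors totient_WW)

/-- sum over a window -/
lemma sum_win {E : Type*} [AddCommMonoid E] (f : ℤ → E) (x : ℤ) (L : ℕ) :
    ∑ t : Fin L, f (x + ((t : ℕ) + 1 : ℕ)) = ∑ n ∈ Ioc x (x + L), f n := by
  apply sum_bij (fun (t : Fin L) _ => x + (((t : ℕ) + 1 : ℕ) : ℤ))
  · intro t _
    rw [mem_Ioc]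
    have := t.2
    omega
  · intro t _ t' _ h
    apply Fin.ext
    omega
  · intro n hn
    rw [mem_Ioc] at hn
    refine ⟨⟨(n - x - 1).toNat, by omega⟩, mem_univ _, ?_⟩
    simp only
    omega
  · intro t _
    rfl

/-- number of primes in a window, weighted -/
theorem U_win (ε : ℝ) (hε : 0 < ε) : ∃ C : ℝ, 1 ≤ C ∧ ∀ N L : ℕ, 2 ≤ N → 2 ^ 100 ≤ L → L ≤ N →
    ε * Real.log N ≤ Real.log L → ∀ x : ℤ, ∑ n ∈ Ioc x (x + L), Uz N n ≤ C * L := by
  classical
  obtain ⟨C, hC, h⟩ := win_card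
  refine ⟨max 1 (C / ε), le_max_left _ _, ?_⟩
  intro N L hN hL hLN hlog x
  have hL1 : 1 < L := lt_of_lt_of_le (by norm_num) hL
  have hL0 : (0 : ℝ) < L := by
    have : 0 < L := by omega
    exact_mod_cast this
  have hlogL : 0 < Real.log L := Real.log_pos (by exact_mod_cast hL1)
  have hlogN : 0 < Real.log N := Real.log_pos (by exact_mod_cast (by omega : 1 < N))
  set P : Finset ℕ := ((Ioc x (x + L)).filter (fun n => Uz N n ≠ 0)).image Int.toNat with hP
  have hsupp : ∀ n : ℤ, Uz N n ≠ 0 → n.toNat.Prime ∧ L < n.toNat ^ 50 ∧ 1 ≤ n := by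
    intro n hn
    unfold Uz at hn
    have hn1 : 1 ≤ n := by
      by_contra hcon
      rw [if_neg hcon] at hn
      exact hn rfl
    rw [if_pos hn1] at hn
    unfold uu at hn
    have hn2 : n.toNat ≤ N ∧ N.sqrt < n.toNat ∧ n.toNat.Prime := by
      by_contra hcon
      rw [if_neg hcon] at hn
      exact hn rfl
    refine ⟨hn2.2.2, ?_, hn1⟩
    have h4 : N < n.toNat ^ 2 := by
      have := Nat.lt_succ_sqrt N
      have h5 : N.sqrt + 1 ≤ n.toNat := hn2.2.1
      calc N < (N.sqrt + 1) * (N.sqrt + 1) := this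
        _ ≤ n.toNat * n.toNat := Nat.mul_le_mul h5 h5
        _ = n.toNat ^ 2 := by ring
    have h6 : n.toNat ^ 2 ≤ n.toNat ^ 50 := Nat.pow_le_pow_right (by omega) (by norm_num)
    omega
  have hcard := h L hL x P (by
      intro p hp
      rw [hP, mem_image] at hp
      obtain ⟨n, hn, rfl⟩ := hp
      rw [mem_filter, mem_Ioc] at hn
      have := (hsupp n hn.2).2.2
      omega) (by
      intro p hp
      rw [hP, mem_image] at hp
      obtain ⟨n, hn, rfl⟩ := hp
      rw [mem_filter] at hn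
      have := hsupp n hn.2
      exact ⟨this.1, this.2.1⟩)
  have hPcard : P.card = ((Ioc x (x + L)).filter (fun n => Uz N n ≠ 0)).card := by
    rw [hP]
    apply card_image_of_injOn
    intro a ha b hb hab
    rw [mem_coe, mem_filter] at ha hb
    have h1 := (hsupp a ha.2).2.2
    have h2 := (hsupp b hb.2).2.2
    omega
  calc ∑ n ∈ Ioc x (x + L), Uz N n = ∑ n ∈ (Ioc x (x + L)).filter (fun n => Uz N n ≠ 0), Uz N n := by
        rw [sum_filter_ne_zero]
    _ ≤ ∑ _n ∈ (Ioc x (x + L)).filter (fun n => Uz N n ≠ 0), Real.log N := sum_le_sum fun n _ => Uz_le N n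
    _ = P.card * Real.log N := by rw [sum_const, nsmul_eq_mul, hPcard]
    _ ≤ (C * (L / Real.log L)) * Real.log N := mul_le_mul_of_nonneg_right hcard hlogN.le
    _ ≤ C / ε * L := by
        have h4 : Real.log N / Real.log L ≤ 1 / ε := by
          rw [div_le_div_iff₀ hlogL hε]
          linarith
        calc (C * (L / Real.log L)) * Real.log N = C * L * (Real.log N / Real.log L) := by ring
          _ ≤ C * L * (1 / ε) := by gcongr
          _ = _ := by ring
    _ ≤ max 1 (C / ε) * L := mul_le_mul_of_nonneg_right (le_max_right _ _) hL0.le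

/-- the local density of the primes -/
noncomputable def th (N L : ℕ) (x : ℤ) : ℝ := (∑ t : Fin L, Uz N (x + ((t : ℕ) + 1 : ℕ))) / L

lemma th_nonneg (N L : ℕ) (x : ℤ) : 0 ≤ th N L x :=
  div_nonneg (sum_nonneg fun _ _ => Uz_nonneg _ _) (Nat.cast_nonneg _)

lemma prod_expand {k L : ℕ} (f : ℕ → ℝ) :
    (∑ t : Fin L, f ((t : ℕ) + 1)) ^ k = ∑ t : Fin k → Fin L, ∏ i, f (bx t i) := by
  have e := (Finset.prod_univ_sum (fun _ : Fin k => (univ : Finset (Fin L))) (fun _ t => f ((t : ℕ) + 1)))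
  rw [Fintype.piFinset_univ] at e
  unfold bx
  rw [← e, prod_const, card_univ, Fintype.card_fin]

lemma bx_insert {k L : ℕ} (i : Fin (k + 1)) (a : Fin L) (f : Fin k → Fin L) :
    bx (Fin.insertNth (α := fun _ => Fin L) i a f) = Fin.insertNth (α := fun _ => ℕ) i ((a : ℕ) + 1) (bx f) := by
  funext j
  by_cases hj : j = i
  · subst hj
    unfold bx
    simp
  · obtain ⟨j', rfl⟩ := Fin.exists_succAbove_eq hj
    unfold bx
    simp

/-- average of the correlations over the box -/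
lemma th_moment (N L R : ℕ) (hL : 0 < L) :
    (∑ x ∈ Ico (-(L : ℤ)) N, th N L x ^ R) / N = (∑ t : Fin R → Fin L, Cr N L (bx t)) / (L : ℝ) ^ R := by
  have hL0 : (0 : ℝ) < L := by exact_mod_cast hL
  unfold Cr th
  rw [← sum_div, sum_comm]
  have e1 : ∀ x ∈ Ico (-(L : ℤ)) N, ((∑ t : Fin L, Uz N (x + ((t : ℕ) + 1 : ℕ))) / L) ^ R =
      (∑ t : Fin R → Fin L, ∏ i, Uz N (x + (bx t i : ℕ))) / (L : ℝ) ^ R := by
    intro x _
    rw [div_pow, prod_expand (fun m => Uz N (x + (m : ℕ)))]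
  rw [sum_congr rfl e1, ← sum_div]
  rw [div_div, div_div, mul_comm]

lemma bern (θ : ℝ) (hθ : 0 ≤ θ) (k : ℕ) : (θ - 1) ^ 2 ≤ θ ^ (k + 2) - 1 - (k + 2) * (θ - 1) := by
  induction k with
  | zero => simp; nlinarith
  | succ k ih =>
    have h1 : θ ^ (k + 1 + 2) - 1 - ((k + 1 : ℕ) + 2) * (θ - 1) =
        θ * (θ ^ (k + 2) - 1 - (k + 2) * (θ - 1)) + (k + 2) * (θ - 1) ^ 2 := by
      push_cast
      ring
    rw [h1]
    have h2 : 0 ≤ θ * (θ ^ (k + 2) - 1 - (k + 2) * (θ - 1)) := mul_nonneg hθ ((sq_nonneg _).trans ih)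
    have h3 : (0 : ℝ) ≤ k := Nat.cast_nonneg k
    nlinarith [sq_nonneg (θ - 1)]

lemma pow_sub_one_le (θ C : ℝ) (hθ : 0 ≤ θ) (hC : 1 ≤ C) (hθC : θ ≤ C) (k : ℕ) :
    |θ ^ k - 1| ≤ k * C ^ k * |θ - 1| := by
  have h1 : θ ^ k - 1 = (∑ i ∈ range k, θ ^ i) * (θ - 1) := (geom_sum_mul θ k).symm
  rw [h1, abs_mul]
  apply mul_le_mul_of_nonneg_right _ (abs_nonneg _)
  rw [abs_of_nonneg (sum_nonneg fun i _ => pow_nonneg hθ i)]
  calc ∑ i ∈ range k, θ ^ i ≤ ∑ _i ∈ range k, C ^ k := by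
        apply sum_le_sum
        intro i hi
        calc θ ^ i ≤ C ^ i := pow_le_pow_left₀ hθ hθC i
          _ ≤ C ^ k := pow_le_pow_right₀ hC (mem_range.1 hi).le
    _ = k * C ^ k := by rw [sum_const, card_range, nsmul_eq_mul]

/-- the model on one period -/
noncomputable def Vp (y n : ℕ) : ℝ := if Nat.Coprime (WW y) n then ((WW y : ℝ) / Nat.totient (WW y)) else 0

lemma Vp_nonneg (y n : ℕ) : 0 ≤ Vp y n := by
  unfold Vp
  split_ifs
  · positivity
  · exact le_rfl

lemma sy_avg' {R : ℕ} (a : Fin R → ℕ) (y : ℕ) :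
    sy a y = (∑ n ∈ range (WW y), ∏ i, Vp y (n + a i)) / WW y := sy_avg a y

/-- window average of the model -/
lemma Vp_win (y L n : ℕ) (hL : 0 < L) :
    |(∑ t : Fin L, Vp y (n + ((t : ℕ) + 1))) / L - 1| ≤ (WW y : ℝ) ^ 2 / L := by
  have hW := WW_pos y
  have hW0 : (0 : ℝ) < WW y := by exact_mod_cast hW
  have hφ : (0 : ℝ) < Nat.totient (WW y) := by exact_mod_cast Nat.totient_pos.2 hW
  have hL0 : (0 : ℝ) < L := by exact_mod_cast hL
  have h1 : ∑ t : Fin L, Vp y (n + ((t : ℕ) + 1)) = ((WW y : ℝ) / Nat.totient (WW y)) *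
      ((Icc 1 L).filter (fun m => ∀ i : Fin 1, Nat.Coprime (WW y) (m + (fun _ => n) i))).card := by
    rw [← sum_ite_card]
    have e0 : ∑ t : Fin L, Vp y (n + ((t : ℕ) + 1)) = ∑ t ∈ range L, Vp y (n + (t + 1)) :=
      Fin.sum_univ_eq_sum_range (fun t => Vp y (n + (t + 1))) L
    rw [e0]
    apply sum_bij (fun m _ => m + 1)
    · intro m hm
      rw [mem_range] at hm
      rw [mem_Icc]; omega
    · intro a _ b _ hab
      omega
    · intro m hm
      rw [mem_Icc] at hm
      exact ⟨m - 1, by rw [mem_range]; omega, by omega⟩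
    · intro m hm
      unfold Vp
      have h2 : n + (m + 1) = m + 1 + n := by omega
      rw [h2]
      by_cases h3 : Nat.Coprime (WW y) (m + 1 + n)
      · rw [if_pos h3, if_pos (fun _ => h3), mul_one]
      · rw [if_neg h3, if_neg (fun h => h3 (h 0)), mul_zero]
  have h2 := cnt_rough (WW y) hW (fun _ : Fin 1 => n) L
  have h3 : (gg (WW y) (fun _ : Fin 1 => n) : ℝ) = Nat.totient (WW y) := by
    have h4 : gg (WW y) (fun _ : Fin 1 => n) = Nat.totient (WW y) := by
      unfold gg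
      rw [range_eq_Ico]
      have e1 : (Ico 0 (WW y)).filter (fun m => ∀ _i : Fin 1, Nat.Coprime (WW y) (m + n)) =
          (Ico 0 (WW y)).filter (fun m => Nat.Coprime (WW y) (m + n)) := by
        apply filter_congr
        intro m _
        exact ⟨fun h => h 0, fun h _ => h⟩
      rw [e1]
      have e2 : ((Ico 0 (WW y)).filter (fun m => Nat.Coprime (WW y) (m + n))).card =
          ((Ico n (n + WW y)).filter (fun m => Nat.Coprime (WW y) m)).card := by
        apply card_bij (fun m _ => m + n)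
        · intro m hm
          rw [mem_filter, mem_Ico] at hm ⊢
          exact ⟨by omega, hm.2⟩
        · intro a _ b _ hab
          omega
        · intro m hm
          rw [mem_filter, mem_Ico] at hm
          refine ⟨m - n, ?_, by omega⟩
          rw [mem_filter, mem_Ico]
          refine ⟨by omega, ?_⟩
          have : m - n + n = m := by omega
          rw [this]
          exact hm.2
      rw [e2, Nat.filter_coprime_Ico_eq_totient]
    exact_mod_cast h4
  rw [h3] at h2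
  rw [h1]
  set c : ℝ := (((Icc 1 L).filter (fun m => ∀ i : Fin 1, Nat.Coprime (WW y) (m + (fun _ => n) i))).card : ℝ)
  have e1 : (WW y : ℝ) / Nat.totient (WW y) * c / L - 1 =
      ((WW y : ℝ) / Nat.totient (WW y) / L) * (c - L * (Nat.totient (WW y) / WW y)) := by
    field_simp
  have hge : (1 : ℝ) ≤ Nat.totient (WW y) := by exact_mod_cast Nat.totient_pos.2 hW
  rw [e1, abs_mul, abs_of_nonneg (by positivity)]
  calc (WW y : ℝ) / Nat.totient (WW y) / L * |c - L * (Nat.totient (WW y) / WW y)|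
      ≤ (WW y : ℝ) / 1 / L * WW y := by gcongr
    _ = (WW y : ℝ) ^ 2 / L := by ring

end Pool.Agent.NH16
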