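import Pool.Agent.NH16.Sym
import Pool.Agent.NH16.PairStruct

/-!
# Counting tuples in boxes
-/

set_option autoImplicit false

namespace Pool.Agent.NH16

open Finset
open Pool.Agent.H386R2.HL
open Pool.Agent.H387R2.Uni (WW WW_pos WW_factors totient_WW)

/-- `log N` on the primes in `(√N, N]`, on the integers -/
noncomputable def Uz (N : ℕ) (n : ℤ) : ℝ := if 1 ≤ n then uu N N.sqrt n.toNat else 0

/-- the model on the integers -/
noncomputable def Vz (N W : ℕ) (n : ℤ) : ℝ := if 1 ≤ n then VV N W n.toNat else 0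

lemma Uz_nat (N n : ℕ) (hn : 1 ≤ n) : Uz N (n : ℤ) = uu N N.sqrt n := by
  unfold Uz
  rw [if_pos (by omega), Int.toNat_natCast]

lemma Vz_nat (N W n : ℕ) (hn : 1 ≤ n) : Vz N W (n : ℤ) = VV N W n := by
  unfold Vz
  rw [if_pos (by omega), Int.toNat_natCast]

lemma Uz_nonneg (N : ℕ) (n : ℤ) : 0 ≤ Uz N n := by
  unfold Uz
  split_ifs
  · exact uu_nonneg _ _ _
  · exact le_rfl

lemma Uz_le (N : ℕ) (n : ℤ) : Uz N n ≤ Real.log N := by
  unfold Uz
  split_ifs
  · exact uu_le _ _ _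
  · exact Real.log_natCast_nonneg N

lemma Vz_nonneg (N W : ℕ) (n : ℤ) : 0 ≤ Vz N W n := by
  unfold Vz
  split_ifs
  · exact VV_nonneg _ _ _
  · exact le_rfl

lemma Vz_le (N W : ℕ) (n : ℤ) : Vz N W n ≤ (W : ℝ) / Nat.totient W := by
  unfold Vz
  split_ifs
  · exact VV_le _ _ _
  · positivity

lemma Uz_out (N : ℕ) (n : ℤ) (hn : ¬ (1 ≤ n ∧ n ≤ (N : ℤ))) : Uz N n = 0 := by
  unfold Uz uu
  split_ifs with h1 h2
  · omega
  · rfl
  · rfl

lemma Vz_out (N W : ℕ) (n : ℤ) (hn : ¬ (1 ≤ n ∧ n ≤ (N : ℤ))) : Vz N W n = 0 := by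
  unfold Vz VV
  split_ifs with h1 h2
  · omega
  · rfl
  · rfl

/-- shifting a sum over the windows -/
theorem shift_sum (φ : ℤ → ℝ) (N L m : ℕ) (hφ : ∀ n, ¬ (1 ≤ n ∧ n ≤ (N : ℤ)) → φ n = 0) (hm1 : 1 ≤ m) (hm : m ≤ L) :
    ∑ x ∈ Ico (-(L : ℤ)) N, φ (x + m) = ∑ n ∈ Icc 1 N, φ (n : ℤ) := by
  have e3 : ∑ x ∈ Ico (-(L : ℤ)) N, φ (x + m) = ∑ n ∈ Ico (-(L : ℤ) + m) (N + m), φ n := by
    apply sum_bij (fun (x : ℤ) _ => x + (m : ℤ))
    · intro x hx
      rw [mem_Ico] at hx ⊢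
      omega
    · intro a _ b _ hab
      omega
    · intro n hn
      rw [mem_Ico] at hn
      refine ⟨n - m, ?_, ?_⟩
      · rw [mem_Ico]; omega
      · omega
    · intro x _
      rfl
  rw [e3]
  have e4 : ∑ n ∈ Icc (1 : ℤ) N, φ n = ∑ n ∈ Ico (-(L : ℤ) + m) (N + m), φ n := by
    apply sum_subset
    · intro n hn
      rw [mem_Icc] at hn
      rw [mem_Ico]
      omega
    · intro n _ hn
      apply hφ
      rwa [mem_Icc] at hn
  rw [← e4]
  symm
  apply sum_bij (fun (n : ℕ) _ => (n : ℤ))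
  · intro n hn
    rw [mem_Icc] at hn ⊢
    omega
  · intro a _ b _ hab
    exact_mod_cast hab
  · intro n hn
    rw [mem_Icc] at hn
    exact ⟨n.toNat, by rw [mem_Icc]; omega, by omega⟩
  · intro n _
    rfl

/-- normalised number of prime tuples -/
noncomputable def Fr {R : ℕ} (N : ℕ) (a : Fin R → ℕ) : ℝ :=
  Real.log N ^ R / N * ((Icc 1 N).filter (fun n => ∀ i, (n + a i).Prime)).card

lemma Fr_nonneg {R : ℕ} (N : ℕ) (a : Fin R → ℕ) : 0 ≤ Fr N a := by
  unfold Fr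
  have := Real.log_natCast_nonneg N
  positivity

/-- correlations over the windows -/
noncomputable def Cr {R : ℕ} (N L : ℕ) (a : Fin R → ℕ) : ℝ :=
  (∑ x ∈ Ico (-(L : ℤ)) N, ∏ i, Uz N (x + a i)) / N

lemma Cr_nonneg {R : ℕ} (N L : ℕ) (a : Fin R → ℕ) : 0 ≤ Cr N L a := by
  unfold Cr
  apply div_nonneg _ (Nat.cast_nonneg _)
  exact sum_nonneg fun x _ => prod_nonneg fun i _ => Uz_nonneg _ _

lemma Cr_base {r : ℕ} (N : ℕ) (h : Fin r → ℕ) :
    ∑ n ∈ Icc 1 N, Uz N n * ∏ j, Uz N (n + h j) = Real.log N ^ (r + 1) *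
      ((Icc 1 N).filter (fun n => N.sqrt < n ∧ n.Prime ∧ ∀ j, (n + h j).Prime ∧ n + h j ≤ N)).card := by
  rw [← sum_ite_card]
  apply sum_congr rfl
  intro n hn
  rw [mem_Icc] at hn
  rw [Uz_nat N n hn.1]
  have e1 : ∀ j, Uz N ((n : ℤ) + (h j : ℤ)) = uu N N.sqrt (n + h j) := by
    intro j
    have : (n : ℤ) + (h j : ℤ) = ((n + h j : ℕ) : ℤ) := by push_cast; rfl
    rw [this, Uz_nat N _ (by omega)]
  simp only [e1]
  by_cases h1 : N.sqrt < n ∧ n.Prime ∧ ∀ j, (n + h j).Prime ∧ n + h j ≤ N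
  · rw [if_pos h1, mul_one]
    unfold uu
    rw [if_pos ⟨hn.2, h1.1, h1.2.1⟩]
    have e2 : ∀ j, (if n + h j ≤ N ∧ N.sqrt < n + h j ∧ (n + h j).Prime then Real.log N else 0) = Real.log N := by
      intro j
      rw [if_pos]
      exact ⟨(h1.2.2 j).2, by omega, (h1.2.2 j).1⟩
    simp only [e2]
    rw [prod_const, card_univ, Fintype.card_fin, pow_succ']
  · rw [if_neg h1, mul_zero]
    by_cases h2 : N.sqrt < n ∧ n.Prime
    · have h3 : ∃ j, ¬ ((n + h j).Prime ∧ n + h j ≤ N) := by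
        by_contra hcon
        push Not at hcon
        exact h1 ⟨h2.1, h2.2, fun j => ⟨(hcon j).1, (hcon j).2⟩⟩
      obtain ⟨j, hj⟩ := h3
      have h4 : ∏ j, uu N N.sqrt (n + h j) = 0 := by
        apply prod_eq_zero (mem_univ j)
        unfold uu
        rw [if_neg]
        rintro ⟨a, b, c⟩
        exact hj ⟨c, a⟩
      rw [h4, mul_zero]
    · unfold uu
      rw [if_neg (c := n ≤ N ∧ N.sqrt < n ∧ n.Prime), zero_mul]
      rintro ⟨a, b, c⟩
      exact h2 ⟨b, c⟩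

/-- the error made by removing the small primes and the boundary -/
noncomputable def err1 (N r H : ℕ) : ℝ := Real.log N ^ (r + 1) / N * (N.sqrt + H)

lemma Cr_close {r : ℕ} (N L : ℕ) (i : Fin (r + 1)) (m : ℕ) (h : Fin r → ℕ) (hm1 : 1 ≤ m) (hmL : m ≤ L)
    (hh : ∀ j, h j ≤ L) :
    |Cr N L (Fin.insertNth (α := fun _ => ℕ) i m (fun j => h j + m)) - Fr N (Fin.cons (α := fun _ => ℕ) 0 h)| ≤
      err1 N r L := by
  have e1 : ∑ x ∈ Ico (-(L : ℤ)) N, ∏ j, Uz N (x + (Fin.insertNth (α := fun _ => ℕ) i m (fun j => h j + m) j : ℕ)) =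
      ∑ n ∈ Icc 1 N, Uz N n * ∏ j, Uz N (n + h j) := by
    rw [← shift_sum (fun n => Uz N n * ∏ j, Uz N (n + h j)) N L m (by
      intro n hn
      rw [Uz_out N n hn, zero_mul]) hm1 hmL]
    apply sum_congr rfl
    intro x _
    rw [Fin.prod_univ_succAbove _ i]
    simp only [Fin.insertNth_apply_same, Fin.insertNth_apply_succAbove]
    congr 1
    apply prod_congr rfl
    intro j _
    congr 1
    push_cast
    ring
  unfold Cr
  rw [e1, Cr_base]
  unfold Fr err1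
  have hl := Real.log_natCast_nonneg N
  have e2 : Real.log N ^ (r + 1) * ((Icc 1 N).filter (fun n => N.sqrt < n ∧ n.Prime ∧ ∀ j, (n + h j).Prime ∧ n + h j ≤ N)).card / N -
      Real.log N ^ (r + 1) / N * ((Icc 1 N).filter (fun n => ∀ j, (n + (Fin.cons (α := fun _ => ℕ) 0 h j : ℕ)).Prime)).card =
      Real.log N ^ (r + 1) / N * (((Icc 1 N).filter (fun n => N.sqrt < n ∧ n.Prime ∧ ∀ j, (n + h j).Prime ∧ n + h j ≤ N)).card -
        ((Icc 1 N).filter (fun n => ∀ j, (n + (Fin.cons (α := fun _ => ℕ) 0 h j : ℕ)).Prime)).card) := by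
    ring
  rw [e2, abs_mul, abs_of_nonneg (by positivity)]
  apply mul_le_mul_of_nonneg_left _ (by positivity)
  apply card_close
  intro n h1 h2
  rw [Fin.forall_fin_succ]
  simp only [Fin.cons_zero, Fin.cons_succ, add_zero]
  constructor
  · rintro ⟨_, h4, h5⟩
    exact ⟨h4, fun j => (h5 j).1⟩
  · rintro ⟨h4, h5⟩
    exact ⟨h1, h4, fun j => ⟨h5 j, by have := hh j; omega⟩⟩

/-- the truncated singular series as an average over one period -/
lemma sy_avg {R : ℕ} (a : Fin R → ℕ) (y : ℕ) :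
    sy a y = (∑ n ∈ range (WW y), ∏ i, (if Nat.Coprime (WW y) (n + a i) then ((WW y : ℝ) / Nat.totient (WW y)) else 0)) / WW y := by
  rw [sy_fun]
  have e1 : ∀ n ∈ range (WW y), ∏ i, (if Nat.Coprime (WW y) (n + a i) then ((WW y : ℝ) / Nat.totient (WW y)) else 0) =
      ((WW y : ℝ) / Nat.totient (WW y)) ^ R * (if ∀ i, Nat.Coprime (WW y) (n + a i) then 1 else 0) := by
    intro n _
    by_cases h : ∀ i, Nat.Coprime (WW y) (n + a i)
    · rw [if_pos h, mul_one]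
      have e2 : ∀ i, (if Nat.Coprime (WW y) (n + a i) then ((WW y : ℝ) / Nat.totient (WW y)) else 0) =
          (WW y : ℝ) / Nat.totient (WW y) := fun i => if_pos (h i)
      simp only [e2]
      rw [prod_const, card_univ, Fintype.card_fin]
    · rw [if_neg h, mul_zero]
      push Not at h
      obtain ⟨i, hi⟩ := h
      apply prod_eq_zero (mem_univ i)
      rw [if_neg hi]
  rw [sum_congr rfl e1, sum_ite_card]
  unfold gg
  ring

end Pool.Agent.NH16
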