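import Pool.Agent.NH16.Part2

/-!
# Part 1: bounds for the Fourier transforms on windows
-/

set_option autoImplicit false

namespace Pool.Agent.NH16

open Finset
open Pool.Agent.Helper602.MK
open Pool.Agent.Helper602.MK.N_J5b
open Pool.Agent.H386R2.HL
open Pool.Agent.H387R2.Uni (WW WW_pos WW_factors totient_WW)

variable {M : ℕ} [NeZero M]

lemma zft_norm_shift (φ : ℤ → ℂ) (b x : ℤ) (L : ℕ) (ξ : ZMod M) :
    ‖zft M (fun n => φ (n + b)) x L ξ‖ = ‖zft M φ (x + b) L ξ‖ := by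
  have h : zft M (fun n => φ (n + b)) x L ξ = ch (-(ξ * (b : ZMod M))) * zft M φ (x + b) L ξ := by
    unfold zft
    rw [mul_sum]
    apply sum_bij (fun (n : ℤ) _ => n + b)
    · intro n hn
      rw [mem_Ioc] at hn ⊢
      omega
    · intro a _ c _ hac
      omega
    · intro n hn
      rw [mem_Ioc] at hn
      exact ⟨n - b, by rw [mem_Ioc]; omega, by omega⟩
    · intro n _
      have : ch (ξ * (n : ZMod M)) = ch (-(ξ * (b : ZMod M))) * ch (ξ * ((n + b : ℤ) : ZMod M)) := by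
        rw [← ch_add]
        congr 1
        push_cast
        ring
      rw [this]
      ring
  rw [h, norm_mul, norm_ch, one_mul]

lemma zft_sub (φ ψ : ℤ → ℂ) (x : ℤ) (L : ℕ) (ξ : ZMod M) :
    zft M (fun n => φ n - ψ n) x L ξ = zft M φ x L ξ - zft M ψ x L ξ := by
  unfold zft
  rw [← sum_sub_distrib]
  apply sum_congr rfl
  intro n _
  ring

lemma zft_le_sum (φ : ℤ → ℂ) (x : ℤ) (L : ℕ) (ξ : ZMod M) :
    ‖zft M φ x L ξ‖ ≤ ∑ n ∈ Ioc x (x + L), ‖φ n‖ := by
  unfold zft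
  refine (norm_sum_le _ _).trans (sum_le_sum fun n _ => ?_)
  rw [norm_mul, norm_ch, mul_one]

lemma zft_parseval (g : ℤ → ℂ) (x : ℤ) (L : ℕ) (hLM : L ≤ M) :
    ∑ ξ : ZMod M, ‖zft M g x L ξ‖ ^ 2 = M * ∑ n ∈ Ioc x (x + L), ‖g n‖ ^ 2 := by
  have hM : 0 < M := Nat.pos_of_ne_zero (NeZero.ne M)
  rw [← wft_parseval g x L M hM hLM]
  simp only [zft_eq]
  apply sum_bij (fun (ξ : ZMod M) _ => ξ.val)
  · intro ξ _
    exact mem_range.2 (ZMod.val_lt ξ)
  · intro a _ b _ hab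
    exact ZMod.val_injective M hab
  · intro n hn
    rw [mem_range] at hn
    exact ⟨(n : ZMod M), mem_univ _, ZMod.val_cast_of_lt hn⟩
  · intro ξ _
    rfl

/-- bounded functions -/
lemma zft_bdd (g : ℤ → ℂ) (ρ : ℝ) (hρ : 0 ≤ ρ) (hg : ∀ n, ‖g n‖ ≤ ρ) (t : ℝ) (ht : 2 ≤ t) (x : ℤ) (L : ℕ) (hLM : L ≤ M) :
    (∀ ξ : ZMod M, ‖zft M g x L ξ‖ / M ≤ ρ) ∧ ∑ ξ : ZMod M, (‖zft M g x L ξ‖ / M) ^ t ≤ ρ ^ t := by
  have hM : 0 < M := Nat.pos_of_ne_zero (NeZero.ne M)
  have hM0 : (0 : ℝ) < M := by exact_mod_cast hM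
  have hLM' : (L : ℝ) ≤ M := by exact_mod_cast hLM
  have hcard : ((Ioc x (x + (L : ℤ))).card : ℝ) = L := by
    rw [Int.card_Ioc]
    have : (x + (L : ℤ) - x).toNat = L := by omega
    rw [this]
  have h1 : ∀ ξ : ZMod M, ‖zft M g x L ξ‖ / M ≤ ρ := by
    intro ξ
    rw [div_le_iff₀ hM0]
    calc ‖zft M g x L ξ‖ ≤ ∑ n ∈ Ioc x (x + L), ‖g n‖ := zft_le_sum g x L ξ
      _ ≤ ∑ _n ∈ Ioc x (x + (L : ℤ)), ρ := sum_le_sum fun n _ => hg n
      _ = L * ρ := by rw [sum_const, nsmul_eq_mul, hcard]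
      _ ≤ ρ * M := by nlinarith
  refine ⟨h1, ?_⟩
  have h2 : ∑ ξ : ZMod M, (‖zft M g x L ξ‖ / M) ^ 2 ≤ ρ ^ 2 := by
    have e1 : ∑ ξ : ZMod M, (‖zft M g x L ξ‖ / M) ^ 2 = (∑ ξ : ZMod M, ‖zft M g x L ξ‖ ^ 2) / M ^ 2 := by
      rw [sum_div]
      apply sum_congr rfl
      intro ξ _
      rw [div_pow]
    rw [e1, zft_parseval g x L hLM, div_le_iff₀ (by positivity)]
    calc (M : ℝ) * ∑ n ∈ Ioc x (x + (L : ℤ)), ‖g n‖ ^ 2 ≤ M * ∑ _n ∈ Ioc x (x + (L : ℤ)), ρ ^ 2 := by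
          apply mul_le_mul_of_nonneg_left _ hM0.le
          exact sum_le_sum fun n _ => pow_le_pow_left₀ (norm_nonneg _) (hg n) 2
      _ = M * (L * ρ ^ 2) := by rw [sum_const, nsmul_eq_mul, hcard]
      _ ≤ M * (M * ρ ^ 2) := by gcongr
      _ = _ := by ring
  rcases eq_or_lt_of_le hρ with h0 | h0
  · have h3 : ∀ ξ : ZMod M, ‖zft M g x L ξ‖ / M = 0 := by
      intro ξ
      apply le_antisymm
      · rw [h0]; exact h1 ξ
      · positivity
    simp only [h3]
    rw [← h0, Real.zero_rpow (by linarith)]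
    simp
  · calc ∑ ξ : ZMod M, (‖zft M g x L ξ‖ / M) ^ t ≤ ∑ ξ : ZMod M, ρ ^ (t - 2) * (‖zft M g x L ξ‖ / M) ^ 2 := by
          apply sum_le_sum
          intro ξ _
          have hz : 0 ≤ ‖zft M g x L ξ‖ / M := by positivity
          rcases eq_or_lt_of_le hz with hz0 | hz0
          · rw [← hz0, Real.zero_rpow (by linarith)]
            positivity
          · have e1 : (‖zft M g x L ξ‖ / M) ^ t = (‖zft M g x L ξ‖ / M) ^ (t - 2) * (‖zft M g x L ξ‖ / M) ^ 2 := by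
              rw [← Real.rpow_natCast, ← Real.rpow_add hz0]
              congr 1
              push_cast
              ring
            rw [e1]
            apply mul_le_mul_of_nonneg_right _ (by positivity)
            exact Real.rpow_le_rpow hz (h1 ξ) (by linarith)
      _ = ρ ^ (t - 2) * ∑ ξ : ZMod M, (‖zft M g x L ξ‖ / M) ^ 2 := by rw [mul_sum]
      _ ≤ ρ ^ (t - 2) * ρ ^ 2 := by gcongr
      _ = ρ ^ t := by
          rw [← Real.rpow_natCast, ← Real.rpow_add h0]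
          congr 1
          push_cast
          ring

/-- everything known about a function on windows -/
structure Nice (M L : ℕ) [NeZero M] (t D S : ℝ) (φ : ℤ → ℂ) : Prop where
  lt : ∀ (x : ℤ) (L' : ℕ), L' = L ∨ L' = M → ∑ ξ : ZMod M, (‖zft M φ x L' ξ‖ / M) ^ t ≤ D
  sup : ∀ (x : ℤ) (L' : ℕ), L' = L ∨ L' = M → ∀ ξ : ZMod M, ‖zft M φ x L' ξ‖ / M ≤ S

lemma Nice.shift {L : ℕ} {t D S : ℝ} {φ : ℤ → ℂ} (h : Nice M L t D S φ) (b : ℤ) :
    Nice M L t D S (fun n => φ (n + b)) := by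
  constructor
  · intro x L' hL'
    simp only [zft_norm_shift]
    exact h.lt (x + b) L' hL'
  · intro x L' hL' ξ
    rw [zft_norm_shift]
    exact h.sup (x + b) L' hL' ξ

lemma Nice.mono {L : ℕ} {t D S D' S' : ℝ} {φ : ℤ → ℂ} (h : Nice M L t D S φ) (hD : D ≤ D') (hS : S ≤ S') :
    Nice M L t D' S' φ :=
  ⟨fun x L' hL' => (h.lt x L' hL').trans hD, fun x L' hL' ξ => (h.sup x L' hL' ξ).trans hS⟩

lemma Nice.sub {L : ℕ} {t D S D' S' : ℝ} (ht : 0 ≤ t) {φ ψ : ℤ → ℂ} (h : Nice M L t D S φ) (h' : Nice M L t D' S' ψ) :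
    Nice M L t (2 ^ t * (D + D')) (S + S') (fun n => φ n - ψ n) := by
  constructor
  · intro x L' hL'
    calc ∑ ξ : ZMod M, (‖zft M (fun n => φ n - ψ n) x L' ξ‖ / M) ^ t
        ≤ ∑ ξ : ZMod M, 2 ^ t * ((‖zft M φ x L' ξ‖ / M) ^ t + (‖zft M ψ x L' ξ‖ / M) ^ t) := by
          apply sum_le_sum
          intro ξ _
          set a := ‖zft M φ x L' ξ‖ / M
          set b := ‖zft M ψ x L' ξ‖ / M
          have ha : 0 ≤ a := by positivity
          have hb : 0 ≤ b := by positivity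
          have h1 : ‖zft M (fun n => φ n - ψ n) x L' ξ‖ / M ≤ a + b := by
            rw [zft_sub, ← add_div]
            apply div_le_div_of_nonneg_right _ (Nat.cast_nonneg M)
            exact norm_sub_le _ _
          have h2 : a + b ≤ 2 * max a b := by
            rw [two_mul]
            exact add_le_add (le_max_left _ _) (le_max_right _ _)
          calc (‖zft M (fun n => φ n - ψ n) x L' ξ‖ / M) ^ t ≤ (2 * max a b) ^ t :=
                Real.rpow_le_rpow (by positivity) (h1.trans h2) ht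
            _ = 2 ^ t * (max a b) ^ t := Real.mul_rpow (by norm_num) (le_max_of_le_left ha)
            _ ≤ 2 ^ t * (a ^ t + b ^ t) := by
                apply mul_le_mul_of_nonneg_left _ (by positivity)
                rcases le_total a b with hab | hab
                · rw [max_eq_right hab]
                  linarith [Real.rpow_nonneg ha t]
                · rw [max_eq_left hab]
                  linarith [Real.rpow_nonneg hb t]
      _ = 2 ^ t * (∑ ξ : ZMod M, (‖zft M φ x L' ξ‖ / M) ^ t + ∑ ξ : ZMod M, (‖zft M ψ x L' ξ‖ / M) ^ t) := by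
          rw [← mul_sum, sum_add_distrib]
      _ ≤ 2 ^ t * (D + D') := by
          apply mul_le_mul_of_nonneg_left _ (by positivity)
          exact add_le_add (h.lt x L' hL') (h'.lt x L' hL')
  · intro x L' hL' ξ
    rw [zft_sub]
    calc ‖zft M φ x L' ξ - zft M ψ x L' ξ‖ / M ≤ (‖zft M φ x L' ξ‖ + ‖zft M ψ x L' ξ‖) / M := by
          gcongr
          exact norm_sub_le _ _
      _ = ‖zft M φ x L' ξ‖ / M + ‖zft M ψ x L' ξ‖ / M := add_div _ _ _
      _ ≤ S + S' := add_le_add (h.sup x L' hL' ξ) (h'.sup x L' hL' ξ)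

/-- complex versions -/
noncomputable def Uc (N : ℕ) (n : ℤ) : ℂ := (Uz N n : ℂ)
noncomputable def Vc (N y : ℕ) (n : ℤ) : ℂ := (Vz N (WW y) n : ℂ)
noncomputable def Ec (N y : ℕ) (n : ℤ) : ℂ := (Ez N y n : ℂ)

lemma Ec_eq (N y : ℕ) : Ec N y = fun n => Uc N n - Vc N y n := by
  funext n
  unfold Ec Uc Vc Ez
  push_cast
  rfl

theorem Vc_nice (t : ℝ) (ht : 2 ≤ t) (N y L : ℕ) (hLM : L ≤ M) :
    Nice M L t (((WW y : ℝ) / Nat.totient (WW y)) ^ t) ((WW y : ℝ) / Nat.totient (WW y)) (Vc N y) := by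
  have hb : ∀ n, ‖Vc N y n‖ ≤ (WW y : ℝ) / Nat.totient (WW y) := by
    intro n
    unfold Vc
    rw [Complex.norm_real, Real.norm_eq_abs, abs_of_nonneg (Vz_nonneg _ _ _)]
    exact Vz_le _ _ _
  constructor
  · intro x L' hL'
    exact (zft_bdd (Vc N y) _ (by positivity) hb t ht x L' (by rcases hL' with rfl | rfl <;> omega)).2
  · intro x L' hL'
    exact (zft_bdd (Vc N y) _ (by positivity) hb t ht x L' (by rcases hL' with rfl | rfl <;> omega)).1

theorem Uc_nice (t : ℝ) (ht : 2 < t) (ε : ℝ) (hε : 0 < ε) : ∃ D : ℝ, 1 ≤ D ∧ ∀ (M : ℕ) [NeZero M] (N L : ℕ),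
    M = 2 * L → 2 ≤ N → 2 ^ 100 ≤ L → M ≤ N → ε * Real.log N ≤ Real.log L → Nice M L t D D (Uc N) := by
  obtain ⟨D1, hD1, h1⟩ := zft_lt t ht ε hε
  obtain ⟨D2, hD2, h2⟩ := U_win ε hε
  refine ⟨D1 + D2, by linarith, ?_⟩
  intro M _ N L hM hN hL hLN hlog
  have hM0 : (0 : ℝ) < M := by
    have : 0 < M := Nat.pos_of_ne_zero (NeZero.ne M)
    exact_mod_cast this
  have hL0 : (0 : ℝ) < L := by
    have : 0 < L := lt_of_lt_of_le (by norm_num) hL
    exact_mod_cast this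
  have hMr : (M : ℝ) = 2 * L := by rw [hM]; push_cast; rfl
  have hlogM : ε * Real.log N ≤ Real.log M := by
    refine hlog.trans (Real.log_le_log hL0 ?_)
    rw [hMr]; linarith
  have hb : ∀ n, ‖Uc N n‖ ≤ Real.log N := by
    intro n
    unfold Uc
    rw [Complex.norm_real, Real.norm_eq_abs, abs_of_nonneg (Uz_nonneg _ _)]
    exact Uz_le _ _
  have hsupp : ∀ n : ℤ, Uc N n ≠ 0 → n.toNat.Prime ∧ M < n.toNat ^ 50 := by
    intro n hn
    unfold Uc at hn
    have hn' : Uz N n ≠ 0 := by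
      intro h
      apply hn
      rw [h]; simp
    rw [Uz_ite] at hn'
    have hn2 : 1 ≤ n ∧ n.toNat ≤ N ∧ N.sqrt < n.toNat ∧ n.toNat.Prime := by
      by_contra hcon
      rw [if_neg hcon] at hn'
      exact hn' rfl
    refine ⟨hn2.2.2.2, ?_⟩
    have h4 : N < n.toNat ^ 2 := by
      have := Nat.lt_succ_sqrt N
      have h5 : N.sqrt + 1 ≤ n.toNat := hn2.2.2.1
      calc N < (N.sqrt + 1) * (N.sqrt + 1) := this
        _ ≤ n.toNat * n.toNat := Nat.mul_le_mul h5 h5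
        _ = n.toNat ^ 2 := by ring
    have h6 : n.toNat ^ 2 ≤ n.toNat ^ 50 := Nat.pow_le_pow_right (by omega) (by norm_num)
    omega
  constructor
  · intro x L' hL'
    have hcases : ∑ ξ : ZMod M, (‖zft M (Uc N) x L' ξ‖ / M) ^ t ≤ D1 := by
      rcases hL' with rfl | rfl
      · exact h1 M N L' hN hL hlog (by omega) (by omega) x (Uc N) (fun n hn => ⟨(hsupp n hn).1, by
          have := (hsupp n hn).2
          omega⟩) hb
      · exact h1 L' N L' hN (by omega) hlogM le_rfl (by omega) x (Uc N) hsupp hb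
    linarith
  · intro x L' hL' ξ
    have h3 : ‖zft M (Uc N) x L' ξ‖ / M ≤ D2 := by
      have e1 : ‖zft M (Uc N) x L' ξ‖ ≤ D2 * L' := by
        refine (zft_le_sum _ _ _ _).trans ?_
        have e2 : ∀ n, ‖Uc N n‖ = Uz N n := by
          intro n
          unfold Uc
          rw [Complex.norm_real, Real.norm_eq_abs, abs_of_nonneg (Uz_nonneg _ _)]
        simp only [e2]
        rcases hL' with rfl | rfl
        · exact h2 N L' hN hL (by omega) hlog x
        · exact h2 N L' hN (by omega) hLN hlogM x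
      rw [div_le_iff₀ hM0]
      refine e1.trans ?_
      apply mul_le_mul_of_nonneg_left _ (by linarith)
      rcases hL' with rfl | rfl
      · rw [hMr]; linarith
      · exact le_rfl
    linarith

end Pool.Agent.NH16
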