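import Pool.Agent.NH16.Up1

/-!
# Part 1: the coefficients
-/

set_option autoImplicit false

namespace Pool.Agent.NH16

open Finset
open Pool.Agent.Helper602.MK
open Pool.Agent.Helper602.MK.N_J5b
open Pool.Agent.H386R2.HL
open Pool.Agent.H387R2.Uni (WW WW_pos WW_factors totient_WW)

/-- the exponent -/
noncomputable def tk (k : ℕ) : ℝ := (2 * (k : ℝ) + 3) / (k + 2) * (((k : ℝ) + 2) / (k + 1))

lemma tk_gt (k : ℕ) : 2 < tk k := by
  unfold tk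
  have hk : (0 : ℝ) ≤ k := Nat.cast_nonneg k
  rw [div_mul_div_comm, lt_div_iff₀ (by positivity)]
  nlinarith

/-- the product of the normalised transforms -/
noncomputable def Gx (M : ℕ) [NeZero M] (L : ℕ) {k : ℕ} (g0 : ℤ → ℂ) (u : Fin (k + 1) → ℤ → ℂ) (x : ℤ)
    (ξ : Fin (k + 1) → ZMod M) : ℝ :=
  (‖zft M g0 x L (-∑ i, ξ i)‖ / M) * ∏ i, (‖zft M (u i) x M (ξ i)‖ / M)

lemma Gx_nonneg (M : ℕ) [NeZero M] (L : ℕ) {k : ℕ} (g0 : ℤ → ℂ) (u : Fin (k + 1) → ℤ → ℂ) (x : ℤ)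
    (ξ : Fin (k + 1) → ZMod M) : 0 ≤ Gx M L g0 u x ξ := by
  unfold Gx
  positivity

lemma cf_le (M : ℕ) [NeZero M] (N L : ℕ) (hM : M = 2 * L) (hN : 0 < N) {k : ℕ} (g0 : ℤ → ℂ)
    (u : Fin (k + 1) → ℤ → ℂ) (ξ : Fin (k + 1) → ZMod M) :
    ‖cf M N L g0 u ξ‖ ≤ (2 / N) * ∑ x ∈ Ico (-(L : ℤ)) N, Gx M L g0 u x ξ := by
  have hM' : 0 < M := Nat.pos_of_ne_zero (NeZero.ne M)
  have hN0 : (0 : ℝ) < N := by exact_mod_cast hN
  have hMr : (M : ℝ) = 2 * L := by rw [hM]; push_cast; rfl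
  have hM0 : (0 : ℝ) < M := by exact_mod_cast hM'
  have hL0 : (0 : ℝ) < L := by linarith
  unfold cf
  rw [norm_div, norm_mul, Complex.norm_natCast, Complex.norm_natCast]
  have h1 : ‖∑ x ∈ Ico (-(L : ℤ)) N, zft M g0 x L (-∑ i, ξ i) * ∏ i, ((1 / (M : ℂ)) * zft M (u i) x M (ξ i))‖ ≤
      M * ∑ x ∈ Ico (-(L : ℤ)) N, Gx M L g0 u x ξ := by
    refine (norm_sum_le _ _).trans ?_
    rw [mul_sum]
    apply sum_le_sum
    intro x _
    rw [norm_mul, norm_prod]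
    unfold Gx
    apply le_of_eq
    have e1 : ∏ i, ‖(1 / (M : ℂ)) * zft M (u i) x M (ξ i)‖ = ∏ i, (‖zft M (u i) x M (ξ i)‖ / M) := by
      apply prod_congr rfl
      intro i _
      rw [norm_mul, norm_div, norm_one, Complex.norm_natCast]
      ring
    rw [e1]
    field_simp
  rw [div_le_iff₀ (by positivity)]
  refine h1.trans (le_of_eq ?_)
  rw [hMr]
  field_simp

/-- `ℓ^q` bound of the coefficients -/
theorem cf_core (k : ℕ) (M : ℕ) [NeZero M] (N L : ℕ) (hM : M = 2 * L) (hN : 0 < N) (hLN : L ≤ N) (D : ℝ) (hD : 0 ≤ D)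
    (g0 : ℤ → ℂ) (u : Fin (k + 1) → ℤ → ℂ)
    (h0 : ∀ x, ∑ ξ : ZMod M, (‖zft M g0 x L ξ‖ / M) ^ tk k ≤ D)
    (hu : ∀ i x, ∑ ξ : ZMod M, (‖zft M (u i) x M ξ‖ / M) ^ tk k ≤ D) :
    ∑ ξ : Fin (k + 1) → ZMod M, ‖cf M N L g0 u ξ‖ ^ ((2 * (k : ℝ) + 3) / (k + 2)) ≤ 16 * ((k + 2) * D ^ (k + 1)) := by
  have htk : tk k = (2 * (k : ℝ) + 3) / (k + 2) * (((k : ℝ) + 2) / (k + 1)) := rfl
  set q : ℝ := (2 * (k : ℝ) + 3) / (k + 2) with hq
  set p : ℝ := ((k : ℝ) + 2) / (k + 1) with hp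
  have hk : (0 : ℝ) ≤ k := Nat.cast_nonneg k
  have hq1 : 1 ≤ q := by rw [hq, le_div_iff₀ (by positivity)]; linarith
  have hq2 : q < 2 := by rw [hq, div_lt_iff₀ (by positivity)]; linarith
  have hN0 : (0 : ℝ) < N := by exact_mod_cast hN
  have hM' : 0 < M := Nat.pos_of_ne_zero (NeZero.ne M)
  have hM0 : (0 : ℝ) < M := by exact_mod_cast hM'
  have hGq : ∀ x : ℤ, ∑ ξ, Gx M L g0 u x ξ ^ q ≤ (k + 2) * D ^ (k + 1) := by
    intro x
    have h1 := young k (fun a : ZMod M => (‖zft M g0 x L a‖ / M) ^ q) (fun a => by positivity)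
      (fun i a => (‖zft M (u i) x M a‖ / M) ^ q) (fun i a => by positivity) D hD
      (by
        refine le_trans (le_of_eq ?_) (h0 x)
        apply sum_congr rfl
        intro a _
        rw [← Real.rpow_mul (by positivity), htk])
      (by
        intro i
        refine le_trans (le_of_eq ?_) (hu i x)
        apply sum_congr rfl
        intro a _
        rw [← Real.rpow_mul (by positivity), htk])
    refine le_trans (le_of_eq ?_) h1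
    apply sum_congr rfl
    intro ξ _
    unfold Gx
    rw [Real.mul_rpow (by positivity) (by positivity), Real.finsetProd_rpow _ _ (fun i _ => by positivity)]
  set S : Finset ℤ := Ico (-(L : ℤ)) N with hS
  have hScard : (S.card : ℝ) ≤ 2 * N := by
    rw [hS, card_win]
    have : (L : ℝ) ≤ N := by exact_mod_cast hLN
    linarith
  have hjen : ∀ ξ, ‖cf M N L g0 u ξ‖ ^ q ≤ (2 / N) ^ q * ((2 * N) ^ (q - 1) * ∑ x ∈ S, Gx M L g0 u x ξ ^ q) := by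
    intro ξ
    have hs0 : 0 ≤ ∑ x ∈ S, Gx M L g0 u x ξ := sum_nonneg fun x _ => Gx_nonneg M L g0 u x ξ
    calc ‖cf M N L g0 u ξ‖ ^ q ≤ ((2 / N) * ∑ x ∈ S, Gx M L g0 u x ξ) ^ q :=
          Real.rpow_le_rpow (norm_nonneg _) (cf_le M N L hM hN g0 u ξ) (by linarith)
      _ = (2 / N) ^ q * (∑ x ∈ S, Gx M L g0 u x ξ) ^ q := by
          rw [Real.mul_rpow (by positivity) hs0]
      _ ≤ _ := by
          apply mul_le_mul_of_nonneg_left _ (by positivity)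
          have h2 := Real.rpow_sum_le_const_mul_sum_rpow S (fun x => Gx M L g0 u x ξ) hq1
          have e1 : ∀ x, |Gx M L g0 u x ξ| = Gx M L g0 u x ξ := fun x => abs_of_nonneg (Gx_nonneg M L g0 u x ξ)
          simp only [e1] at h2
          refine h2.trans ?_
          apply mul_le_mul_of_nonneg_right _ (sum_nonneg fun x _ => Real.rpow_nonneg (Gx_nonneg M L g0 u x ξ) _)
          exact Real.rpow_le_rpow (Nat.cast_nonneg _) hScard (by linarith)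
  calc ∑ ξ, ‖cf M N L g0 u ξ‖ ^ q ≤ ∑ ξ, (2 / N) ^ q * ((2 * N) ^ (q - 1) * ∑ x ∈ S, Gx M L g0 u x ξ ^ q) :=
        sum_le_sum fun ξ _ => hjen ξ
    _ = (2 / N) ^ q * ((2 * N) ^ (q - 1) * ∑ x ∈ S, ∑ ξ, Gx M L g0 u x ξ ^ q) := by
        rw [← mul_sum, ← mul_sum, sum_comm]
    _ ≤ (2 / N) ^ q * ((2 * N) ^ (q - 1) * ∑ _x ∈ S, ((k + 2) * D ^ (k + 1))) := by
        gcongr with x _
        exact hGq x
    _ = (2 / N) ^ q * ((2 * N) ^ (q - 1) * (S.card * ((k + 2) * D ^ (k + 1)))) := by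
        rw [sum_const, nsmul_eq_mul]
    _ ≤ (2 / N) ^ q * ((2 * N) ^ (q - 1) * (2 * N * ((k + 2) * D ^ (k + 1)))) := by
        gcongr
    _ = 4 ^ q * ((k + 2) * D ^ (k + 1)) := by
        have e1 : (2 * (N : ℝ)) ^ (q - 1) * (2 * N) = (2 * (N : ℝ)) ^ q := by
          nth_rewrite 2 [← Real.rpow_one (2 * (N : ℝ))]
          rw [← Real.rpow_add (by positivity)]
          congr 1
          ring
        have e2 : (2 / (N : ℝ)) ^ q * (2 * (N : ℝ)) ^ q = 4 ^ q := by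
          rw [← Real.mul_rpow (by positivity) (by positivity)]
          congr 1
          field_simp
          norm_num
        calc (2 / (N : ℝ)) ^ q * ((2 * N) ^ (q - 1) * (2 * N * ((k + 2) * D ^ (k + 1)))) =
            (2 / (N : ℝ)) ^ q * ((2 * (N : ℝ)) ^ (q - 1) * (2 * N)) * ((k + 2) * D ^ (k + 1)) := by ring
          _ = _ := by rw [e1, e2]
    _ ≤ 16 * ((k + 2) * D ^ (k + 1)) := by
        apply mul_le_mul_of_nonneg_right _ (by positivity)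
        calc (4 : ℝ) ^ q ≤ 4 ^ (2 : ℝ) := Real.rpow_le_rpow_of_exponent_le (by norm_num) hq2.le
          _ = 16 := by norm_num

/-- the factors -/
noncomputable def fac (M : ℕ) [NeZero M] (L : ℕ) {k : ℕ} (g0 : ℤ → ℂ) (u : Fin (k + 1) → ℤ → ℂ) (x : ℤ)
    (ξ : Fin (k + 1) → ZMod M) : Fin (k + 2) → ℝ :=
  Fin.cons (α := fun _ => ℝ) (‖zft M g0 x L (-∑ i, ξ i)‖ / M) (fun i => ‖zft M (u i) x M (ξ i)‖ / M)

lemma Gx_fac (M : ℕ) [NeZero M] (L : ℕ) {k : ℕ} (g0 : ℤ → ℂ) (u : Fin (k + 1) → ℤ → ℂ) (x : ℤ)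
    (ξ : Fin (k + 1) → ZMod M) : Gx M L g0 u x ξ = ∏ j, fac M L g0 u x ξ j := by
  rw [Fin.prod_univ_succ]
  rfl

/-- sup bound of the coefficients -/
theorem cf_sup (k : ℕ) (M : ℕ) [NeZero M] (N L : ℕ) (hM : M = 2 * L) (hN : 0 < N) (hLN : L ≤ N) (S κ : ℝ) (hS : 0 ≤ S)
    (hκ : 0 ≤ κ) (g0 : ℤ → ℂ) (u : Fin (k + 1) → ℤ → ℂ) (ξ : Fin (k + 1) → ZMod M) (j : Fin (k + 2))
    (h : ∀ x i, fac M L g0 u x ξ i ≤ S) (hj : ∑ x ∈ Ico (-(L : ℤ)) N, fac M L g0 u x ξ j ^ 2 ≤ N * κ) :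
    ‖cf M N L g0 u ξ‖ ≤ 3 * S ^ (k + 1) * √κ := by
  have hN0 : (0 : ℝ) < N := by exact_mod_cast hN
  have hf0 : ∀ x i, 0 ≤ fac M L g0 u x ξ i := by
    intro x i
    unfold fac
    refine Fin.cases ?_ (fun i' => ?_) i
    · simp only [Fin.cons_zero]; positivity
    · simp only [Fin.cons_succ]; positivity
  refine (cf_le M N L hM hN g0 u ξ).trans ?_
  have h1 : ∀ x ∈ Ico (-(L : ℤ)) N, Gx M L g0 u x ξ ≤ S ^ (k + 1) * fac M L g0 u x ξ j := by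
    intro x _
    rw [Gx_fac, Fin.prod_univ_succAbove _ j, mul_comm]
    apply mul_le_mul_of_nonneg_right _ (hf0 x j)
    calc ∏ i, fac M L g0 u x ξ (j.succAbove i) ≤ ∏ _i : Fin (k + 1), S :=
          prod_le_prod (fun i _ => hf0 _ _) (fun i _ => h _ _)
      _ = S ^ (k + 1) := by rw [prod_const, card_univ, Fintype.card_fin]
  have h2 : ∑ x ∈ Ico (-(L : ℤ)) N, fac M L g0 u x ξ j ≤ (3 / 2) * N * √κ := by
    have c1 := sum_mul_sq_le_sq_mul_sq (Ico (-(L : ℤ)) N) (fun _ => (1 : ℝ)) (fun x => fac M L g0 u x ξ j)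
    simp only [one_mul, one_pow, sum_const, nsmul_eq_mul, mul_one] at c1
    rw [card_win] at c1
    have hLN3 : (L : ℝ) ≤ N := by exact_mod_cast hLN
    have hs0 : 0 ≤ ∑ x ∈ Ico (-(L : ℤ)) N, fac M L g0 u x ξ j ^ 2 := sum_nonneg fun _ _ => sq_nonneg _
    have c3 : (∑ x ∈ Ico (-(L : ℤ)) N, fac M L g0 u x ξ j) ^ 2 ≤ ((3 / 2) * N * √κ) ^ 2 := by
      refine c1.trans ?_
      rw [mul_pow, mul_pow, Real.sq_sqrt hκ]
      calc ((N : ℝ) + L) * ∑ x ∈ Ico (-(L : ℤ)) N, fac M L g0 u x ξ j ^ 2 ≤ (2 * N) * (N * κ) := by gcongr; linarith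
        _ ≤ (3 / 2) ^ 2 * (N : ℝ) ^ 2 * κ := by nlinarith [mul_nonneg (sq_nonneg (N : ℝ)) hκ]
    exact le_of_sq_le_sq c3 (by positivity)
  calc (2 / (N : ℝ)) * ∑ x ∈ Ico (-(L : ℤ)) N, Gx M L g0 u x ξ ≤
      (2 / (N : ℝ)) * ∑ x ∈ Ico (-(L : ℤ)) N, S ^ (k + 1) * fac M L g0 u x ξ j := by
        apply mul_le_mul_of_nonneg_left (sum_le_sum h1) (by positivity)
    _ = (2 / (N : ℝ)) * (S ^ (k + 1) * ∑ x ∈ Ico (-(L : ℤ)) N, fac M L g0 u x ξ j) := by rw [← mul_sum]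
    _ ≤ (2 / (N : ℝ)) * (S ^ (k + 1) * ((3 / 2) * N * √κ)) := by gcongr
    _ = 3 * S ^ (k + 1) * √κ := by field_simp

/-- the sum over the box of side `L` -/
theorem box_l2 (k : ℕ) (M : ℕ) [NeZero M] (N L : ℕ) (hM : M = 2 * L) (hN : 0 < N) (g0 : ℤ → ℂ)
    (hg0 : ∀ n, ¬ (1 ≤ n ∧ n ≤ (N : ℤ)) → g0 n = 0) (u : Fin (k + 1) → ℤ → ℂ) :
    ∑ t : Fin (k + 1) → Fin L, ‖(∑ n ∈ Icc (1 : ℤ) N, g0 n * ∏ i, u i (n + bx t i)) / N‖ ^ 2 ≤
      (M : ℝ) ^ (k + 1) * ∑ ξ : Fin (k + 1) → ZMod M, ‖cf M N L g0 u ξ‖ ^ 2 := by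
  classical
  have hM' : 0 < M := Nat.pos_of_ne_zero (NeZero.ne M)
  have hL : 0 < L := by omega
  rw [← mpoly_parseval univ (fun ξ => cf M N L g0 u ξ)]
  have h1 : ∀ t : Fin (k + 1) → Fin L, ‖(∑ n ∈ Icc (1 : ℤ) N, g0 n * ∏ i, u i (n + bx t i)) / N‖ ^ 2 =
      ‖∑ ξ : Fin (k + 1) → ZMod M, cf M N L g0 u ξ * ch (-∑ i, ξ i * ((bx t i : ℕ) : ZMod M))‖ ^ 2 := by
    intro t
    rw [cf_rep M N L hN hL (by omega) g0 hg0 u (bx t) (fun i => (bx_mem t i).2)]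
  rw [sum_congr rfl (fun t _ => h1 t)]
  set ι : (Fin (k + 1) → Fin L) → (Fin (k + 1) → ZMod M) := fun t i => ((bx t i : ℕ) : ZMod M) with hι
  have hinj : Function.Injective ι := by
    intro t t' h
    apply bx_inj
    funext i
    have h2 := congrFun h i
    rw [hι] at h2
    simp only at h2
    rw [ZMod.natCast_eq_natCast_iff'] at h2
    have := bx_mem t i
    have := bx_mem t' i
    rwa [Nat.mod_eq_of_lt (by omega), Nat.mod_eq_of_lt (by omega)] at h2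
  rw [← sum_image (f := fun h : Fin (k + 1) → ZMod M => ‖∑ ξ : Fin (k + 1) → ZMod M, cf M N L g0 u ξ * ch (-∑ i, ξ i * h i)‖ ^ 2)
    (g := ι) (s := univ) (fun a _ b _ hab => hinj hab)]
  exact sum_le_sum_of_subset_of_nonneg (subset_univ _) (fun _ _ _ => by positivity)

/-- main bound for a box -/
theorem box_main (k : ℕ) (M : ℕ) [NeZero M] (N L : ℕ) (hM : M = 2 * L) (hN : 0 < N) (hLN : L ≤ N) (D S κ : ℝ) (hD : 0 ≤ D)
    (hS : 0 ≤ S) (hκ : 0 ≤ κ) (φ : Fin (k + 2) → ℤ → ℂ) (hφ0 : ∀ n, ¬ (1 ≤ n ∧ n ≤ (N : ℤ)) → φ 0 n = 0)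
    (hφ : ∀ i, Nice M L (tk k) D S (φ i)) (j : Fin (k + 2))
    (hj : ∀ (L' : ℕ), L' = L ∨ L' = M → ∀ ξ : ZMod M, ∑ x ∈ Ico (-(L : ℤ)) N, (‖zft M (φ j) x L' ξ‖ / M) ^ 2 ≤ N * κ) :
    ∑ t : Fin (k + 1) → Fin L, ‖(∑ n ∈ Icc (1 : ℤ) N, φ 0 n * ∏ i : Fin (k + 1), φ i.succ (n + bx t i)) / N‖ ≤
      (L : ℝ) ^ (k + 1) * √(2 ^ (k + 1) * ((3 * S ^ (k + 1) * √κ) ^ (1 / ((k : ℝ) + 2)) * (16 * ((k + 2) * D ^ (k + 1))))) := by
  have hM' : 0 < M := Nat.pos_of_ne_zero (NeZero.ne M)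
  have hL : 0 < L := by omega
  have hL0 : (0 : ℝ) < L := by exact_mod_cast hL
  have hMr : (M : ℝ) = 2 * L := by rw [hM]; push_cast; rfl
  have hk : (0 : ℝ) ≤ k := Nat.cast_nonneg k
  set q : ℝ := (2 * (k : ℝ) + 3) / (k + 2) with hq
  have h2q : 2 - q = 1 / ((k : ℝ) + 2) := by rw [hq]; field_simp; ring
  have hq0 : 0 < q := by rw [hq]; positivity
  set u : Fin (k + 1) → ℤ → ℂ := fun i => φ i.succ with hu
  have h1 := cf_core k M N L hM hN hLN D hD (φ 0) u (fun x => (hφ 0).lt x L (Or.inl rfl))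
    (fun i x => (hφ i.succ).lt x M (Or.inr rfl))
  set B : ℝ := 3 * S ^ (k + 1) * √κ with hB
  have hB0 : 0 ≤ B := by rw [hB]; positivity
  have hfac : ∀ (ξ : Fin (k + 1) → ZMod M) x i, fac M L (φ 0) u x ξ i ≤ S := by
    intro ξ x i
    unfold fac
    refine Fin.cases ?_ (fun i' => ?_) i
    · simp only [Fin.cons_zero]
      exact (hφ 0).sup x L (Or.inl rfl) _
    · simp only [Fin.cons_succ]
      exact (hφ i'.succ).sup x M (Or.inr rfl) _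
  have h2 : ∀ ξ, ‖cf M N L (φ 0) u ξ‖ ≤ B := by
    intro ξ
    refine cf_sup k M N L hM hN hLN S κ hS hκ (φ 0) u ξ j (hfac ξ) ?_
    unfold fac
    revert hj
    refine Fin.cases ?_ (fun j' => ?_) j
    · intro hj
      simp only [Fin.cons_zero]
      exact hj L (Or.inl rfl) _
    · intro hj
      simp only [Fin.cons_succ]
      exact hj M (Or.inr rfl) _
  have h3 : ∑ ξ : Fin (k + 1) → ZMod M, ‖cf M N L (φ 0) u ξ‖ ^ 2 ≤ B ^ (1 / ((k : ℝ) + 2)) * (16 * ((k + 2) * D ^ (k + 1))) := by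
    calc ∑ ξ : Fin (k + 1) → ZMod M, ‖cf M N L (φ 0) u ξ‖ ^ 2 ≤ ∑ ξ : Fin (k + 1) → ZMod M, B ^ (1 / ((k : ℝ) + 2)) * ‖cf M N L (φ 0) u ξ‖ ^ q := by
          apply sum_le_sum
          intro ξ _
          have hz : 0 ≤ ‖cf M N L (φ 0) u ξ‖ := norm_nonneg _
          rcases eq_or_lt_of_le hz with hz0 | hz0
          · rw [← hz0, Real.zero_rpow hq0.ne']
            simp
          · have e1 : ‖cf M N L (φ 0) u ξ‖ ^ 2 = ‖cf M N L (φ 0) u ξ‖ ^ (2 - q) * ‖cf M N L (φ 0) u ξ‖ ^ q := by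
              rw [← Real.rpow_natCast, ← Real.rpow_add hz0]
              congr 1
              push_cast
              ring
            rw [e1, h2q]
            apply mul_le_mul_of_nonneg_right _ (by positivity)
            exact Real.rpow_le_rpow hz (h2 ξ) (by positivity)
      _ = B ^ (1 / ((k : ℝ) + 2)) * ∑ ξ : Fin (k + 1) → ZMod M, ‖cf M N L (φ 0) u ξ‖ ^ q := by rw [mul_sum]
      _ ≤ _ := by
          apply mul_le_mul_of_nonneg_left h1 (by positivity)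
  have h4 := box_l2 k M N L hM hN (φ 0) hφ0 u
  set X : ℝ := B ^ (1 / ((k : ℝ) + 2)) * (16 * ((k + 2) * D ^ (k + 1))) with hX
  have hX0 : 0 ≤ X := by rw [hX]; positivity
  set F : (Fin (k + 1) → Fin L) → ℝ := fun t => ‖(∑ n ∈ Icc (1 : ℤ) N, φ 0 n * ∏ i, u i (n + bx t i)) / N‖ with hF
  have h5 : ∑ t, F t ^ 2 ≤ (M : ℝ) ^ (k + 1) * X := h4.trans (mul_le_mul_of_nonneg_left h3 (by positivity))
  have c1 := sum_mul_sq_le_sq_mul_sq (univ : Finset (Fin (k + 1) → Fin L)) (fun _ => (1 : ℝ)) F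
  simp only [one_mul, one_pow, sum_const, nsmul_eq_mul, mul_one, card_univ, Fintype.card_fun, Fintype.card_fin] at c1
  push_cast at c1
  have c3 : (∑ t, F t) ^ 2 ≤ ((L : ℝ) ^ (k + 1) * √(2 ^ (k + 1) * X)) ^ 2 := by
    refine c1.trans ?_
    rw [mul_pow, Real.sq_sqrt (by positivity)]
    calc (L : ℝ) ^ (k + 1) * ∑ t, F t ^ 2 ≤ (L : ℝ) ^ (k + 1) * ((M : ℝ) ^ (k + 1) * X) :=
          mul_le_mul_of_nonneg_left h5 (by positivity)
      _ = _ := by rw [hMr, mul_pow]; ring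
  exact le_of_sq_le_sq c3 (by positivity)

end Pool.Agent.NH16
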