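import Pool.Agent.NH16.Up2

/-!
# Part 1: boxes
-/

set_option autoImplicit false

namespace Pool.Agent.NH16

open Finset
open Pool.Agent.Helper602.MK
open Pool.Agent.Helper602.MK.N_J5b
open Pool.Agent.H386R2.HL
open Pool.Agent.H387R2.Uni (WW WW_pos WW_factors totient_WW)

lemma sum_shift_le (N L : ℕ) (f : ℤ → ℝ) (hf : ∀ x, 0 ≤ f x) (hf0 : ∀ x, x ∉ Ico (-(L : ℤ)) N → f x = 0) (b : ℤ) :
    ∑ x ∈ Ico (-(L : ℤ)) N, f (x + b) ≤ ∑ x ∈ Ico (-(L : ℤ)) N, f x := by
  rw [← sum_image (f := f) (g := fun x : ℤ => x + b) (s := Ico (-(L : ℤ)) N) (fun a _ c _ hac => by simpa using hac)]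
  calc ∑ x ∈ (Ico (-(L : ℤ)) N).image (fun x => x + b), f x
      ≤ ∑ x ∈ (Ico (-(L : ℤ)) N).image (fun x => x + b) ∪ Ico (-(L : ℤ)) N, f x :=
        sum_le_sum_of_subset_of_nonneg subset_union_left (fun x _ _ => hf x)
    _ = ∑ x ∈ Ico (-(L : ℤ)) N, f x := by
        symm
        apply sum_subset subset_union_right
        intro x _ hx
        exact hf0 x hx

lemma zft_out (M : ℕ) [NeZero M] (N L y : ℕ) (x : ℤ) (hx : x ∉ Ico (-(L : ℤ)) N) (ξ : ZMod M) :
    zft M (Ec N y) x L ξ = 0 := by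
  unfold zft
  apply sum_eq_zero
  intro n hn
  rw [mem_Ioc] at hn
  rw [mem_Ico] at hx
  have : Ez N y n = 0 := by
    apply Ez_out
    intro h
    apply hx
    omega
  unfold Ec
  rw [this]
  simp

lemma zft_Tn (M : ℕ) [NeZero M] (N L y : ℕ) (hN : 0 < N) (hL : 0 < L) (T : ℝ) (hT : ∀ α, Tn N L y α ≤ T) (ξ : ZMod M) :
    ∑ x ∈ Ico (-(L : ℤ)) N, ‖zft M (Ec N y) x L ξ‖ ^ 2 ≤ T * (N * (L : ℝ) ^ 2) := by
  have hN0 : (0 : ℝ) < N := by exact_mod_cast hN
  have hL0 : (0 : ℝ) < L := by exact_mod_cast hL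
  have h1 := hT ((ξ.val : ℝ) / M)
  unfold Tn at h1
  rw [div_le_iff₀ (by positivity)] at h1
  refine le_trans (le_of_eq ?_) h1
  apply sum_congr rfl
  intro x _
  congr 2
  unfold zft
  apply sum_congr rfl
  intro n _
  rw [ch_mul_int]
  unfold Ec
  congr 2
  ring

theorem kap (M : ℕ) [NeZero M] (N L y : ℕ) (hM : M = 2 * L) (hN : 0 < N) (T : ℝ) (hT0 : 0 ≤ T)
    (hT : ∀ α, Tn N L y α ≤ T) (b : ℤ) (L' : ℕ) (hL' : L' = L ∨ L' = M) (ξ : ZMod M) :
    ∑ x ∈ Ico (-(L : ℤ)) N, (‖zft M (Ec N y) (x + b) L' ξ‖ / M) ^ 2 ≤ N * T := by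
  have hM' : 0 < M := Nat.pos_of_ne_zero (NeZero.ne M)
  have hL : 0 < L := by omega
  have hL0 : (0 : ℝ) < L := by exact_mod_cast hL
  have hN0 : (0 : ℝ) < N := by exact_mod_cast hN
  have hMr : (M : ℝ) = 2 * L := by rw [hM]; push_cast; rfl
  have h1 : ∀ c : ℤ, ∑ x ∈ Ico (-(L : ℤ)) N, ‖zft M (Ec N y) (x + c) L ξ‖ ^ 2 ≤ T * (N * (L : ℝ) ^ 2) := by
    intro c
    refine (sum_shift_le N L (fun x => ‖zft M (Ec N y) x L ξ‖ ^ 2) (fun x => by positivity) (fun x hx => by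
      rw [zft_out M N L y x hx ξ]; simp) c).trans ?_
    exact zft_Tn M N L y hN hL T hT ξ
  have h2 : ∑ x ∈ Ico (-(L : ℤ)) N, ‖zft M (Ec N y) (x + b) L' ξ‖ ^ 2 ≤ 4 * (T * (N * (L : ℝ) ^ 2)) := by
    rcases hL' with rfl | rfl
    · have := h1 b
      have h3 : 0 ≤ T * (N * (L' : ℝ) ^ 2) := by positivity
      linarith
    · have e1 : ∀ x : ℤ, ‖zft L' (Ec N y) (x + b) L' ξ‖ ^ 2 ≤
          2 * ‖zft L' (Ec N y) (x + b) L ξ‖ ^ 2 + 2 * ‖zft L' (Ec N y) (x + (b + L)) L ξ‖ ^ 2 := by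
        intro x
        have e2 : zft L' (Ec N y) (x + b) L' ξ = zft L' (Ec N y) (x + b) L ξ + zft L' (Ec N y) (x + (b + L)) L ξ := by
          unfold zft
          have e3 : Ioc (x + b) (x + b + (L' : ℤ)) = Ioc (x + b) (x + b + L) ∪ Ioc (x + (b + L)) (x + (b + L) + L) := by
            ext n
            rw [mem_union, mem_Ioc, mem_Ioc, mem_Ioc]
            omega
          rw [e3, sum_union]
          rw [disjoint_left]
          intro n hn1 hn2
          rw [mem_Ioc] at hn1 hn2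
          omega
        rw [e2]
        have h5 := norm_add_le (zft L' (Ec N y) (x + b) L ξ) (zft L' (Ec N y) (x + (b + L)) L ξ)
        have h6 := norm_nonneg (zft L' (Ec N y) (x + b) L ξ + zft L' (Ec N y) (x + (b + L)) L ξ)
        nlinarith [sq_nonneg (‖zft L' (Ec N y) (x + b) L ξ‖ - ‖zft L' (Ec N y) (x + (b + L)) L ξ‖)]
      refine (sum_le_sum fun x _ => e1 x).trans ?_
      rw [sum_add_distrib, ← mul_sum, ← mul_sum]
      have := h1 b
      have := h1 (b + L)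
      linarith
  have e1 : ∑ x ∈ Ico (-(L : ℤ)) N, (‖zft M (Ec N y) (x + b) L' ξ‖ / M) ^ 2 =
      (∑ x ∈ Ico (-(L : ℤ)) N, ‖zft M (Ec N y) (x + b) L' ξ‖ ^ 2) / M ^ 2 := by
    rw [sum_div]
    apply sum_congr rfl
    intro x _
    rw [div_pow]
  rw [e1, div_le_iff₀ (by rw [hMr]; positivity)]
  refine h2.trans (le_of_eq ?_)
  rw [hMr]
  ring

/-- the `i`-th function of the `j`-th term of the telescoping sum -/
noncomputable def tel {E : Type*} {m : ℕ} (u v e : E) (j i : Fin m) : E := if i < j then u else if i = j then e else v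

lemma telescope {m : ℕ} (u v : Fin m → ℝ) :
    ∏ i, u i - ∏ i, v i = ∑ j, ∏ i, (if i < j then u i else if i = j then u i - v i else v i) := by
  induction m with
  | zero => simp
  | succ m ih =>
    rw [Fin.prod_univ_succ, Fin.prod_univ_succ, Fin.sum_univ_succ]
    have e1 : ∏ i : Fin (m + 1), (if i < 0 then u i else if i = 0 then u i - v i else v i) =
        (u 0 - v 0) * ∏ i : Fin m, v i.succ := by
      rw [Fin.prod_univ_succ]
      simp [Fin.succ_ne_zero]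
    have e2 : ∀ j : Fin m, ∏ i : Fin (m + 1), (if i < j.succ then u i else if i = j.succ then u i - v i else v i) =
        u 0 * ∏ i : Fin m, (if i < j then u i.succ else if i = j then u i.succ - v i.succ else v i.succ) := by
      intro j
      rw [Fin.prod_univ_succ, if_pos (Fin.succ_pos j)]
      simp only [Fin.succ_lt_succ_iff, Fin.succ_inj]
    rw [e1, sum_congr rfl (fun j _ => e2 j), ← mul_sum, ← ih (fun i => u i.succ) (fun i => v i.succ)]
    ring

/-- the functions of the telescoping sum -/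
noncomputable def phi (N y : ℕ) {m : ℕ} (j : Fin m) (i : Fin m) : ℤ → ℝ :=
  if i < j then Uz N else if i = j then Ez N y else Vz N (WW y)

lemma phi_out (N y : ℕ) {m : ℕ} (j i : Fin m) (n : ℤ) (hn : ¬ (1 ≤ n ∧ n ≤ (N : ℤ))) : phi N y j i n = 0 := by
  unfold phi
  split_ifs
  · exact Uz_out N n hn
  · exact Ez_out N y n hn
  · exact Vz_out N _ n hn

lemma prod_diff (N y : ℕ) {m : ℕ} (z : Fin m → ℤ) :
    ∏ i, Uz N (z i) - ∏ i, Vz N (WW y) (z i) = ∑ j, ∏ i, phi N y j i (z i) := by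
  rw [telescope]
  apply sum_congr rfl
  intro j _
  apply prod_congr rfl
  intro i _
  unfold phi
  split_ifs <;> rfl

/-- shifting the variable -/
lemma shift_cor (N y H : ℕ) {k : ℕ} (j : Fin (k + 2)) (a0 : ℕ) (h1 : 1 ≤ a0) (h2 : a0 ≤ H) (c : Fin (k + 1) → ℤ) :
    ∑ x ∈ Ico (-(H : ℤ)) N, phi N y j 0 (x + a0) * ∏ i : Fin (k + 1), phi N y j i.succ (x + a0 + c i) =
      ∑ n ∈ Icc 1 N, phi N y j 0 (n : ℤ) * ∏ i : Fin (k + 1), phi N y j i.succ ((n : ℤ) + c i) := by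
  exact shift_sum (fun n => phi N y j 0 n * ∏ i : Fin (k + 1), phi N y j i.succ (n + c i)) N H a0 (by
    intro n hn
    rw [phi_out N y j 0 n hn, zero_mul]) h1 h2

/-- the bound -/
noncomputable def BB (k : ℕ) (D S T : ℝ) : ℝ :=
  √(2 ^ (k + 1) * ((3 * S ^ (k + 1) * √T) ^ (1 / ((k : ℝ) + 2)) * (16 * ((k + 2) * D ^ (k + 1)))))

/-- all the functions are nice -/
theorem phi_nice (k : ℕ) (ε : ℝ) (hε : 0 < ε) : ∃ C : ℝ, 1 ≤ C ∧ ∀ (M : ℕ) [NeZero M] (N L y : ℕ),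
    M = 2 * L → 2 ≤ N → 2 ^ 100 ≤ L → M ≤ N → ε * Real.log N ≤ Real.log L → ∀ j i : Fin (k + 2),
    Nice M L (tk k) (2 ^ tk k * (C + ((WW y : ℝ) / Nat.totient (WW y)) ^ tk k)) (C + (WW y : ℝ) / Nat.totient (WW y))
      (fun n => (phi N y j i n : ℂ)) := by
  obtain ⟨C, hC, h⟩ := Uc_nice (tk k) (tk_gt k) ε hε
  refine ⟨C, hC, ?_⟩
  intro M _ N L y hM hN hL hMN hlog j i
  have hU := h M N L hM hN hL hMN hlog
  have hV := Vc_nice (M := M) (tk k) (tk_gt k).le N y L (by omega)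
  have hE := hU.sub (by linarith [tk_gt k]) hV
  set ρ : ℝ := (WW y : ℝ) / Nat.totient (WW y) with hρ
  have hρ0 : 0 ≤ ρ := by rw [hρ]; positivity
  have h2t : (1 : ℝ) ≤ 2 ^ tk k := Real.one_le_rpow (by norm_num) (by linarith [tk_gt k])
  have hρt : 0 ≤ ρ ^ tk k := Real.rpow_nonneg hρ0 _
  unfold phi
  split_ifs with h1 h2
  · exact hU.mono (by nlinarith) (by linarith)
  · have e : (fun n => ((Ez N y n : ℝ) : ℂ)) = fun n => Uc N n - Vc N y n := Ec_eq N y
    rw [e]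
    exact hE
  · exact hV.mono (by nlinarith) (by linarith)

/-- the bound for one box -/
theorem one_box (k : ℕ) (M : ℕ) [NeZero M] (N L y H : ℕ) (hM : M = 2 * L) (hN : 0 < N) (hLN : L ≤ N) (D S T : ℝ)
    (hD : 0 ≤ D) (hS : 0 ≤ S) (hT0 : 0 ≤ T) (hT : ∀ α, Tn N L y α ≤ T)
    (hnice : ∀ j i : Fin (k + 2), Nice M L (tk k) D S (fun n => (phi N y j i n : ℂ)))
    (a0 : ℕ) (h1 : 1 ≤ a0) (h2 : a0 ≤ H) (b : Fin (k + 1) → ℕ) :
    ∑ t : Fin (k + 1) → Fin L, |Cr N H (Fin.cons (α := fun _ => ℕ) a0 (fun i => b i + bx t i)) -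
      Cv N (WW y) H (Fin.cons (α := fun _ => ℕ) a0 (fun i => b i + bx t i))| ≤
      (k + 2) * ((L : ℝ) ^ (k + 1) * BB k D S T) := by
  have hN0 : (0 : ℝ) < N := by exact_mod_cast hN
  -- the functions after the shift
  set c : Fin (k + 1) → ℤ := fun i => (b i : ℤ) - a0 with hc
  have key : ∀ t : Fin (k + 1) → Fin L, Cr N H (Fin.cons (α := fun _ => ℕ) a0 (fun i => b i + bx t i)) -
      Cv N (WW y) H (Fin.cons (α := fun _ => ℕ) a0 (fun i => b i + bx t i)) =
      ∑ j : Fin (k + 2), (∑ n ∈ Icc 1 N, phi N y j 0 (n : ℤ) * ∏ i : Fin (k + 1), phi N y j i.succ ((n : ℤ) + bx t i + c i)) / N := by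
    intro t
    unfold Cr Cv
    rw [← sub_div, ← sum_sub_distrib, ← sum_div]
    congr 1
    have e1 : ∀ x : ℤ, ∏ i, Uz N (x + (Fin.cons (α := fun _ => ℕ) a0 (fun i => b i + bx t i) i : ℕ)) -
        ∏ i, Vz N (WW y) (x + (Fin.cons (α := fun _ => ℕ) a0 (fun i => b i + bx t i) i : ℕ)) =
        ∑ j : Fin (k + 2), phi N y j 0 (x + a0) * ∏ i : Fin (k + 1), phi N y j i.succ (x + a0 + (bx t i + c i)) := by
      intro x
      rw [prod_diff N y (fun i => x + (Fin.cons (α := fun _ => ℕ) a0 (fun i => b i + bx t i) i : ℕ))]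
      apply sum_congr rfl
      intro j _
      rw [Fin.prod_univ_succ]
      simp only [Fin.cons_zero, Fin.cons_succ]
      congr 1
      apply prod_congr rfl
      intro i _
      congr 1
      rw [hc]
      push_cast
      ring
    rw [sum_congr rfl (fun x _ => e1 x), sum_comm]
    apply sum_congr rfl
    intro j _
    rw [shift_cor N y H j a0 h1 h2 (fun i => (bx t i : ℤ) + c i)]
    apply sum_congr rfl
    intro n _
    congr 1
    apply prod_congr rfl
    intro i _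
    congr 1
    ring
  have hbox : ∀ j : Fin (k + 2), ∑ t : Fin (k + 1) → Fin L,
      |(∑ n ∈ Icc 1 N, phi N y j 0 (n : ℤ) * ∏ i : Fin (k + 1), phi N y j i.succ ((n : ℤ) + bx t i + c i)) / N| ≤
      (L : ℝ) ^ (k + 1) * BB k D S T := by
    intro j
    set sh : Fin (k + 2) → ℤ := Fin.cons (α := fun _ => ℤ) 0 c with hsh
    set φ : Fin (k + 2) → ℤ → ℂ := fun i n => (phi N y j i (n + sh i) : ℂ) with hφ
    have hφn : ∀ i, Nice M L (tk k) D S (φ i) := fun i => (hnice j i).shift (sh i)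
    have hφ0 : ∀ n, ¬ (1 ≤ n ∧ n ≤ (N : ℤ)) → φ 0 n = 0 := by
      intro n hn
      rw [hφ]
      simp only
      have : sh 0 = 0 := by rw [hsh]; simp
      rw [this, add_zero, phi_out N y j 0 n hn]
      simp
    have hmain := box_main k M N L hM hN hLN D S T hD hS hT0 φ hφ0 hφn j (by
      intro L' hL' ξ
      have e1 : φ j = fun n => Ec N y (n + sh j) := by
        rw [hφ]
        funext n
        simp only
        unfold phi Ec
        rw [if_neg (lt_irrefl j), if_pos rfl]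
      rw [e1]
      simp only [zft_norm_shift]
      exact kap M N L y hM hN T hT0 hT (sh j) L' hL' ξ)
    refine le_trans (le_of_eq ?_) hmain
    apply sum_congr rfl
    intro t _
    rw [← Real.norm_eq_abs, ← Complex.norm_real]
    congr 1
    rw [sum_int_nat' N (fun n => φ 0 n * ∏ i : Fin (k + 1), φ i.succ (n + bx t i))]
    rw [hφ, hsh]
    simp only [Fin.cons_zero, Fin.cons_succ, add_zero]
    push_cast
    rfl
  rw [sum_congr rfl (fun t _ => by rw [key t])]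
  calc ∑ t : Fin (k + 1) → Fin L, |∑ j : Fin (k + 2), (∑ n ∈ Icc 1 N, phi N y j 0 (n : ℤ) *
        ∏ i : Fin (k + 1), phi N y j i.succ ((n : ℤ) + bx t i + c i)) / N|
      ≤ ∑ t : Fin (k + 1) → Fin L, ∑ j : Fin (k + 2), |(∑ n ∈ Icc 1 N, phi N y j 0 (n : ℤ) *
        ∏ i : Fin (k + 1), phi N y j i.succ ((n : ℤ) + bx t i + c i)) / N| :=
        sum_le_sum fun t _ => abs_sum_le_sum_abs _ _
    _ = ∑ j : Fin (k + 2), ∑ t : Fin (k + 1) → Fin L, |(∑ n ∈ Icc 1 N, phi N y j 0 (n : ℤ) *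
        ∏ i : Fin (k + 1), phi N y j i.succ ((n : ℤ) + bx t i + c i)) / N| := sum_comm
    _ ≤ ∑ _j : Fin (k + 2), (L : ℝ) ^ (k + 1) * BB k D S T := sum_le_sum fun j _ => hbox j
    _ = _ := by
        rw [sum_const, card_univ, Fintype.card_fin, nsmul_eq_mul]
        push_cast
        ring

end Pool.Agent.NH16
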