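import Pool.Agent.NH16.Mod

/-!
# Primes in almost all windows
-/

set_option autoImplicit false

namespace Pool.Agent.NH16

open Finset
open Pool.Agent.Helper602.MK
open Pool.Agent.Helper602.MK.N_J5b
open Pool.Agent.H386R2.HL
open Pool.Agent.H387R2.Uni (WW WW_pos WW_factors totient_WW)

/-- the exponential sum of the error over a window -/
noncomputable def Se (N L y : ℕ) (α : ℝ) (x : ℤ) : ℂ := ∑ n ∈ Ioc x (x + L), (Ez N y n : ℂ) * ee (α * n)

/-- the mean of the exponential sums over the windows -/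
noncomputable def Rs (N L y : ℕ) (α : ℝ) : ℝ := (∑ x ∈ Ico (-(L : ℤ)) N, ‖Se N L y α x‖) / (N * L)

lemma Rs_nonneg (N L y : ℕ) (α : ℝ) : 0 ≤ Rs N L y α :=
  div_nonneg (sum_nonneg fun _ _ => norm_nonneg _) (by positivity)

lemma Tn_eq (N L y : ℕ) (α : ℝ) : Tn N L y α = (∑ x ∈ Ico (-(L : ℤ)) N, ‖Se N L y α x‖ ^ 2) / (N * (L : ℝ) ^ 2) := rfl

lemma Tn_nonneg (N L y : ℕ) (α : ℝ) : 0 ≤ Tn N L y α := by
  rw [Tn_eq]
  exact div_nonneg (sum_nonneg fun _ _ => by positivity) (by positivity)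

lemma Rs_le_Tn (N L y : ℕ) (hN : 0 < N) (hL : 0 < L) (hLN : L ≤ N) (α : ℝ) : Rs N L y α ≤ 2 * √(Tn N L y α) := by
  have hN0 : (0 : ℝ) < N := by exact_mod_cast hN
  have hL0 : (0 : ℝ) < L := by exact_mod_cast hL
  have hT0 := Tn_nonneg N L y α
  have c1 := sum_mul_sq_le_sq_mul_sq (Ico (-(L : ℤ)) N) (fun _ => (1 : ℝ)) (fun x => ‖Se N L y α x‖)
  simp only [one_mul, one_pow, sum_const, nsmul_eq_mul, mul_one] at c1
  rw [card_win] at c1
  have hLN3 : (L : ℝ) ≤ N := by exact_mod_cast hLN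
  have e1 : ∑ x ∈ Ico (-(L : ℤ)) N, ‖Se N L y α x‖ ^ 2 = Tn N L y α * (N * (L : ℝ) ^ 2) := by
    rw [Tn_eq]
    field_simp
  rw [e1] at c1
  have c3 : (∑ x ∈ Ico (-(L : ℤ)) N, ‖Se N L y α x‖) ^ 2 ≤ (2 * √(Tn N L y α) * (N * L)) ^ 2 := by
    refine c1.trans ?_
    rw [mul_pow, mul_pow, Real.sq_sqrt hT0]
    calc ((N : ℝ) + L) * (Tn N L y α * (N * (L : ℝ) ^ 2)) ≤ (2 * N) * (Tn N L y α * (N * (L : ℝ) ^ 2)) := by
          gcongr; linarith
      _ ≤ 2 ^ 2 * Tn N L y α * (N * L) ^ 2 := by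
          have : 0 ≤ Tn N L y α * ((N : ℝ) * L) ^ 2 := by positivity
          nlinarith
  unfold Rs
  rw [div_le_iff₀ (by positivity)]
  exact le_of_sq_le_sq c3 (by positivity)

lemma Tn_le_Rs (N L y : ℕ) (hN : 0 < N) (hL : 0 < L) (α B : ℝ) (hB : ∀ x, ‖Se N L y α x‖ ≤ B * L) :
    Tn N L y α ≤ B * Rs N L y α := by
  have hN0 : (0 : ℝ) < N := by exact_mod_cast hN
  have hL0 : (0 : ℝ) < L := by exact_mod_cast hL
  rw [Tn_eq]
  unfold Rs
  rw [div_le_iff₀ (by positivity)]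
  calc ∑ x ∈ Ico (-(L : ℤ)) N, ‖Se N L y α x‖ ^ 2 ≤ ∑ x ∈ Ico (-(L : ℤ)) N, B * L * ‖Se N L y α x‖ := by
        apply sum_le_sum
        intro x _
        rw [pow_two]
        exact mul_le_mul_of_nonneg_right (hB x) (norm_nonneg _)
    _ = B * ((∑ x ∈ Ico (-(L : ℤ)) N, ‖Se N L y α x‖) / (N * L)) * (N * (L : ℝ) ^ 2) := by
        rw [← mul_sum]
        field_simp

/-- exponential sums over the primes of a window -/
noncomputable def PS (n L : ℕ) (α : ℝ) : ℂ := ∑ p ∈ (Ioc n (n + L)).filter Nat.Prime, ee (α * p)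

/-- primes of a window in a residue class -/
def PA (n L q a : ℕ) : ℕ := ((Ioc n (n + L)).filter (fun p => p.Prime ∧ p ≡ a [MOD q])).card

lemma sum_win_nat {E : Type*} [AddCommMonoid E] (n L : ℕ) (f : ℤ → E) :
    ∑ m ∈ Ioc (n : ℤ) (n + L), f m = ∑ m ∈ Ioc n (n + L), f (m : ℤ) := by
  symm
  apply sum_bij (fun (m : ℕ) _ => (m : ℤ))
  · intro m hm
    rw [mem_Ioc] at hm ⊢
    omega
  · intro a _ b _ hab
    exact_mod_cast hab
  · intro m hm
    rw [mem_Ioc] at hm
    exact ⟨m.toNat, by rw [mem_Ioc]; omega, by omega⟩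
  · intro m _
    rfl

lemma Uz_prime (N m : ℕ) (h1 : N.sqrt < m) (h2 : m ≤ N) : Uz N (m : ℤ) = if m.Prime then Real.log N else 0 := by
  rw [Uz_ite]
  have h3 : (1 : ℤ) ≤ m := by omega
  by_cases h : m.Prime
  · rw [if_pos h, if_pos]
    exact ⟨h3, by simpa using h2, by simpa using h1, by simpa using h⟩
  · rw [if_neg h, if_neg]
    rintro ⟨_, _, _, h4⟩
    exact h (by simpa using h4)

lemma PS_U (N n L : ℕ) (h1 : N.sqrt ≤ n) (h2 : n + L ≤ N) (α : ℝ) :
    (Real.log N : ℂ) * PS n L α = ∑ m ∈ Ioc (n : ℤ) (n + L), (Uz N m : ℂ) * ee (α * m) := by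
  rw [sum_win_nat n L (fun m => (Uz N m : ℂ) * ee (α * m))]
  unfold PS
  rw [sum_filter, mul_sum]
  apply sum_congr rfl
  intro m hm
  rw [mem_Ioc] at hm
  rw [Uz_prime N m (by omega) (by omega)]
  split_ifs <;> simp

lemma PA_U (N n L q a : ℕ) (h1 : N.sqrt ≤ n) (h2 : n + L ≤ N) :
    Real.log N * PA n L q a = ∑ m ∈ Ioc (n : ℤ) (n + L), (if (q : ℤ) ∣ m - a then Uz N m else 0) := by
  rw [sum_win_nat n L (fun m => if (q : ℤ) ∣ m - a then Uz N m else 0)]
  unfold PA
  rw [← sum_ite_card]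
  apply sum_congr rfl
  intro m hm
  rw [mem_Ioc] at hm
  rw [Uz_prime N m (by omega) (by omega)]
  have h3 : ((q : ℤ) ∣ (m : ℤ) - a) ↔ m ≡ a [MOD q] := by
    rw [← Int.modEq_iff_dvd, Int.natCast_modEq_iff]
    exact ⟨fun h => h.symm, fun h => h.symm⟩
  by_cases h4 : m ≡ a [MOD q]
  · rw [if_pos (h3.2 h4)]
    by_cases h5 : m.Prime
    · rw [if_pos h5, if_pos ⟨h5, h4⟩, mul_one]
    · rw [if_neg h5, if_neg (fun h => h5 h.1), mul_zero]
  · rw [if_neg (fun h => h4 (h3.1 h)), if_neg (fun h => h4 h.2), mul_zero]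

lemma trans1 (N L : ℕ) (F : ℤ → ℝ) (G : ℕ → ℝ) (e B : ℝ) (he : 0 ≤ e) (hB0 : 0 ≤ B) (hF0 : ∀ x, 0 ≤ F x)
    (hB : ∀ n, G n ≤ B) (hL : 0 < L) (h : ∀ n : ℕ, N.sqrt < n → n + L ≤ N → G n ≤ F n + e) :
    ∑ n ∈ Icc 1 N, G n ≤ ∑ x ∈ Ico (-(L : ℤ)) N, F x + N * e + B * (N.sqrt + L) := by
  classical
  rw [← sum_filter_add_sum_filter_not (Icc 1 N) (fun n => N.sqrt < n ∧ n + L ≤ N)]
  apply add_le_add
  · calc ∑ n ∈ (Icc 1 N).filter (fun n => N.sqrt < n ∧ n + L ≤ N), G n ≤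
        ∑ n ∈ (Icc 1 N).filter (fun n => N.sqrt < n ∧ n + L ≤ N), (F (n : ℤ) + e) := by
          apply sum_le_sum
          intro n hn
          rw [mem_filter] at hn
          exact h n hn.2.1 hn.2.2
      _ = ∑ n ∈ (Icc 1 N).filter (fun n => N.sqrt < n ∧ n + L ≤ N), F (n : ℤ) +
          ((Icc 1 N).filter (fun n => N.sqrt < n ∧ n + L ≤ N)).card * e := by
          rw [sum_add_distrib, sum_const, nsmul_eq_mul]
      _ ≤ ∑ x ∈ Ico (-(L : ℤ)) N, F x + N * e := by
          apply add_le_add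
          · rw [← sum_image (f := F) (g := fun n : ℕ => (n : ℤ)) (s := (Icc 1 N).filter (fun n => N.sqrt < n ∧ n + L ≤ N))
              (fun a _ b _ hab => by simp only at hab; exact_mod_cast hab)]
            apply sum_le_sum_of_subset_of_nonneg
            · intro x hx
              rw [mem_image] at hx
              obtain ⟨n, hn, rfl⟩ := hx
              rw [mem_filter, mem_Icc] at hn
              rw [mem_Ico]
              omega
            · intro x _ _
              exact hF0 x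
          · apply mul_le_mul_of_nonneg_right _ he
            have := card_filter_le (Icc 1 N) (fun n => N.sqrt < n ∧ n + L ≤ N)
            rw [Nat.card_Icc, Nat.add_sub_cancel] at this
            exact_mod_cast this
  · calc ∑ n ∈ (Icc 1 N).filter (fun n => ¬ (N.sqrt < n ∧ n + L ≤ N)), G n ≤
        ∑ _n ∈ (Icc 1 N).filter (fun n => ¬ (N.sqrt < n ∧ n + L ≤ N)), B := sum_le_sum fun n _ => hB n
      _ = ((Icc 1 N).filter (fun n => ¬ (N.sqrt < n ∧ n + L ≤ N))).card * B := by rw [sum_const, nsmul_eq_mul]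
      _ ≤ (N.sqrt + L) * B := by
          apply mul_le_mul_of_nonneg_right _ hB0
          have h1 : (Icc 1 N).filter (fun n => ¬ (N.sqrt < n ∧ n + L ≤ N)) ⊆ Icc 1 N.sqrt ∪ Ioc (N - L) N := by
            intro n hn
            rw [mem_filter, mem_Icc] at hn
            rw [mem_union, mem_Icc, mem_Ioc]
            omega
          have h2 := (card_le_card h1).trans (card_union_le _ _)
          rw [Nat.card_Icc, Nat.card_Ioc] at h2
          exact_mod_cast (by omega : ((Icc 1 N).filter (fun n => ¬ (N.sqrt < n ∧ n + L ≤ N))).card ≤ N.sqrt + L)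
      _ = _ := mul_comm _ _

lemma trans2 (N L : ℕ) (F : ℤ → ℝ) (G : ℕ → ℝ) (e B : ℝ) (he : 0 ≤ e) (hB0 : 0 ≤ B) (hG0 : ∀ x, 0 ≤ G x)
    (hB : ∀ n, F n ≤ B) (h : ∀ n : ℕ, N.sqrt < n → n + L ≤ N → F n ≤ G n + e) :
    ∑ x ∈ Ico (-(L : ℤ)) N, F x ≤ ∑ n ∈ Icc 1 N, G n + N * e + B * (N.sqrt + 2 * L + 1) := by
  classical
  set P : ℤ → Prop := fun x => 0 ≤ x ∧ N.sqrt < x.toNat ∧ x.toNat + L ≤ N with hP
  rw [← sum_filter_add_sum_filter_not (Ico (-(L : ℤ)) N) P]
  apply add_le_add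
  · have hinj : Set.InjOn Int.toNat ((Ico (-(L : ℤ)) N).filter P : Finset ℤ) := by
      intro a ha b hb hab
      rw [mem_coe, mem_filter] at ha hb
      have := ha.2.1
      have := hb.2.1
      omega
    calc ∑ x ∈ (Ico (-(L : ℤ)) N).filter P, F x ≤ ∑ x ∈ (Ico (-(L : ℤ)) N).filter P, (G x.toNat + e) := by
          apply sum_le_sum
          intro x hx
          rw [mem_filter] at hx
          have h1 := h x.toNat hx.2.2.1 hx.2.2.2
          have h2 : ((x.toNat : ℕ) : ℤ) = x := Int.toNat_of_nonneg hx.2.1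
          rwa [h2] at h1
      _ = ∑ x ∈ (Ico (-(L : ℤ)) N).filter P, G x.toNat + ((Ico (-(L : ℤ)) N).filter P).card * e := by
          rw [sum_add_distrib, sum_const, nsmul_eq_mul]
      _ ≤ ∑ n ∈ Icc 1 N, G n + N * e := by
          have himg : ((Ico (-(L : ℤ)) N).filter P).image Int.toNat ⊆ Icc 1 N := by
            intro n hn
            rw [mem_image] at hn
            obtain ⟨x, hx, rfl⟩ := hn
            rw [mem_filter, mem_Ico] at hx
            rw [mem_Icc]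
            obtain ⟨h1, h2, h3, h4⟩ := hx
            omega
          apply add_le_add
          · rw [← sum_image (f := G) (g := Int.toNat) hinj]
            exact sum_le_sum_of_subset_of_nonneg himg (fun x _ _ => hG0 x)
          · apply mul_le_mul_of_nonneg_right _ he
            have h1 := card_le_card himg
            rw [card_image_of_injOn hinj, Nat.card_Icc, Nat.add_sub_cancel] at h1
            exact_mod_cast h1
  · calc ∑ x ∈ (Ico (-(L : ℤ)) N).filter (fun x => ¬ P x), F x ≤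
        ∑ _n ∈ (Ico (-(L : ℤ)) N).filter (fun x => ¬ P x), B := sum_le_sum fun n _ => hB n
      _ = ((Ico (-(L : ℤ)) N).filter (fun x => ¬ P x)).card * B := by rw [sum_const, nsmul_eq_mul]
      _ ≤ (N.sqrt + 2 * L + 1) * B := by
          apply mul_le_mul_of_nonneg_right _ hB0
          have h1 : (Ico (-(L : ℤ)) N).filter (fun x => ¬ P x) ⊆ Ico (-(L : ℤ)) (N.sqrt + 1) ∪ Ioc ((N : ℤ) - L) N := by
            intro x hx
            rw [mem_filter, mem_Ico, hP] at hx
            rw [mem_union, mem_Ico, mem_Ioc]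
            omega
          have h2 := (card_le_card h1).trans (card_union_le _ _)
          rw [Int.card_Ico, Int.card_Ioc] at h2
          exact_mod_cast (by omega : ((Ico (-(L : ℤ)) N).filter (fun x => ¬ P x)).card ≤ N.sqrt + 2 * L + 1)
      _ = _ := mul_comm _ _

/-- on good windows the error is `U - v` -/
lemma Se_good (N L y n : ℕ) (h1 : N.sqrt ≤ n) (h2 : n + L ≤ N) (α : ℝ) :
    Se N L y α n = (Real.log N : ℂ) * PS n L α - ∑ m ∈ Ioc (n : ℤ) (n + L), (vI y m : ℂ) * ee (α * m) := by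
  rw [PS_U N n L h1 h2]
  unfold Se
  rw [← sum_sub_distrib]
  apply sum_congr rfl
  intro m hm
  rw [mem_Ioc] at hm
  unfold Ez
  rw [Vz_vI N y m (by omega) (by omega)]
  push_cast
  ring

lemma PS_triv (n L : ℕ) (α : ℝ) : ‖PS n L α‖ ≤ L := by
  unfold PS
  refine (norm_sum_le _ _).trans ?_
  calc ∑ p ∈ (Ioc n (n + L)).filter Nat.Prime, ‖ee (α * p)‖ = (((Ioc n (n + L)).filter Nat.Prime).card : ℝ) := by
        simp [norm_ee]
    _ ≤ L := by
        have := card_filter_le (Ioc n (n + L)) Nat.Prime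
        rw [Nat.card_Ioc] at this
        exact_mod_cast (by omega : ((Ioc n (n + L)).filter Nat.Prime).card ≤ L)

lemma PA_triv (n L q a : ℕ) : (PA n L q a : ℝ) ≤ L := by
  unfold PA
  have := card_filter_le (Ioc n (n + L)) (fun p => p.Prime ∧ p ≡ a [MOD q])
  rw [Nat.card_Ioc] at this
  exact_mod_cast (by omega : ((Ioc n (n + L)).filter (fun p => p.Prime ∧ p ≡ a [MOD q])).card ≤ L)

/-- minor arcs, first direction -/
theorem min_fwd (N H y : ℕ) (hH : 0 < H) (K : ℝ) (hK : 0 < K) (α : ℝ) (hα : ∀ a : ℤ, K / H < |α - a / (WW y : ℝ)|) :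
    ∑ n ∈ Icc 1 N, Real.log N * ‖PS n H α‖ ≤ ∑ x ∈ Ico (-(H : ℤ)) N, ‖Se N H y α x‖ + N * (rho y * H / (2 * K)) +
      Real.log N * H * (N.sqrt + H) := by
  have hl := Real.log_natCast_nonneg N
  have hρ := rho_nonneg y
  have hH0 : (0 : ℝ) < H := by exact_mod_cast hH
  apply trans1 N H (fun x => ‖Se N H y α x‖) (fun n => Real.log N * ‖PS n H α‖) _ _ (by positivity) (by positivity)
    (fun x => norm_nonneg _) (fun n => mul_le_mul_of_nonneg_left (PS_triv n H α) hl) hH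
  intro n h1 h2
  have h3 := Se_good N H y n h1.le h2 α
  have h4 := vI_minor y H K hH0 hK α hα n H
  have h5 : (Real.log N : ℂ) * PS n H α = Se N H y α n + ∑ m ∈ Ioc (n : ℤ) (n + H), (vI y m : ℂ) * ee (α * m) := by
    rw [h3]; ring
  calc Real.log N * ‖PS n H α‖ = ‖(Real.log N : ℂ) * PS n H α‖ := by
        rw [norm_mul, Complex.norm_real, Real.norm_eq_abs, abs_of_nonneg hl]
    _ ≤ ‖Se N H y α n‖ + ‖∑ m ∈ Ioc (n : ℤ) (n + H), (vI y m : ℂ) * ee (α * m)‖ := by
        rw [h5]; exact norm_add_le _ _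
    _ ≤ _ := add_le_add le_rfl h4

/-- minor arcs, second direction -/
theorem min_bwd (N H y : ℕ) (hH : 0 < H) (K : ℝ) (hK : 0 < K) (α : ℝ) (hα : ∀ a : ℤ, K / H < |α - a / (WW y : ℝ)|)
    (B : ℝ) (hB0 : 0 ≤ B) (hB : ∀ x, ‖Se N H y α x‖ ≤ B) :
    ∑ x ∈ Ico (-(H : ℤ)) N, ‖Se N H y α x‖ ≤ ∑ n ∈ Icc 1 N, Real.log N * ‖PS n H α‖ + N * (rho y * H / (2 * K)) +
      B * (N.sqrt + 2 * H + 1) := by
  have hl := Real.log_natCast_nonneg N
  have hρ := rho_nonneg y
  have hH0 : (0 : ℝ) < H := by exact_mod_cast hH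
  apply trans2 N H (fun x => ‖Se N H y α x‖) (fun n => Real.log N * ‖PS n H α‖) _ _ (by positivity) hB0
    (fun x => by positivity) hB
  intro n h1 h2
  have h3 := Se_good N H y n h1.le h2 α
  have h4 := vI_minor y H K hH0 hK α hα n H
  rw [h3]
  refine (norm_sub_le _ _).trans (add_le_add (le_of_eq ?_) h4)
  rw [norm_mul, Complex.norm_real, Real.norm_eq_abs, abs_of_nonneg hl]

/-- detecting a residue class -/
lemma class_sum (q : ℕ) (hq : 0 < q) (a : ℕ) (f : ℤ → ℝ) (S : Finset ℤ) :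
    |∑ m ∈ S, (if (q : ℤ) ∣ m - a then f m else 0)| ≤
      (∑ c ∈ range q, ‖∑ m ∈ S, (f m : ℂ) * ee ((c : ℝ) / q * m)‖) / q := by
  have hq0 : (q : ℂ) ≠ 0 := by exact_mod_cast hq.ne'
  have hq0' : (0 : ℝ) < q := by exact_mod_cast hq
  have h1 : ((∑ m ∈ S, (if (q : ℤ) ∣ m - a then f m else 0) : ℝ) : ℂ) =
      (∑ c ∈ range q, ee (-((c : ℝ) / q * a)) * ∑ m ∈ S, (f m : ℂ) * ee ((c : ℝ) / q * m)) / q := by
    rw [eq_div_iff hq0]
    push_cast
    rw [sum_mul]
    simp only [mul_sum]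
    rw [sum_comm]
    apply sum_congr rfl
    intro m _
    have h2 := orth q hq (m - a)
    have h3 : ∑ c ∈ range q, ee (-((c : ℝ) / q * a)) * ((f m : ℂ) * ee ((c : ℝ) / q * m)) =
        (f m : ℂ) * ∑ c ∈ range q, ee ((c : ℝ) * ((m - a : ℤ) : ℝ) / q) := by
      rw [mul_sum]
      apply sum_congr rfl
      intro c _
      have : ee ((c : ℝ) * ((m - a : ℤ) : ℝ) / q) = ee (-((c : ℝ) / q * a)) * ee ((c : ℝ) / q * m) := by
        rw [← ee_add]
        congr 1
        push_cast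
        ring
      rw [this]
      ring
    rw [h3, h2]
    split_ifs
    · rfl
    · simp
  rw [← Real.norm_eq_abs, ← Complex.norm_real, h1, norm_div, Complex.norm_natCast]
  apply div_le_div_of_nonneg_right _ hq0'.le
  refine (norm_sum_le _ _).trans (sum_le_sum fun c _ => ?_)
  rw [norm_mul, norm_ee, one_mul]

/-- major arcs, first direction -/
theorem maj_fwd (N L y : ℕ) (hN : 0 < N) (hL : 0 < L) (q : ℕ) (hq : 0 < q) (hqy : q ≤ y) (a : ℕ) (ha : a.Coprime q)
    (T : ℝ) (hT : ∀ α, Rs N L y α ≤ T) :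
    ∑ n ∈ Icc 1 N, |Real.log N * PA n L q a - (L : ℝ) / Nat.totient q| ≤
      N * L * T + N * (2 * (q * WW y : ℕ) * rho y) + (Real.log N * L + L) * (N.sqrt + L) := by
  have hN0 : (0 : ℝ) < N := by exact_mod_cast hN
  have hL0 : (0 : ℝ) < L := by exact_mod_cast hL
  have hq0 : (0 : ℝ) < q := by exact_mod_cast hq
  have hl := Real.log_natCast_nonneg N
  have hρ := rho_nonneg y
  have hφ : (1 : ℝ) ≤ Nat.totient q := by exact_mod_cast Nat.totient_pos.2 hq
  set F : ℤ → ℝ := fun x => (∑ c ∈ range q, ‖Se N L y ((c : ℝ) / q) x‖) / q with hF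
  have h1 := trans1 N L F (fun n => |Real.log N * PA n L q a - (L : ℝ) / Nat.totient q|)
    (2 * (q * WW y : ℕ) * rho y) (Real.log N * L + L) (by positivity) (by positivity)
    (fun x => by rw [hF]; positivity) (by
      intro n
      have e1 : (L : ℝ) / Nat.totient q ≤ L := div_le_self hL0.le hφ
      have e2 : 0 ≤ (L : ℝ) / Nat.totient q := by positivity
      have e3 : Real.log N * PA n L q a ≤ Real.log N * L := mul_le_mul_of_nonneg_left (PA_triv n L q a) hl
      have e4 : 0 ≤ Real.log N * PA n L q a := by positivity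
      rw [abs_le]
      constructor <;> nlinarith) hL (by
      intro n h1 h2
      rw [PA_U N n L q a h1.le h2]
      have e1 : ∑ m ∈ Ioc (n : ℤ) (n + L), (if (q : ℤ) ∣ m - a then Uz N m else 0) - (L : ℝ) / Nat.totient q =
          ∑ m ∈ Ioc (n : ℤ) (n + L), (if (q : ℤ) ∣ m - a then Ez N y m else 0) +
          (∑ m ∈ Ioc (n : ℤ) (n + L), (if (q : ℤ) ∣ m - a then vI y m else 0) - (L : ℝ) / Nat.totient q) := by
        rw [← add_sub_assoc, ← sum_add_distrib]
        congr 1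
        apply sum_congr rfl
        intro m hm
        rw [mem_Ioc] at hm
        unfold Ez
        rw [Vz_vI N y m (by omega) (by omega)]
        split_ifs
        · ring
        · ring
      rw [e1]
      refine (abs_add_le _ _).trans (add_le_add ?_ (vI_class y q hq hqy a ha n L))
      exact class_sum q hq a (Ez N y) (Ioc (n : ℤ) (n + L)))
  refine h1.trans ?_
  have h2 : ∑ x ∈ Ico (-(L : ℤ)) N, F x ≤ N * L * T := by
    rw [hF]
    rw [← sum_div, sum_comm, div_le_iff₀ hq0]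
    calc ∑ c ∈ range q, ∑ x ∈ Ico (-(L : ℤ)) N, ‖Se N L y ((c : ℝ) / q) x‖ ≤ ∑ _c ∈ range q, (N * L * T) := by
          apply sum_le_sum
          intro c _
          have h3 := hT ((c : ℝ) / q)
          unfold Rs at h3
          rw [div_le_iff₀ (by positivity)] at h3
          linarith
      _ = _ := by rw [sum_const, card_range, nsmul_eq_mul]; ring
  linarith

end Pool.Agent.NH16
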